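import Pool.Agent.Lib.MP_adc574_ag_Cov.CoreB

/-!
# The discriminant of a stable order (core in characteristic `p`)
-/

set_option autoImplicit false

namespace MPadcCov

open Polynomial

section general

theorem deriv_prod {A R : Type*} [CommRing A] [CommRing R] [Algebra A R] (D : Derivation A R R)
    {ι : Type*} [DecidableEq ι] (s : Finset ι) (f : ι → R) :
    D (∏ i ∈ s, f i) = ∑ i ∈ s, (∏ j ∈ s.erase i, f j) * D (f i) := by
  induction s using Finset.induction_on with
  | empty => simp
  | insert a s ha ih =>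
    rw [Finset.prod_insert ha, Derivation.leibniz, ih, Finset.sum_insert ha,
      Finset.erase_insert ha, smul_eq_mul, smul_eq_mul, Finset.mul_sum, add_comm]
    congr 1
    apply Finset.sum_congr rfl
    intro i hi
    have hne : i ≠ a := fun h => ha (h ▸ hi)
    rw [Finset.erase_insert_of_ne (Ne.symm hne), Finset.prod_insert (fun h =>
      ha (Finset.mem_of_mem_erase h))]
    ring

theorem deriv_det {A R : Type*} [CommRing A] [CommRing R] [Algebra A R] (D : Derivation A R R)
    {n : ℕ} (M : Matrix (Fin n) (Fin n) R) : D M.det = (M.adjugate * M.map D).trace := by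
  have h1 : D M.det = ∑ i, (M.updateCol i (fun k => D (M k i))).det := by
    rw [Matrix.det_apply, map_sum]
    simp_rw [Matrix.det_apply]
    rw [Finset.sum_comm]
    apply Finset.sum_congr rfl
    intro σ _
    rw [← Finset.smul_sum]
    have h2 : D (Equiv.Perm.sign σ • ∏ i, M (σ i) i) =
        Equiv.Perm.sign σ • D (∏ i, M (σ i) i) := by
      rcases Int.units_eq_one_or (Equiv.Perm.sign σ) with h | h
      · rw [h, one_smul, one_smul]
      · rw [h, Units.neg_smul, Units.neg_smul, one_smul, one_smul, map_neg]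
    rw [h2, deriv_prod]
    congr 1
    apply Finset.sum_congr rfl
    intro i _
    rw [← Finset.mul_prod_erase Finset.univ _ (Finset.mem_univ i), Matrix.updateCol_self, mul_comm]
    congr 1
    apply Finset.prod_congr rfl
    intro j hj
    rw [Matrix.updateCol_ne (Finset.ne_of_mem_erase hj)]
  rw [h1, Matrix.trace]
  apply Finset.sum_congr rfl
  intro i _
  rw [← Matrix.cramer_apply, Matrix.cramer_eq_adjugate_mulVec]
  rfl

theorem log_deriv_det {κ : Type*} [Field κ] {n : ℕ} (G L : Matrix (Fin n) (Fin n) κ[X])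
    (h₀ : κ[X]) (hG : ∀ i j, h₀ * derivative (G i j) = (L * G + G * L.transpose) i j) :
    h₀ * derivative G.det = (L.trace + L.trace) * G.det := by
  have h1 : derivative G.det = (G.adjugate * G.map (derivative' (R := κ))).trace := by
    rw [← deriv_det, derivative'_apply]
  have h2 : h₀ • G.map (derivative' (R := κ)) = L * G + G * L.transpose := by
    ext1 i j
    rw [← hG i j, Matrix.smul_apply, Matrix.map_apply, derivative'_apply, smul_eq_mul]
  rw [h1, ← smul_eq_mul, ← Matrix.trace_smul, ← Matrix.mul_smul, h2, Matrix.mul_add,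
    Matrix.trace_add, ← Matrix.mul_assoc, Matrix.trace_mul_cycle, Matrix.mul_adjugate,
    ← Matrix.mul_assoc, Matrix.adjugate_mul, Matrix.smul_mul, Matrix.smul_mul, Matrix.one_mul,
    Matrix.one_mul, Matrix.trace_smul, Matrix.trace_smul, Matrix.trace_transpose, smul_eq_mul]
  ring

theorem pow_dvd_of_log {κ : Type*} [Field κ] (p : ℕ) [Fact p.Prime] [CharP κ p] (t : κ)
    (h₀ g w : κ[X]) (ht : h₀.eval t ≠ 0) (hg : g ≠ 0) (h : h₀ * derivative g = w * g)
    (hd : (X - C t) ∣ g) : (X - C t) ^ p ∣ g := by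
  obtain ⟨u, hu, hnd⟩ := exists_eq_pow_rootMultiplicity_mul_and_not_dvd g hg t
  have hv : 0 < g.rootMultiplicity t := by
    rw [rootMultiplicity_pos hg, IsRoot.def, ← IsRoot.def, ← dvd_iff_isRoot]
    exact hd
  set v := g.rootMultiplicity t
  obtain ⟨v', hv'⟩ : ∃ v', v = v' + 1 := ⟨v - 1, by omega⟩
  have h1 : (X - C t) ^ v' * (h₀ * ((v : κ[X]) * u + (X - C t) * derivative u)) =
      (X - C t) ^ v' * (w * ((X - C t) * u)) := by
    have h2 := h
    rw [hu, derivative_mul, hv', derivative_X_sub_C_pow] at h2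
    rw [hv']
    simp only [Nat.add_sub_cancel, map_natCast] at h2
    linear_combination h2
  have h3 := mul_left_cancel₀ (pow_ne_zero _ (X_sub_C_ne_zero t)) h1
  have h4 := congrArg (eval t) h3
  simp only [eval_mul, eval_add, eval_sub, eval_X, eval_C, sub_self, zero_mul, add_zero, mul_zero,
    eval_natCast] at h4
  have h5 : u.eval t ≠ 0 := by
    intro h6
    exact hnd (dvd_iff_isRoot.2 h6)
  have h6 : (v : κ) = 0 := by
    rcases mul_eq_zero.1 h4 with h7 | h7
    · exact absurd h7 ht
    · exact (mul_eq_zero.1 h7).resolve_right h5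
  rw [CharP.cast_eq_zero_iff κ p] at h6
  have h7 : p ≤ v := Nat.le_of_dvd hv h6
  rw [hu]
  exact (pow_dvd_pow _ h7).mul_right _

end general

section vec

variable {κ : Type*} [Field κ] {E : Type*} [CommRing E] [Algebra (RatFunc κ) E] {n : ℕ}
  (e : Module.Basis (Fin n) (RatFunc κ) E)

/-- The element of the lattice `B` with given coordinates. -/
noncomputable def vecE (v : Fin n → κ[X]) : E := ∑ i, inE E (pol (v i)) * e i

theorem repr_vecE (v : Fin n → κ[X]) (i : Fin n) : e.repr (vecE e v) i = pol (v i) := by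
  rw [vecE, map_sum, Finsupp.finsetSum_apply, Finset.sum_eq_single i]
  · rw [repr_inE_mul, e.repr_self, Finsupp.single_eq_same, mul_one]
  · intro j _ hij
    rw [repr_inE_mul, e.repr_self, Finsupp.single_eq_of_ne (Ne.symm hij), mul_zero]
  · intro h
    exact absurd (Finset.mem_univ i) h

theorem vecE_add (v w : Fin n → κ[X]) : vecE e (v + w) = vecE e v + vecE e w := by
  rw [vecE, vecE, vecE, ← Finset.sum_add_distrib]
  apply Finset.sum_congr rfl
  intro i _
  rw [Pi.add_apply]
  simp only [inE, pol, map_add, add_mul]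

theorem vecE_smul (q : κ[X]) (v : Fin n → κ[X]) : vecE e (q • v) = inE E (pol q) * vecE e v := by
  rw [vecE, vecE, Finset.mul_sum]
  apply Finset.sum_congr rfl
  intro i _
  rw [Pi.smul_apply, smul_eq_mul]
  simp only [inE, pol, map_mul, mul_assoc]

theorem vecE_zero : vecE e (0 : Fin n → κ[X]) = 0 := by
  rw [vecE]
  apply Finset.sum_eq_zero
  intro i _
  simp [inE, pol]

theorem vecE_sum {ι : Type*} (s : Finset ι) (c : ι → κ[X]) (v : ι → Fin n → κ[X]) :
    vecE e (∑ i ∈ s, c i • v i) = ∑ i ∈ s, inE E (pol (c i)) * vecE e (v i) := by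
  classical
  induction s using Finset.induction_on with
  | empty => rw [Finset.sum_empty, Finset.sum_empty, vecE_zero]
  | insert a s ha ih => rw [Finset.sum_insert ha, Finset.sum_insert ha, vecE_add, vecE_smul, ih]

variable {e}

theorem exists_vecE {z : E} (hz : InB e z) : ∃ v, vecE e v = z := by
  choose v hv using hz
  refine ⟨v, ?_⟩
  apply e.repr.injective
  ext i
  rw [repr_vecE, hv]

theorem gram_change (b c : Fin n → E) (Q : Matrix (Fin n) (Fin n) (RatFunc κ))
    (h : ∀ i, c i = ∑ k, inE E (Q i k) * b k) :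
    (Matrix.of fun i j => Tr κ E (c i * c j)).det =
      Q.det ^ 2 * (Matrix.of fun i j => Tr κ E (b i * b j)).det := by
  have h1 : (Matrix.of fun i j => Tr κ E (c i * c j)) =
      Q * (Matrix.of fun i j => Tr κ E (b i * b j)) * Q.transpose := by
    ext1 i j
    rw [Matrix.of_apply, h i, h j, Finset.sum_mul_sum, Finset.sum_comm, Matrix.mul_apply, map_sum]
    apply Finset.sum_congr rfl
    intro l _
    rw [Matrix.mul_apply, map_sum, Finset.sum_mul]
    apply Finset.sum_congr rfl
    intro k _
    have h2 : inE E (Q i k) * b k * (inE E (Q j l) * b l) =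
        inE E (Q i k) * (inE E (Q j l) * (b k * b l)) := by ring
    rw [h2, tr_inE_mul, tr_inE_mul, Matrix.of_apply, Matrix.transpose_apply]
    ring
  rw [h1, Matrix.det_mul, Matrix.det_mul, Matrix.det_transpose]
  ring

end vec

section main

variable {κ : Type*} [Field κ] {E : Type*} [CommRing E] [Algebra (RatFunc κ) E] {n : ℕ}
  {e : Module.Basis (Fin n) (RatFunc κ) E} {a : Fin n → ℕ} {ρ : κ[X]}
  {dK : Derivation ℤ (RatFunc κ) (RatFunc κ)} {d : Derivation ℤ E E}

/-- The order generated by all `(h₀ d)^j z`. -/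
def ord (h₀ : κ[X]) (d : Derivation ℤ E E) (z : E) : Subring E :=
  Subring.closure ({y | ∃ q : κ[X], y = inE E (pol q)} ∪
    {y | ∃ j, y = (fun y => algebraMap (RatFunc κ) E (pol h₀) * d y)^[j] z})

theorem ord_pol (h₀ : κ[X]) (d : Derivation ℤ E E) (z : E) (q : κ[X]) :
    inE E (pol q) ∈ ord h₀ d z :=
  Subring.subset_closure (Or.inl ⟨q, rfl⟩)

theorem ord_iter (h₀ : κ[X]) (d : Derivation ℤ E E) (z : E) (j : ℕ) :
    (fun y => algebraMap (RatFunc κ) E (pol h₀) * d y)^[j] z ∈ ord h₀ d z :=
  Subring.subset_closure (Or.inr ⟨j, rfl⟩)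

theorem ord_self (h₀ : κ[X]) (d : Derivation ℤ E E) (z : E) : z ∈ ord h₀ d z :=
  ord_iter h₀ d z 0

theorem Cov0.ord_inB (H : Cov0 e a ρ dK d) (h₀ : κ[X]) (z : E)
    (hz : ∀ j, InB e ((fun y => algebraMap (RatFunc κ) E (pol h₀) * d y)^[j] z)) {y : E}
    (hy : y ∈ ord h₀ d z) : InB e y := by
  induction hy using Subring.closure_induction with
  | mem x hx =>
    rcases hx with ⟨q, rfl⟩ | ⟨j, rfl⟩
    · have h := H.oneB.pol_mul q
      rwa [mul_one] at h
    · exact hz j
  | zero => exact InB.zero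
  | one => exact H.oneB
  | add x y _ _ hx hy => exact hx.add hy
  | neg x _ hx => exact hx.neg
  | mul x y _ _ hx hy => exact H.mulB hx hy

theorem Cov0.ord_der (H : Cov0 e a ρ dK d) (h₀ : κ[X]) (z : E) {y : E}
    (hy : y ∈ ord h₀ d z) : inE E (pol h₀) * d y ∈ ord h₀ d z := by
  induction hy using Subring.closure_induction with
  | mem x hx =>
    rcases hx with ⟨q, rfl⟩ | ⟨j, rfl⟩
    · rw [inE, inE, H.d_alg, H.dK_pol]
      exact mul_mem (ord_pol h₀ d z h₀) (ord_pol h₀ d z (derivative q))
    · have h := ord_iter h₀ d z (j + 1)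
      rw [Function.iterate_succ_apply'] at h
      exact h
  | zero => rw [map_zero, mul_zero]; exact zero_mem _
  | one => rw [Derivation.map_one_eq_zero, mul_zero]; exact zero_mem _
  | add x y _ _ hx hy => rw [map_add, mul_add]; exact add_mem hx hy
  | neg x _ hx => rw [map_neg, mul_neg]; exact neg_mem hx
  | mul x y hx' hy' hx hy =>
    have h : inE E (pol h₀) * d (x * y) =
        x * (inE E (pol h₀) * d y) + y * (inE E (pol h₀) * d x) := by
      rw [Derivation.leibniz, smul_eq_mul, smul_eq_mul]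
      ring
    rw [h]
    exact add_mem (mul_mem hx' hy) (mul_mem hy' hx)

variable (e) in
/-- The coordinates of the order. -/
def ordN (h₀ : κ[X]) (d : Derivation ℤ E E) (z : E) : Submodule κ[X] (Fin n → κ[X]) where
  carrier := {v | vecE e v ∈ ord h₀ d z}
  add_mem' := by
    intro v w hv hw
    change vecE e (v + w) ∈ ord h₀ d z
    rw [vecE_add]
    exact add_mem hv hw
  zero_mem' := by
    change vecE e 0 ∈ ord h₀ d z
    rw [vecE_zero]
    exact zero_mem _
  smul_mem' := by
    intro q v hv
    change vecE e (q • v) ∈ ord h₀ d z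
    rw [vecE_smul]
    exact mul_mem (ord_pol h₀ d z q) hv

/-- A basis of the order, if `z` has nonzero discriminant. -/
theorem Cov0.exists_basis (H : Cov0 e a ρ dK d) (h₀ : κ[X]) (z : E)
    (hz : ∀ j, InB e ((fun y => algebraMap (RatFunc κ) E (pol h₀) * d y)^[j] z))
    (hdet : (Matrix.of fun i j : Fin n => Tr κ E (z ^ (i.1 + j.1))).det ≠ 0) :
    ∃ c : Fin n → E, (∀ i, c i ∈ ord h₀ d z) ∧
      ∀ y ∈ ord h₀ d z, ∃ q : Fin n → κ[X], y = ∑ i, inE E (pol (q i)) * c i := by
  classical
  have hpow : ∀ k : Fin n, ∃ v : Fin n → κ[X], vecE e v = z ^ k.1 := fun k =>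
    exists_vecE (H.ord_inB h₀ z hz (pow_mem (ord_self h₀ d z) _))
  choose w hw using hpow
  have hwN : ∀ k, w k ∈ ordN e h₀ d z := fun k => by
    change vecE e (w k) ∈ ord h₀ d z
    rw [hw]
    exact pow_mem (ord_self h₀ d z) _
  have hli : LinearIndependent κ[X] (fun k => (⟨w k, hwN k⟩ : ordN e h₀ d z)) := by
    rw [Fintype.linearIndependent_iff]
    intro g hg
    have h1 : ∑ k, g k • w k = 0 := by
      have h2 := congrArg (Submodule.subtype _) hg
      rw [map_sum, map_zero] at h2
      exact h2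
    have h3 : ∑ k : Fin n, inE E (pol (g k)) * z ^ k.1 = 0 := by
      have h4 := congrArg (vecE e) h1
      rw [vecE_sum, vecE_zero] at h4
      rw [← h4]
      exact Finset.sum_congr rfl fun k _ => by rw [hw]
    have h5 : Matrix.vecMul (fun k => pol (g k))
        (Matrix.of fun i j : Fin n => Tr κ E (z ^ (i.1 + j.1))) = 0 := by
      funext j
      have h6 := congrArg (fun y => Tr κ E (y * z ^ j.1)) h3
      simp only [zero_mul, map_zero] at h6
      rw [Finset.sum_mul, map_sum] at h6
      rw [Pi.zero_apply, ← h6, Matrix.vecMul, dotProduct]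
      apply Finset.sum_congr rfl
      intro k _
      rw [Matrix.of_apply, mul_assoc, tr_inE_mul, pow_add]
    have h7 := Matrix.eq_zero_of_vecMul_eq_zero hdet h5
    intro k
    have h8 := congrFun h7 k
    exact (map_eq_zero_iff _ pol_injective).1 h8
  obtain ⟨m, b⟩ := Submodule.basisOfPid (Pi.basisFun κ[X] (Fin n)) (ordN e h₀ d z)
  have : Module.Finite κ[X] (ordN e h₀ d z) := Module.Finite.of_basis b
  have h1 : n ≤ m := by
    have h2 := hli.fintype_card_le_finrank
    rwa [Module.finrank_eq_card_basis b, Fintype.card_fin, Fintype.card_fin] at h2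
  have h2 : m ≤ n := by
    have h3 := Submodule.finrank_le (ordN e h₀ d z)
    rwa [Module.finrank_eq_card_basis b, Fintype.card_fin, Module.finrank_fin_fun] at h3
  obtain rfl : m = n := le_antisymm h2 h1
  refine ⟨fun i => vecE e (b i : Fin m → κ[X]), fun i => (b i).2, ?_⟩
  intro y hy
  obtain ⟨v, hv⟩ := exists_vecE (H.ord_inB h₀ z hz hy)
  have hvN : v ∈ ordN e h₀ d z := by
    change vecE e v ∈ ord h₀ d z
    rw [hv]
    exact hy
  refine ⟨fun i => b.repr ⟨v, hvN⟩ i, ?_⟩
  rw [← vecE_sum, ← hv]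
  congr 1
  have h3 := congrArg (Submodule.subtype _) (b.sum_repr ⟨v, hvN⟩)
  rw [map_sum] at h3
  exact h3.symm

/-- If all `(h₀ d)^j z` are in `B` then `(x - t) ^ p` divides the discriminant of `z`. -/
theorem disc_of_stable (p : ℕ) [Fact p.Prime] [CharP κ p] (a : Fin n → ℕ) (t : κ) (h₀ : κ[X])
    (δ : Derivation ℤ κ κ) (dK DK : Derivation ℤ (RatFunc κ) (RatFunc κ)) (d D : Derivation ℤ E E)
    (H : Cov1 e a t h₀ δ dK DK d D) (z : E)
    (hz : ∀ j, InB e ((fun y => algebraMap (RatFunc κ) E (pol h₀) * d y)^[j] z)) :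
    ∃ q : κ[X], (Matrix.of fun i j : Fin n => Tr κ E (z ^ (i.1 + j.1))).det =
      pol ((X - C t) ^ p * q) := by
  classical
  rcases eq_or_ne (Matrix.of fun i j : Fin n => Tr κ E (z ^ (i.1 + j.1))).det 0 with hdet | hdet
  · exact ⟨0, by rw [hdet, mul_zero, pol, map_zero]⟩
  obtain ⟨c, hc, hspan⟩ := H.toCov0.exists_basis h₀ z hz hdet
  have hcB : ∀ i, InB e (c i) := fun i => H.toCov0.ord_inB h₀ z hz (hc i)
  have hG : ∀ i j, ∃ g : κ[X], pol g = Tr κ E (c i * c j) := fun i j =>
    H.toCov0.trB (H.toCov0.mulB (hcB i) (hcB j))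
  choose G hG using hG
  have hL : ∀ i, ∃ q : Fin n → κ[X], inE E (pol h₀) * d (c i) = ∑ k, inE E (pol (q k)) * c k :=
    fun i => hspan _ (H.toCov0.ord_der h₀ z (hc i))
  choose L hL using hL
  have hP : ∀ i, ∃ v : Fin n → κ[X], vecE e v = c i := fun i => exists_vecE (hcB i)
  choose P hP using hP
  have hQ : ∀ i : Fin n, ∃ q : Fin n → κ[X], z ^ i.1 = ∑ k, inE E (pol (q k)) * c k :=
    fun i => hspan _ (pow_mem (ord_self h₀ d z) _)
  choose Q hQ using hQ
  obtain ⟨h, hh, -⟩ := H.disc
  have hGdet : pol (Matrix.of G).det = (Matrix.of fun i j => Tr κ E (c i * c j)).det := by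
    rw [pol, RingHom.map_det]
    congr 1
    ext1 i j
    exact hG i j
  -- the discriminant of the order is divisible by `x - t`
  have hd1 : (X - C t) ∣ (Matrix.of G).det := by
    have h1 := gram_change e c (Matrix.of fun i j => pol (P i j)) (fun i => by
      rw [← hP i, vecE]; rfl)
    rw [← hGdet, hh] at h1
    have h2 : (Matrix.of fun i j => pol (P i j)).det = pol (Matrix.of P).det := by
      rw [pol, RingHom.map_det]
      congr 1
    rw [h2] at h1
    simp only [pol] at h1
    rw [← map_pow, ← map_mul] at h1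
    rw [pol_injective h1]
    exact ⟨(Matrix.of P).det ^ 2 * h, by ring⟩
  -- the logarithmic derivative
  have hlog : ∀ i j, h₀ * derivative ((Matrix.of G) i j) =
      ((Matrix.of L) * (Matrix.of G) + (Matrix.of G) * (Matrix.of L).transpose) i j := by
    intro i j
    apply pol_injective
    have h1 : pol (derivative (G i j)) = Tr κ E (d (c i * c j)) := by
      rw [H.tr_d, ← hG i j, H.dK_pol]
    have h2 : inE E (pol h₀) * d (c i * c j) =
        c i * (inE E (pol h₀) * d (c j)) + c j * (inE E (pol h₀) * d (c i)) := by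
      rw [Derivation.leibniz, smul_eq_mul, smul_eq_mul]
      ring
    rw [map_mul, Matrix.of_apply]
    change pol h₀ * pol (derivative (G i j)) = _
    rw [h1, ← tr_inE_mul, h2, hL, hL, Matrix.add_apply, Matrix.mul_apply, Matrix.mul_apply,
      map_add, map_add, map_sum, map_sum, Finset.mul_sum, Finset.mul_sum, map_sum, map_sum,
      add_comm]
    congr 1
    · apply Finset.sum_congr rfl
      intro k _
      have h3 : c j * (inE E (pol (L i k)) * c k) = inE E (pol (L i k)) * (c k * c j) := by ring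
      rw [h3, tr_inE_mul, ← hG k j, map_mul, Matrix.of_apply, Matrix.of_apply]
    · apply Finset.sum_congr rfl
      intro k _
      have h3 : c i * (inE E (pol (L j k)) * c k) = inE E (pol (L j k)) * (c i * c k) := by ring
      rw [h3, tr_inE_mul, ← hG i k, map_mul, Matrix.of_apply, Matrix.transpose_apply,
        Matrix.of_apply, mul_comm]
  -- the discriminant of `z`
  have h1 := gram_change c (fun i : Fin n => z ^ i.1) (Matrix.of fun i j => pol (Q i j))
    (fun i => hQ i)
  have h2 : (Matrix.of fun i j => pol (Q i j)).det = pol (Matrix.of Q).det := by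
    rw [pol, RingHom.map_det]
    congr 1
  have h3 : (Matrix.of fun i j : Fin n => Tr κ E (z ^ (i.1 + j.1))) =
      Matrix.of fun i j : Fin n => Tr κ E (z ^ i.1 * z ^ j.1) := by
    ext1 i j
    rw [Matrix.of_apply, Matrix.of_apply, pow_add]
  rw [h2, ← hGdet, ← h3] at h1
  have hg0 : (Matrix.of G).det ≠ 0 := by
    intro h4
    apply hdet
    rw [h1, h4]
    simp only [pol, map_zero, mul_zero]
  obtain ⟨q, hq⟩ := pow_dvd_of_log p t h₀ (Matrix.of G).det
    ((Matrix.of L).trace + (Matrix.of L).trace) H.ht hg0 (log_deriv_det _ _ h₀ hlog) hd1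
  refine ⟨(Matrix.of Q).det ^ 2 * q, ?_⟩
  rw [h1, hq]
  simp only [pol, map_mul, map_pow]
  ring

end main

end MPadcCov
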