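import Pool.Agent.Lib.MP_adc574_ag_Cov.RegK
import Pool.Agent.Lib.MP_adc574_ag_Cov.CoreDisc

/-!
# The Birkhoff basis (helper24)
-/

set_option autoImplicit false

namespace MPadcCov

open Polynomial

namespace Birk

section O

variable (k : Type*) [Field k]

/-- The valuation ring at infinity. -/
def VO : ValuationSubring (RatFunc k) :=
  { Oinf k with
    mem_or_inv_mem' := by
      intro r
      change Dle r 0 ∨ Dle r⁻¹ 0
      rcases le_total r.intDegree 0 with h | h
      · exact Or.inl (Or.inr h)
      · right; right; rw [RatFunc.intDegree_inv]; omega }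

theorem mem_VO (r : RatFunc k) : r ∈ VO k ↔ Dle r 0 := Iff.rfl

variable {k}

theorem dle_of_isIntegral {r : RatFunc k} (h : IsIntegral (VO k) r) : Dle r 0 := by
  obtain ⟨y, hy⟩ := (IsIntegrallyClosed.isIntegral_iff (R := VO k) (K := RatFunc k)).1 h
  rw [← hy]
  exact y.2

/-- The powers of `x`. -/
noncomputable def xz (m : ℤ) : RatFunc k := RatFunc.X ^ m

theorem xz_add (m l : ℤ) : (xz (m + l) : RatFunc k) = xz m * xz l :=
  zpow_add₀ RatFunc.X_ne_zero m l

theorem xz_zero : (xz 0 : RatFunc k) = 1 := zpow_zero _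

theorem xz_ne (m : ℤ) : (xz m : RatFunc k) ≠ 0 := zpow_ne_zero m RatFunc.X_ne_zero

theorem xz_neg_mul (m : ℤ) : (xz (-m) : RatFunc k) * xz m = 1 := by
  rw [← xz_add, neg_add_cancel, xz_zero]

theorem xz_nat (j : ℕ) : (xz j : RatFunc k) = pol (X ^ j) := by
  rw [xz, zpow_natCast, pol, map_pow, RatFunc.algebraMap_X]

theorem intDegree_xz (m : ℤ) : (xz m : RatFunc k).intDegree = m := by
  have h : ∀ j : ℕ, (xz j : RatFunc k).intDegree = j := by
    intro j
    rw [xz_nat, pol, RatFunc.intDegree_polynomial, natDegree_X_pow]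
  rcases Int.eq_nat_or_neg m with ⟨j, rfl | rfl⟩
  · exact h j
  · have h1 : (xz (-(j : ℤ)) : RatFunc k) = (xz (j : ℤ))⁻¹ := by rw [xz, xz, zpow_neg]
    rw [h1, RatFunc.intDegree_inv, h]

theorem dle_xz_mul {r : RatFunc k} {m l : ℤ} : Dle (xz m * r) (m + l) ↔ Dle r l := by
  unfold Dle
  rcases eq_or_ne r 0 with h | h
  · simp [h]
  · rw [RatFunc.intDegree_mul (xz_ne m) h, intDegree_xz]
    constructor
    · rintro (h1 | h1)
      · exact absurd h1 (mul_ne_zero (xz_ne m) h)
      · right; omega
    · rintro (h1 | h1)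
      · exact absurd h1 h
      · right; omega

/-- The value at infinity. -/
theorem exists_residue {r : RatFunc k} (h : Dle r 0) : ∃ c : k, Dle (r - pol (C c)) (-1) := by
  rcases eq_or_ne r 0 with h0 | h0
  · exact ⟨0, by left; rw [h0, C_0, pol, map_zero, sub_zero]⟩
  have hdeg : (r.num.natDegree : ℤ) ≤ r.denom.natDegree := by
    have h1 := h.resolve_left h0
    rw [RatFunc.intDegree] at h1
    omega
  refine ⟨r.num.coeff r.denom.natDegree, ?_⟩
  set q := r.denom with hq
  have hq0 : q ≠ 0 := r.denom_ne_zero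
  have hmon : q.Monic := RatFunc.monic_denom r
  have h1 : pol q * r = pol r.num := by
    have h2 : pol q ≠ 0 := by
      rw [Ne, pol, map_eq_zero_iff _ pol_injective]; exact hq0
    rw [mul_comm, ← eq_div_iff h2]
    exact (RatFunc.num_div_denom r).symm
  apply dle_of_mul hq0
  have h2 : pol q * (r - pol (C (r.num.coeff q.natDegree))) =
      pol (r.num - C (r.num.coeff q.natDegree) * q) := by
    rw [mul_sub, h1]
    simp only [pol, map_sub, map_mul]
    ring
  rw [h2, dle_pol_iff]
  by_contra hcon
  push Not at hcon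
  obtain ⟨hne, hlt⟩ := hcon
  set w := r.num - C (r.num.coeff q.natDegree) * q with hw
  have h3 : w.natDegree ≤ q.natDegree := by
    refine (natDegree_sub_le _ _).trans (max_le (by exact_mod_cast hdeg) ?_)
    exact (natDegree_C_mul_le _ _)
  have h4 : w.natDegree = q.natDegree := by omega
  have h5 : w.coeff q.natDegree = 0 := by
    rw [hw, coeff_sub, coeff_C_mul, hmon.coeff_natDegree, mul_one, sub_self]
  rw [← h4] at h5
  exact hne (leadingCoeff_eq_zero.1 h5)

end O

section I

variable {k : Type*} [Field k] {L : Type*} [Field L] [Algebra (RatFunc k) L]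

theorem intO_add {z w : L} (hz : IntO k z) (hw : IntO k w) : IntO k (z + w) :=
  RingHom.IsIntegralElem.add _ hz hw

theorem intO_mul {z w : L} (hz : IntO k z) (hw : IntO k w) : IntO k (z * w) :=
  RingHom.IsIntegralElem.mul _ hz hw

theorem intO_neg {z : L} (hz : IntO k z) : IntO k (-z) :=
  RingHom.IsIntegralElem.neg _ hz

theorem intO_zero : IntO k (0 : L) := RingHom.isIntegralElem_zero _

theorem intO_one : IntO k (1 : L) := RingHom.isIntegralElem_one _

theorem intO_scalar {r : RatFunc k} (hr : Dle r 0) : IntO k (inE L r) :=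
  RingHom.isIntegralElem_map ((algebraMap (RatFunc k) L).comp (Oinf k).subtype) (x := ⟨r, hr⟩)

theorem intO_smul {r : RatFunc k} (hr : Dle r 0) {z : L} (hz : IntO k z) :
    IntO k (inE L r * z) := intO_mul (intO_scalar hr) hz

theorem intO_sum {ι : Type*} (s : Finset ι) (f : ι → L) (h : ∀ i ∈ s, IntO k (f i)) :
    IntO k (∑ i ∈ s, f i) :=
  Finset.sum_induction _ _ (fun _ _ => intO_add) intO_zero h

theorem intO_pow {z : L} (hz : IntO k z) (j : ℕ) : IntO k (z ^ j) := by
  induction j with
  | zero => rw [pow_zero]; exact intO_one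
  | succ j ih => rw [pow_succ]; exact intO_mul ih hz

theorem intO_tr [FiniteDimensional (RatFunc k) L] {z : L} (hz : IntO k z) : Dle (Tr k L z) 0 := by
  let alg : Algebra (VO k) L :=
    ((algebraMap (RatFunc k) L).comp (algebraMap (VO k) (RatFunc k))).toAlgebra
  have : IsScalarTower (VO k) (RatFunc k) L := IsScalarTower.of_algebraMap_eq' rfl
  have h1 : IsIntegral (VO k) z := hz
  exact dle_of_isIntegral (Algebra.isIntegral_trace (L := RatFunc k) (F := L) h1)

theorem exists_intO [FiniteDimensional (RatFunc k) L] (z : L) :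
    ∃ m : ℤ, IntO k (inE L (xz (-m) : RatFunc k) * z) := by
  let alg : Algebra (VO k) L :=
    ((algebraMap (RatFunc k) L).comp (algebraMap (VO k) (RatFunc k))).toAlgebra
  have : IsScalarTower (VO k) (RatFunc k) L := IsScalarTower.of_algebraMap_eq' rfl
  obtain ⟨y, hy⟩ := IsIntegral.exists_multiple_integral_of_isLocalization
    (nonZeroDivisors (VO k)) z (Algebra.IsIntegral.isIntegral (R := RatFunc k) z)
  have hy0 : ((y : VO k) : RatFunc k) ≠ 0 := by
    intro h
    have h1 := nonZeroDivisors.ne_zero y.2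
    exact h1 (Subtype.ext h)
  have h2 : IntO k (inE L ((y : VO k) : RatFunc k) * z) := by
    have h3 : y • z = inE L ((y : VO k) : RatFunc k) * z := by
      rw [Submonoid.smul_def, Algebra.smul_def]
      rfl
    rw [← h3]
    exact hy
  refine ⟨-(((y : VO k) : RatFunc k)).intDegree, ?_⟩
  set r : RatFunc k := ((y : VO k) : RatFunc k) with hr
  have h4 : inE L (xz (- -r.intDegree) : RatFunc k) * z =
      inE L (xz r.intDegree * r⁻¹) * (inE L r * z) := by
    rw [neg_neg, ← mul_assoc]
    simp only [inE]
    rw [← map_mul, mul_assoc, inv_mul_cancel₀ hy0, mul_one]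
  rw [h4]
  refine intO_smul ?_ h2
  right
  rw [RatFunc.intDegree_mul (xz_ne _) (inv_ne_zero hy0), intDegree_xz, RatFunc.intDegree_inv]
  omega

theorem intX_add {z w : L} (hz : IntX k z) (hw : IntX k w) : IntX k (z + w) :=
  RingHom.IsIntegralElem.add _ hz hw

theorem intX_mul {z w : L} (hz : IntX k z) (hw : IntX k w) : IntX k (z * w) :=
  RingHom.IsIntegralElem.mul _ hz hw

theorem intX_zero : IntX k (0 : L) := RingHom.isIntegralElem_zero _

theorem intX_one : IntX k (1 : L) := RingHom.isIntegralElem_one _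

theorem intX_scalar (q : k[X]) : IntX k (inE L (pol q)) :=
  RingHom.isIntegralElem_map ((algebraMap (RatFunc k) L).comp (algebraMap k[X] (RatFunc k)))
    (x := q)

theorem intX_smul (q : k[X]) {z : L} (hz : IntX k z) :
    IntX k (inE L (pol q) * z) := intX_mul (intX_scalar q) hz

theorem intX_sum {ι : Type*} (s : Finset ι) (f : ι → L) (h : ∀ i ∈ s, IntX k (f i)) :
    IntX k (∑ i ∈ s, f i) :=
  Finset.sum_induction _ _ (fun _ _ => intX_add) intX_zero h

theorem intX_pow {z : L} (hz : IntX k z) (j : ℕ) : IntX k (z ^ j) := by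
  induction j with
  | zero => rw [pow_zero]; exact intX_one
  | succ j ih => rw [pow_succ]; exact intX_mul ih hz

/-- The families of generators of the integral closure of `k[x]`. -/
def Fr {n : ℕ} (f : Fin n → L) : Prop :=
  ∀ z : L, IntX k z ↔ ∃ v : Fin n → k[X], z = ∑ i, inE L (pol (v i)) * f i

theorem exists_basis [CharZero k] [FiniteDimensional (RatFunc k) L] :
    ∃ e : Module.Basis (Fin (Module.finrank (RatFunc k) L)) (RatFunc k) L,
      ∀ z : L, IntX k z ↔ InB e z := by
  let alg : Algebra k[X] L :=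
    ((algebraMap (RatFunc k) L).comp (algebraMap k[X] (RatFunc k))).toAlgebra
  have : IsScalarTower k[X] (RatFunc k) L := IsScalarTower.of_algebraMap_eq' rfl
  have : CharZero (RatFunc k) := charZero_of_injective_algebraMap
    (algebraMap k (RatFunc k)).injective
  have : Module.IsTorsionFree k[X] L := .trans_faithfulSMul k[X] (RatFunc k) L
  have : Module.Free k[X] (integralClosure k[X] L) :=
    IsIntegralClosure.module_free k[X] (RatFunc k) L (integralClosure k[X] L)
  have : Module.Finite k[X] (integralClosure k[X] L) :=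
    IsIntegralClosure.finite k[X] (RatFunc k) L (integralClosure k[X] L)
  have : IsLocalization (Algebra.algebraMapSubmonoid (integralClosure k[X] L)
      (nonZeroDivisors k[X])) L :=
    IsIntegralClosure.isLocalization k[X] (RatFunc k) L (integralClosure k[X] L)
  have hr : Module.finrank k[X] (integralClosure k[X] L) = Module.finrank (RatFunc k) L :=
    IsIntegralClosure.rank k[X] (RatFunc k) L (integralClosure k[X] L)
  obtain b := Module.finBasisOfFinrankEq k[X] (integralClosure k[X] L) hr
  refine ⟨b.localizationLocalization (RatFunc k) (nonZeroDivisors k[X]) L, fun z => ?_⟩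
  constructor
  · intro hz i
    have h1 : IsIntegral k[X] z := hz
    have h2 := b.localizationLocalization_repr_algebraMap (RatFunc k) (nonZeroDivisors k[X]) L
      (⟨z, h1⟩ : integralClosure k[X] L) i
    exact ⟨b.repr (⟨z, h1⟩ : integralClosure k[X] L) i, h2.symm⟩
  · intro hz
    obtain ⟨v, hv⟩ := exists_vecE hz
    rw [← hv, vecE]
    refine intX_sum _ _ fun i _ => intX_smul _ ?_
    rw [Module.Basis.localizationLocalization_apply]
    exact (b i).2

end I

section main

variable {k : Type*} [Field k] {L : Type*} [Field L] [Algebra (RatFunc k) L] {n : ℕ}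

/-- The discriminant of a family. -/
noncomputable def dsc (f : Fin n → L) : RatFunc k :=
  (Matrix.of fun i j => Tr k L (f i * f j)).det

theorem dle_det (M : Matrix (Fin n) (Fin n) (RatFunc k)) (h : ∀ i j, Dle (M i j) 0) :
    Dle M.det 0 := by
  change M.det ∈ Oinf k
  rw [Matrix.det_apply]
  refine Subring.sum_mem _ fun σ _ => ?_
  rcases Int.units_eq_one_or (Equiv.Perm.sign σ) with h1 | h1
  · rw [h1, one_smul]
    exact Subring.prod_mem _ fun i _ => h _ _
  · rw [h1, Units.neg_smul, one_smul]
    exact (Oinf k).neg_mem (Subring.prod_mem _ fun i _ => h _ _)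

theorem xz_prod (b : Fin n → ℤ) : ∏ i, (xz (b i) : RatFunc k) = xz (∑ i, b i) := by
  have h : ∀ s : Finset (Fin n), ∏ i ∈ s, (xz (b i) : RatFunc k) = xz (∑ i ∈ s, b i) := by
    intro s
    induction s using Finset.induction_on with
    | empty => rw [Finset.prod_empty, Finset.sum_empty, xz_zero]
    | insert a s ha ih => rw [Finset.prod_insert ha, Finset.sum_insert ha, xz_add, ih]
  exact h Finset.univ

/-- The lower bound for the degrees. -/
theorem dsc_dle [FiniteDimensional (RatFunc k) L] (f : Fin n → L) (b : Fin n → ℤ)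
    (h : ∀ i, IntO k (inE L (xz (-b i) : RatFunc k) * f i)) :
    Dle (dsc (k := k) f) (2 * ∑ i, b i) := by
  have h1 : (Matrix.of fun i j => Tr k L (inE L (xz (-b i) : RatFunc k) * f i *
      (inE L (xz (-b j) : RatFunc k) * f j))) =
      Matrix.diagonal (fun i => (xz (-b i) : RatFunc k)) *
        (Matrix.of fun i j => Tr k L (f i * f j)) *
        Matrix.diagonal (fun i => (xz (-b i) : RatFunc k)) := by
    ext1 i j
    rw [Matrix.mul_diagonal, Matrix.diagonal_mul, Matrix.of_apply, Matrix.of_apply]
    have h2 : inE L (xz (-b i) : RatFunc k) * f i * (inE L (xz (-b j) : RatFunc k) * f j) =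
        inE L (xz (-b i) : RatFunc k) * (inE L (xz (-b j) : RatFunc k) * (f i * f j)) := by ring
    rw [h2, tr_inE_mul, tr_inE_mul]
    ring
  have h2 : Dle (Matrix.of fun i j => Tr k L (inE L (xz (-b i) : RatFunc k) * f i *
      (inE L (xz (-b j) : RatFunc k) * f j))).det 0 :=
    dle_det _ fun i j => intO_tr (intO_mul (h i) (h j))
  rw [h1, Matrix.det_mul, Matrix.det_mul, Matrix.det_diagonal, xz_prod] at h2
  have h3 : dsc (k := k) f = xz (2 * ∑ i, b i) * ((xz (∑ i, -b i)) *
      (Matrix.of fun i j => Tr k L (f i * f j)).det * xz (∑ i, -b i)) := by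
    have h4 : (xz (2 * ∑ i, b i) : RatFunc k) * (xz (∑ i, -b i) * xz (∑ i, -b i)) = 1 := by
      rw [← xz_add, ← xz_add, Finset.sum_neg_distrib]
      have h5 : 2 * ∑ i, b i + (-∑ i, b i + -∑ i, b i) = 0 := by ring
      rw [h5, xz_zero]
    rw [dsc]
    linear_combination (-(Matrix.of fun i j => Tr k L (f i * f j)).det) * h4
  rw [h3]
  have h6 := (dle_xz_mul (m := 2 * ∑ i, b i)).2 h2
  rwa [add_zero] at h6

/-- Discriminants of families of generators have at least the degree of `dsc f0`. -/
theorem dsc_ge {f0 f : Fin n → L} (h0 : Fr (k := k) f0) (h : Fr (k := k) f)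
    (hd : dsc (k := k) f0 ≠ 0) {m : ℤ} (hm : Dle (dsc (k := k) f) m) :
    (dsc (k := k) f0).intDegree ≤ m := by
  have hf : ∀ i, IntX k (f i) := fun i => (h (f i)).2 ⟨Pi.single i 1, by
    rw [Finset.sum_eq_single i]
    · simp [inE, pol]
    · intro j _ hj
      simp [inE, pol, hj]
    · intro hi
      exact absurd (Finset.mem_univ i) hi⟩
  have hf0 : ∀ i, IntX k (f0 i) := fun i => (h0 (f0 i)).2 ⟨Pi.single i 1, by
    rw [Finset.sum_eq_single i]
    · simp [inE, pol]
    · intro j _ hj
      simp [inE, pol, hj]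
    · intro hi
      exact absurd (Finset.mem_univ i) hi⟩
  have hP : ∀ i, ∃ v : Fin n → k[X], f i = ∑ l, inE L (pol (v l)) * f0 l :=
    fun i => (h0 (f i)).1 (hf i)
  have hQ : ∀ i, ∃ v : Fin n → k[X], f0 i = ∑ l, inE L (pol (v l)) * f l :=
    fun i => (h (f0 i)).1 (hf0 i)
  choose P hP using hP
  choose Q hQ using hQ
  have h1 := gram_change f0 f (Matrix.of fun i j => pol (P i j)) (fun i => hP i)
  have h2 := gram_change f f0 (Matrix.of fun i j => pol (Q i j)) (fun i => hQ i)
  change dsc (k := k) f = _ * dsc (k := k) f0 at h1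
  change dsc (k := k) f0 = _ * dsc (k := k) f at h2
  have h3 : dsc (k := k) f ≠ 0 := by
    intro h4
    rw [h4, mul_zero] at h2
    exact hd h2
  have h4 : (Matrix.of fun i j => pol (P i j)).det = pol (Matrix.of P).det := by
    rw [pol, RingHom.map_det]
    congr 1
  rw [h4] at h1
  have h5 : pol (Matrix.of P).det ≠ 0 := by
    intro h6
    rw [h6] at h1
    apply h3
    rw [h1]
    ring
  have h6 := hm.resolve_left h3
  rw [h1, RatFunc.intDegree_mul (pow_ne_zero 2 h5) hd, pow_two, RatFunc.intDegree_mul h5 h5, pol,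
    RatFunc.intDegree_polynomial] at h6
  omega

theorem Fr.intX {f : Fin n → L} (h : Fr (k := k) f) (i : Fin n) : IntX k (f i) :=
  (h (f i)).2 ⟨Pi.single i 1, by
    rw [Finset.sum_eq_single i]
    · simp [inE, pol]
    · intro j _ hj
      simp [inE, pol, hj]
    · intro hi
      exact absurd (Finset.mem_univ i) hi⟩

/-- Replacing one generator. -/
theorem Fr.update {f : Fin n → L} (h : Fr (k := k) f) (i0 : Fin n) (u : Fin n → k[X]) (c : k)
    (hc : c ≠ 0) (hu : u i0 = C c) :
    Fr (k := k) (Function.update f i0 (∑ i, inE L (pol (u i)) * f i)) := by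
  classical
  set w := ∑ i, inE L (pol (u i)) * f i with hw
  intro z
  constructor
  · intro hz
    obtain ⟨v, hv⟩ := (h z).1 hz
    refine ⟨Function.update (fun j => v j - C c⁻¹ * v i0 * u j) i0 (C c⁻¹ * v i0), ?_⟩
    rw [← Finset.add_sum_erase _ _ (Finset.mem_univ i0), Function.update_self,
      Function.update_self]
    have h1 : ∑ x ∈ Finset.univ.erase i0, inE L (pol (Function.update
        (fun j => v j - C c⁻¹ * v i0 * u j) i0 (C c⁻¹ * v i0) x)) * Function.update f i0 w x =
        ∑ x ∈ Finset.univ.erase i0, inE L (pol (v x - C c⁻¹ * v i0 * u x)) * f x := by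
      apply Finset.sum_congr rfl
      intro x hx
      have hne := Finset.ne_of_mem_erase hx
      rw [Function.update_of_ne hne, Function.update_of_ne hne]
    have h2 : ∑ x ∈ Finset.univ.erase i0, inE L (pol (v x - C c⁻¹ * v i0 * u x)) * f x =
        ∑ x, inE L (pol (v x - C c⁻¹ * v i0 * u x)) * f x := by
      rw [← Finset.add_sum_erase _ _ (Finset.mem_univ i0)]
      have h3 : v i0 - C c⁻¹ * v i0 * u i0 = 0 := by
        rw [hu]
        have h4 : (C c⁻¹ * C c : k[X]) = 1 := by
          rw [← C_mul, inv_mul_cancel₀ hc, C_1]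
        linear_combination (-v i0) * h4
      rw [h3]
      simp [inE, pol]
    rw [h1, h2, hv, hw, Finset.mul_sum, ← Finset.sum_add_distrib]
    apply Finset.sum_congr rfl
    intro x _
    simp only [inE, pol, map_sub, map_mul]
    ring
  · rintro ⟨v, rfl⟩
    refine intX_sum _ _ fun i _ => intX_smul _ ?_
    rcases eq_or_ne i i0 with h1 | h1
    · rw [h1, Function.update_self]
      exact (h w).2 ⟨u, rfl⟩
    · rw [Function.update_of_ne h1]
      exact h.intX i

/-- The residues of a minimal family are independent. -/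
theorem indep {f : Fin n → L} (h : Fr (k := k) f) (b : Fin n → ℤ)
    (hb : ∀ i, IntO k (inE L (xz (-b i) : RatFunc k) * f i))
    (hmin : ∀ (f' : Fin n → L) (b' : Fin n → ℤ), Fr (k := k) f' →
      (∀ i, IntO k (inE L (xz (-b' i) : RatFunc k) * f' i)) → ∑ i, b i ≤ ∑ i, b' i)
    (c : Fin n → k)
    (hc : IntO k (inE L (xz 1 : RatFunc k) *
      ∑ i, inE L (pol (C (c i)) * xz (-b i) : RatFunc k) * f i)) : c = 0 := by
  classical
  by_contra hne
  have hex : (Finset.univ.filter fun i => c i ≠ 0).Nonempty := by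
    by_contra h1
    rw [Finset.not_nonempty_iff_eq_empty, Finset.filter_eq_empty_iff] at h1
    apply hne
    funext i
    have h2 := h1 (Finset.mem_univ i)
    rwa [not_not] at h2
  obtain ⟨i0, hi0, hmax⟩ := Finset.exists_max_image _ b hex
  rw [Finset.mem_filter] at hi0
  set u : Fin n → k[X] := fun i => C (c i) * X ^ (b i0 - b i).toNat with hu
  have hu0 : u i0 = C (c i0) := by
    rw [hu]
    simp
  have hupd := h.update i0 u (c i0) hi0.2 hu0
  have hw : ∑ i, inE L (pol (u i)) * f i = inE L (xz (b i0) : RatFunc k) *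
      ∑ i, inE L (pol (C (c i)) * xz (-b i) : RatFunc k) * f i := by
    rw [Finset.mul_sum]
    apply Finset.sum_congr rfl
    intro i _
    rcases eq_or_ne (c i) 0 with h1 | h1
    · rw [hu]
      simp [h1, inE, pol]
    · have h2 : b i ≤ b i0 := hmax i (Finset.mem_filter.2 ⟨Finset.mem_univ i, h1⟩)
      have h3 : pol (u i) = xz (b i0) * (pol (C (c i)) * xz (-b i)) := by
        have h4 : (xz (b i0) * xz (-b i) : RatFunc k) = pol (X ^ (b i0 - b i).toNat) := by
          rw [← xz_add, ← xz_nat]
          congr 1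
          omega
        rw [hu]
        simp only [pol, map_mul] at h4 ⊢
        rw [← h4]
        ring
      rw [h3]
      simp only [inE, map_mul]
      ring
  have h1 := hmin (Function.update f i0 (∑ i, inE L (pol (u i)) * f i))
    (Function.update b i0 (b i0 - 1)) hupd (fun i => by
      rcases eq_or_ne i i0 with h2 | h2
      · rw [h2, Function.update_self, Function.update_self, hw]
        have h3 : inE L (xz (-(b i0 - 1)) : RatFunc k) * (inE L (xz (b i0) : RatFunc k) *
            ∑ i, inE L (pol (C (c i)) * xz (-b i) : RatFunc k) * f i) =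
            inE L (xz 1 : RatFunc k) *
              ∑ i, inE L (pol (C (c i)) * xz (-b i) : RatFunc k) * f i := by
          rw [← mul_assoc]
          congr 1
          simp only [inE]
          rw [← map_mul, ← xz_add]
          congr 2
          ring
        rw [h3]
        exact hc
      · rw [Function.update_of_ne h2, Function.update_of_ne h2]
        exact hb i)
  rw [Finset.sum_update_of_mem (Finset.mem_univ i0), ← Finset.add_sum_erase _ _ (Finset.mem_univ i0),
    ← Finset.erase_eq] at h1
  omega

/-- The coordinates of an element integral at infinity. -/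
theorem coord_bound {f : Fin n → L} (b : Fin n → ℤ)
    (hb : ∀ i, IntO k (inE L (xz (-b i) : RatFunc k) * f i))
    (hind : ∀ c : Fin n → k, IntO k (inE L (xz 1 : RatFunc k) *
      ∑ i, inE L (pol (C (c i)) * xz (-b i) : RatFunc k) * f i) → c = 0)
    (r : Fin n → RatFunc k) (hz : IntO k (∑ i, inE L (r i) * f i)) (i : Fin n) :
    Dle (r i) (-b i) := by
  classical
  by_contra hcon
  set s : Fin n → RatFunc k := fun i => xz (b i) * r i with hs
  have hsi : ∀ i, Dle (s i) 0 ↔ Dle (r i) (-b i) := fun i => by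
    have h1 := dle_xz_mul (r := r i) (m := b i) (l := -b i)
    rw [add_neg_cancel] at h1
    exact h1
  have hex : (Finset.univ.filter fun i => s i ≠ 0).Nonempty :=
    ⟨i, Finset.mem_filter.2 ⟨Finset.mem_univ i, fun h0 => hcon ((hsi i).1 (Or.inl h0))⟩⟩
  obtain ⟨j, hj, hmax⟩ := Finset.exists_max_image _ (fun i => (s i).intDegree) hex
  rw [Finset.mem_filter] at hj
  set m := (s j).intDegree with hm
  have hm1 : 1 ≤ m := by
    by_contra h1
    push Not at h1
    apply hcon
    rw [← hsi]
    rcases eq_or_ne (s i) 0 with h2 | h2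
    · exact Or.inl h2
    · right
      have h3 := hmax i (Finset.mem_filter.2 ⟨Finset.mem_univ i, h2⟩)
      omega
  have ht : ∀ l, Dle (xz (-m) * s l) 0 := fun l => by
    rcases eq_or_ne (s l) 0 with h2 | h2
    · rw [h2, mul_zero]; exact Dle.zero _
    · have h3 := hmax l (Finset.mem_filter.2 ⟨Finset.mem_univ l, h2⟩)
      have h4 := (dle_xz_mul (r := s l) (m := -m) (l := m)).2 (Or.inr h3)
      rwa [neg_add_cancel] at h4
  choose c hc using fun l => exists_residue (ht l)
  have h1 : c = 0 := by
    apply hind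
    have h2 : inE L (xz 1 : RatFunc k) *
        ∑ i, inE L (pol (C (c i)) * xz (-b i) : RatFunc k) * f i =
        inE L (xz (1 - m) : RatFunc k) * (∑ i, inE L (r i) * f i) -
          ∑ l, inE L (xz 1 * (xz (-m) * s l - pol (C (c l)))) *
            (inE L (xz (-b l) : RatFunc k) * f l) := by
      rw [Finset.mul_sum, Finset.mul_sum, ← Finset.sum_sub_distrib]
      apply Finset.sum_congr rfl
      intro l _
      have h3 : (xz (1 - m) : RatFunc k) * r l = xz 1 * (xz (-m) * s l) * xz (-b l) := by
        have h4 : (xz (1 - m) : RatFunc k) = xz 1 * xz (-m) := by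
          rw [← xz_add]
          congr 1
        have h5 := xz_neg_mul (k := k) (b l)
        rw [h4, hs]
        linear_combination (-(xz 1 * xz (-m) * r l)) * h5
      have h6 : inE L (xz (1 - m) : RatFunc k) * (inE L (r l) * f l) =
          inE L (xz 1 * (xz (-m) * s l) * xz (-b l)) * f l := by
        rw [← h3]
        simp only [inE, map_mul]
        ring
      rw [h6]
      simp only [inE, map_mul, map_sub]
      ring
    rw [h2, sub_eq_add_neg]
    refine intO_add (intO_smul ?_ hz) (intO_neg (intO_sum _ _ fun l _ => intO_smul ?_ (hb l)))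
    · right
      rw [intDegree_xz]
      omega
    · have h3 := (dle_xz_mul (m := 1) (l := -1)).2 (hc l)
      rwa [add_neg_cancel] at h3
  have h2 := hc j
  rw [h1, Pi.zero_apply, C_0, pol, map_zero, sub_zero] at h2
  rcases h2 with h3 | h3
  · exact mul_ne_zero (xz_ne _) hj.2 h3
  · rw [RatFunc.intDegree_mul (xz_ne _) hj.2, intDegree_xz] at h3
    omega

end main

end Birk

open Birk in
/-- There is a common basis of the integral closures of `k[x]` and of the ring of the rational
functions of degree at most `0`. -/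
theorem birkhoff (k : Type*) [Field k] [CharZero k] (L : Type*) [Field L] [Algebra (RatFunc k) L]
    [FiniteDimensional (RatFunc k) L] :
    ∃ (e : Module.Basis (Fin (Module.finrank (RatFunc k) L)) (RatFunc k) L)
      (a : Fin (Module.finrank (RatFunc k) L) → ℕ),
      (∀ z : L, IntX k z ↔ InB e z) ∧
      ∀ z : L, IntO k z ↔ ∀ i, Dle (e.repr z i) (-(a i : ℤ)) := by
  classical
  obtain ⟨e0, he0⟩ := exists_basis (k := k) (L := L)
  have hCZ : CharZero (RatFunc k) := charZero_of_injective_algebraMap
    (algebraMap k (RatFunc k)).injective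
  have hfr0 : Fr (k := k) (fun i => e0 i) := fun z => by
    rw [he0]
    constructor
    · intro hz
      obtain ⟨v, hv⟩ := exists_vecE hz
      exact ⟨v, hv.symm⟩
    · rintro ⟨v, rfl⟩
      intro i
      exact ⟨v i, (repr_vecE e0 v i).symm⟩
  have hd0 : dsc (k := k) (fun i => e0 i) ≠ 0 := by
    have h1 := Algebra.discr_not_zero_of_basis (RatFunc k) e0
    rw [Algebra.discr_def] at h1
    exact h1
  obtain ⟨s, ⟨f, b, hf, hb, hs⟩, hmin⟩ := Int.exists_least_of_bdd
    (P := fun s : ℤ => ∃ (f : Fin (Module.finrank (RatFunc k) L) → L)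
      (b : Fin (Module.finrank (RatFunc k) L) → ℤ), Fr (k := k) f ∧
        (∀ i, IntO k (inE L (xz (-b i) : RatFunc k) * f i)) ∧ s = ∑ i, b i)
    ⟨-|(dsc (k := k) (fun i => e0 i)).intDegree|, by
      rintro s ⟨f, b, hf, hb, rfl⟩
      have h1 := dsc_ge hfr0 hf hd0 (dsc_dle f b hb)
      rcases abs_cases (dsc (k := k) (fun i => e0 i)).intDegree with ⟨h2, h3⟩ | ⟨h2, h3⟩ <;>
        omega⟩
    (by
      choose m hm using fun i => exists_intO (k := k) (e0 i)
      exact ⟨_, _, m, hfr0, hm, rfl⟩)
  have hmin' : ∀ (f' : Fin (Module.finrank (RatFunc k) L) → L)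
      (b' : Fin (Module.finrank (RatFunc k) L) → ℤ), Fr (k := k) f' →
      (∀ i, IntO k (inE L (xz (-b' i) : RatFunc k) * f' i)) → ∑ i, b i ≤ ∑ i, b' i := by
    intro f' b' h1 h2
    rw [← hs]
    exact hmin _ ⟨f', b', h1, h2, rfl⟩
  have hcb := coord_bound b hb (indep hf b hb hmin')
  -- the basis
  have hspan : ⊤ ≤ Submodule.span (RatFunc k) (Set.range f) := by
    rw [← e0.span_eq, Submodule.span_le]
    rintro _ ⟨i, rfl⟩
    obtain ⟨v, hv⟩ := (hf (e0 i)).1 (hfr0.intX i)
    rw [SetLike.mem_coe, hv]
    refine Submodule.sum_mem _ fun j _ => ?_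
    rw [inE, ← Algebra.smul_def]
    exact Submodule.smul_mem _ _ (Submodule.subset_span ⟨j, rfl⟩)
  set e := basisOfTopLeSpanOfCardEqFinrank f hspan (Fintype.card_fin _) with he
  have hef : ∀ i, e i = f i := fun i => by
    rw [he, coe_basisOfTopLeSpanOfCardEqFinrank]
  have hsum : ∀ z : L, ∑ i, inE L (e.repr z i) * f i = z := fun z => by
    conv_rhs => rw [← e.sum_repr z]
    apply Finset.sum_congr rfl
    intro i _
    rw [hef, Algebra.smul_def]
  have hvec : ∀ v : Fin (Module.finrank (RatFunc k) L) → k[X],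
      vecE e v = ∑ i, inE L (pol (v i)) * f i := fun v =>
    Finset.sum_congr rfl fun i _ => by rw [hef]
  have hX : ∀ z : L, IntX k z ↔ InB e z := fun z => by
    rw [hf z]
    constructor
    · rintro ⟨v, rfl⟩
      intro i
      rw [← hvec]
      exact ⟨v i, (repr_vecE e v i).symm⟩
    · intro hz
      obtain ⟨v, hv⟩ := exists_vecE hz
      exact ⟨v, by rw [← hv, hvec]⟩
  have hO : ∀ z : L, IntO k z → ∀ i, Dle (e.repr z i) (-b i) := fun z hz i =>
    hcb (fun i => e.repr z i) (by rw [hsum]; exact hz) i
  -- the degrees are not negative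
  have hb0 : ∀ i, 0 ≤ b i := by
    intro i
    by_contra hneg
    push Not at hneg
    obtain ⟨j, hj⟩ : ∃ j : ℕ, ∀ l, (j : ℤ) * b i < b l := by
      refine ⟨(∑ l, |b l|).toNat + 1, fun l => ?_⟩
      have h1 : |b l| ≤ ∑ l, |b l| :=
        Finset.single_le_sum (f := fun l => |b l|) (fun _ _ => abs_nonneg _) (Finset.mem_univ l)
      have h2 := neg_abs_le (b l)
      have h3 : 0 ≤ ∑ l, |b l| := Finset.sum_nonneg fun _ _ => abs_nonneg _
      push_cast
      rw [Int.toNat_of_nonneg h3]
      nlinarith
    have h1 : IntO k (inE L (xz (-(j * b i)) : RatFunc k) * (f i) ^ j) := by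
      have h2 := intO_pow (hb i) j
      rw [mul_pow] at h2
      have h3 : (inE L (xz (-b i) : RatFunc k)) ^ j = inE L (xz (-(j * b i)) : RatFunc k) := by
        rw [inE, inE, ← map_pow]
        congr 1
        rw [xz, xz, ← zpow_natCast, ← zpow_mul]
        congr 1
        ring
      rwa [h3] at h2
    have h2 : InB e ((f i) ^ j) := (hX _).1 (intX_pow (hf.intX i) j)
    have h3 : (f i) ^ j = 0 := by
      apply e.repr.injective
      ext l
      rw [map_zero, Finsupp.zero_apply]
      obtain ⟨q, hq⟩ := h2 l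
      have h4 := hO _ h1 l
      rw [repr_inE_mul] at h4
      have h5 : Dle (xz (-(j * b i)) * e.repr ((f i) ^ j) l) (-(j * b i) + (j * b i - b l)) := by
        have h6 : -(j * b i) + (j * b i - b l) = -b l := by ring
        rw [h6]
        exact h4
      rw [dle_xz_mul, ← hq, dle_pol_iff] at h5
      rcases h5 with h6 | h6
      · rw [← hq, h6, pol, map_zero]
      · have h7 := hj l
        omega
    have h4 : f i = 0 := by
      by_contra h5
      exact pow_ne_zero j h5 h3
    exact e.ne_zero i (by rw [hef, h4])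
  refine ⟨e, fun i => (b i).toNat, hX, fun z => ?_⟩
  have hbn : ∀ i, (((b i).toNat : ℕ) : ℤ) = b i := fun i => Int.toNat_of_nonneg (hb0 i)
  constructor
  · intro hz i
    rw [hbn]
    exact hO z hz i
  · intro hz
    rw [← hsum z]
    refine intO_sum _ _ fun i _ => ?_
    have h1 : inE L (e.repr z i) * f i = inE L (xz (b i) * e.repr z i) *
        (inE L (xz (-b i) : RatFunc k) * f i) := by
      have h2 := xz_neg_mul (k := k) (b i)
      have h3 : e.repr z i = xz (b i) * e.repr z i * xz (-b i) := by
        linear_combination (-(e.repr z i)) * h2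
      conv_lhs => rw [h3]
      simp only [inE, map_mul]
      ring
    rw [h1]
    refine intO_smul ?_ (hb i)
    have h2 := hz i
    rw [hbn] at h2
    have h3 := (dle_xz_mul (m := b i) (l := -b i)).2 h2
    rwa [add_neg_cancel] at h3

end MPadcCov
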