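import Pool.Agent.Lib.MP_adc574_ag_Cov.Def

/-!
# JOB RegK: the lattice `InReg` consists of regular forms, for a true Birkhoff basis

`Oinf` is the ring of the rational functions of degree `≤ 0`; `hX`, `hI` say that `e` is a basis of
the integral closure of `k[x]` and that the `x ^ (- a i) • e i` are a basis of the integral closure of
`Oinf`. If `InReg e a φ` and `b` is integral over `k[x]`, `b = ∑ r i • e i` with polynomials `r i`:
`Tr (φ b)` is a polynomial. If `b` is integral over `k[1/x]` then it is integral over `Oinf` (the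
polynomials in `1/x` lie in `Oinf`), so `b = ∑ r i • e i` with `r i` of degree `≤ - a i`, and
`Tr (φ b) = ∑ r i Tr (φ e i)` has degree `≤ -2`. (Prove first: `Dle` is stable under sums and
`Dle r m → Dle r' m' → Dle (r r') (m + m')`.)
-/

set_option autoImplicit false

namespace MPadcCov

open Polynomial

/-- The rational functions of degree at most `0`. -/
def Oinf (k : Type*) [Field k] : Subring (RatFunc k) where
  carrier := {r | Dle r 0}
  zero_mem' := Or.inl rfl
  one_mem' := Or.inr (by simp)
  add_mem' := by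
    rintro r s hr hs
    by_cases h : r + s = 0
    · exact Or.inl h
    by_cases h1 : r = 0
    · subst h1; simpa using hs
    by_cases h2 : s = 0
    · subst h2; simpa using hr
    right
    refine (RatFunc.intDegree_add_le h2 h).trans ?_
    exact max_le (hr.resolve_left h1) (hs.resolve_left h2)
  mul_mem' := by
    rintro r s hr hs
    by_cases h1 : r = 0
    · left; simp [h1]
    by_cases h2 : s = 0
    · left; simp [h2]
    right
    rw [RatFunc.intDegree_mul h1 h2]
    have := hr.resolve_left h1
    have := hs.resolve_left h2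
    omega
  neg_mem' := by
    rintro r hr
    rcases hr with h | h
    · left; simp [h]
    · right; rw [RatFunc.intDegree_neg]; exact h

/-- `z` is integral over `Oinf`. -/
def IntO (k : Type*) [Field k] {L : Type*} [CommRing L] [Algebra (RatFunc k) L] (z : L) : Prop :=
  ((algebraMap (RatFunc k) L).comp (Oinf k).subtype).IsIntegralElem z

variable {k : Type*} [Field k] {L : Type*} [CommRing L] [Algebra (RatFunc k) L] {n : ℕ}
  {e : Module.Basis (Fin n) (RatFunc k) L} {a : Fin n → ℕ}

private theorem RegK_pol_add {r s : RatFunc k} (hr : IsPol r) (hs : IsPol s) : IsPol (r + s) := by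
  obtain ⟨p, rfl⟩ := hr
  obtain ⟨q, rfl⟩ := hs
  exact ⟨p + q, map_add _ _ _⟩

private theorem RegK_pol_mul {r s : RatFunc k} (hr : IsPol r) (hs : IsPol s) : IsPol (r * s) := by
  obtain ⟨p, rfl⟩ := hr
  obtain ⟨q, rfl⟩ := hs
  exact ⟨p * q, map_mul _ _ _⟩

private theorem RegK_pol_sum {ι : Type*} (t : Finset ι) (f : ι → RatFunc k)
    (h : ∀ i ∈ t, IsPol (f i)) : IsPol (∑ i ∈ t, f i) :=
  Finset.sum_induction f IsPol (fun _ _ => RegK_pol_add) ⟨0, map_zero _⟩ h

private theorem RegK_dle_add {r s : RatFunc k} {m : ℤ} (hr : Dle r m) (hs : Dle s m) :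
    Dle (r + s) m := by
  by_cases h : r + s = 0
  · exact Or.inl h
  by_cases h1 : r = 0
  · rw [h1, zero_add]
    exact hs
  by_cases h2 : s = 0
  · rw [h2, add_zero]
    exact hr
  right
  refine (RatFunc.intDegree_add_le h2 h).trans ?_
  exact max_le (hr.resolve_left h1) (hs.resolve_left h2)

private theorem RegK_dle_sum {ι : Type*} (t : Finset ι) (f : ι → RatFunc k) (m : ℤ)
    (h : ∀ i ∈ t, Dle (f i) m) : Dle (∑ i ∈ t, f i) m :=
  Finset.sum_induction f (fun r => Dle r m) (fun _ _ => RegK_dle_add) (Or.inl rfl) h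

private theorem RegK_dle_mul {r s : RatFunc k} {m m' : ℤ} (hr : Dle r m) (hs : Dle s m') :
    Dle (r * s) (m + m') := by
  by_cases h1 : r = 0
  · left
    rw [h1, zero_mul]
  by_cases h2 : s = 0
  · left
    rw [h2, mul_zero]
  right
  rw [RatFunc.intDegree_mul h1 h2]
  exact add_le_add (hr.resolve_left h1) (hs.resolve_left h2)

private theorem RegK_mem (p : k[X]) : (aeval (RatFunc.X⁻¹ : RatFunc k) p) ∈ Oinf k := by
  induction p using Polynomial.induction_on' with
  | add p q hp hq =>
    rw [map_add]
    exact (Oinf k).add_mem hp hq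
  | monomial n c =>
    rw [aeval_monomial]
    refine (Oinf k).mul_mem ?_ ((Oinf k).pow_mem ?_ n)
    · right
      have h1 : algebraMap k (RatFunc k) c = RatFunc.C c := rfl
      rw [h1, RatFunc.intDegree_C]
    · right
      rw [RatFunc.intDegree_inv, RatFunc.intDegree_X]
      norm_num

private theorem RegK_int {b : L} (hb : IntI k b) : IntO k b := by
  obtain ⟨p, hp, hpb⟩ := hb
  set f : k[X] →+* RatFunc k := (aeval (RatFunc.X⁻¹ : RatFunc k) : k[X] →ₐ[k] RatFunc k).toRingHom
    with hf
  set g : k[X] →+* Oinf k := f.codRestrict (Oinf k) (fun q => RegK_mem q) with hg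
  refine ⟨p.map g, hp.map g, ?_⟩
  rw [eval₂_map]
  have h1 : (((algebraMap (RatFunc k) L).comp (Oinf k).subtype).comp g) =
      (algebraMap (RatFunc k) L).comp f := by
    refine RingHom.ext fun q => ?_
    rfl
  rw [h1]
  exact hpb

private theorem RegK_tr (φ b : L) :
    Tr k L (φ * b) = ∑ i, e.repr b i * Tr k L (φ * e i) := by
  conv_lhs => rw [← e.sum_repr b, Finset.mul_sum, map_sum]
  refine Finset.sum_congr rfl fun i _ => ?_
  rw [mul_smul_comm, map_smul, smul_eq_mul]

theorem inReg_isReg (hX : ∀ z : L, IntX k z ↔ InB e z)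
    (hI : ∀ z : L, IntO k z ↔ ∀ i, Dle (e.repr z i) (-(a i : ℤ))) (φ : L) (hφ : InReg e a φ) :
    IsReg (κ := k) φ := by
  constructor
  · intro b hb
    rw [RegK_tr (e := e)]
    exact RegK_pol_sum _ _ fun i _ => RegK_pol_mul ((hX b).1 hb i) (hφ i).1
  · intro b hb
    rw [RegK_tr (e := e)]
    refine RegK_dle_sum _ _ _ fun i _ => ?_
    have h1 := RegK_dle_mul ((hI b).1 (RegK_int hb) i) (hφ i).2
    have h2 : -(a i : ℤ) + ((a i : ℤ) - 2) = -2 := by ring
    rw [h2] at h1
    exact h1

end MPadcCov
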