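import Pool.Agent.Lib.MP_adc574_ag_Cov.Def

/-!
# Generators and discriminants; transport along isomorphisms
-/

set_option autoImplicit false

namespace MPadcCov

open Polynomial

/-- The discriminant of a generator does not vanish. -/
theorem det_ne_zero_of_adjoin {K : Type*} [Field K] {E : Type*} [CommRing E] [Algebra K E] {n : ℕ}
    (e : Module.Basis (Fin n) K E) (hnd : ∀ z, (∀ i, Algebra.trace K E (z * e i) = 0) → z = 0)
    (z : E) (hz : Algebra.adjoin K {z} = ⊤) :
    (Matrix.of fun i j : Fin n => Algebra.trace K E (z ^ (i.1 + j.1))).det ≠ 0 := by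
  classical
  have hfin : Module.Finite K E := Module.Finite.of_basis e
  have hfr : Module.finrank K E = n := by
    rw [Module.finrank_eq_card_basis e, Fintype.card_fin]
  -- the powers of `z` span
  have hspan : ⊤ ≤ Submodule.span K (Set.range fun i : Fin n => z ^ i.1) := by
    intro w _
    have hw : w ∈ Algebra.adjoin K {z} := hz ▸ Algebra.mem_top
    rw [Algebra.adjoin_singleton_eq_range_aeval] at hw
    obtain ⟨q, rfl⟩ := hw
    set χ : K[X] := (Algebra.leftMulMatrix e z).charpoly with hχ
    have hχm : χ.Monic := Matrix.charpoly_monic _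
    have hχd : χ.natDegree = n := by
      rw [hχ, Matrix.charpoly_natDegree_eq_dim, Fintype.card_fin]
    have hχz : aeval z χ = 0 := by
      apply Algebra.leftMulMatrix_injective e
      rw [map_zero, ← Polynomial.aeval_algHom_apply, hχ]
      exact Matrix.aeval_self_charpoly _
    have h1 : aeval z q = aeval z (q %ₘ χ) := by
      conv_lhs => rw [← modByMonic_add_div q χ]
      rw [map_add, map_mul, hχz, zero_mul, add_zero]
    change aeval z q ∈ _
    rw [h1]
    by_cases hn : n = 0
    · have hsub : Subsingleton E := by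
        rw [← Module.finrank_zero_iff (R := K), hfr, hn]
      rw [Subsingleton.elim (aeval z (q %ₘ χ)) 0]
      exact Submodule.zero_mem _
    · have h2 : (q %ₘ χ).natDegree < n := by
        rw [← hχd]
        apply natDegree_modByMonic_lt _ hχm
        intro h0
        rw [h0, natDegree_one] at hχd
        exact hn hχd.symm
      rw [aeval_eq_sum_range' h2, Finset.sum_range]
      exact Submodule.sum_mem _ fun i _ => Submodule.smul_mem _ _ (Submodule.subset_span ⟨i, rfl⟩)
  have hli : LinearIndependent K fun i : Fin n => z ^ i.1 :=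
    linearIndependent_of_top_le_span_of_card_eq_finrank hspan (by rw [Fintype.card_fin, hfr])
  intro hdet
  obtain ⟨v, hv, hv0⟩ := Matrix.exists_mulVec_eq_zero_iff.2 hdet
  apply hv
  set w : E := ∑ j : Fin n, v j • z ^ j.1 with hw
  have h1 : ∀ i : Fin n, Algebra.trace K E (z ^ i.1 * w) = 0 := by
    intro i
    have h2 := congrFun hv0 i
    rw [Pi.zero_apply] at h2
    rw [← h2, hw, Finset.mul_sum, map_sum, Matrix.mulVec, dotProduct]
    apply Finset.sum_congr rfl
    intro j _
    rw [Matrix.of_apply, mul_smul_comm, map_smul, ← pow_add, smul_eq_mul, mul_comm]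
  have h2 : w = 0 := by
    apply hnd
    intro k
    have h3 : e k ∈ Submodule.span K (Set.range fun i : Fin n => z ^ i.1) :=
      hspan Submodule.mem_top
    have h4 : ∀ x ∈ Submodule.span K (Set.range fun i : Fin n => z ^ i.1),
        Algebra.trace K E (w * x) = 0 := by
      intro x hx
      induction hx using Submodule.span_induction with
      | mem x hx =>
        obtain ⟨i, rfl⟩ := hx
        rw [mul_comm]
        exact h1 i
      | zero => rw [mul_zero, map_zero]
      | add x y _ _ hx hy => rw [mul_add, map_add, hx, hy, add_zero]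
      | smul c x _ hx => rw [mul_smul_comm, map_smul, hx, smul_zero]
    exact h4 _ h3
  ext j
  rw [Pi.zero_apply]
  exact Fintype.linearIndependent_iff.1 hli v h2 j

section transport

variable {κ : Type*} [Field κ] {E₁ E₂ : Type*} [CommRing E₁] [CommRing E₂]
  [Algebra (RatFunc κ) E₁] [Algebra (RatFunc κ) E₂] (θ : E₁ ≃ₐ[RatFunc κ] E₂)

private theorem int_symm {R : Type*} [CommRing R] (f : R →+* RatFunc κ) {b : E₂}
    (hb : ((algebraMap (RatFunc κ) E₂).comp f).IsIntegralElem b) :
    ((algebraMap (RatFunc κ) E₁).comp f).IsIntegralElem (θ.symm b) := by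
  obtain ⟨p, hp, h⟩ := hb
  refine ⟨p, hp, ?_⟩
  have h1 : (algebraMap (RatFunc κ) E₁).comp f =
      (θ.symm : E₂ →+* E₁).comp ((algebraMap (RatFunc κ) E₂).comp f) := by
    ext r
    simp
  have h2 : θ.symm b = (θ.symm : E₂ →+* E₁) b := rfl
  rw [h1, h2, ← hom_eval₂, h, map_zero]

theorem IsReg.equiv {φ : E₁} (h : IsReg (κ := κ) φ) : IsReg (κ := κ) (θ φ) := by
  have h1 : ∀ b : E₂, Tr κ E₂ (θ φ * b) = Tr κ E₁ (φ * θ.symm b) := by
    intro b
    have h2 : θ φ * b = θ (φ * θ.symm b) := by rw [map_mul, AlgEquiv.apply_symm_apply]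
    rw [h2]
    exact Algebra.trace_eq_of_algEquiv θ _
  refine ⟨fun b hb => ?_, fun b hb => ?_⟩
  · rw [h1]
    exact h.1 _ (int_symm θ _ hb)
  · rw [h1]
    exact h.2 _ (int_symm θ _ hb)

/-- The derivation `d/dx` of `E₂` has an exact form in its image. -/
theorem IsEx.equiv [Algebra κ E₁] [IsScalarTower κ (RatFunc κ) E₁] {φ : E₁}
    (h : IsEx (κ := κ) φ) (dK : Derivation ℤ (RatFunc κ) (RatFunc κ)) (d : Derivation ℤ E₂ E₂)
    (hK : ∀ p : κ[X], dK (pol p) = pol (derivative p))
    (hd : ∀ r, d (algebraMap (RatFunc κ) E₂ r) = algebraMap (RatFunc κ) E₂ (dK r)) :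
    ∃ G : E₂, d G = θ φ := by
  have hc : ∀ c : κ, d (algebraMap (RatFunc κ) E₂ (algebraMap κ (RatFunc κ) c)) = 0 := by
    intro c
    have h1 : algebraMap κ (RatFunc κ) c = pol (C c) := by
      rw [IsScalarTower.algebraMap_apply κ κ[X] (RatFunc κ), Polynomial.algebraMap_eq]
    rw [hd, h1, hK, derivative_C, pol, map_zero, map_zero]
  let f : E₁ →ₗ[κ] E₁ :=
    { toFun := fun z => θ.symm (d (θ z))
      map_add' := fun x y => by rw [map_add, map_add, map_add]
      map_smul' := fun c z => by
        have h1 : θ (c • z) =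
            algebraMap (RatFunc κ) E₂ (algebraMap κ (RatFunc κ) c) * θ z := by
          rw [Algebra.smul_def, map_mul, IsScalarTower.algebraMap_apply κ (RatFunc κ) E₁,
            AlgEquiv.commutes]
        rw [h1, Derivation.leibniz, hc, smul_zero, add_zero, smul_eq_mul, map_mul,
          AlgEquiv.commutes, RingHom.id_apply, Algebra.smul_def,
          IsScalarTower.algebraMap_apply κ (RatFunc κ) E₁] }
  let d₁ : Derivation κ E₁ E₁ := Derivation.mk' f (by
    intro x y
    change θ.symm (d (θ (x * y))) = x • θ.symm (d (θ y)) + y • θ.symm (d (θ x))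
    rw [map_mul, Derivation.leibniz, map_add, smul_eq_mul, smul_eq_mul, map_mul, map_mul,
      AlgEquiv.symm_apply_apply, AlgEquiv.symm_apply_apply, smul_eq_mul, smul_eq_mul])
  obtain ⟨G, hG⟩ := h
  have h1 := congrArg d₁.liftKaehlerDifferential hG
  rw [map_smul, Derivation.liftKaehlerDifferential_comp_D,
    Derivation.liftKaehlerDifferential_comp_D] at h1
  have h2 : d₁ (algebraMap (RatFunc κ) E₁ RatFunc.X) = 1 := by
    change θ.symm (d (θ (algebraMap (RatFunc κ) E₁ RatFunc.X))) = 1
    rw [AlgEquiv.commutes, hd, ← RatFunc.algebraMap_X, hK, derivative_X, pol, map_one, map_one,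
      map_one]
  rw [h2, smul_eq_mul, mul_one] at h1
  refine ⟨θ G, ?_⟩
  rw [← h1]
  change d (θ G) = θ (θ.symm (d (θ G)))
  rw [AlgEquiv.apply_symm_apply]

end transport

end MPadcCov
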