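import Mathlib

/-!
# JOB Der: derivations of algebras with a basis

* `ext_frac`: a derivation of a domain extends to the field of fractions:
  `d (a / b) = (b ∂a - a ∂b) / b ^ 2`; well defined; or by the ring homomorphism
  `R → TrivSqZeroExt K K` / `DualNumber K`, `r ↦ r + ∂ r ε`, which maps nonzero elements to units
  (`IsLocalization.lift`, unit iff the first component is).
* `exists_der`: put `d' z = ∑ i, (algebraMap (dK (e.repr z i)) * e i + algebraMap (e.repr z i) * v i)`.
  Additive; `d' (r • z) = dK r • z + r • d' z`; Leibniz is bi-semilinear, so it is enough on the basis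
  (`Module.Basis.sum_repr`, `Finset.sum_mul_sum`), where it is `h`.
* `tr_der`: with `A` the matrix of `d'` on the basis (`d' (e j) = ∑ A j k • e k`) and `M z` the matrix of
  the multiplication by `z`: `M (d' z) = dK (M z) + [M z, A]`-type identity: from
  `d' (z * e j) = d' z * e j + z * d' (e j)`. Take traces (`Algebra.trace_eq_matrix_trace`,
  `Matrix.trace_mul_comm`). Concretely `Tr z = ∑ j, e.repr (z * e j) j` (`tr_eq`).
-/

set_option autoImplicit false

namespace MPadcCov

theorem ext_frac {R : Type*} [CommRing R] [IsDomain R] {K : Type*} [Field K] [Algebra R K]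
    [IsFractionRing R K] (D : Derivation ℤ R R) :
    ∃ d : Derivation ℤ K K, ∀ r, d (algebraMap R K r) = algebraMap R K (D r) := by
  let φ : R →+* TrivSqZeroExt K K :=
    { toFun := fun r => TrivSqZeroExt.inl (algebraMap R K r) +
        TrivSqZeroExt.inr (algebraMap R K (D r))
      map_one' := by ext <;> simp
      map_mul' := by
        intro a b
        ext
        · simp
        · simp only [Derivation.leibniz, smul_eq_mul, TrivSqZeroExt.snd_add, TrivSqZeroExt.snd_inl,
            TrivSqZeroExt.snd_inr, TrivSqZeroExt.snd_mul, TrivSqZeroExt.fst_add,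
            TrivSqZeroExt.fst_inl, TrivSqZeroExt.fst_inr, MulOpposite.smul_eq_mul_unop,
            MulOpposite.unop_op, map_add, map_mul, add_zero, zero_add]
          ring
      map_zero' := by ext <;> simp
      map_add' := by
        intro a b
        ext <;> simp [Algebra.smul_def] }
  have hφ : ∀ y : nonZeroDivisors R, IsUnit (φ y) := by
    intro y
    rw [TrivSqZeroExt.isUnit_iff_isUnit_fst]
    have h1 : (φ y).fst = algebraMap R K y := by
      show (TrivSqZeroExt.inl (algebraMap R K y) +
        TrivSqZeroExt.inr (algebraMap R K (D y)) : TrivSqZeroExt K K).fst = _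
      simp
    rw [h1]
    exact IsLocalization.map_units K y
  have hfst : (TrivSqZeroExt.fstHom K K K).toRingHom.comp
      (IsLocalization.lift (M := nonZeroDivisors R) (S := K) hφ) = RingHom.id K := by
    refine IsLocalization.ringHom_ext (nonZeroDivisors R) ?_
    ext r
    show (IsLocalization.lift (M := nonZeroDivisors R) (S := K) hφ (algebraMap R K r)).fst = _
    rw [IsLocalization.lift_eq]
    show (TrivSqZeroExt.inl (algebraMap R K r) +
        TrivSqZeroExt.inr (algebraMap R K (D r)) : TrivSqZeroExt K K).fst = _
    simp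
  have hfst' : ∀ x : K, (IsLocalization.lift (M := nonZeroDivisors R) (S := K) hφ x).fst = x :=
    fun x => RingHom.congr_fun hfst x
  refine ⟨Derivation.mk' (AddMonoidHom.toIntLinearMap
    { toFun := fun x => (IsLocalization.lift (M := nonZeroDivisors R) (S := K) hφ x).snd
      map_zero' := by rw [map_zero, TrivSqZeroExt.snd_zero]
      map_add' := fun x y => by rw [map_add, TrivSqZeroExt.snd_add] }) ?_, ?_⟩
  · intro x y
    show (IsLocalization.lift (M := nonZeroDivisors R) (S := K) hφ (x * y)).snd =
      x • (IsLocalization.lift (M := nonZeroDivisors R) (S := K) hφ y).snd +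
      y • (IsLocalization.lift (M := nonZeroDivisors R) (S := K) hφ x).snd
    rw [map_mul, TrivSqZeroExt.snd_mul, hfst' x, hfst' y]
    simp [mul_comm]
  · intro r
    show (IsLocalization.lift (M := nonZeroDivisors R) (S := K) hφ (algebraMap R K r)).snd = _
    rw [IsLocalization.lift_eq]
    show (TrivSqZeroExt.inl (algebraMap R K r) +
        TrivSqZeroExt.inr (algebraMap R K (D r)) : TrivSqZeroExt K K).snd = _
    rw [TrivSqZeroExt.snd_add, TrivSqZeroExt.snd_inl, TrivSqZeroExt.snd_inr, zero_add]

variable {K : Type*} [Field K] {E : Type*} [CommRing E] [Algebra K E] {n : ℕ}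
  (e : Module.Basis (Fin n) K E)

theorem exists_der (dK : Derivation ℤ K K) (v : Fin n → E)
    (h : ∀ i j, v i * e j + e i * v j = ∑ k, (algebraMap K E (dK (e.repr (e i * e j) k)) * e k +
      algebraMap K E (e.repr (e i * e j) k) * v k)) :
    ∃ d : Derivation ℤ E E, (∀ r, d (algebraMap K E r) = algebraMap K E (dK r)) ∧
      ∀ i, d (e i) = v i := by
  let d0 : E → E := fun z => ∑ i, (algebraMap K E (dK (e.repr z i)) * e i +
    algebraMap K E (e.repr z i) * v i)
  have hd0 : ∀ z, d0 z = ∑ i, (algebraMap K E (dK (e.repr z i)) * e i +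
    algebraMap K E (e.repr z i) * v i) := fun z => rfl
  have hadd : ∀ z w, d0 (z + w) = d0 z + d0 w := by
    intro z w
    rw [hd0, hd0, hd0, ← Finset.sum_add_distrib]
    refine Finset.sum_congr rfl fun i _ => ?_
    rw [map_add, Finsupp.add_apply, map_add, map_add, map_add]
    ring
  have hzero : d0 0 = 0 := by
    have h1 := hadd 0 0
    rw [add_zero] at h1
    exact left_eq_add.mp h1
  have hsm : ∀ (r : K) z, d0 (r • z) = algebraMap K E (dK r) * z + algebraMap K E r * d0 z := by
    intro r z
    have h1 : z = ∑ i, algebraMap K E (e.repr z i) * e i := by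
      conv_lhs => rw [← e.sum_repr z]
      exact Finset.sum_congr rfl fun i _ => Algebra.smul_def _ _
    have h2 : algebraMap K E (dK r) * z =
        ∑ i, algebraMap K E (dK r) * (algebraMap K E (e.repr z i) * e i) := by
      conv_lhs => rw [h1, Finset.mul_sum]
    rw [h2, hd0, hd0, Finset.mul_sum, ← Finset.sum_add_distrib]
    refine Finset.sum_congr rfl fun i _ => ?_
    rw [map_smul, Finsupp.smul_apply, smul_eq_mul, Derivation.leibniz, smul_eq_mul, smul_eq_mul,
      map_add, map_mul, map_mul, map_mul]
    ring
  have hei : ∀ i, d0 (e i) = v i := by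
    intro i
    rw [hd0]
    rw [Finset.sum_eq_single i]
    · rw [e.repr_self, Finsupp.single_eq_same, Derivation.map_one_eq_zero, map_zero, zero_mul, zero_add,
        map_one, one_mul]
    · intro j _ hj
      rw [e.repr_self, Finsupp.single_eq_of_ne hj, map_zero, map_zero, zero_mul, zero_mul,
        zero_add]
    · intro hi
      exact absurd (Finset.mem_univ i) hi
  let L : E → E →ₗ[K] E := fun w =>
    { toFun := fun z => d0 (z * w) - z * d0 w - w * d0 z
      map_add' := by
        intro z z'
        rw [add_mul, hadd, hadd]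
        ring
      map_smul' := by
        intro r z
        rw [smul_mul_assoc, hsm, hsm, RingHom.id_apply, Algebra.smul_def, Algebra.smul_def]
        ring }
  have hL : ∀ w z, L w z = d0 (z * w) - z * d0 w - w * d0 z := fun w z => rfl
  have hsymm : ∀ w z, L w z = L z w := by
    intro w z
    rw [hL, hL, mul_comm z w]
    ring
  have hLe : ∀ i j, L (e j) (e i) = 0 := by
    intro i j
    rw [hL, hei, hei, hd0, ← h i j]
    ring
  have hLe' : ∀ j, L (e j) = 0 := by
    intro j
    refine e.ext fun i => ?_
    rw [hLe, LinearMap.zero_apply]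
  have hLw : ∀ w, L w = 0 := by
    intro w
    refine e.ext fun i => ?_
    rw [hsymm, hLe', LinearMap.zero_apply, LinearMap.zero_apply]
  refine ⟨Derivation.mk' (AddMonoidHom.toIntLinearMap
    { toFun := d0
      map_zero' := hzero
      map_add' := hadd }) ?_, ?_, hei⟩
  · intro z w
    show d0 (z * w) = z • d0 w + w • d0 z
    have h1 : L w z = 0 := by rw [hLw, LinearMap.zero_apply]
    rw [hL] at h1
    rw [smul_eq_mul, smul_eq_mul]
    linear_combination h1
  · intro r
    show d0 (algebraMap K E r) = algebraMap K E (dK r)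
    have h1 : d0 1 = 0 := by
      have h2 : L 1 1 = 0 := by rw [hLw, LinearMap.zero_apply]
      rw [hL] at h2
      rw [one_mul, one_mul] at h2
      linear_combination -h2
    rw [← mul_one (algebraMap K E r), ← Algebra.smul_def, hsm, h1]
    ring

theorem tr_eq (z : E) : Algebra.trace K E z = ∑ j, e.repr (z * e j) j := by
  rw [Algebra.trace_eq_matrix_trace e z]
  unfold Matrix.trace
  refine Finset.sum_congr rfl fun j _ => ?_
  rw [Matrix.diag_apply, Algebra.leftMulMatrix_eq_repr_mul]

include e in
theorem tr_der (dK : Derivation ℤ K K) (d : Derivation ℤ E E)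
    (hd : ∀ r, d (algebraMap K E r) = algebraMap K E (dK r)) (z : E) :
    Algebra.trace K E (d z) = dK (Algebra.trace K E z) := by
  have hsm : ∀ (r : K) (w : E), d (r • w) = dK r • w + r • d w := by
    intro r w
    rw [Algebra.smul_def, Derivation.leibniz, hd, smul_eq_mul, smul_eq_mul, Algebra.smul_def,
      Algebra.smul_def]
    ring
  have hrepr : ∀ (w : E) (l : Fin n), e.repr (d w) l =
      dK (e.repr w l) + ∑ k, e.repr w k * e.repr (d (e k)) l := by
    intro w l
    have h1 : d w = ∑ k, (dK (e.repr w k) • e k + e.repr w k • d (e k)) := by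
      conv_lhs => rw [← e.sum_repr w, map_sum]
      exact Finset.sum_congr rfl fun k _ => hsm _ _
    rw [h1, map_sum, Finsupp.finsetSum_apply]
    have h2 : ∀ k, (e.repr (dK (e.repr w k) • e k + e.repr w k • d (e k))) l =
        (if k = l then dK (e.repr w k) else 0) + e.repr w k * e.repr (d (e k)) l := by
      intro k
      rw [map_add, map_smul, map_smul, Finsupp.add_apply, Finsupp.smul_apply, Finsupp.smul_apply,
        e.repr_self, Finsupp.single_apply, smul_eq_mul, smul_eq_mul]
      split_ifs <;> simp
    rw [Finset.sum_congr rfl fun k _ => h2 k, Finset.sum_add_distrib,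
      Finset.sum_ite_eq' Finset.univ l, if_pos (Finset.mem_univ l)]
  rw [tr_eq e, tr_eq e, map_sum]
  have h1 : ∀ j, e.repr (d z * e j) j = dK (e.repr (z * e j) j) +
      ((∑ k, e.repr (z * e j) k * e.repr (d (e k)) j) -
        ∑ k, e.repr (d (e j)) k * e.repr (z * e k) j) := by
    intro j
    have h2 : d z * e j = d (z * e j) - z * d (e j) := by
      rw [Derivation.leibniz, smul_eq_mul, smul_eq_mul]
      ring
    have h3 : z * d (e j) = ∑ k, e.repr (d (e j)) k • (z * e k) := by
      conv_lhs => rw [← e.sum_repr (d (e j)), Finset.mul_sum]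
      exact Finset.sum_congr rfl fun k _ => mul_smul_comm _ _ _
    rw [h2, map_sub, Finsupp.sub_apply, hrepr, h3, map_sum, Finsupp.finsetSum_apply]
    have h4 : ∀ k, (e.repr (e.repr (d (e j)) k • (z * e k))) j =
        e.repr (d (e j)) k * e.repr (z * e k) j := by
      intro k
      rw [map_smul, Finsupp.smul_apply, smul_eq_mul]
    rw [Finset.sum_congr rfl fun k _ => h4 k]
    ring
  rw [Finset.sum_congr rfl fun j _ => h1 j, Finset.sum_add_distrib, Finset.sum_sub_distrib]
  have h5 : ∑ j, ∑ k, e.repr (d (e j)) k * e.repr (z * e k) j =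
      ∑ j, ∑ k, e.repr (z * e j) k * e.repr (d (e k)) j := by
    rw [Finset.sum_comm]
    refine Finset.sum_congr rfl fun j _ => Finset.sum_congr rfl fun k _ => mul_comm _ _
  rw [h5, sub_self, add_zero]

end MPadcCov
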