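import Mathlib

/-!
# JOB Jac: closed points of a finitely generated ring

`A` is a finitely generated ring, so it is a Jacobson ring (`ℤ` is: `isJacobsonRing_of_finiteType` or
the instance for `Algebra.FiniteType ℤ A`), and the residue fields at maximal ideals are finite
(`Ideal.Quotient`… search: `finite_of_finite_type_of_isJacobsonRing`,
`RingHom.FiniteType`, `Int` : `AlgebraicGeometry`-free statement
`Algebra.FiniteType ℤ (A ⧸ 𝔪)` and a field: by Zariski's lemma the characteristic is a prime and the
field is finite over `ZMod p`; see how `IsJacobsonRing` gives `Module.Finite` for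
`Field K, Algebra.FiniteType R K`; first show that `ℤ → A ⧸ 𝔪` is not injective).
`ker φ` is prime (`κ` is a field) and radical, so it is the intersection of the maximal ideals above
it (`Ideal.IsJacobson`, `IsJacobsonRing.out`), and `g ∉ ker φ` gives the maximal ideal.
-/

set_option autoImplicit false

namespace MPadcCov

universe u

private theorem Jac_int : IsJacobsonRing ℤ := by
  rw [isJacobsonRing_iff_prime_eq]
  intro P hP
  by_cases h : P = ⊥
  · subst h
    rw [eq_bot_iff]
    intro x hx
    rw [Ideal.mem_bot]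
    by_contra hx0
    obtain ⟨p, hpx, hp⟩ := Nat.exists_infinite_primes (x.natAbs + 1)
    have hmax : (Ideal.span {(p : ℤ)}).IsMaximal := by
      apply PrincipalIdealRing.isMaximal_of_irreducible
      exact (Nat.prime_iff_prime_int.1 hp).irreducible
    rw [Ideal.jacobson, Ideal.mem_sInf] at hx
    have h1 := hx ⟨bot_le, hmax⟩
    rw [Ideal.mem_span_singleton] at h1
    have h2 := Nat.le_of_dvd (Int.natAbs_pos.2 hx0) (Int.natCast_dvd.1 h1)
    omega
  · have hmax : P.IsMaximal := hP.isMaximal h
    exact Ideal.jacobson_eq_self_of_isMaximal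

private theorem Jac_fin (F : Type*) [Field F] (f : ℤ →+* F) (hf : f.FiniteType) : Finite F := by
  have := Jac_int
  have hfin : f.Finite := RingHom.finite_iff_finiteType_of_isJacobsonRing.2 hf
  have hint : f.IsIntegral := hfin.to_isIntegral
  have hnot : ¬ Function.Injective f := by
    intro hinj
    have hf0 : f = algebraMap ℤ F := Subsingleton.elim _ _
    rw [hf0] at hint hinj
    have hint2 : Algebra.IsIntegral ℤ F := ⟨hint⟩
    have h1 : IsField ℤ := isField_of_isIntegral_of_isField hinj (Field.toIsField F)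
    obtain ⟨b, hb⟩ := h1.mul_inv_cancel (a := 2) (by norm_num)
    omega
  rw [injective_iff_map_eq_zero] at hnot
  push Not at hnot
  obtain ⟨a, ha, ha0⟩ := hnot
  have hfz : Module.Finite ℤ F := by
    have h1 : @Module.Finite ℤ F _ _ f.toAlgebra.toModule := hfin
    have h2 : f.toAlgebra.toModule = (inferInstance : Module ℤ F) := Subsingleton.elim _ _
    rw [h2] at h1
    exact h1
  refine Module.finite_of_fg_torsion F ?_
  intro x
  refine ⟨⟨a, mem_nonZeroDivisors_of_ne_zero ha0⟩, ?_⟩
  show a • x = 0
  have h3 : (a : F) = 0 := by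
    rw [← ha]
    exact (eq_intCast f a).symm
  rw [zsmul_eq_mul, h3, zero_mul]

theorem exists_max {A : Type u} [CommRing A] [Algebra.FiniteType ℤ A] {κ : Type u} [Field κ]
    (φ : A →+* κ) (g : A) (hg : φ g ≠ 0) :
    ∃ 𝔪 : Ideal A, 𝔪.IsMaximal ∧ RingHom.ker φ ≤ 𝔪 ∧ g ∉ 𝔪 ∧ Finite (A ⧸ 𝔪) := by
  have hJ := Jac_int
  have hA : IsJacobsonRing A := isJacobsonRing_of_finiteType (A := ℤ)
  have hp : (RingHom.ker φ).IsPrime := RingHom.ker_isPrime φ
  have h1 : (RingHom.ker φ).jacobson = RingHom.ker φ := hA.out hp.isRadical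
  have h2 : g ∉ (RingHom.ker φ).jacobson := by
    rw [h1, RingHom.mem_ker]
    exact hg
  rw [Ideal.jacobson, Ideal.mem_sInf] at h2
  push Not at h2
  obtain ⟨𝔪, ⟨hle, hmax⟩, hgm⟩ := h2
  refine ⟨𝔪, hmax, hle, hgm, ?_⟩
  have hft : ((Ideal.Quotient.mk 𝔪).comp (algebraMap ℤ A)).FiniteType := by
    refine RingHom.FiniteType.comp_surjective ?_ Ideal.Quotient.mk_surjective
    exact RingHom.finiteType_algebraMap.2 inferInstance
  exact @Jac_fin (A ⧸ 𝔪) (Ideal.Quotient.field 𝔪) _ hft

end MPadcCov
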