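import Pool.Agent.Lib.MP_adc574_ag_Cov.RegK
import Pool.Agent.Lib.MP_adc574_ag_Cov.Der

/-!
# JOB Deg: degrees of rational functions and the derivations `d / dx`, `D`

* `dK_dle`: for `r = p / q`: `dK r = (p' q - p q') / q ^ 2`; `deg (p' q - p q') ≤ deg p + deg q - 1`.
  (`RatFunc.num`, `denom`, `RatFunc.intDegree = natDegree num - natDegree denom`.) Or: `r * pol q = pol p`,
  `dK r * pol q = pol p' - r * pol q'`, and `Dle` of the right-hand side is `≤ m - 1 + deg q`.
* `DK_dle`: the same with `deg (cD δ p) ≤ deg p`.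
* `cD_deg`: coefficientwise.
* `dK_X`, `DK_X`: `RatFunc.X = pol X`, and for the inverse: `0 = D (x * x⁻¹)`.
-/

set_option autoImplicit false

namespace MPadcCov

open Polynomial

variable {k : Type*} [Field k]

theorem dle_add {r r' : RatFunc k} {m : ℤ} (h : Dle r m) (h' : Dle r' m) : Dle (r + r') m := by
  by_cases h0 : r + r' = 0
  · exact Or.inl h0
  by_cases h1 : r = 0
  · rw [h1, zero_add]
    exact h'
  by_cases h2 : r' = 0
  · rw [h2, add_zero]
    exact h
  right
  refine (RatFunc.intDegree_add_le h2 h0).trans ?_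
  exact max_le (h.resolve_left h1) (h'.resolve_left h2)

theorem dle_mul {r r' : RatFunc k} {m m' : ℤ} (h : Dle r m) (h' : Dle r' m') :
    Dle (r * r') (m + m') := by
  by_cases h1 : r = 0
  · left
    rw [h1, zero_mul]
  by_cases h2 : r' = 0
  · left
    rw [h2, mul_zero]
  right
  rw [RatFunc.intDegree_mul h1 h2]
  exact add_le_add (h.resolve_left h1) (h'.resolve_left h2)

theorem dle_mono {r : RatFunc k} {m m' : ℤ} (h : Dle r m) (hm : m ≤ m') : Dle r m' := by
  rcases h with h | h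
  · exact Or.inl h
  · exact Or.inr (h.trans hm)

private theorem Deg_zpow (N : ℤ) : (RatFunc.X ^ N : RatFunc k) ≠ 0 ∧
    (RatFunc.X ^ N : RatFunc k).intDegree = N := by
  refine ⟨zpow_ne_zero _ RatFunc.X_ne_zero, ?_⟩
  have hn : ∀ m : ℕ, (RatFunc.X ^ m : RatFunc k).intDegree = m := by
    intro m
    have h1 : (RatFunc.X ^ m : RatFunc k) = algebraMap k[X] (RatFunc k) (X ^ m) := by
      rw [map_pow, RatFunc.algebraMap_X]
    rw [h1, RatFunc.intDegree_polynomial, natDegree_X_pow]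
  cases N with
  | ofNat m =>
    rw [Int.ofNat_eq_natCast, zpow_natCast, hn]
  | negSucc m =>
    rw [zpow_negSucc, RatFunc.intDegree_inv, hn]
    rfl

theorem dle_xpow_mul (r : RatFunc k) (m : ℤ) (N : ℤ) :
    Dle (RatFunc.X ^ N * r) (m + N) ↔ Dle r m := by
  obtain ⟨h0, h1⟩ := Deg_zpow (k := k) N
  constructor
  · intro h
    by_cases hr : r = 0
    · exact Or.inl hr
    right
    have h2 := h.resolve_left (mul_ne_zero h0 hr)
    rw [RatFunc.intDegree_mul h0 hr, h1] at h2
    omega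
  · intro h
    have h2 : Dle (RatFunc.X ^ N : RatFunc k) N := Or.inr h1.le
    have h3 := dle_mul h2 h
    rw [add_comm] at h3
    exact h3

private theorem Deg_coeff {R : Type*} [CommRing R] (δ : Derivation ℤ R R) (p : R[X]) (m : ℕ) :
    (cD δ p).coeff m = δ (p.coeff m) := by
  unfold cD
  rw [Polynomial.sum_def, Polynomial.finsetSum_coeff]
  simp only [coeff_monomial]
  rw [Finset.sum_ite_eq']
  by_cases hm : m ∈ p.support
  · rw [if_pos hm]
  · rw [if_neg hm, Polynomial.notMem_support_iff.1 hm, map_zero]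

theorem cD_deg (δ : Derivation ℤ k k) (p : k[X]) : (cD δ p).natDegree ≤ p.natDegree := by
  rw [natDegree_le_iff_coeff_eq_zero]
  intro N hN
  rw [Deg_coeff, coeff_eq_zero_of_natDegree_lt hN, map_zero]

private theorem Deg_pol_ne {q : k[X]} (hq : q ≠ 0) : pol q ≠ 0 := by
  intro h0
  exact hq ((IsFractionRing.injective k[X] (RatFunc k)) (by rw [map_zero]; exact h0))

private theorem Deg_pol_dle (p : k[X]) : Dle (pol p) p.natDegree := by
  right
  exact (RatFunc.intDegree_polynomial).le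

private theorem Deg_quot (Δ : Derivation ℤ (RatFunc k) (RatFunc k)) (c : ℤ)
    (hc : ∀ p : k[X], Dle (Δ (pol p)) ((p.natDegree : ℤ) + c)) (r : RatFunc k) (m : ℤ)
    (h : Dle r m) : Dle (Δ r) (m + c) := by
  by_cases hr : r = 0
  · left
    rw [hr, map_zero]
  have h := h.resolve_left hr
  obtain ⟨p, q, hq, rfl⟩ := IsFractionRing.div_surjective (A := k[X]) r
  have hq0 : q ≠ 0 := nonZeroDivisors.ne_zero hq
  have hq1 : pol q ≠ 0 := Deg_pol_ne hq0
  have hp0 : p ≠ 0 := by
    intro h0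
    apply hr
    rw [h0, map_zero, zero_div]
  have hp1 : pol p ≠ 0 := Deg_pol_ne hp0
  have h1 : (pol p / pol q) * pol q = pol p := div_mul_cancel₀ _ hq1
  have h2 : Δ (pol p) = (pol p / pol q) * Δ (pol q) + pol q * Δ (pol p / pol q) := by
    conv_lhs => rw [← h1]
    rw [Derivation.leibniz, smul_eq_mul, smul_eq_mul]
  have hdeg : (pol p / pol q).intDegree = (p.natDegree : ℤ) - q.natDegree := by
    rw [RatFunc.intDegree_div hp1 hq1, RatFunc.intDegree_polynomial, RatFunc.intDegree_polynomial]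
  have h' : (p.natDegree : ℤ) - q.natDegree ≤ m := by
    rw [← hdeg]
    exact h
  by_cases h0 : Δ (pol p / pol q) = 0
  · exact Or.inl h0
  right
  have h3 : pol q * Δ (pol p / pol q) = Δ (pol p) + -1 * ((pol p / pol q) * Δ (pol q)) := by
    rw [h2]
    ring
  have h4 : Dle (pol q * Δ (pol p / pol q)) ((p.natDegree : ℤ) + c) := by
    rw [h3]
    refine dle_add (hc p) ?_
    have h5 : Dle (-1 : RatFunc k) 0 := by
      right
      rw [RatFunc.intDegree_neg, RatFunc.intDegree_one]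
    have h6 := dle_mul h5 (dle_mul (Or.inr hdeg.le : Dle (pol p / pol q) _) (hc q))
    refine dle_mono h6 ?_
    omega
  have h7 := h4.resolve_left (mul_ne_zero hq1 h0)
  rw [RatFunc.intDegree_mul hq1 h0, RatFunc.intDegree_polynomial] at h7
  show (Δ (pol p / pol q)).intDegree ≤ m + c
  omega

theorem dK_dle {dK : Derivation ℤ (RatFunc k) (RatFunc k)}
    (hd : ∀ p : k[X], dK (pol p) = pol (derivative p)) (r : RatFunc k) (m : ℤ) (h : Dle r m) :
    Dle (dK r) (m - 1) := by
  refine Deg_quot dK (-1) ?_ r m h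
  intro p
  rw [hd]
  by_cases h0 : derivative p = 0
  · left
    rw [h0]
    exact map_zero _
  · refine dle_mono (Deg_pol_dle _) ?_
    have h1 : p.natDegree ≠ 0 := by
      intro h2
      apply h0
      rw [eq_C_of_natDegree_eq_zero h2, derivative_C]
    have h3 := natDegree_derivative_lt h1
    omega

theorem DK_dle {δ : Derivation ℤ k k} {DK : Derivation ℤ (RatFunc k) (RatFunc k)}
    (hd : ∀ p : k[X], DK (pol p) = pol (cD δ p)) (r : RatFunc k) (m : ℤ) (h : Dle r m) :
    Dle (DK r) m := by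
  have h1 := Deg_quot DK 0 (fun p => ?_) r m h
  · rw [add_zero] at h1
    exact h1
  · rw [hd]
    refine dle_mono (Deg_pol_dle _) ?_
    have := cD_deg δ p
    omega

private theorem Deg_zpow_der (Δ : Derivation ℤ (RatFunc k) (RatFunc k)) (w : RatFunc k)
    (hw : Δ RatFunc.X = w) (N : ℤ) :
    Δ (RatFunc.X ^ N) = (N : RatFunc k) * RatFunc.X ^ (N - 1) * w := by
  have hX : (RatFunc.X : RatFunc k) ≠ 0 := RatFunc.X_ne_zero
  have hn : ∀ m : ℕ, Δ (RatFunc.X ^ (m : ℤ)) = ((m : ℤ) : RatFunc k) * RatFunc.X ^ ((m : ℤ) - 1) * w := by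
    intro m
    induction m with
    | zero => simp
    | succ m ih =>
      have h1 : (RatFunc.X ^ ((m + 1 : ℕ) : ℤ) : RatFunc k) = RatFunc.X ^ (m : ℤ) * RatFunc.X := by
        rw [Nat.cast_succ, zpow_add_one₀ hX]
      have h2 : (RatFunc.X ^ (((m + 1 : ℕ) : ℤ) - 1) : RatFunc k) = RatFunc.X ^ (m : ℤ) := by
        rw [Nat.cast_succ, add_sub_cancel_right]
      have h3 : (RatFunc.X ^ (m : ℤ) : RatFunc k) = RatFunc.X ^ ((m : ℤ) - 1) * RatFunc.X := by
        rw [← zpow_add_one₀ hX, sub_add_cancel]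
      rw [h2, h1, Derivation.leibniz, ih, hw, smul_eq_mul, smul_eq_mul, h3]
      push_cast
      ring
  rcases Int.eq_nat_or_neg N with ⟨m, rfl | rfl⟩
  · exact hn m
  · have h1 : (RatFunc.X ^ (m : ℤ) : RatFunc k) * RatFunc.X ^ (-(m : ℤ)) = 1 := by
      rw [← zpow_add₀ hX, add_neg_cancel, zpow_zero]
    have h2 : Δ ((RatFunc.X ^ (m : ℤ) : RatFunc k) * RatFunc.X ^ (-(m : ℤ))) = 0 := by
      rw [h1, Derivation.map_one_eq_zero]
    rw [Derivation.leibniz, smul_eq_mul, smul_eq_mul, hn] at h2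
    have h3 : (RatFunc.X ^ (m : ℤ) : RatFunc k) ≠ 0 := zpow_ne_zero _ hX
    apply mul_left_cancel₀ h3
    have h4 : (RatFunc.X ^ (-(m : ℤ) - 1) : RatFunc k) =
        RatFunc.X ^ (-(m : ℤ)) * (RatFunc.X ^ ((m : ℤ) - 1) * RatFunc.X ^ (-(m : ℤ))) := by
      rw [← zpow_add₀ hX, ← zpow_add₀ hX]
      congr 1
      ring
    rw [h4]
    push_cast at h2 ⊢
    linear_combination h2 + (m : RatFunc k) * RatFunc.X ^ (-(m : ℤ)) * RatFunc.X ^ ((m : ℤ) - 1) * w * h1

theorem dK_xpow {dK : Derivation ℤ (RatFunc k) (RatFunc k)}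
    (hd : ∀ p : k[X], dK (pol p) = pol (derivative p)) (N : ℤ) :
    dK (RatFunc.X ^ N) = (N : RatFunc k) * RatFunc.X ^ (N - 1) := by
  have h1 : dK RatFunc.X = 1 := by
    have h2 := hd X
    rw [derivative_X] at h2
    have h3 : (RatFunc.X : RatFunc k) = pol X := RatFunc.algebraMap_X.symm
    rw [h3, h2]
    exact map_one _
  rw [Deg_zpow_der dK 1 h1, mul_one]

theorem DK_xpow {δ : Derivation ℤ k k} {DK : Derivation ℤ (RatFunc k) (RatFunc k)}
    (hd : ∀ p : k[X], DK (pol p) = pol (cD δ p)) (N : ℤ) : DK (RatFunc.X ^ N) = 0 := by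
  have h1 : DK RatFunc.X = 0 := by
    have h2 := hd X
    have h4 : cD δ (X : k[X]) = 0 := by
      ext m
      rw [Deg_coeff, coeff_X, coeff_zero]
      split_ifs
      · exact Derivation.map_one_eq_zero δ
      · exact map_zero δ
    have h3 : (RatFunc.X : RatFunc k) = pol X := RatFunc.algebraMap_X.symm
    rw [h3, h2, h4]
    exact map_zero _
  rw [Deg_zpow_der DK 0 h1, mul_zero]

private theorem Deg_conv {R : Type*} [CommRing R] (i1 i2 : Algebra ℤ R)
    (D : @Derivation ℤ R R _ _ _ i1 _ _) :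
    ∃ D' : @Derivation ℤ R R _ _ _ i2 _ _, ∀ x, D' x = D x := by
  obtain rfl : i1 = i2 := Subsingleton.elim _ _
  exact ⟨D, fun x => rfl⟩

private theorem Deg_mk {R : Type*} [CommRing R] (F : R → R) (h0 : F 0 = 0)
    (ha : ∀ p q, F (p + q) = F p + F q) (hm : ∀ p q, F (p * q) = p * F q + q * F p) :
    ∃ D : Derivation ℤ R R, ∀ p, D p = F p :=
  ⟨Derivation.mk' (AddMonoidHom.toIntLinearMap { toFun := F, map_zero' := h0, map_add' := ha }) hm,
    fun _ => rfl⟩

private theorem Deg_exists (F : k[X] → k[X]) (h0 : F 0 = 0)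
    (ha : ∀ p q, F (p + q) = F p + F q) (hm : ∀ p q, F (p * q) = p * F q + q * F p) :
    ∃ D : Derivation ℤ (RatFunc k) (RatFunc k), ∀ p : k[X], D (pol p) = pol (F p) := by
  obtain ⟨Dp, hDp⟩ := Deg_mk F h0 ha hm
  obtain ⟨d0, h1⟩ := ext_frac (K := RatFunc k) Dp
  obtain ⟨d1, h2⟩ := Deg_conv _ (RatFunc.instAlgebraOfPolynomial k ℤ) d0
  exact ⟨d1, fun p => ((h2 _).trans (h1 p)).trans (congrArg _ (hDp p))⟩

/-- A derivation of `k(x)` with given values on the polynomials exists. -/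
theorem exists_dK : ∃ dK : Derivation ℤ (RatFunc k) (RatFunc k),
    ∀ p : k[X], dK (pol p) = pol (derivative p) := by
  refine Deg_exists (fun p => derivative p) derivative_zero (fun p q => derivative_add) ?_
  intro p q
  show derivative (p * q) = p * derivative q + q * derivative p
  rw [derivative_mul]
  ring

theorem exists_DK (δ : Derivation ℤ k k) : ∃ DK : Derivation ℤ (RatFunc k) (RatFunc k),
    ∀ p : k[X], DK (pol p) = pol (cD δ p) := by
  refine Deg_exists (fun p => cD δ p) ?_ ?_ ?_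
  · show cD δ (0 : k[X]) = 0
    ext m
    rw [Deg_coeff, coeff_zero, map_zero]
  · intro p q
    show cD δ (p + q) = cD δ p + cD δ q
    ext m
    rw [Deg_coeff, coeff_add, map_add, coeff_add, Deg_coeff, Deg_coeff]
  · intro p q
    show cD δ (p * q) = p * cD δ q + q * cD δ p
    ext m
    rw [Deg_coeff, coeff_mul, map_sum, coeff_add, mul_comm q, coeff_mul, coeff_mul,
      ← Finset.sum_add_distrib]
    refine Finset.sum_congr rfl fun x _ => ?_
    rw [Derivation.leibniz, Deg_coeff, Deg_coeff, smul_eq_mul, smul_eq_mul,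
      mul_comm (δ (p.coeff x.1))]

end MPadcCov
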