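import Pool.Agent.Lib.MP_adc574_ag_Cov.LocC

/-!
# JOB Pt: derivations at the points of the line

`Bir`: a cover of the line with a Birkhoff basis in characteristic `0`, `t` the moving branch point,
`s` the finite set of the other branch points. `Δ` is a derivation of `L` which extends the derivation
`ΔK` of `k(x)`, and `ΔK` maps polynomials to polynomials (`hP`).
* `derRb`: `ΔK` maps `Rb b` to itself: `q r = p` gives `q ΔK r = ΔK p - r ΔK q`, multiply by `q`: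
  `q ^ 2 ΔK r` is a polynomial (`mem_Rb_iff`).
* `Bir.pt_log`: `local_log` with `S = Rb b`, `π = pol (X - C b)`, `ι = algebraMap k (RatFunc k)` or
  `(algebraMap k[X] (RatFunc k)).comp C`, `residue_Rb`, `irreducible_Rb`.
* `Bir.pt_any`: `local_any`.
* `Bir.pt_unram`: `b ∉ s`, `b ≠ t`: the determinant `pol ((X - C t) * h)` is a unit of `Rb b` (`h.eval b ≠ 0`,
  otherwise `b ∈ s`): its inverse lies in `Rb b` (`mem_Rb_iff`). So an element `m` with
  `Tr (m * z) ∈ Rb b` for all integral `z` is integral (`local_unram`, `intRb_iff`).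
* `Bir.pt_der`: combine `pt_any` and `pt_unram`.
* `Bir.pt_tame`: `local_tame`.
* `Bir.inf_log`, `Bir.inf_tame`: `local_log`, `local_tame` for `S = Oinf k`, `π = RatFunc.X⁻¹`, with
  `irreducible_Oinf`, `residue_Oinf`.
-/

set_option autoImplicit false

namespace MPadcCov

open Polynomial

/-- A cover of the line with a Birkhoff basis. -/
structure Bir {k : Type*} [Field k] {L : Type*} [Field L] [Algebra (RatFunc k) L] {n : ℕ}
    (e : Module.Basis (Fin n) (RatFunc k) L) (a : Fin n → ℕ) (t : k) (s : Finset k) (h : k[X]) :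
    Prop where
  hX : ∀ z : L, IntX k z ↔ InB e z
  hI : ∀ z : L, IntO k z ↔ ∀ i, Dle (e.repr z i) (-(a i : ℤ))
  disc : (Matrix.of fun i j => Tr k L (e i * e j)).det = pol ((X - C t) * h)
  ht : h.eval t ≠ 0
  hs : ∀ b, h.eval b = 0 → b ∈ s
  ts : t ∉ s

variable {k : Type*} [Field k] [IsAlgClosed k] [CharZero k] {L : Type*} [Field L]
  [Algebra (RatFunc k) L] [FiniteDimensional (RatFunc k) L] {n : ℕ}
  {e : Module.Basis (Fin n) (RatFunc k) L} {a : Fin n → ℕ} {t : k} {s : Finset k} {h : k[X]}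

/-- The same derivation for the canonical structure of a `ℤ`-algebra. -/
private noncomputable def Pt_der (ΔK : Derivation ℤ (RatFunc k) (RatFunc k)) :
    @Derivation ℤ (RatFunc k) (RatFunc k) _ _ _ (Ring.toIntAlgebra _) _ _ :=
  @Derivation.mk ℤ (RatFunc k) (RatFunc k) _ _ _ (Ring.toIntAlgebra _) _ _
    (ΔK.toLinearMap.toAddMonoidHom.toIntLinearMap) (ΔK.map_one_eq_zero)
    (fun x y => ΔK.leibniz x y)

theorem derRb {ΔK : Derivation ℤ (RatFunc k) (RatFunc k)} (hP : ∀ p : k[X], IsPol (ΔK (pol p)))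
    (b : k) (r : RatFunc k) (hr : r ∈ Rb b) : ΔK r ∈ Rb b := by
  obtain ⟨p, q, hq, hqr⟩ := mem_Rb_iff.1 hr
  obtain ⟨p', hp'⟩ := hP p
  obtain ⟨q', hq'⟩ := hP q
  rw [mem_Rb_iff]
  refine ⟨q * p' - p * q', q ^ 2, ?_, ?_⟩
  · rw [eval_pow]
    exact pow_ne_zero 2 hq
  · have h1 : ΔK (pol q * r) = pol q * ΔK r + r * ΔK (pol q) := by
      rw [ΔK.leibniz, smul_eq_mul, smul_eq_mul]
    rw [hqr, ← hp', ← hq'] at h1
    simp only [pol, map_sub, map_mul, map_pow] at h1 hqr ⊢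
    linear_combination (-(algebraMap k[X] (RatFunc k) q)) * h1 -
      (algebraMap k[X] (RatFunc k) q') * hqr

theorem pt_log {ΔK : Derivation ℤ (RatFunc k) (RatFunc k)} {Δ : Derivation ℤ L L}
    (hΔ : ∀ r, Δ (algebraMap (RatFunc k) L r) = algebraMap (RatFunc k) L (ΔK r))
    (hP : ∀ p : k[X], IsPol (ΔK (pol p))) (b : k)
    (hb : ∃ p : k[X], ΔK (pol (X - C b)) = pol (X - C b) * pol p) (z : L)
    (hz : IntS (Rb b) z) : IntS (Rb b) (Δ z) := by
  obtain ⟨p, hp⟩ := hb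
  exact local_log (k := k) (Rb b) ((algebraMap k[X] (RatFunc k)).comp (C : k →+* k[X]))
    (fun c => pol_mem_Rb b (C c)) ⟨pol (X - C b), pol_mem_Rb b _⟩ (irreducible_Rb b)
    (residue_Rb b) (Pt_der ΔK) Δ hΔ (fun r hr => derRb hP b r hr)
    ⟨pol p, pol_mem_Rb b p, hp⟩ z hz

theorem pt_any {ΔK : Derivation ℤ (RatFunc k) (RatFunc k)} {Δ : Derivation ℤ L L}
    (hΔ : ∀ r, Δ (algebraMap (RatFunc k) L r) = algebraMap (RatFunc k) L (ΔK r))
    (hP : ∀ p : k[X], IsPol (ΔK (pol p))) (b : k) (z w : L)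
    (hz : IntS (Rb b) z) (hw : IntS (Rb b) w) : Tr k L (Δ z * w) ∈ Rb b := by
  exact local_any (k := k) (Rb b) ((algebraMap k[X] (RatFunc k)).comp (C : k →+* k[X]))
    (fun c => pol_mem_Rb b (C c)) ⟨pol (X - C b), pol_mem_Rb b _⟩ (irreducible_Rb b)
    (residue_Rb b) (Pt_der ΔK) Δ hΔ (fun r hr => derRb hP b r hr) z w hz hw

theorem Bir.pt_unram (H : Bir e a t s h) (b : k) (hbs : b ∉ s) (hbt : b ≠ t) (m : L)
    (hm : ∀ z : L, IntS (Rb b) z → Tr k L (m * z) ∈ Rb b) : IntS (Rb b) m := by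
  have hbh : h.eval b ≠ 0 := fun h0 => hbs (H.hs b h0)
  have hev : ((X - C t) * h).eval b ≠ 0 := by
    rw [eval_mul, eval_sub, eval_X, eval_C]
    exact mul_ne_zero (sub_ne_zero.2 hbt) hbh
  have hne : ((X - C t) * h) ≠ 0 := by
    rintro h0
    rw [h0, eval_zero] at hev
    exact hev rfl
  have hpne : pol ((X - C t) * h) ≠ 0 := by
    rw [pol, Ne, FaithfulSMul.algebraMap_eq_zero_iff]
    exact hne
  refine local_unram (Rb b) e (intRb_iff H.hX b) ?_ ?_ m hm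
  · have h1 := H.disc
    rw [Tr] at h1
    rw [h1, mem_Rb_iff]
    refine ⟨1, (X - C t) * h, hev, ?_⟩
    rw [mul_inv_cancel₀ hpne, pol, map_one]
  · have h1 := H.disc
    rw [Tr] at h1
    rw [h1]
    exact hpne

theorem Bir.pt_der (H : Bir e a t s h) {ΔK : Derivation ℤ (RatFunc k) (RatFunc k)}
    {Δ : Derivation ℤ L L}
    (hΔ : ∀ r, Δ (algebraMap (RatFunc k) L r) = algebraMap (RatFunc k) L (ΔK r))
    (hP : ∀ p : k[X], IsPol (ΔK (pol p))) (b : k) (hbs : b ∉ s) (hbt : b ≠ t) (z : L)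
    (hz : IntS (Rb b) z) : IntS (Rb b) (Δ z) :=
  H.pt_unram b hbs hbt (Δ z) fun w hw => pt_any hΔ hP b z w hz hw

theorem pt_tame (b : k) (m : L) (hm : ∀ z : L, IntS (Rb b) z → Tr k L (m * z) ∈ Rb b) :
    IntS (Rb b) (algebraMap (RatFunc k) L (pol (X - C b)) * m) := by
  exact local_tame (k := k) (Rb b) ((algebraMap k[X] (RatFunc k)).comp (C : k →+* k[X]))
    (fun c => pol_mem_Rb b (C c)) ⟨pol (X - C b), pol_mem_Rb b _⟩ (irreducible_Rb b)
    (residue_Rb b) m hm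

theorem inf_log {ΔK : Derivation ℤ (RatFunc k) (RatFunc k)} {Δ : Derivation ℤ L L}
    (hΔ : ∀ r, Δ (algebraMap (RatFunc k) L r) = algebraMap (RatFunc k) L (ΔK r))
    (hP : ∀ r, Dle r 0 → Dle (ΔK r) 0)
    (hb : ∃ w : RatFunc k, Dle w 0 ∧ ΔK RatFunc.X⁻¹ = RatFunc.X⁻¹ * w) (z : L) (hz : IntO k z) :
    IntO k (Δ z) := by
  exact local_log (k := k) (Oinf k) ((algebraMap k[X] (RatFunc k)).comp (C : k →+* k[X]))
    (fun c => C_mem_Oinf c) ⟨RatFunc.X⁻¹, inv_mem_Oinf⟩ irreducible_Oinf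
    residue_Oinf (Pt_der ΔK) Δ hΔ (fun r hr => hP r hr) hb z hz

theorem inf_tame (m : L) (hm : ∀ z : L, IntO k z → Dle (Tr k L (m * z)) 0) :
    IntO k (algebraMap (RatFunc k) L RatFunc.X⁻¹ * m) := by
  exact local_tame (k := k) (Oinf k) ((algebraMap k[X] (RatFunc k)).comp (C : k →+* k[X]))
    (fun c => C_mem_Oinf c) ⟨RatFunc.X⁻¹, inv_mem_Oinf⟩ irreducible_Oinf
    residue_Oinf m hm

end MPadcCov
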