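import Mathlib

/-!
# The pole lemma for valuations, and the trace form of an Artinian algebra (helper12)
-/

set_option autoImplicit false

namespace MPadcCov

open WithZero

theorem val_natCast_le {L : Type*} [Field L] (v : Valuation L (WithZero (Multiplicative ℤ)))
    (n : ℕ) : v (n : L) ≤ 1 := by
  induction n with
  | zero =>
    rw [Nat.cast_zero, map_zero]
    exact zero_le
  | succ n ih =>
    rw [Nat.cast_succ]
    refine (Valuation.map_add v _ _).trans (max_le ih ?_)
    rw [map_one]

theorem val_intCast_le {L : Type*} [Field L] (v : Valuation L (WithZero (Multiplicative ℤ)))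
    (j : ℤ) : v (j : L) ≤ 1 := by
  rcases Int.eq_nat_or_neg j with ⟨m, rfl | rfl⟩
  · rw [Int.cast_natCast]
    exact val_natCast_le v m
  · rw [Int.cast_neg, Int.cast_natCast, Valuation.map_neg]
    exact val_natCast_le v m

/-- The pole lemma in valuation form: a derivation with bounded poles on the units which is
logarithmic at `π` and on the constants does not increase the valuation. -/
theorem val_log {L : Type*} [Field L] (v : Valuation L (WithZero (Multiplicative ℤ)))
    (Cst : Set L) (Δ : Derivation ℤ L L)
    (hCst : ∀ c ∈ Cst, v c ≤ 1 ∧ v (Δ c) ≤ 1)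
    (hres : ∀ x, v x = 1 → ∃ c ∈ Cst, v (x - c) < 1) (π : L) (e : ℕ) (he : e ≠ 0)
    (hπ : v π = exp (-(e : ℤ))) (hnat : v (e : L) = 1)
    (hlog : v (Δ π) ≤ v π) (N : ℕ) (hN : ∀ x, v x = 1 → v (Δ x) ≤ exp (N : ℤ)) :
    ∀ z, v (Δ z) ≤ v z := by
  have hπ0 : π ≠ 0 := by
    intro h
    rw [h, map_zero] at hπ
    exact exp_ne_zero hπ.symm
  -- the logarithmic derivative of a nonzero element in terms of units
  have key : ∀ (n : ℤ), 0 ≤ n → (∀ x, v x = 1 → v (Δ x) ≤ exp n) →
      ∀ x, x ≠ 0 → v (Δ x) ≤ v x * exp n := by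
    intro n hn hu x hx
    have hvx : v x ≠ 0 := (Valuation.ne_zero_iff v).2 hx
    obtain ⟨j, hj⟩ : ∃ j : ℤ, v x = exp j := ⟨log (v x), (exp_log hvx).symm⟩
    set y : L := x ^ e * π ^ j with hy
    have hvy : v y = 1 := by
      rw [hy, map_mul, map_pow, map_zpow₀, hj, hπ, ← exp_nsmul, ← exp_zsmul, ← exp_add,
        exp_eq_one]
      simp only [nsmul_eq_mul, smul_eq_mul]
      ring
    have hy0 : y ≠ 0 := mul_ne_zero (pow_ne_zero _ hx) (zpow_ne_zero _ hπ0)
    have h1 : Δ y = y * ((e : L) * (Δ x / x) + (j : L) * (Δ π / π)) := by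
      rw [hy, Derivation.leibniz, smul_eq_mul, smul_eq_mul]
      have h2 : Δ (x ^ e) = x ^ e * ((e : L) * (Δ x / x)) := by
        rw [Derivation.leibniz_pow]
        obtain ⟨l, hl⟩ : ∃ l, e = l + 1 := ⟨e - 1, by omega⟩
        rw [hl, Nat.add_sub_cancel, nsmul_eq_mul, smul_eq_mul]
        field_simp
        try ring
      have h3 : Δ (π ^ j) = π ^ j * ((j : L) * (Δ π / π)) := by
        rcases Int.eq_nat_or_neg j with ⟨m, rfl | rfl⟩
        · rw [zpow_natCast, Derivation.leibniz_pow, nsmul_eq_mul, smul_eq_mul]
          rcases Nat.eq_zero_or_pos m with h0 | h0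
          · subst h0
            simp
          · obtain ⟨l, hl⟩ : ∃ l, m = l + 1 := ⟨m - 1, by omega⟩
            rw [hl, Nat.add_sub_cancel]
            push_cast
            field_simp
            try ring
        · rw [zpow_neg, zpow_natCast, Derivation.leibniz_inv, Derivation.leibniz_pow,
            nsmul_eq_mul, smul_eq_mul, smul_eq_mul]
          rcases Nat.eq_zero_or_pos m with h0 | h0
          · subst h0
            simp
          · obtain ⟨l, hl⟩ : ∃ l, m = l + 1 := ⟨m - 1, by omega⟩
            rw [hl, Nat.add_sub_cancel]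
            push_cast
            field_simp
            try ring
      rw [h2, h3]
      ring
    have h4 : Δ x * (e : L) = x * (Δ y / y - (j : L) * (Δ π / π)) := by
      rw [h1]
      field_simp
      try ring
    have h5 : v (Δ x) = v x * v (Δ y / y - (j : L) * (Δ π / π)) := by
      rw [← map_mul, ← h4, map_mul, hnat, mul_one]
    rw [h5]
    apply mul_le_mul_right
    refine (Valuation.map_sub v _ _).trans (max_le ?_ ?_)
    · rw [map_div₀, hvy, div_one]
      exact hu y hvy
    · rw [map_mul, map_div₀]
      have hj1 : v (j : L) ≤ 1 := val_intCast_le v j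
      have hq : v (Δ π) / v π ≤ 1 := by
        apply div_le_one_of_le₀ hlog
        exact zero_le
      calc v (j : L) * (v (Δ π) / v π) ≤ 1 * 1 := mul_le_mul' hj1 hq
        _ = 1 := one_mul 1
        _ ≤ exp n := by
          rw [← exp_zero, exp_le_exp]
          exact hn
  -- descent
  have hdesc : ∀ n : ℕ, (∀ x, v x = 1 → v (Δ x) ≤ exp (n : ℤ)) →
      ∀ x, v x = 1 → v (Δ x) ≤ 1 := by
    intro n
    induction n with
    | zero =>
      intro h x hx
      have := h x hx
      simpa using this
    | succ n ih =>
      intro h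
      apply ih
      intro x hx
      obtain ⟨c, hc, hxc⟩ := hres x hx
      have h1n : (1 : WithZero (Multiplicative ℤ)) ≤ exp (n : ℤ) := by
        rw [← exp_zero, exp_le_exp]
        exact Int.natCast_nonneg n
      by_cases h0 : x - c = 0
      · rw [sub_eq_zero.1 h0]
        exact (hCst c hc).2.trans h1n
      · have h1 := key ((n + 1 : ℕ) : ℤ) (Int.natCast_nonneg _) h (x - c) h0
        have h2 : v (x - c) ≤ exp (-1 : ℤ) := by
          have hvx : v (x - c) ≠ 0 := (Valuation.ne_zero_iff v).2 h0
          rw [← exp_log hvx] at hxc ⊢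
          rw [← exp_zero, exp_lt_exp] at hxc
          rw [exp_le_exp]
          omega
        have h3 : v (Δ (x - c)) ≤ exp (n : ℤ) := by
          refine h1.trans ?_
          calc v (x - c) * exp ((n + 1 : ℕ) : ℤ) ≤ exp (-1 : ℤ) * exp ((n + 1 : ℕ) : ℤ) :=
                mul_le_mul_left h2 _
            _ = exp (n : ℤ) := by
              rw [← exp_add]
              congr 1
              push_cast
              ring
        have h4 : Δ x = Δ (x - c) + Δ c := by
          rw [map_sub]
          ring
        rw [h4]
        exact (Valuation.map_add v _ _).trans (max_le h3 ((hCst c hc).2.trans h1n))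
  intro z
  rcases eq_or_ne z 0 with h0 | h0
  · rw [h0, map_zero, map_zero]
  · have h1 := key 0 le_rfl (by
      intro x hx
      rw [exp_zero]
      exact hdesc N hN x hx) z h0
    rw [exp_zero, mul_one] at h1
    exact h1

/-- In a finite-dimensional commutative algebra over a field of characteristic zero an element
which is orthogonal to everything for the trace form is nilpotent. -/
theorem nilpotent_of_trace {κ R : Type*} [Field κ] [CharZero κ] [CommRing R] [Algebra κ R]
    [Module.Finite κ R] (y : R) (hy : ∀ r, Algebra.trace κ R (y * r) = 0) : IsNilpotent y := by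
  have hart : IsArtinianRing R := IsArtinianRing.of_finite κ R
  -- an idempotent in the stable part
  obtain ⟨n, hn⟩ : ∃ n : ℕ, ∀ m, n ≤ m → Ideal.span {y ^ n} = Ideal.span {y ^ m} := by
    have hanti : Antitone fun m : ℕ => Ideal.span {y ^ m} := by
      intro a b hab
      exact Ideal.span_singleton_le_span_singleton.2 (pow_dvd_pow y hab)
    obtain ⟨n, hn⟩ := IsArtinian.monotone_stabilizes
      (⟨fun m => OrderDual.toDual (Ideal.span {y ^ m}), fun a b hab => hanti hab⟩ :
        ℕ →o (Submodule R R)ᵒᵈ)
    exact ⟨n, fun m hm => hn m hm⟩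
  have h1 := hn (2 * n + 1) (by omega)
  have h2 : y ^ n ∈ Ideal.span {y ^ (2 * n + 1)} := by
    rw [← h1]
    exact Ideal.mem_span_singleton_self _
  obtain ⟨r, hr⟩ := Ideal.mem_span_singleton'.1 h2
  set ε : R := y ^ (n + 1) * r with hε
  have hεy : y ^ n * ε = y ^ n := by
    rw [hε]
    conv_rhs => rw [← hr]
    rw [two_mul, add_assoc, pow_add y n (n + 1)]
    ring
  have hidem : ε * ε = ε := by
    have : ε * ε = y * r * (y ^ n * ε) := by
      rw [hε, pow_succ]
      ring
    rw [this, hεy, hε, pow_succ]
    ring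
  have htr : Algebra.trace κ R ε = 0 := by
    have : ε = y * (y ^ n * r) := by
      rw [hε, pow_succ]
      ring
    rw [this]
    exact hy _
  have hε0 : ε = 0 := by
    have h3 : IsIdempotentElem (LinearMap.mulLeft κ ε) := by
      rw [IsIdempotentElem]
      ext x
      rw [Module.End.mul_apply, LinearMap.mulLeft_apply, LinearMap.mulLeft_apply, ← mul_assoc,
        hidem]
    have h4 := (LinearMap.IsIdempotentElem.trace_eq_zero_iff h3).1 htr
    have h5 := congrArg (fun f => f 1) h4
    simpa using h5
  refine ⟨n, ?_⟩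
  rw [← hεy, hε0, mul_zero]

end MPadcCov
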