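import Mathlib
import Pool.Agent.Lib.MP_adc574_ag_Cov.LocVal

/-!
# Local facts: derivations and the trace on the integral closure of a discrete valuation ring
(helper12)

`S` is a discrete valuation ring with field of fractions `K`, residue field `k` (algebraically
closed, characteristic `0`), `L / K` finite. `C` = the integral closure of `S` in `L`.
* `local_log`: the pole lemma `val_log` at every maximal ideal of `C`.
* `local_any`: `π Δ` is logarithmic and maps `C` to all maximal ideals of `C`, so `Tr (π Δ z w)` is
  nilpotent modulo `π`.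
* `local_tame`: if `π m` is not in `C`, then some multiple `y = π m n`, `n ∈ C`, is in `C` but not in
  some maximal ideal, and `Tr (y C) ⊆ π S`, so `y` is nilpotent modulo `π`: contradiction.
-/

set_option autoImplicit false

namespace MPadcCov

open IsDedekindDomain WithZero

/-- `z` is integral over the subring `S` of `K`. -/
def IntS {K : Type*} [Field K] (S : Subring K) {L : Type*} [CommRing L] [Algebra K L] (z : L) :
    Prop :=
  ((algebraMap K L).comp S.subtype).IsIntegralElem z

variable {k K L : Type*} [Field k] [IsAlgClosed k] [CharZero k] [Field K] [Field L] [Algebra K L]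
  [FiniteDimensional K L] (S : Subring K) [IsDiscreteValuationRing S] [IsFractionRing S K]
  (ι : k →+* K) (hι : ∀ c, ι c ∈ S) (π : S) (hπ : Irreducible π)
  (hres : ∀ r : S, ∃ c : k, π ∣ r - ⟨ι c, hι c⟩)

section general

/-- Every maximal ideal of the integral closure contains the uniformizer. -/
private theorem loc_pi_mem {S C : Type*} [CommRing S] [IsDomain S] [IsDiscreteValuationRing S]
    [CommRing C] [IsDedekindDomain C] [Algebra S C] [Algebra.IsIntegral S C] {π : S}
    (hπ : Irreducible π) (P : HeightOneSpectrum C) : algebraMap S C π ∈ P.asIdeal := by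
  have := P.isMaximal
  have h1 : (P.asIdeal.comap (algebraMap S C)).IsMaximal :=
    Ideal.isMaximal_comap_of_isIntegral_of_isMaximal P.asIdeal
  have h2 : P.asIdeal.comap (algebraMap S C) = IsLocalRing.maximalIdeal S :=
    IsLocalRing.eq_maximalIdeal h1
  rw [← Ideal.mem_comap, h2, hπ.maximalIdeal_eq]
  exact Ideal.mem_span_singleton_self π

/-- The residue fields of the integral closure are `k`. -/
private theorem loc_residue {k S C : Type*} [Field k] [IsAlgClosed k] [CommRing S] [IsDomain S]
    [IsDiscreteValuationRing S] [CommRing C] [IsDedekindDomain C] [Algebra S C]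
    [Algebra.IsIntegral S C] {π : S} (hπ : Irreducible π) (j : k →+* S)
    (hres : ∀ r : S, ∃ c : k, π ∣ r - j c) (P : HeightOneSpectrum C) (a : C) :
    ∃ c : k, a - algebraMap S C (j c) ∈ P.asIdeal := by
  have hpi := loc_pi_mem hπ P
  have := P.isPrime
  set σ : S →+* C ⧸ P.asIdeal := (Ideal.Quotient.mk P.asIdeal).comp (algebraMap S C) with hσ
  set τ : k →+* C ⧸ P.asIdeal := σ.comp j with hτ
  let : Algebra k (C ⧸ P.asIdeal) := τ.toAlgebra
  have hint : Algebra.IsIntegral k (C ⧸ P.asIdeal) := by
    constructor
    intro x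
    obtain ⟨b, rfl⟩ := Ideal.Quotient.mk_surjective x
    obtain ⟨f, hf, hfb⟩ := Algebra.IsIntegral.isIntegral (R := S) b
    have hlift : f.map σ ∈ Polynomial.lifts τ := by
      rw [Polynomial.lifts_iff_coeff_lifts]
      intro n
      rw [Polynomial.coeff_map]
      obtain ⟨c, d, hc⟩ := hres (f.coeff n)
      refine ⟨c, ?_⟩
      rw [hτ, RingHom.comp_apply]
      have h1 : f.coeff n = π * d + j c := by
        rw [← hc]
        ring
      rw [h1, map_add, map_mul]
      have h2 : σ π = 0 := by
        rw [hσ, RingHom.comp_apply, Ideal.Quotient.eq_zero_iff_mem]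
        exact hpi
      rw [h2, zero_mul, zero_add]
    obtain ⟨g, hg, _, hgm⟩ := Polynomial.lifts_and_natDegree_eq_and_monic hlift (hf.map σ)
    refine ⟨g, hgm, ?_⟩
    have h3 : (algebraMap k (C ⧸ P.asIdeal)) = τ := rfl
    rw [h3, ← Polynomial.eval_map, hg, hσ, Polynomial.eval_map, ← Polynomial.hom_eval₂, hfb,
      map_zero]
  obtain ⟨c, hc⟩ := (IsAlgClosed.algebraMap_bijective_of_isIntegral (k := k)
    (K := C ⧸ P.asIdeal)).2 (Ideal.Quotient.mk P.asIdeal a)
  refine ⟨c, ?_⟩
  rw [← Ideal.Quotient.eq_zero_iff_mem, map_sub, sub_eq_zero, ← hc]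
  rfl

/-- An element of all maximal ideals has its trace in the maximal ideal. -/
private theorem loc_trace_mem {S C : Type*} [CommRing S] [IsDomain S]
    [IsDiscreteValuationRing S] [CommRing C] [IsDedekindDomain C] [Algebra S C]
    [Module.Finite S C] [Module.Free S C] {π : S} (hπ : Irreducible π)
    (hinj : Function.Injective (algebraMap S C)) (x : C)
    (hx : ∀ P : HeightOneSpectrum C, x ∈ P.asIdeal) : π ∣ Algebra.trace S C x := by
  let := Ideal.Quotient.field (IsLocalRing.maximalIdeal S)
  have hnil : IsNilpotent (Ideal.Quotient.mk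
      (Ideal.map (algebraMap S C) (IsLocalRing.maximalIdeal S)) x) := by
    have h1 : x ∈ (Ideal.map (algebraMap S C) (IsLocalRing.maximalIdeal S)).radical := by
      rw [Ideal.radical_eq_sInf, Ideal.mem_sInf]
      rintro J ⟨hJ, hJp⟩
      refine hx ⟨J, hJp, ?_⟩
      intro hb
      rw [hb] at hJ
      have h2 : algebraMap S C π = 0 := by
        have h3 := hJ (Ideal.mem_map_of_mem (algebraMap S C)
          (hπ.maximalIdeal_eq ▸ Ideal.mem_span_singleton_self π :
            π ∈ IsLocalRing.maximalIdeal S))
        exact h3
      rw [← map_zero (algebraMap S C)] at h2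
      exact hπ.ne_zero (hinj h2)
    obtain ⟨n, hn⟩ := h1
    refine ⟨n, ?_⟩
    rw [← map_pow, Ideal.Quotient.eq_zero_iff_mem]
    exact hn
  have h2 := Algebra.isNilpotent_trace_of_isNilpotent (R := S ⧸ IsLocalRing.maximalIdeal S) hnil
  rw [Algebra.trace_quotient_mk] at h2
  have h3 := h2.eq_zero
  rwa [Ideal.Quotient.eq_zero_iff_mem, hπ.maximalIdeal_eq, Ideal.mem_span_singleton] at h3

/-- If all multiples of `y` have their trace in the maximal ideal, `y` is in all maximal ideals. -/
private theorem loc_mem_of_trace {k S C : Type*} [Field k] [CharZero k] [CommRing S] [IsDomain S]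
    [IsDiscreteValuationRing S] [CommRing C] [IsDedekindDomain C] [Algebra S C]
    [Module.Finite S C] [Module.Free S C] (j : k →+* S) {π : S} (hπ : Irreducible π) (y : C)
    (hy : ∀ r : C, π ∣ Algebra.trace S C (y * r)) (P : HeightOneSpectrum C) :
    y ∈ P.asIdeal := by
  let := Ideal.Quotient.field (IsLocalRing.maximalIdeal S)
  have : CharZero (S ⧸ IsLocalRing.maximalIdeal S) := charZero_of_injective_ringHom
    ((Ideal.Quotient.mk (IsLocalRing.maximalIdeal S)).comp j).injective
  have hnil := nilpotent_of_trace (κ := S ⧸ IsLocalRing.maximalIdeal S) (Ideal.Quotient.mk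
      (Ideal.map (algebraMap S C) (IsLocalRing.maximalIdeal S)) y) (by
    intro r
    obtain ⟨r, rfl⟩ := Ideal.Quotient.mk_surjective r
    rw [← map_mul, Algebra.trace_quotient_mk, Ideal.Quotient.eq_zero_iff_mem, hπ.maximalIdeal_eq,
      Ideal.mem_span_singleton]
    exact hy r)
  obtain ⟨n, hn⟩ := hnil
  rw [← map_pow, Ideal.Quotient.eq_zero_iff_mem] at hn
  have hI : Ideal.map (algebraMap S C) (IsLocalRing.maximalIdeal S) ≤ P.asIdeal := by
    rw [Ideal.map_le_iff_le_comap, hπ.maximalIdeal_eq, Ideal.span_singleton_le_iff_mem,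
      Ideal.mem_comap]
    exact loc_pi_mem hπ P
  exact P.isPrime.mem_of_pow_mem n (hI hn)

/-- `L` is torsion free over `S`. -/
private theorem loc_tf {K L : Type*} [Field K] [Field L] [Algebra K L] (S : Subring K) :
    Module.IsTorsionFree S L := by
  rw [Module.isTorsionFree_iff_algebraMap_injective]
  intro a b hab
  exact Subtype.ext ((algebraMap K L).injective hab)

private theorem loc_inj {K L : Type*} [Field K] [Field L] [Algebra K L] (S : Subring K) :
    Function.Injective (algebraMap S (integralClosure S L)) := by
  intro a b hab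
  have h1 : algebraMap K L (a : K) = algebraMap K L (b : K) := congrArg Subtype.val hab
  exact Subtype.ext ((algebraMap K L).injective h1)

/-- The trace of an integral element. -/
private theorem loc_trace {K L : Type*} [Field K] [Field L] [Algebra K L]
    [FiniteDimensional K L] [CharZero K] (S : Subring K) [IsDiscreteValuationRing S]
    [IsFractionRing S K] [Module.Finite S (integralClosure S L)]
    [Module.Free S (integralClosure S L)] (x : integralClosure S L) :
    (Algebra.trace S (integralClosure S L) x : K) = Algebra.trace K L (x : L) := by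
  have hloc : IsLocalization (Algebra.algebraMapSubmonoid (integralClosure S L)
      (nonZeroDivisors S)) L := IsIntegralClosure.isLocalization S K L (integralClosure S L)
  exact (Algebra.trace_localization S (nonZeroDivisors S) (Rₘ := K) (Sₘ := L) x).symm

end general

include hπ hres

omit [FiniteDimensional K L] [IsFractionRing S K] in
/-- The pole lemma at a maximal ideal. -/
private theorem loc_log_val (ΔK : Derivation ℤ K K) (Δ : Derivation ℤ L L)
    (hΔ : ∀ r, Δ (algebraMap K L r) = algebraMap K L (ΔK r)) (hS : ∀ r ∈ S, ΔK r ∈ S)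
    (hp : ∃ w ∈ S, ΔK π = π * w) {C : Type*} [CommRing C] [IsDedekindDomain C] [Algebra S C]
    [Algebra C L] [IsFractionRing C L] [Module.Finite S C]
    (hSC : ∀ r : S, algebraMap C L (algebraMap S C r) = algebraMap K L r)
    (P : HeightOneSpectrum C) (z : L) :
    P.valuation L (Δ z) ≤ P.valuation L z := by
  set v := P.valuation L with hv
  let j : k →+* S := ι.codRestrict S hι
  have hvS : ∀ r ∈ S, v (algebraMap K L r) ≤ 1 := by
    intro r hr
    have h1 := hSC ⟨r, hr⟩
    simp only at h1
    rw [← h1]
    exact P.valuation_le_one _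
  have hvπ : v (algebraMap K L π) < 1 := by
    rw [← hSC, hv, P.valuation_lt_one_iff_mem]
    exact loc_pi_mem hπ P
  have hπ0 : algebraMap K L π ≠ 0 := by
    rw [Ne, map_eq_zero]
    intro h
    exact hπ.ne_zero (Subtype.ext h)
  have hvπ0 : v (algebraMap K L π) ≠ 0 := (Valuation.ne_zero_iff v).2 hπ0
  obtain ⟨e, he, hve⟩ : ∃ e : ℕ, e ≠ 0 ∧ v (algebraMap K L π) = exp (-(e : ℤ)) := by
    have h1 := exp_log hvπ0
    have h2 : log (v (algebraMap K L π)) < 0 := by
      rw [← exp_lt_exp, h1, exp_zero]
      exact hvπ
    refine ⟨(-log (v (algebraMap K L π))).toNat, by omega, ?_⟩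
    rw [← h1]
    congr 1
    rw [log_exp]
    omega
  have hvk : ∀ c : k, c ≠ 0 → v (algebraMap K L (ι c)) = 1 := by
    intro c hc
    apply le_antisymm (hvS _ (hι c))
    have h1 : algebraMap K L (ι c) * algebraMap K L (ι c⁻¹) = 1 := by
      rw [← map_mul, ← map_mul, mul_inv_cancel₀ hc, map_one, map_one]
    have h2 := congrArg v h1
    rw [map_mul, map_one] at h2
    calc (1 : WithZero (Multiplicative ℤ)) = v (algebraMap K L (ι c)) * v (algebraMap K L (ι c⁻¹)) :=
          h2.symm
      _ ≤ v (algebraMap K L (ι c)) * 1 := mul_le_mul_right (hvS _ (hι _)) _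
      _ = v (algebraMap K L (ι c)) := mul_one _
  -- bounded poles
  obtain ⟨N, hN⟩ : ∃ N : ℕ, ∀ c : C, v (Δ (algebraMap C L c)) ≤ exp (N : ℤ) := by
    obtain ⟨s, hs⟩ := Module.Finite.fg_top (R := S) (M := C)
    have hbd : ∀ x : WithZero (Multiplicative ℤ), x ≤ exp ((log x).toNat : ℤ) := by
      intro x
      rcases eq_or_ne x 0 with h0 | h0
      · rw [h0]
        exact zero_le
      · conv_lhs => rw [← exp_log h0]
        rw [exp_le_exp]
        omega
    refine ⟨s.sup fun c => (log (v (Δ (algebraMap C L c)))).toNat, ?_⟩
    set N := s.sup fun c : C => (log (v (Δ (algebraMap C L c)))).toNat with hNdef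
    have h1N : (1 : WithZero (Multiplicative ℤ)) ≤ exp (N : ℤ) := by
      rw [← exp_zero, exp_le_exp]
      exact Int.natCast_nonneg _
    intro c
    have hc : c ∈ Submodule.span S (s : Set C) := by
      rw [hs]
      trivial
    refine Submodule.span_induction
      (p := fun (c : C) _ => v (Δ (algebraMap C L c)) ≤ exp (N : ℤ)) ?_ ?_ ?_ ?_ hc
    · intro x hx
      refine (hbd _).trans ?_
      rw [exp_le_exp]
      exact_mod_cast Finset.le_sup
        (f := fun c : C => (log (v (Δ (algebraMap C L c)))).toNat) hx
    · rw [map_zero, map_zero, map_zero]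
      exact zero_le
    · intro x y _ _ hx hy
      rw [map_add, map_add]
      exact (Valuation.map_add v _ _).trans (max_le hx hy)
    · intro r x _ hx
      have h1 : algebraMap C L (r • x) = algebraMap K L r * algebraMap C L x := by
        rw [Algebra.smul_def, map_mul, hSC]
      rw [h1, Derivation.leibniz, hΔ, smul_eq_mul, smul_eq_mul]
      refine (Valuation.map_add v _ _).trans (max_le ?_ ?_)
      · rw [map_mul]
        calc v (algebraMap K L r) * v (Δ (algebraMap C L x)) ≤ 1 * exp (N : ℤ) :=
              mul_le_mul' (hvS _ r.2) hx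
          _ = exp (N : ℤ) := one_mul _
      · rw [map_mul]
        calc v (algebraMap C L x) * v (algebraMap K L (ΔK r)) ≤ 1 * 1 :=
              mul_le_mul' (P.valuation_le_one x) (hvS _ (hS _ r.2))
          _ ≤ exp (N : ℤ) := by rw [one_mul]; exact h1N
  have hNu : ∀ x : L, v x = 1 → v (Δ x) ≤ exp (N : ℤ) := by
    intro x hx
    obtain ⟨n, ⟨d, hd⟩, hnd⟩ := HeightOneSpectrum.exists_primeCompl_mul_eq_of_integer P x hx.le
    simp only at hnd
    have hvd : v (algebraMap C L d) = 1 :=
      (HeightOneSpectrum.valuation_eq_one_iff_notMem (K := L) P (r := d)).2 hd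
    have h1 := congrArg Δ hnd
    rw [Derivation.leibniz, smul_eq_mul, smul_eq_mul] at h1
    have h2 : Δ x * algebraMap C L d = Δ (algebraMap C L n) - x * Δ (algebraMap C L d) := by
      rw [← h1]
      ring
    have h3 : v (Δ x) = v (Δ (algebraMap C L n) - x * Δ (algebraMap C L d)) := by
      rw [← h2, map_mul, hvd, mul_one]
    rw [h3]
    refine (Valuation.map_sub v _ _).trans (max_le (hN n) ?_)
    rw [map_mul, hx, one_mul]
    exact hN d
  have he0 : ((e : ℕ) : k) ≠ 0 := Nat.cast_ne_zero.2 he
  refine val_log v (Set.range fun c : k => algebraMap K L (ι c)) Δ ?_ ?_ (algebraMap K L π) e he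
    hve ?_ ?_ N hNu z
  · rintro _ ⟨c, rfl⟩
    refine ⟨hvS _ (hι c), ?_⟩
    rw [hΔ]
    exact hvS _ (hS _ (hι c))
  · intro x hx
    obtain ⟨a, ha⟩ := HeightOneSpectrum.exists_valuation_sub_lt_of_integer P hx.le 1
    obtain ⟨c, hc⟩ := loc_residue hπ j hres P a
    refine ⟨_, ⟨c, rfl⟩, ?_⟩
    have h1 : v (algebraMap C L a - algebraMap K L (ι c)) < 1 := by
      have h2 : v (algebraMap C L (a - algebraMap S C (j c))) < 1 :=
        (P.valuation_lt_one_iff_mem (K := L) (a - algebraMap S C (j c))).2 hc
      rw [map_sub, hSC] at h2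
      exact h2
    have h3 : x - algebraMap K L (ι c) = (algebraMap C L a - algebraMap K L (ι c)) -
        (algebraMap C L a - x) := by
      ring
    change v (x - algebraMap K L (ι c)) < 1
    rw [h3]
    refine (Valuation.map_sub v _ _).trans_lt (max_lt h1 ?_)
    exact ha
  · have h1 := hvk _ he0
    rwa [map_natCast, map_natCast] at h1
  · obtain ⟨w, hw, hpw⟩ := hp
    rw [hΔ, hpw, map_mul, map_mul]
    calc v (algebraMap K L π) * v (algebraMap K L w) ≤ v (algebraMap K L π) * 1 :=
          mul_le_mul_right (hvS _ hw) _
      _ = v (algebraMap K L π) := mul_one _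

theorem local_log (ΔK : Derivation ℤ K K) (Δ : Derivation ℤ L L)
    (hΔ : ∀ r, Δ (algebraMap K L r) = algebraMap K L (ΔK r)) (hS : ∀ r ∈ S, ΔK r ∈ S)
    (hp : ∃ w ∈ S, ΔK π = π * w) (z : L) (hz : IntS S z) : IntS S (Δ z) := by
  have hcK : CharZero K := charZero_of_injective_ringHom ι.injective
  have hded : IsDedekindDomain (integralClosure S L) := integralClosure.isDedekindDomain S K L
  have hfr : IsFractionRing (integralClosure S L) L :=
    integralClosure.isFractionRing_of_finite_extension K L
  have hfin : Module.Finite S (integralClosure S L) :=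
    IsIntegralClosure.finite S K L (integralClosure S L)
  have hz' : IsIntegral S z := hz
  obtain ⟨y, hy⟩ := HeightOneSpectrum.mem_integers_of_valuation_le_one
    (R := integralClosure S L) L (Δ z) (by
      intro P
      refine (loc_log_val S ι hι π hπ hres ΔK Δ hΔ hS hp (C := integralClosure S L)
        (fun _ => rfl) P z).trans ?_
      exact P.valuation_le_one (K := L) (⟨z, hz'⟩ : integralClosure S L))
  have h1 : IsIntegral S (y : L) := y.2
  have h2 : (y : L) = Δ z := hy
  rw [h2] at h1
  exact h1

theorem local_any (ΔK : Derivation ℤ K K) (Δ : Derivation ℤ L L)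
    (hΔ : ∀ r, Δ (algebraMap K L r) = algebraMap K L (ΔK r)) (hS : ∀ r ∈ S, ΔK r ∈ S)
    (z w : L) (hz : IntS S z) (hw : IntS S w) : Algebra.trace K L (Δ z * w) ∈ S := by
  have hcK : CharZero K := charZero_of_injective_ringHom ι.injective
  have hded : IsDedekindDomain (integralClosure S L) := integralClosure.isDedekindDomain S K L
  have hfr : IsFractionRing (integralClosure S L) L :=
    integralClosure.isFractionRing_of_finite_extension K L
  have hfin : Module.Finite S (integralClosure S L) :=
    IsIntegralClosure.finite S K L (integralClosure S L)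
  have htf : Module.IsTorsionFree S L := loc_tf S
  have hfree : Module.Free S (integralClosure S L) :=
    IsIntegralClosure.module_free S K L (integralClosure S L)
  have hz' : IsIntegral S z := hz
  have hw' : IsIntegral S w := hw
  have hval : ∀ (P : HeightOneSpectrum (integralClosure S L)) (x : L), P.valuation L
      (algebraMap K L π * Δ x) ≤ P.valuation L x := by
    intro P x
    exact loc_log_val S ι hι π hπ hres ((π : K) • ΔK) (algebraMap K L π • Δ)
      (fun r => by
        change algebraMap K L π * Δ (algebraMap K L r) = algebraMap K L (π * ΔK r)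
        rw [hΔ, map_mul])
      (fun r hr => S.mul_mem π.2 (hS r hr)) ⟨ΔK π, hS _ π.2, rfl⟩
      (C := integralClosure S L) (fun _ => rfl) P x
  have hlt : ∀ P : HeightOneSpectrum (integralClosure S L), P.valuation L
      (algebraMap K L π * Δ z) < 1 := by
    intro P
    let j : k →+* S := ι.codRestrict S hι
    obtain ⟨c, hc⟩ := loc_residue hπ j hres P (⟨z, hz'⟩ : integralClosure S L)
    have h1 : P.valuation L (z - algebraMap K L (ι c)) < 1 :=
      (P.valuation_lt_one_iff_mem (K := L) _).2 hc
    have h2 : algebraMap K L π * Δ z = algebraMap K L π * Δ (z - algebraMap K L (ι c)) +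
        algebraMap K L π * algebraMap K L (ΔK (ι c)) := by
      rw [map_sub, hΔ]
      ring
    rw [h2]
    refine (Valuation.map_add _ _ _).trans_lt (max_lt ((hval P _).trans_lt h1) ?_)
    have h3 : P.valuation L (algebraMap K L π) < 1 :=
      (P.valuation_lt_one_iff_mem (K := L) (algebraMap S (integralClosure S L) π)).2
        (loc_pi_mem hπ P)
    have h4 : P.valuation L (algebraMap K L (ΔK (ι c))) ≤ 1 :=
      P.valuation_le_one (K := L) (algebraMap S (integralClosure S L) ⟨_, hS _ (hι c)⟩)
    rw [map_mul]
    calc P.valuation L (algebraMap K L π) * P.valuation L (algebraMap K L (ΔK (ι c)))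
        ≤ P.valuation L (algebraMap K L π) * 1 := mul_le_mul_right h4 _
      _ = P.valuation L (algebraMap K L π) := mul_one _
      _ < 1 := h3
  obtain ⟨y, hy⟩ := HeightOneSpectrum.mem_integers_of_valuation_le_one
    (R := integralClosure S L) L (algebraMap K L π * Δ z) (fun P => (hlt P).le)
  have hyP : ∀ P : HeightOneSpectrum (integralClosure S L), y ∈ P.asIdeal := by
    intro P
    refine (P.valuation_lt_one_iff_mem (K := L) y).1 ?_
    have h1 := hlt P
    rw [← hy] at h1
    exact h1
  let w' : integralClosure S L := ⟨w, hw'⟩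
  obtain ⟨t, ht⟩ := loc_trace_mem hπ (loc_inj S) (y * w')
    (fun P => P.asIdeal.mul_mem_right _ (hyP P))
  have h5 := loc_trace S (y * w')
  rw [ht] at h5
  have h6 : ((y * w' : integralClosure S L) : L) = (π : K) • (Δ z * w) := by
    have h7 : (y : L) = algebraMap K L π * Δ z := hy
    change (y : L) * w = _
    rw [h7, Algebra.smul_def, mul_assoc]
  rw [h6, map_smul, smul_eq_mul] at h5
  have h8 : (π : K) * (t : K) = (π : K) * Algebra.trace K L (Δ z * w) := h5
  have hπ0 : (π : K) ≠ 0 := fun h => hπ.ne_zero (Subtype.ext h)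
  rw [← mul_left_cancel₀ hπ0 h8]
  exact t.2

theorem local_tame (m : L) (hm : ∀ z : L, IntS S z → Algebra.trace K L (m * z) ∈ S) :
    IntS S (algebraMap K L π * m) := by
  have hcK : CharZero K := charZero_of_injective_ringHom ι.injective
  have hded : IsDedekindDomain (integralClosure S L) := integralClosure.isDedekindDomain S K L
  have hfr : IsFractionRing (integralClosure S L) L :=
    integralClosure.isFractionRing_of_finite_extension K L
  have hfin : Module.Finite S (integralClosure S L) :=
    IsIntegralClosure.finite S K L (integralClosure S L)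
  have htf : Module.IsTorsionFree S L := loc_tf S
  have hfree : Module.Free S (integralClosure S L) :=
    IsIntegralClosure.module_free S K L (integralClosure S L)
  let j : k →+* S := ι.codRestrict S hι
  obtain ⟨y, hy⟩ := HeightOneSpectrum.mem_integers_of_valuation_le_one
    (R := integralClosure S L) L (algebraMap K L π * m) (by
      intro P
      obtain ⟨n, d, h | h⟩ := HeightOneSpectrum.exists_primeCompl_mul_eq_or_mul_eq P
        (algebraMap K L π * m)
      · have hvd : P.valuation L (algebraMap (integralClosure S L) L d) = 1 :=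
          (HeightOneSpectrum.valuation_eq_one_iff_notMem (K := L) P (r := (d : _))).2 d.2
        have h1 := congrArg (P.valuation L) h
        rw [map_mul, hvd, mul_one] at h1
        rw [h1]
        exact P.valuation_le_one n
      · exfalso
        refine d.2 (loc_mem_of_trace j hπ (d : integralClosure S L) ?_ P)
        intro r
        have h1 := hm ((n * r : integralClosure S L) : L) (n * r : integralClosure S L).2
        refine ⟨⟨_, h1⟩, ?_⟩
        apply Subtype.ext
        rw [loc_trace S]
        have h2 : (((d : integralClosure S L) * r : integralClosure S L) : L) =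
            (π : K) • (m * ((n * r : integralClosure S L) : L)) := by
          have h3 : algebraMap K L π * m * (n : L) = ((d : integralClosure S L) : L) := h
          change ((d : integralClosure S L) : L) * (r : L) = (π : K) • (m * ((n : L) * (r : L)))
          rw [← h3, Algebra.smul_def]
          ring
        rw [h2, map_smul, smul_eq_mul]
        rfl)
  have h1 : IsIntegral S (y : L) := y.2
  have h2 : (y : L) = algebraMap K L π * m := hy
  rw [h2] at h1
  exact h1

end MPadcCov
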