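import Mathlib

/-!
# JOB Gen: algebras generated by a root of a monic polynomial

`K` a field, `E` a commutative `K`-algebra with a basis indexed by `Fin n`, `G : K[X]` monic of degree `n`
with root `y` in `E`, and `det (Tr (y ^ (i + j))) ≠ 0`.
* `gen_span`: `1, y, …, y ^ (n-1)` is a basis: linearly independent, since a relation
  `∑ c j y ^ j = 0` gives `∑ c j Tr (y ^ (i + j)) = 0`
  (`Matrix.eq_zero_of_mulVec_eq_zero`/`vecMul`), and `n = finrank`.
* `gen_equiv`: `AdjoinRoot.liftAlgHom`/`AdjoinRoot.liftHom G y : AdjoinRoot G →ₐ[K] E` is injective by the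
  independence (`AdjoinRoot.powerBasis'`, elements are polynomials of degree `< n`), and
  bijective by the dimensions (`finrank = n`).
* `gen_separable`: `Algebra.discr`/the determinant of `Tr (root ^ (i + j))` in `AdjoinRoot G` is `≠ 0`
  (transport by the equivalence), so `G` is separable: if `G = A ^ 2 * B`-type common factor with the
  derivative … Suggestion: if `G` and `G'` are not coprime, there is a non-constant monic
  irreducible `q` with `q ∣ G` and `q ∣ G'`; if `q ^ 2 ∣ G`, the element `(G / q) (root)` is nonzero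
  with square zero, and all `Tr ((G/q)(root) * b) = 0` (nilpotent), contradicting the nondegeneracy;
  otherwise `G = q * B` with `q, B` coprime, `q ∣ q'`, so `q' = 0`, and for every `b` the trace
  `Tr (B (root) * b)` is a multiple of the trace of the inseparable field `K[x]/q`, which is zero.
  (Or use Mathlib: `Algebra.traceForm_nondegenerate`-converse,
  `Polynomial.separable_iff_derivative_ne_zero`, `Polynomial.discr`/`resultant`,
  `Algebra.discr_powerBasis_eq_norm`: `discr (power basis) = ± norm (G' (root))`, norm `≠ 0` implies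
  `G' (root)` is a unit, so `G' ` and `G` are coprime; this last way is the shortest if the
  lemma does not need a field.)
* `gen_der`: a `K`-linear derivation `Δ` of `E`: `0 = Δ (G (y)) = G' (y) * Δ y`, `G' (y)` is a unit, so
  `Δ y = 0`, and `E` is spanned by the powers of `y`.
-/

set_option autoImplicit false

namespace MPadcCov

open Polynomial

universe u v

private theorem Gen_li {K : Type*} [Field K] {E : Type*} [CommRing E] [Algebra K E] {n : ℕ} (y : E)
    (hdet : (Matrix.of fun i j : Fin n => Algebra.trace K E (y ^ (i.1 + j.1))).det ≠ 0) :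
    LinearIndependent K (fun i : Fin n => y ^ i.1) := by
  by_contra hli
  refine hdet ?_
  have h1 := Algebra.discr_zero_of_not_linearIndependent K hli
  rw [Algebra.discr_def] at h1
  rw [← h1]
  congr 1
  ext i j
  rw [Matrix.of_apply, Algebra.traceMatrix_apply, Algebra.traceForm_apply, pow_add]

/-- over an algebraically closed field -/
private theorem Gen_mat {L : Type*} [Field L] [IsAlgClosed L] {n : ℕ} (M : Matrix (Fin n) (Fin n) L)
    (G : L[X]) (hG : G.Monic) (hn : G.natDegree = n) (hM : aeval M G = 0)
    (hdet : (Matrix.of fun i j : Fin n => (M ^ (i.1 + j.1)).trace).det ≠ 0) : G.Separable := by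
  classical
  by_contra hns
  have h1 : ¬ G.roots.Nodup := fun h =>
    hns ((nodup_roots_iff_of_splits hG.ne_zero (IsAlgClosed.splits G)).1 h)
  rw [Multiset.nodup_iff_count_le_one] at h1
  push Not at h1
  obtain ⟨a, ha⟩ := h1
  rw [count_roots] at ha
  have h2 : (X - C a) ^ 2 ∣ G := (le_rootMultiplicity_iff hG.ne_zero).1 ha
  obtain ⟨B, hB⟩ := h2
  obtain ⟨P, hP⟩ : ∃ P : L[X], P = (X - C a) * B := ⟨_, rfl⟩
  have hGP : G = (X - C a) * P := by rw [hB, hP]; ring
  have hP0 : P ≠ 0 := by
    rintro rfl
    exact hG.ne_zero (by rw [hGP, mul_zero])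
  have hdeg : P.natDegree < n := by
    have h3 : G.natDegree = 1 + P.natDegree := by
      rw [hGP, natDegree_mul (X_sub_C_ne_zero a) hP0, natDegree_X_sub_C]
    omega
  have hPP : aeval M P * aeval M P = 0 := by
    have h3 : P * P = G * B := by rw [hGP, hP]; ring
    rw [← map_mul, h3, map_mul, hM, zero_mul]
  have htr : ∀ i : ℕ, (M ^ i * aeval M P).trace = 0 := by
    intro i
    have hc : Commute (M ^ i) (aeval M P) := by
      have h4 : M ^ i = aeval M (X ^ i : L[X]) := by rw [map_pow, aeval_X]
      rw [h4]
      exact (Commute.all (X ^ i : L[X]) P).map (aeval M)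
    have h5 : IsNilpotent (M ^ i * aeval M P) := by
      refine ⟨2, ?_⟩
      rw [hc.mul_pow, sq (aeval M P), hPP, mul_zero]
    exact (Matrix.isNilpotent_trace_of_isNilpotent h5).eq_zero
  have hmul : (Matrix.of fun i j : Fin n => (M ^ (i.1 + j.1)).trace).mulVec
      (fun j => P.coeff j.1) = 0 := by
    funext i
    rw [Matrix.mulVec, dotProduct, Pi.zero_apply]
    rw [← htr i.1, aeval_eq_sum_range' hdeg, Finset.mul_sum, Matrix.trace_sum, Finset.sum_range]
    refine Finset.sum_congr rfl fun j _ => ?_
    rw [Matrix.of_apply, mul_smul_comm, ← pow_add, Matrix.trace_smul, smul_eq_mul, mul_comm]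
  have h6 := Matrix.eq_zero_of_mulVec_eq_zero hdet hmul
  refine hP0 ?_
  ext k
  rw [coeff_zero]
  by_cases hk : k < n
  · exact congrFun h6 ⟨k, hk⟩
  · exact coeff_eq_zero_of_natDegree_lt (by omega)

variable {K : Type u} [Field K] {E : Type v} [CommRing E] [Algebra K E] {n : ℕ}
  (e : Module.Basis (Fin n) K E) (G : K[X]) (hG : G.Monic) (hn : G.natDegree = n) (y : E)
  (hy : aeval y G = 0)
  (hdet : (Matrix.of fun i j : Fin n => Algebra.trace K E (y ^ (i.1 + j.1))).det ≠ 0)

include e hG hn hy hdet

theorem gen_span : Algebra.adjoin K {y} = ⊤ := by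
  have hli := Gen_li y hdet
  have hfin : Module.Finite K E := Module.Finite.of_basis e
  have hcard : Fintype.card (Fin n) = Module.finrank K E := (Module.finrank_eq_card_basis e).symm
  have htop := hli.span_eq_top_of_card_eq_finrank' hcard
  rw [← top_le_iff]
  intro x _
  have hx : x ∈ Submodule.span K (Set.range fun i : Fin n => y ^ i.1) := by
    rw [htop]
    trivial
  have hle : Submodule.span K (Set.range fun i : Fin n => y ^ i.1) ≤
      Subalgebra.toSubmodule (Algebra.adjoin K {y}) := by
    rw [Submodule.span_le]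
    rintro _ ⟨i, rfl⟩
    exact pow_mem (Algebra.self_mem_adjoin_singleton K y) _
  exact hle hx

theorem gen_equiv : Nonempty (AdjoinRoot G ≃ₐ[K] E) := by
  have hfin : Module.Finite K E := Module.Finite.of_basis e
  have hfin2 : Module.Finite K (AdjoinRoot G) := Module.Finite.of_basis (AdjoinRoot.powerBasis' hG).basis
  have hev : G.eval₂ (Algebra.ofId K E : K →+* E) y = 0 := hy
  have hsurj : Function.Surjective (AdjoinRoot.liftAlgHom G (Algebra.ofId K E) y hev) := by
    intro x
    have hx : x ∈ Algebra.adjoin K {y} := by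
      rw [gen_span e G hG hn y hy hdet]
      trivial
    rw [Algebra.adjoin_singleton_eq_range_aeval] at hx
    obtain ⟨P, rfl⟩ := hx
    exact ⟨AdjoinRoot.mk G P, AdjoinRoot.liftAlgHom_mk G (Algebra.ofId K E) y hev P⟩
  have hrank : Module.finrank K (AdjoinRoot G) = Module.finrank K E := by
    rw [Module.finrank_eq_card_basis e, Fintype.card_fin, (AdjoinRoot.powerBasis' hG).finrank,
      AdjoinRoot.powerBasis'_dim, hn]
  have hinj : Function.Injective (AdjoinRoot.liftAlgHom G (Algebra.ofId K E) y hev) :=
    (LinearMap.injective_iff_surjective_of_finrank_eq_finrank (f :=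
      (AdjoinRoot.liftAlgHom G (Algebra.ofId K E) y hev).toLinearMap) hrank).2 hsurj
  exact ⟨AlgEquiv.ofBijective _ ⟨hinj, hsurj⟩⟩

theorem gen_separable : G.Separable := by
  let f : E →ₐ[K] Matrix (Fin n) (Fin n) K := Algebra.leftMulMatrix e
  let φ : K →+* AlgebraicClosure K := algebraMap K (AlgebraicClosure K)
  have h1 : aeval (f y) G = 0 := by
    rw [aeval_algHom_apply, hy, map_zero]
  have htr : ∀ k : ℕ, φ (Algebra.trace K E (y ^ k)) = ((φ.mapMatrix (f y)) ^ k).trace := by
    intro k
    rw [Algebra.trace_eq_matrix_trace e, ← map_pow φ.mapMatrix, ← map_pow f]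
    exact (AddMonoidHom.map_trace (φ : K →+ AlgebraicClosure K) (f (y ^ k))).symm ▸ rfl
  rw [← separable_map φ]
  refine Gen_mat (φ.mapMatrix (f y)) (G.map φ) (hG.map φ) (by rw [natDegree_map, hn]) ?_ ?_
  · have h2 : φ.mapMatrix (aeval (f y) G) = aeval (φ.mapMatrix (f y)) (G.map φ) := by
      rw [aeval_def, aeval_def, hom_eval₂, eval₂_map]
      congr 1
      ext r i j
      simp only [RingHom.comp_apply, RingHom.mapMatrix_apply, Matrix.map_apply,
        Matrix.algebraMap_matrix_apply]
      split_ifs
      · rfl
      · exact map_zero φ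
    rw [← h2, h1, map_zero]
  · have h3 : (Matrix.of fun i j : Fin n => ((φ.mapMatrix (f y)) ^ (i.1 + j.1)).trace) =
        φ.mapMatrix (Matrix.of fun i j : Fin n => Algebra.trace K E (y ^ (i.1 + j.1))) := by
      ext i j
      rw [Matrix.of_apply, ← htr]
      rfl
    rw [h3, ← RingHom.map_det]
    exact fun h => hdet ((map_eq_zero φ).1 h)

theorem gen_der (Δ : Derivation K E E) : Δ = 0 := by
  have hsep := gen_separable e G hG hn y hy hdet
  obtain ⟨a, b, hab⟩ := hsep
  have h1 : aeval y b * aeval y (derivative G) = 1 := by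
    have h2 : aeval y (a * G + b * derivative G) = 1 := by rw [hab, map_one]
    rw [map_add, map_mul, map_mul, hy, mul_zero, zero_add] at h2
    exact h2
  have h3 : aeval y (derivative G) * Δ y = 0 := by
    have h4 := Δ.map_aeval G y
    rw [hy, map_zero, smul_eq_mul] at h4
    exact h4.symm
  have h5 : Δ y = 0 := by
    calc Δ y = (aeval y b * aeval y (derivative G)) * Δ y := by rw [h1, one_mul]
      _ = aeval y b * (aeval y (derivative G) * Δ y) := by rw [mul_assoc]
      _ = 0 := by rw [h3, mul_zero]
  refine Derivation.ext_of_adjoin_eq_top {y} (gen_span e G hG hn y hy hdet) ?_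
  intro x hx
  rw [Set.mem_singleton_iff.1 hx, h5, Derivation.zero_apply]

end MPadcCov
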