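import Pool.Agent.Lib.MP_adc574_ag_Cov.Def
import Pool.Agent.Lib.MP_adc574_ag_Cov.Der

/-!
# JOB Desc: the coefficients of `D` lie in the field of definition

* `desc`: Leibniz for `D (e i * e j)` in coordinates, multiplied by `m`:
  `∑ c, β i c * s c j l + ∑ c, β j c * s i c l = m * cD δ (s i j l) + ∑ c, s i j c * β c l` (in `k[X]`).
  This is a linear system for `β` over `K[X]` (`cD δ (s i j l)` has coefficients in `K` by `hδ`). Let
  `π : k → K` be a `K`-linear retraction of the inclusion
  (`LinearMap.exists_leftInverse_of_injective`), `P : k[X] → K[X]` coefficientwise (additive,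
  `P (q.map * r) = q * P r` for `q : K[X]`; e.g. `P r = r.sum fun i c => monomial i (π c)`). Then `β' = P β`
  satisfies the same system, so (`exists_der`, `v i = ∑ j, (pol (β' i j) / pol m) • e j`) there is a
  derivation `D'` of `L` over `DK` with `m D' (e i) = ∑ β' i j • e j`. `D - D'` kills `k(x)`, so it is a
  `RatFunc k`-linear derivation, zero by `hz`. So `β = β'`.
  (Beware: `Derivation ℤ (RatFunc k) (RatFunc k)` uses another ℤ-algebra instance than `exists_der`; see
  `SpecC_trder` in SpecC.lean for the bridge.)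
* `desc_div`: if `(X - C t) * g` has coefficients in `K` and `t ∈ K` then `g` has (polynomial division by
  a monic polynomial over `K` and uniqueness over `k`: `Polynomial.map_divByMonic`).
-/

set_option autoImplicit false

namespace MPadcCov

open Polynomial

/-- the coefficientwise retraction `k[X] → K[X]` -/
private theorem desc_retr {k : Type*} [Field k] (K : Subfield k) : ∃ P : k[X] → k[X],
    (∀ r, ∃ b : K[X], P r = b.map K.subtype) ∧ (∀ r r', P (r + r') = P r + P r') ∧
    (∀ (q : K[X]) (r : k[X]), P (q.map K.subtype * r) = q.map K.subtype * P r) ∧ P 1 = 1 := by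
  classical
  obtain ⟨π, hπ⟩ := LinearMap.exists_leftInverse_of_injective (Algebra.linearMap K k)
    (LinearMap.ker_eq_bot.2 (algebraMap K k).injective)
  have hπ1 : π 1 = 1 := by
    have h := LinearMap.congr_fun hπ 1
    rw [LinearMap.comp_apply, Algebra.linearMap_apply, map_one] at h
    exact h
  let P0 : k[X] → K[X] := fun r => ∑ i ∈ r.support, monomial i (π (r.coeff i))
  have hc : ∀ r i, (P0 r).coeff i = π (r.coeff i) := by
    intro r i
    change (∑ j ∈ r.support, monomial j (π (r.coeff j))).coeff i = _
    rw [finsetSum_coeff]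
    have h1 : ∀ j ∈ r.support, (monomial j (π (r.coeff j)) : K[X]).coeff i =
        if i = j then π (r.coeff j) else 0 := by
      intro j _
      rw [coeff_monomial]
      by_cases h : i = j
      · rw [if_pos h, if_pos h.symm]
      · rw [if_neg h, if_neg (Ne.symm h)]
    rw [Finset.sum_congr rfl h1, Finset.sum_ite_eq]
    split_ifs with h
    · rfl
    · rw [notMem_support_iff.1 h, map_zero]
  refine ⟨fun r => (P0 r).map K.subtype, fun r => ⟨P0 r, rfl⟩, ?_, ?_, ?_⟩
  · intro r r'
    have h : P0 (r + r') = P0 r + P0 r' := by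
      ext i
      rw [coeff_add, hc, hc, hc, coeff_add, map_add]
    change (P0 (r + r')).map K.subtype = (P0 r).map K.subtype + (P0 r').map K.subtype
    rw [h, Polynomial.map_add]
  · intro q r
    have h : P0 (q.map K.subtype * r) = q * P0 r := by
      apply Polynomial.ext
      intro i
      rw [hc, coeff_mul, coeff_mul, map_sum]
      refine Finset.sum_congr rfl fun x _ => ?_
      rw [hc, coeff_map]
      have h2 : K.subtype (q.coeff x.1) * r.coeff x.2 = q.coeff x.1 • r.coeff x.2 := rfl
      rw [h2, map_smul, smul_eq_mul]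
    change (P0 (q.map K.subtype * r)).map K.subtype = q.map K.subtype * (P0 r).map K.subtype
    rw [h, Polynomial.map_mul]
  · have h : P0 1 = 1 := by
      apply Polynomial.ext
      intro i
      rw [hc, coeff_one, coeff_one]
      split_ifs
      · exact hπ1
      · exact map_zero _
    change (P0 1).map K.subtype = 1
    rw [h, Polynomial.map_one]

private theorem desc_cD {k : Type*} [Field k] (K : Subfield k) (δ : Derivation ℤ k k)
    (hδ : ∀ x ∈ K, δ x ∈ K) (q : K[X]) : ∃ b : K[X], cD δ (q.map K.subtype) = b.map K.subtype := by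
  have h : ∀ q : K[X], cD δ (q.map K.subtype) ∈ (Polynomial.mapRingHom K.subtype).range := by
    intro q
    unfold cD
    rw [Polynomial.sum_def]
    refine Subring.sum_mem _ fun i _ => ?_
    rw [coeff_map]
    refine ⟨monomial i ⟨δ (q.coeff i), hδ _ (q.coeff i).2⟩, ?_⟩
    rw [coe_mapRingHom, map_monomial]
    rfl
  obtain ⟨b, hb⟩ := h q
  exact ⟨b, hb.symm⟩

private theorem desc_ext {k : Type*} [Field k] {L : Type*} [Field L] [Algebra (RatFunc k) L]
    {n : ℕ} (e : Module.Basis (Fin n) (RatFunc k) L)
    (DK : Derivation ℤ (RatFunc k) (RatFunc k)) (v : Fin n → L)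
    (h : ∀ i j, v i * e j + e i * v j = ∑ l, (algebraMap (RatFunc k) L (DK (e.repr (e i * e j) l)) * e l +
      algebraMap (RatFunc k) L (e.repr (e i * e j) l) * v l)) :
    ∃ d : Derivation ℤ L L, (∀ r, d (algebraMap (RatFunc k) L r) = algebraMap (RatFunc k) L (DK r)) ∧
      ∀ i, d (e i) = v i := by
  let D : @Derivation ℤ (RatFunc k) (RatFunc k) _ _ _ (Ring.toIntAlgebra _) _ _ :=
    @Derivation.mk ℤ (RatFunc k) (RatFunc k) _ _ _ (Ring.toIntAlgebra _) _ _
      (DK.toLinearMap.toAddMonoidHom.toIntLinearMap) (DK.map_one_eq_zero)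
      (fun x y => DK.leibniz x y)
  exact exists_der e D v h

/-- derivations over the same derivation of the base are equal -/
private theorem desc_uniq {k : Type*} [Field k] {L : Type*} [Field L] [Algebra (RatFunc k) L]
    (D D' : Derivation ℤ L L) (h : ∀ r, D (algebraMap (RatFunc k) L r) = D' (algebraMap (RatFunc k) L r))
    (hz : ∀ Δ : Derivation (RatFunc k) L L, Δ = 0) (z : L) : D z = D' z := by
  let Δ : Derivation (RatFunc k) L L := Derivation.mk'
    { toFun := fun z => D z - D' z
      map_add' := fun x y => by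
        rw [map_add, map_add]
        ring
      map_smul' := fun r x => by
        rw [Algebra.smul_def, Derivation.leibniz, Derivation.leibniz, h, RingHom.id_apply]
        simp only [smul_eq_mul]
        rw [Algebra.smul_def]
        ring }
    (fun x y => by
      change D (x * y) - D' (x * y) = x • (D y - D' y) + y • (D x - D' x)
      rw [Derivation.leibniz, Derivation.leibniz, smul_eq_mul, smul_eq_mul, smul_eq_mul, smul_eq_mul,
        smul_eq_mul, smul_eq_mul]
      ring)
  have h1 : Δ z = D z - D' z := rfl
  rw [hz Δ, Derivation.coe_zero, Pi.zero_apply] at h1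
  exact (sub_eq_zero.1 h1.symm)

/-- the Leibniz rule in coordinates -/
private theorem desc_coord {k : Type*} [Field k] {L : Type*} [Field L] [Algebra (RatFunc k) L]
    {n : ℕ} (e : Module.Basis (Fin n) (RatFunc k) L) (x : Fin n → Fin n → RatFunc k)
    (f : RatFunc k → RatFunc k) (i j l : Fin n) :
    e.repr ((∑ c, x i c • e c) * e j + e i * ∑ c, x j c • e c) l =
        ∑ c, x i c * e.repr (e c * e j) l + ∑ c, x j c * e.repr (e i * e c) l ∧
      e.repr (∑ c, (algebraMap (RatFunc k) L (f (e.repr (e i * e j) c)) * e c +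
        algebraMap (RatFunc k) L (e.repr (e i * e j) c) * ∑ b, x c b • e b)) l =
        f (e.repr (e i * e j) l) + ∑ c, e.repr (e i * e j) c * x c l := by
  classical
  constructor
  · rw [Finset.sum_mul, Finset.mul_sum, map_add, Finsupp.add_apply, map_sum, map_sum,
      Finsupp.finsetSum_apply, Finsupp.finsetSum_apply]
    congr 1
    · refine Finset.sum_congr rfl fun c _ => ?_
      rw [smul_mul_assoc, map_smul, Finsupp.smul_apply, smul_eq_mul]
    · refine Finset.sum_congr rfl fun c _ => ?_
      rw [mul_smul_comm, map_smul, Finsupp.smul_apply, smul_eq_mul]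
  · rw [map_sum, Finsupp.finsetSum_apply]
    have h1 : ∀ c, (e.repr (algebraMap (RatFunc k) L (f (e.repr (e i * e j) c)) * e c +
        algebraMap (RatFunc k) L (e.repr (e i * e j) c) * ∑ b, x c b • e b)) l =
        (if c = l then f (e.repr (e i * e j) c) else 0) + e.repr (e i * e j) c * x c l := by
      intro c
      rw [← Algebra.smul_def, ← Algebra.smul_def, map_add, map_smul, map_smul, Finsupp.add_apply,
        Finsupp.smul_apply, Finsupp.smul_apply, e.repr_self, Finsupp.single_apply, smul_eq_mul,
        smul_eq_mul, map_sum, Finsupp.finsetSum_apply]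
      have h2 : ∀ b, (e.repr (x c b • e b)) l = if b = l then x c b else 0 := by
        intro b
        rw [map_smul, Finsupp.smul_apply, e.repr_self, Finsupp.single_apply, smul_eq_mul]
        split_ifs <;> simp
      rw [Finset.sum_congr rfl fun b _ => h2 b, Finset.sum_ite_eq' Finset.univ l,
        if_pos (Finset.mem_univ l)]
      split_ifs <;> simp
    rw [Finset.sum_congr rfl fun c _ => h1 c, Finset.sum_add_distrib,
      Finset.sum_ite_eq' Finset.univ l, if_pos (Finset.mem_univ l)]

private theorem desc_pol_sum {k : Type*} [Field k] {n : ℕ} (f : Fin n → k[X]) :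
    pol (∑ c, f c) = ∑ c, pol (f c) := map_sum _ _ _

private theorem desc_pol_add {k : Type*} [Field k] (f g : k[X]) :
    pol (f + g) = pol f + pol g := map_add _ _ _

private theorem desc_pol_mul {k : Type*} [Field k] (f g : k[X]) :
    pol (f * g) = pol f * pol g := map_mul _ _ _

/-- the system for the coefficients -/
private theorem desc_sys {k : Type*} [Field k] {L : Type*} [Field L] [Algebra (RatFunc k) L]
    {n : ℕ} (e : Module.Basis (Fin n) (RatFunc k) L) (s : Fin n → Fin n → Fin n → k[X])
    (hs : ∀ i j l, e.repr (e i * e j) l = pol (s i j l))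
    (f : RatFunc k → RatFunc k) (c : k[X] → k[X]) (hf : ∀ p : k[X], f (pol p) = pol (c p))
    (m : k[X]) (hm : m ≠ 0) (β : Fin n → Fin n → k[X]) (i j : Fin n) :
    ((∑ b, (pol (β i b) / pol m) • e b) * e j + e i * ∑ b, (pol (β j b) / pol m) • e b =
      ∑ b, (algebraMap (RatFunc k) L (f (e.repr (e i * e j) b)) * e b +
        algebraMap (RatFunc k) L (e.repr (e i * e j) b) * ∑ a, (pol (β b a) / pol m) • e a)) ↔
    ∀ l, ∑ b, s b j l * β i b + ∑ b, s i b l * β j b =
      m * c (s i j l) + ∑ b, s i j b * β b l := by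
  have hm' : pol m ≠ 0 := by
    intro h
    exact hm ((IsFractionRing.injective k[X] (RatFunc k)) (h.trans (map_zero _).symm))
  have key : ∀ l, (∑ b, (pol (β i b) / pol m) * e.repr (e b * e j) l +
      ∑ b, (pol (β j b) / pol m) * e.repr (e i * e b) l =
      f (e.repr (e i * e j) l) + ∑ b, e.repr (e i * e j) b * (pol (β b l) / pol m)) ↔
      ∑ b, s b j l * β i b + ∑ b, s i b l * β j b =
        m * c (s i j l) + ∑ b, s i j b * β b l := by
    intro l
    have h1 : ∑ b, (pol (β i b) / pol m) * e.repr (e b * e j) l =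
        pol (∑ b, s b j l * β i b) / pol m := by
      rw [desc_pol_sum, Finset.sum_div]
      refine Finset.sum_congr rfl fun b _ => ?_
      rw [hs, desc_pol_mul]
      ring
    have h2 : ∑ b, (pol (β j b) / pol m) * e.repr (e i * e b) l =
        pol (∑ b, s i b l * β j b) / pol m := by
      rw [desc_pol_sum, Finset.sum_div]
      refine Finset.sum_congr rfl fun b _ => ?_
      rw [hs, desc_pol_mul]
      ring
    have h3 : ∑ b, e.repr (e i * e j) b * (pol (β b l) / pol m) =
        pol (∑ b, s i j b * β b l) / pol m := by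
      rw [desc_pol_sum, Finset.sum_div]
      refine Finset.sum_congr rfl fun b _ => ?_
      rw [hs, desc_pol_mul]
      ring
    rw [h1, h2, h3, hs, hf]
    have h4 : pol (c (s i j l)) = pol (m * c (s i j l)) / pol m := by
      rw [desc_pol_mul, mul_div_cancel_left₀ _ hm']
    rw [h4, ← add_div, ← add_div, div_left_inj' hm', ← desc_pol_add, ← desc_pol_add]
    exact (IsFractionRing.injective k[X] (RatFunc k)).eq_iff
  constructor
  · intro h l
    rw [← key l]
    have h1 := congrArg (fun z => e.repr z l) h
    have h2 := desc_coord e (fun i b => pol (β i b) / pol m) f i j l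
    exact (h2.1.symm.trans h1).trans h2.2
  · intro h
    apply e.repr.injective
    apply Finsupp.ext
    intro l
    have h2 := desc_coord e (fun i b => pol (β i b) / pol m) f i j l
    exact (h2.1.trans ((key l).2 (h l))).trans h2.2.symm

theorem desc {k : Type*} [Field k] (K : Subfield k) {L : Type*} [Field L] [Algebra (RatFunc k) L]
    {n : ℕ} (e : Module.Basis (Fin n) (RatFunc k) L) (s : Fin n → Fin n → Fin n → K[X])
    (hs : ∀ i j l, e.repr (e i * e j) l = pol ((s i j l).map K.subtype))
    (δ : Derivation ℤ k k) (hδ : ∀ x ∈ K, δ x ∈ K)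
    (DK : Derivation ℤ (RatFunc k) (RatFunc k)) (hDK : ∀ p : k[X], DK (pol p) = pol (cD δ p))
    (D : Derivation ℤ L L)
    (hD : ∀ r, D (algebraMap (RatFunc k) L r) = algebraMap (RatFunc k) L (DK r))
    (m : K[X]) (hm : m ≠ 0) (β : Fin n → Fin n → k[X])
    (hβ : ∀ i j, pol (m.map K.subtype) * e.repr (D (e i)) j = pol (β i j))
    (hz : ∀ Δ : Derivation (RatFunc k) L L, Δ = 0) (i j : Fin n) :
    ∃ b : K[X], β i j = b.map K.subtype := by
  classical
  obtain ⟨P, hP1, hP2, hP3, hP4⟩ := desc_retr K
  have hm0 : m.map K.subtype ≠ 0 := by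
    intro h
    exact hm ((Polynomial.map_injective _ K.subtype.injective) (h.trans (Polynomial.map_zero _).symm))
  have hm' : pol (m.map K.subtype) ≠ 0 := by
    intro h
    exact hm0 ((IsFractionRing.injective k[X] (RatFunc k)) (h.trans (map_zero _).symm))
  have hPs : ∀ f : Fin n → k[X], P (∑ b, f b) = ∑ b, P (f b) := by
    intro f
    have h0 : P 0 = 0 := by
      have h := hP2 0 0
      rw [add_zero] at h
      exact left_eq_add.mp h
    let P' : k[X] →+ k[X] := { toFun := P, map_zero' := h0, map_add' := hP2 }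
    exact map_sum P' f Finset.univ
  have hDe : ∀ i, D (e i) = ∑ b, (pol (β i b) / pol (m.map K.subtype)) • e b := by
    intro i
    conv_lhs => rw [← e.sum_repr (D (e i))]
    refine Finset.sum_congr rfl fun b _ => ?_
    rw [← hβ i b, mul_div_cancel_left₀ _ hm']
  have hsm : ∀ (r : RatFunc k) (z : L), D (r • z) =
      algebraMap (RatFunc k) L (DK r) * z + algebraMap (RatFunc k) L r * D z := by
    intro r z
    rw [Algebra.smul_def, Derivation.leibniz, hD, smul_eq_mul, smul_eq_mul]
    ring
  have hL : ∀ i j, (∑ b, (pol (β i b) / pol (m.map K.subtype)) • e b) * e j +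
      e i * ∑ b, (pol (β j b) / pol (m.map K.subtype)) • e b =
      ∑ b, (algebraMap (RatFunc k) L (DK (e.repr (e i * e j) b)) * e b +
        algebraMap (RatFunc k) L (e.repr (e i * e j) b) *
          ∑ a, (pol (β b a) / pol (m.map K.subtype)) • e a) := by
    intro i j
    rw [← hDe i, ← hDe j]
    have h1 : D (e i * e j) = D (e i) * e j + e i * D (e j) := by
      rw [Derivation.leibniz, smul_eq_mul, smul_eq_mul]
      ring
    rw [← h1]
    conv_lhs => rw [← e.sum_repr (e i * e j), map_sum]
    refine Finset.sum_congr rfl fun b _ => ?_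
    rw [hsm, hDe b]
  have hsys := fun i j => (desc_sys e (fun i j l => (s i j l).map K.subtype) hs (fun r => DK r) (cD δ)
    hDK (m.map K.subtype) hm0 β i j).1 (hL i j)
  have hsys' : ∀ i j l, ∑ b, (s b j l).map K.subtype * P (β i b) +
      ∑ b, (s i b l).map K.subtype * P (β j b) =
      m.map K.subtype * cD δ ((s i j l).map K.subtype) +
        ∑ b, (s i j b).map K.subtype * P (β b l) := by
    intro i j l
    have h1 := congrArg P (hsys i j l)
    simp only [hP2, hPs, hP3] at h1
    obtain ⟨q, hq⟩ := desc_cD K δ hδ (s i j l)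
    have h2 : P (cD δ ((s i j l).map K.subtype)) = cD δ ((s i j l).map K.subtype) := by
      rw [hq]
      have h3 := hP3 q 1
      rw [mul_one, hP4, mul_one] at h3
      exact h3
    rw [h2] at h1
    exact h1
  obtain ⟨D', hD'1, hD'2⟩ := desc_ext e DK
    (fun i => ∑ b, (pol (P (β i b)) / pol (m.map K.subtype)) • e b)
    (fun i j => (desc_sys e (fun i j l => (s i j l).map K.subtype) hs (fun r => DK r) (cD δ)
      hDK (m.map K.subtype) hm0 (fun i b => P (β i b)) i j).2 (hsys' i j))
  have h1 : D (e i) = D' (e i) := desc_uniq D D' (fun r => by rw [hD, hD'1]) hz (e i)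
  rw [hD'2] at h1
  have h2 := hβ i j
  rw [h1, map_sum, Finsupp.finsetSum_apply] at h2
  have h3 : ∀ b, (e.repr ((pol (P (β i b)) / pol (m.map K.subtype)) • e b)) j =
      if b = j then pol (P (β i b)) / pol (m.map K.subtype) else 0 := by
    intro b
    rw [map_smul, Finsupp.smul_apply, e.repr_self, Finsupp.single_apply, smul_eq_mul]
    split_ifs
    · rw [mul_one]
    · rw [mul_zero]
  rw [Finset.sum_congr rfl fun b _ => h3 b, Finset.sum_ite_eq' Finset.univ j,
    if_pos (Finset.mem_univ j), mul_div_cancel₀ _ hm'] at h2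
  have h4 : P (β i j) = β i j := (IsFractionRing.injective k[X] (RatFunc k)) h2
  obtain ⟨b, hb⟩ := hP1 (β i j)
  exact ⟨b, h4.symm.trans hb⟩

theorem desc_div {k : Type*} [Field k] (K : Subfield k) (t : k) (ht : t ∈ K) (g : k[X])
    (h : ∃ b : K[X], (X - C t) * g = b.map K.subtype) : ∃ b : K[X], g = b.map K.subtype := by
  obtain ⟨b, hb⟩ := h
  refine ⟨b /ₘ (X - C (⟨t, ht⟩ : K)), ?_⟩
  rw [Polynomial.map_divByMonic _ (monic_X_sub_C _), ← hb, Polynomial.map_sub, Polynomial.map_X,
    Polynomial.map_C]
  exact (mul_divByMonic_cancel_left g (monic_X_sub_C t)).symm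

/-- A polynomial whose coefficients lie in a subring is the image of a polynomial over it. -/
theorem exists_map_of_coeff {k : Type*} [Field k] (A : Subalgebra ℤ k) (p : k[X])
    (h : ∀ i, p.coeff i ∈ A) : ∃ r : A[X], r.map (algebraMap A k) = p := by
  have h1 : p ∈ Polynomial.lifts (algebraMap A k) := by
    rw [Polynomial.lifts_iff_coeff_lifts]
    intro i
    exact ⟨⟨p.coeff i, h i⟩, rfl⟩
  exact (Polynomial.mem_lifts p).1 h1

end MPadcCov
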