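import Mathlib

/-!
# JOB Ext: extension of derivations in characteristic 0

* `ext_der`: an extension `K / F` of fields of characteristic `0` is formally smooth (Mathlib: search
  `FormallySmooth` with `PerfectField`/`Field`; e.g. `Algebra.FormallySmooth` instances in
  `RingTheory/Smooth/Field.lean`). The dual numbers `TrivSqZeroExt K K` (or `DualNumber K`) are an
  `F`-algebra by `x ↦ x + (D0 x) ε`; the identity of `K` lifts to an `F`-algebra homomorphism
  `K → K[ε]`, `z ↦ z + (D z) ε` (`Algebra.FormallySmooth.lift` for the nilpotent ideal `(ε)`, or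
  `Algebra.FormallySmooth.exists_lift`). Alternative without formal smoothness: Zorn's lemma on the pairs
  (intermediate field, extension of the derivation), one step = a simple transcendental extension
  (`d (p / q)`, free choice of `D x`) or a simple algebraic one (separable minimal polynomial:
  `D z = - (D p) (z) / p' (z)`); Mathlib also has `Differential` for algebraic extensions
  (`FieldTheory/Differential/Basic.lean`) and transcendence bases.
* `exists_delta`: let `F = closure s`, `F(t)` is purely transcendental (`IntermediateField`/`RatFunc`), the derivation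
  `d / dt` of `F(t)` (composition with the inclusion `F(t) → K`); extend it to `K` by `ext_der`, then the
  composition `K → K → k` to `k`.
* `exists_extension`: `ext_der` for `D0 = algebraMap ∘ ΔK`.
-/

set_option autoImplicit false

namespace MPadcCov

private theorem smooth_char0 (F K : Type*) [Field F] [Field K] [Algebra F K] [CharZero F] :
    Algebra.FormallySmooth F K := by
  obtain ⟨ι, x, hx⟩ := exists_isTranscendenceBasis' F K
  have halg : Algebra.IsAlgebraic (IntermediateField.adjoin F (Set.range x)) K := hx.isAlgebraic_field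
  have hs : Algebra.IsSeparable (IntermediateField.adjoin F (Set.range x)) K := inferInstance
  exact Algebra.FormallySmooth.of_algebraicIndependent_of_isSeparable hx.1

private theorem lift_der {A K : Type*} [CommRing A] [Field K] [Algebra A K]
    [Algebra.FormallySmooth A K] (d : A →+ K)
    (hd : ∀ a b, d (a * b) = algebraMap A K a * d b + algebraMap A K b * d a) :
    ∃ D : Derivation ℤ K K, ∀ a, D (algebraMap A K a) = d a := by
  have h1 : d 1 = 0 := by
    have := hd 1 1
    rw [mul_one, (algebraMap A K).map_one, one_mul] at this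
    exact left_eq_add.mp this
  let φ : A →+* TrivSqZeroExt K K :=
    { toFun := fun a => TrivSqZeroExt.inl (algebraMap A K a) + TrivSqZeroExt.inr (d a)
      map_one' := by
        rw [h1, map_one]
        simp
      map_zero' := by
        rw [map_zero, map_zero]
        simp
      map_add' := by
        intro a b
        rw [map_add, map_add]
        ext
        · simp
        · simp
      map_mul' := by
        intro a b
        rw [map_mul, hd]
        ext
        · simp
        · simp [mul_comm] }
  let _ : Algebra A (TrivSqZeroExt K K) := φ.toAlgebra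
  let π : TrivSqZeroExt K K →ₐ[A] K :=
    { toFun := TrivSqZeroExt.fst
      map_one' := TrivSqZeroExt.fst_one
      map_mul' := fun _ _ => TrivSqZeroExt.fst_mul _ _
      map_zero' := TrivSqZeroExt.fst_zero
      map_add' := fun _ _ => TrivSqZeroExt.fst_add _ _
      commutes' := by
        intro a
        show (φ a).fst = algebraMap A K a
        simp [φ] }
  have hsur : Function.Surjective π := fun z =>
    ⟨(TrivSqZeroExt.inl z : TrivSqZeroExt K K), TrivSqZeroExt.fst_inl K z⟩
  have hnil : IsNilpotent (RingHom.ker (π : TrivSqZeroExt K K →+* K)) := by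
    have h2 : ∀ I : Ideal (TrivSqZeroExt K K), (∀ u ∈ I, ∀ v ∈ I, u * v = 0) → I ^ 2 = 0 := by
      intro I hI
      rw [pow_two, Ideal.zero_eq_bot, eq_bot_iff, Ideal.mul_le]
      intro u hu v hv
      rw [Ideal.mem_bot]
      exact hI u hu v hv
    refine ⟨2, h2 _ ?_⟩
    intro u hu v hv
    have hu' : u.fst = 0 := hu
    have hv' : v.fst = 0 := hv
    ext
    · simp [hu']
    · simp [hu', hv']
  let σ : K →ₐ[A] TrivSqZeroExt K K :=
    Algebra.FormallySmooth.liftOfSurjective (AlgHom.id A K) π hsur hnil
  have hσ : ∀ z, (σ z).fst = z := fun z =>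
    Algebra.FormallySmooth.liftOfSurjective_apply (AlgHom.id A K) π hsur hnil z
  let D' : K →+ K :=
    { toFun := fun z => (σ z).snd
      map_zero' := by
        rw [map_zero]
        rfl
      map_add' := by
        intro a b
        rw [map_add]
        rfl }
  refine ⟨Derivation.mk' D'.toIntLinearMap ?_, ?_⟩
  · intro a b
    show (σ (a * b)).snd = a • (σ b).snd + b • (σ a).snd
    rw [map_mul, TrivSqZeroExt.snd_mul, hσ, hσ]
    simp [mul_comm]
  · intro a
    show (σ (algebraMap A K a)).snd = d a
    rw [AlgHom.commutes]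
    show (φ a).snd = d a
    simp [φ]

theorem ext_der {F K : Type*} [Field F] [Field K] [Algebra F K] [CharZero F]
    (D₀ : Derivation ℤ F K) : ∃ D : Derivation ℤ K K, ∀ x, D (algebraMap F K x) = D₀ x := by
  have := smooth_char0 F K
  obtain ⟨D, hD⟩ := lift_der (A := F) (K := K) D₀.toLinearMap.toAddMonoidHom (by
    intro a b
    show D₀ (a * b) = _
    rw [D₀.leibniz, Algebra.smul_def, Algebra.smul_def]
    rfl)
  exact ⟨D, hD⟩

theorem exists_extension {K L : Type*} [Field K] [Field L] [Algebra K L] [CharZero K]
    (ΔK : Derivation ℤ K K) :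
    ∃ Δ : Derivation ℤ L L, ∀ x, Δ (algebraMap K L x) = algebraMap K L (ΔK x) := by
  obtain ⟨D, hD⟩ := ext_der (F := K) (K := L) ((Algebra.linearMap K L).compDer ΔK)
  exact ⟨D, fun x => (hD x).trans rfl⟩

theorem exists_delta {k : Type*} [Field k] [CharZero k] (K : Subfield k) (s : Finset k) (t : k)
    (hs : ∀ b ∈ s, b ∈ K) (ht : t ∈ K)
    (htr : Transcendental (Subfield.closure (s : Set k)) t) :
    ∃ δ : Derivation ℤ k k, δ t = 1 ∧ (∀ b ∈ s, δ b = 0) ∧ ∀ x ∈ K, δ x ∈ K := by
  have hF : Subfield.closure (s : Set k) ≤ K := Subfield.closure_le.2 fun b hb => hs b hb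
  let F₀ : Subfield k := Subfield.closure (s : Set k)
  let _ : Algebra F₀ K := (Subfield.inclusion hF).toAlgebra
  have hT : Transcendental F₀ (⟨t, ht⟩ : K) := by
    rintro ⟨p, hp, hp0⟩
    apply htr
    refine ⟨p, hp, ?_⟩
    have h2 : K.subtype (Polynomial.aeval (⟨t, ht⟩ : K) p) = 0 := by
      rw [hp0, map_zero]
    rw [Polynomial.aeval_def, Polynomial.hom_eval₂] at h2
    exact h2
  let A := Polynomial F₀
  let E := FractionRing A
  have hinj : Function.Injective (Polynomial.aeval (R := F₀) (⟨t, ht⟩ : K)) :=
    transcendental_iff_injective.1 hT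
  let _ : Algebra A K := (Polynomial.aeval (R := F₀) (⟨t, ht⟩ : K)).toRingHom.toAlgebra
  let _ : Algebra E K := (IsFractionRing.lift (A := A) (K := E) (L := K)
    (g := (Polynomial.aeval (R := F₀) (⟨t, ht⟩ : K)).toRingHom) hinj).toAlgebra
  have hst : IsScalarTower A E K := IsScalarTower.of_algebraMap_eq fun a =>
    (IsFractionRing.lift_algebraMap (A := A) (K := E) (L := K)
      (g := (Polynomial.aeval (R := F₀) (⟨t, ht⟩ : K)).toRingHom) hinj a).symm
  have hc : CharZero E := by
    have : CharZero F₀ := inferInstance
    have : CharZero A := inferInstance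
    exact inferInstance
  have h1 : Algebra.FormallyEtale A E := Algebra.FormallyEtale.of_isLocalization (nonZeroDivisors A)
  have h2 : Algebra.FormallySmooth E K := smooth_char0 E K
  have h3 : Algebra.FormallySmooth A K := Algebra.FormallySmooth.comp A E K
  obtain ⟨D, hD⟩ := lift_der (A := A) (K := K)
    { toFun := fun p => Polynomial.aeval (⟨t, ht⟩ : K) (Polynomial.derivative p)
      map_zero' := by simp
      map_add' := by
        intro a b
        simp } (by
    intro a b
    show Polynomial.aeval (⟨t, ht⟩ : K) (Polynomial.derivative (a * b)) =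
      Polynomial.aeval (⟨t, ht⟩ : K) a * Polynomial.aeval (⟨t, ht⟩ : K) (Polynomial.derivative b) +
      Polynomial.aeval (⟨t, ht⟩ : K) b * Polynomial.aeval (⟨t, ht⟩ : K) (Polynomial.derivative a)
    rw [Polynomial.derivative_mul, map_add, map_mul, map_mul]
    ring)
  have hDt : D ⟨t, ht⟩ = 1 := by
    have h4 := hD (Polynomial.X : A)
    have h5 : algebraMap A K Polynomial.X = ⟨t, ht⟩ := Polynomial.aeval_X _
    rw [h5] at h4
    rw [h4]
    show Polynomial.aeval (⟨t, ht⟩ : K) (Polynomial.derivative (Polynomial.X : A)) = 1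
    rw [Polynomial.derivative_X, map_one]
  have hDb : ∀ b (hb : b ∈ F₀), D ⟨b, hF hb⟩ = 0 := by
    intro b hb
    have h4 := hD (Polynomial.C ⟨b, hb⟩ : A)
    have h5 : algebraMap A K (Polynomial.C ⟨b, hb⟩) = ⟨b, hF hb⟩ := Polynomial.aeval_C _ _
    rw [h5] at h4
    rw [h4]
    show Polynomial.aeval (⟨t, ht⟩ : K) (Polynomial.derivative (Polynomial.C ⟨b, hb⟩ : A)) = 0
    rw [Polynomial.derivative_C, map_zero]
  obtain ⟨δ, hδ⟩ := exists_extension (K := K) (L := k) D
  refine ⟨δ, ?_, ?_, ?_⟩
  · have h4 := hδ ⟨t, ht⟩
    rw [hDt, map_one] at h4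
    exact h4
  · intro b hb
    have h4 := hδ ⟨b, hs b hb⟩
    rw [hDb b (Subfield.subset_closure hb), map_zero] at h4
    exact h4
  · intro x hx
    have h4 := hδ ⟨x, hx⟩
    have h5 : δ x = algebraMap K k (D ⟨x, hx⟩) := h4
    rw [h5]
    exact (D ⟨x, hx⟩).2

end MPadcCov
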