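import Mathlib

/-!
# JOB Stab: finitely generated stable subrings

* `exists_stable`: let `A₀ = Algebra.adjoin ℤ S`. Every element of `K` is `x / y` with `x, y ∈ A₀`, `y ≠ 0`
  (the set of these quotients is a subfield: `Subfield.closure_induction`; or
  `Subfield.mem_closure_iff`). Let `v ∈ A₀`, `v ≠ 0` be a common denominator of the `δ x` (`x ∈ S`) and of
  the elements of `T`, and `A = Algebra.adjoin ℤ (S ∪ {v⁻¹})`. Then `δ x ∈ A` for `x ∈ S`, so
  `δ A₀ ⊆ A` (`Algebra.adjoin_induction`), and `δ (v⁻¹) = - δ v * v⁻¹ ^ 2 ∈ A`, so `δ A ⊆ A`.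
* `exists_restrict`: `Derivation.mk'`-style definition on the subtype (`Derivation ℤ A A` for the
  subalgebra `A`).
-/

set_option autoImplicit false

namespace MPadcCov

theorem Stab_denom {k : Type*} [Field k] (S : Set k) (U : Finset k)
    (hU : ∀ x ∈ U, x ∈ Subfield.closure S) :
    ∃ v ∈ Subring.closure S, v ≠ 0 ∧ ∀ x ∈ U, v * x ∈ Subring.closure S := by
  classical
  induction U using Finset.induction_on with
  | empty => exact ⟨1, one_mem _, one_ne_zero, by simp⟩
  | insert a U ha ih =>
    obtain ⟨v, hv, hv0, h⟩ := ih (fun x hx => hU x (Finset.mem_insert_of_mem hx))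
    obtain ⟨y, hy, z, hz, hyz⟩ := Subfield.mem_closure_iff.1 (hU a (Finset.mem_insert_self _ _))
    by_cases hz0 : z = 0
    · refine ⟨v, hv, hv0, ?_⟩
      intro x hx
      rcases Finset.mem_insert.1 hx with rfl | hx
      · rw [← hyz, hz0, div_zero, mul_zero]
        exact zero_mem _
      · exact h x hx
    · refine ⟨v * z, mul_mem hv hz, mul_ne_zero hv0 hz0, ?_⟩
      intro x hx
      rcases Finset.mem_insert.1 hx with rfl | hx
      · have h1 : v * z * x = v * y := by
          rw [← hyz]
          field_simp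
        rw [h1]
        exact mul_mem hv hy
      · have h1 : v * z * x = z * (v * x) := by ring
        rw [h1]
        exact mul_mem hz (h x hx)

theorem exists_stable {k : Type*} [Field k] (S T : Finset k) (δ : Derivation ℤ k k)
    (hδ : ∀ x ∈ Subfield.closure (S : Set k), δ x ∈ Subfield.closure (S : Set k))
    (hT : ∀ x ∈ T, x ∈ Subfield.closure (S : Set k)) :
    ∃ A : Subalgebra ℤ k, A.FG ∧ (∀ x ∈ T, x ∈ A) ∧ (∀ x ∈ S, x ∈ A) ∧ ∀ x ∈ A, δ x ∈ A := by
  classical
  have hU0 : ∀ x ∈ T ∪ S.image δ, x ∈ Subfield.closure (S : Set k) := by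
    intro x hx
    rcases Finset.mem_union.1 hx with hx | hx
    · exact hT x hx
    · obtain ⟨y, hy, rfl⟩ := Finset.mem_image.1 hx
      exact hδ y (Subfield.subset_closure hy)
  obtain ⟨v, hv, hv0, hvU⟩ := Stab_denom (S : Set k) (T ∪ S.image δ) hU0
  set A : Subalgebra ℤ k := Algebra.adjoin ℤ ((insert v⁻¹ S : Finset k) : Set k) with hA
  have hsub : ∀ x ∈ Subring.closure (S : Set k), x ∈ A := by
    intro x hx
    have h1 : Subring.closure (S : Set k) ≤ A.toSubring := by
      rw [Subring.closure_le]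
      intro y hy
      refine Algebra.subset_adjoin ?_
      rw [Finset.coe_insert]
      exact Set.mem_insert_of_mem _ hy
    exact h1 hx
  have hvi : v⁻¹ ∈ A := by
    refine Algebra.subset_adjoin ?_
    rw [Finset.coe_insert]
    exact Set.mem_insert _ _
  have hU : ∀ x ∈ T ∪ S.image δ, x ∈ A := by
    intro x hx
    have h1 : x = v⁻¹ * (v * x) := by field_simp
    rw [h1]
    exact mul_mem hvi (hsub _ (hvU x hx))
  have hδS : ∀ x ∈ S, δ x ∈ A := fun x hx =>
    hU _ (Finset.mem_union_right _ (Finset.mem_image_of_mem _ hx))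
  have hδc : ∀ x ∈ Subring.closure (S : Set k), δ x ∈ A := by
    intro x hx
    induction hx using Subring.closure_induction with
    | mem x hx => exact hδS x hx
    | zero => rw [map_zero]; exact zero_mem _
    | one => rw [Derivation.map_one_eq_zero]; exact zero_mem _
    | add x y hx hy h1 h2 => rw [map_add]; exact add_mem h1 h2
    | neg x hx h1 => rw [map_neg]; exact neg_mem h1
    | mul x y hx hy h1 h2 =>
      rw [Derivation.leibniz, smul_eq_mul, smul_eq_mul]
      exact add_mem (mul_mem (hsub _ hx) h2) (mul_mem (hsub _ hy) h1)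
  have hδv : δ v⁻¹ ∈ A := by
    rw [Derivation.leibniz_inv, smul_eq_mul]
    exact mul_mem (neg_mem (pow_mem hvi 2)) (hδc v hv)
  refine ⟨A, ⟨insert v⁻¹ S, rfl⟩, fun x hx => hU x (Finset.mem_union_left _ hx),
    fun x hx => hsub x (Subring.subset_closure hx), ?_⟩
  intro x hx
  rw [hA] at hx
  induction hx using Algebra.adjoin_induction with
  | mem x hx =>
    rw [Finset.mem_coe] at hx
    rcases Finset.mem_insert.1 hx with rfl | hx
    · exact hδv
    · exact hδS x hx
  | algebraMap r =>
    rw [Derivation.map_algebraMap]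
    exact zero_mem _
  | add x y hx hy h1 h2 => rw [map_add]; exact add_mem h1 h2
  | mul x y hx hy h1 h2 =>
    rw [Derivation.leibniz, smul_eq_mul, smul_eq_mul]
    exact add_mem (mul_mem hx h2) (mul_mem hy h1)

theorem exists_restrict {k : Type*} [Field k] (A : Subalgebra ℤ k) (δ : Derivation ℤ k k)
    (hδ : ∀ x ∈ A, δ x ∈ A) : ∃ δA : Derivation ℤ A A, ∀ x, (δA x : k) = δ x := by
  refine ⟨Derivation.mk'
    { toFun := fun x => ⟨δ (x : k), hδ x x.2⟩
      map_add' := fun x y => Subtype.ext (by simp)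
      map_smul' := fun r x => Subtype.ext (by simp) } ?_, fun x => rfl⟩
  intro x y
  apply Subtype.ext
  simp

end MPadcCov
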