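import Pool.Agent.Lib.MP_adc574_ag_Cov.Basic

/-!
# The polynomial arrays of a cover

All structure constants of a cover over a coefficient ring `R`, and what it means that an algebra
over `κ(x)` has these structure constants.
-/

set_option autoImplicit false

namespace MPadcCov

open Polynomial

/-- The polynomial arrays of a cover of degree `n`. -/
structure Arr (R : Type*) [CommRing R] (n : ℕ) where
  /-- `e i * e j = ∑ s i j k • e k` -/
  s : Fin n → Fin n → Fin n → R[X]
  /-- `1 = ∑ u k • e k` -/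
  u : Fin n → R[X]
  /-- `y = ∑ y k • e k` -/
  y : Fin n → R[X]
  /-- `ρ • d (e i) = ∑ α i j • e j` -/
  α : Fin n → Fin n → R[X]
  /-- `ρ • e* i = ∑ τ i j • e j` for the dual basis `e*` -/
  τ : Fin n → Fin n → R[X]
  /-- `h₀ • Tr (d (e i) * e j) = ν i j` -/
  ν : Fin n → Fin n → R[X]
  /-- `det (Tr (e i * e j)) = (X - C t) * h` -/
  h : R[X]
  /-- the product of the `X - C b` for the constant branch points -/
  h₀ : R[X]
  /-- the moving branch point -/
  t : R

namespace Arr

variable {R : Type*} [CommRing R] {n : ℕ}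

/-- `ρ = (X - C t) h₀`. -/
noncomputable def ρ (𝒜 : Arr R n) : R[X] := (X - C 𝒜.t) * 𝒜.h₀

/-- The image under a homomorphism of the coefficient rings. -/
noncomputable def map {R' : Type*} [CommRing R'] (𝒜 : Arr R n) (f : R →+* R') : Arr R' n where
  s i j k := (𝒜.s i j k).map f
  u k := (𝒜.u k).map f
  y k := (𝒜.y k).map f
  α i j := (𝒜.α i j).map f
  τ i j := (𝒜.τ i j).map f
  ν i j := (𝒜.ν i j).map f
  h := 𝒜.h.map f
  h₀ := 𝒜.h₀.map f
  t := f 𝒜.t

/-- The matrix of the multiplication by `∑ z i • e i` (rows: `j`, columns: `k`). -/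
noncomputable def mul (𝒜 : Arr R n) (z : Fin n → R[X]) : Matrix (Fin n) (Fin n) R[X] :=
  Matrix.of fun j k => ∑ i, z i * 𝒜.s i j k

/-- The discriminant of `1, z, z ^ 2, …`, for `z = ∑ z i • e i`. -/
noncomputable def dsc (𝒜 : Arr R n) (z : Fin n → R[X]) : R[X] :=
  (Matrix.of fun i j : Fin n => (𝒜.mul z ^ (i.1 + j.1)).trace).det

/-- The coordinates of `ρ • z` for the element `z` with dual coordinates `c`. -/
noncomputable def rho (𝒜 : Arr R n) (c : Fin n → R[X]) : Fin n → R[X] :=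
  fun j => ∑ i, c i * 𝒜.τ i j

/-- The dual coordinates of `ρ ^ k • d ^ k z`, for the element `z` with dual coordinates `c`. -/
noncomputable def vrec (𝒜 : Arr R n) (c : Fin n → R[X]) : ℕ → Fin n → R[X]
  | 0 => c
  | k + 1 => fun i => 𝒜.ρ * derivative (𝒜.vrec c k i) - ∑ j, 𝒜.α i j * 𝒜.vrec c k j -
      (k : R[X]) * derivative 𝒜.ρ * 𝒜.vrec c k i

end Arr

/-- The index set of the coordinates of the regular forms. -/
abbrev Ix {n : ℕ} (a : Fin n → ℕ) : Type := Σ i : Fin n, Fin (a i - 1)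

/-- The polynomials `c i` of degree at most `a i - 2` with given coefficients. -/
noncomputable def cp {R : Type*} [CommRing R] {n : ℕ} (a : Fin n → ℕ) (c : Ix a → R) :
    Fin n → R[X] :=
  fun i => ∑ m : Fin (a i - 1), C (c ⟨i, m⟩) * X ^ m.1

section Fits

variable {κ : Type*} [Field κ] {E : Type*} [CommRing E] [Algebra (RatFunc κ) E] {n : ℕ}

/-- The algebra `E` with the basis `e`, the derivation `d` and the element `y` has the structure
constants `𝒜`. -/
structure Fits (𝒜 : Arr κ n) (e : Module.Basis (Fin n) (RatFunc κ) E) (d : Derivation ℤ E E)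
    (y : E) : Prop where
  s : ∀ i j k, e.repr (e i * e j) k = pol (𝒜.s i j k)
  u : ∀ k, e.repr 1 k = pol (𝒜.u k)
  y : ∀ k, e.repr y k = pol (𝒜.y k)
  α : ∀ i j, pol 𝒜.ρ * e.repr (d (e i)) j = pol (𝒜.α i j)
  τ : ∀ i, ∃ w : E, (∀ j, Tr κ E (w * e j) = if i = j then 1 else 0) ∧
    ∀ j, pol 𝒜.ρ * e.repr w j = pol (𝒜.τ i j)
  ν : ∀ i j, pol 𝒜.h₀ * Tr κ E (d (e i) * e j) = pol (𝒜.ν i j)
  disc : (Matrix.of fun i j => Tr κ E (e i * e j)).det = pol ((X - C 𝒜.t) * 𝒜.h)

end Fits

end MPadcCov
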