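import Pool.Agent.Lib.MP_adc574_ag_Cov.Pt
import Pool.Agent.Lib.MP_adc574_ag_Cov.Deg

/-!
# JOB FactB: the derivation `d / dx` and the Birkhoff basis

For a derivation `Δ` over `ΔK` and `r ∈ k(x)`, `(r Δ)` is the derivation
`algebraMap (RatFunc k) L r • Δ` over `r • ΔK`. `e i` is integral over `Rb b` (coordinates `0, 1`:
`hX`, `intS_of_intX`).
* `der`: at every `b`, `ρ d (e i)` is integral over `Rb b`: for `b ∈ s` or `b = t` use `pt_log` for
  `(x - b) d` (`hb` with `p = 1`), `ρ = (x - b) *` polynomial; otherwise `Bir.pt_der` for `d`. Then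
  `inB_of_local`. Degrees: `inf_log` for `x d` (`ΔK x⁻¹ = - x⁻¹`; `dK_dle`, `dle_mul`), applied to
  `x ^ (-a i) e i`: `x d (x ^ (-a i) e i) = - a i x ^ (-a i) e i + x ^ (1 - a i) d e i`, so
  `x ^ (1 - a i) d e i` is integral over `Oinf`, its coordinates have degree `≤ - a j`.
* `nu`: `Tr (h₀ d (e i) * e j) ∈ Rb b` for all `b`: for `b ∈ s` by `pt_log` for `(x - b) d` and
  `Tr (integral) ∈ Rb b` (`Rb b` is integrally closed: `Algebra.isIntegral_trace`; or `pt_any` with the
  derivation `(x - b) d` !), for `b ∉ s` by `pt_any` for `d`. Then `isPol_iff`. (So: `pt_any` suffices.)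
-/

set_option autoImplicit false

namespace MPadcCov

open Polynomial

variable {k : Type*} [Field k] [IsAlgClosed k] [CharZero k] {L : Type*} [Field L]
  [Algebra (RatFunc k) L] [FiniteDimensional (RatFunc k) L] {n : ℕ}
  {e : Module.Basis (Fin n) (RatFunc k) L} {a : Fin n → ℕ} {t : k} {s : Finset k} {h : k[X]}

omit [IsAlgClosed k] [CharZero k] [FiniteDimensional (RatFunc k) L] in
private theorem FactB_repr_alg (r : RatFunc k) (z : L) (j : Fin n) :
    e.repr (algebraMap (RatFunc k) L r * z) j = r * e.repr z j := by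
  rw [← Algebra.smul_def, map_smul, Finsupp.smul_apply, smul_eq_mul]

omit [IsAlgClosed k] [CharZero k] [FiniteDimensional (RatFunc k) L] in
private theorem FactB_inB (i : Fin n) : InB e (e i) := by
  intro j
  rw [e.repr_self, Finsupp.single_apply]
  by_cases hij : i = j
  · rw [if_pos hij]
    exact ⟨1, map_one _⟩
  · rw [if_neg hij]
    exact ⟨0, map_zero _⟩

omit [IsAlgClosed k] [CharZero k] [FiniteDimensional (RatFunc k) L] in
private theorem FactB_int (H : Bir e a t s h) (b : k) (i : Fin n) : IntS (Rb b) (e i) :=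
  intS_of_intX b _ ((H.hX _).2 (FactB_inB i))

omit [IsAlgClosed k] [CharZero k] [FiniteDimensional (RatFunc k) L] in
private theorem FactB_smul {dK : Derivation ℤ (RatFunc k) (RatFunc k)} {d : Derivation ℤ L L}
    (hd : ∀ r, d (algebraMap (RatFunc k) L r) = algebraMap (RatFunc k) L (dK r)) (c r : RatFunc k) :
    (algebraMap (RatFunc k) L c • d) (algebraMap (RatFunc k) L r) =
      algebraMap (RatFunc k) L ((c • dK) r) := by
  rw [Derivation.smul_apply, Derivation.smul_apply, hd, smul_eq_mul, smul_eq_mul, map_mul]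

omit [IsAlgClosed k] [CharZero k] in
private theorem FactB_pol {dK : Derivation ℤ (RatFunc k) (RatFunc k)}
    (hK : ∀ p : k[X], dK (pol p) = pol (derivative p)) (q p : k[X]) :
    IsPol ((pol q • dK) (pol p)) := by
  refine ⟨q * derivative p, ?_⟩
  rw [Derivation.smul_apply, smul_eq_mul, hK, pol, map_mul]

omit [IsAlgClosed k] [CharZero k] in
private theorem FactB_log {dK : Derivation ℤ (RatFunc k) (RatFunc k)}
    (hK : ∀ p : k[X], dK (pol p) = pol (derivative p)) (b : k) :
    ∃ p : k[X], (pol (X - C b) • dK) (pol (X - C b)) = pol (X - C b) * pol p := by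
  refine ⟨1, ?_⟩
  rw [Derivation.smul_apply, smul_eq_mul, hK, derivative_X_sub_C]

omit [IsAlgClosed k] [CharZero k] in
private theorem FactB_fac {b : k} (hb : b ∈ s) :
    ∃ q : k[X], ∏ b ∈ s, (X - C b) = (X - C b) * q :=
  Finset.dvd_prod_of_mem (fun b => X - C b) hb

private theorem FactB_loc (H : Bir e a t s h) {dK : Derivation ℤ (RatFunc k) (RatFunc k)}
    {d : Derivation ℤ L L} (hK : ∀ p : k[X], dK (pol p) = pol (derivative p))
    (hd : ∀ r, d (algebraMap (RatFunc k) L r) = algebraMap (RatFunc k) L (dK r)) (i : Fin n) (b : k) :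
    IntS (Rb b) (algebraMap (RatFunc k) L (pol ((X - C t) * ∏ b ∈ s, (X - C b))) * d (e i)) := by
  by_cases hbs : b ∈ s ∨ b = t
  · obtain ⟨q, hq⟩ : ∃ q : k[X], (X - C t) * ∏ b ∈ s, (X - C b) = q * (X - C b) := by
      rcases hbs with hbs | hbt
      · obtain ⟨q, hq⟩ := FactB_fac hbs
        exact ⟨(X - C t) * q, by rw [hq]; ring⟩
      · exact ⟨∏ b ∈ s, (X - C b), by rw [hbt]; ring⟩
    have h1 := pt_log (FactB_smul hd (pol (X - C b))) (FactB_pol hK (X - C b)) b (FactB_log hK b)
      (e i) (FactB_int H b i)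
    rw [Derivation.smul_apply, smul_eq_mul] at h1
    have h2 := intS_mul (Rb b) (intS_of_mem (L := L) (Rb b) (pol_mem_Rb b q)) h1
    rw [hq, pol, map_mul, map_mul, mul_assoc]
    exact h2
  · have h1 : b ∉ s := fun h => hbs (Or.inl h)
    have h2 : b ≠ t := fun h => hbs (Or.inr h)
    have h3 := H.pt_der hd (fun p => ⟨derivative p, (hK p).symm⟩) b h1 h2 (e i) (FactB_int H b i)
    exact intS_mul (Rb b) (intS_of_mem (L := L) (Rb b) (pol_mem_Rb b _)) h3

omit [IsAlgClosed k] [CharZero k] in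
private theorem FactB_dle_X : Dle (RatFunc.X : RatFunc k) 1 := Or.inr (by rw [RatFunc.intDegree_X])

omit [IsAlgClosed k] [CharZero k] in
private theorem FactB_dle_xpow (N : ℤ) : Dle (RatFunc.X ^ N : RatFunc k) N := by
  have h1 := (dle_xpow_mul (1 : RatFunc k) 0 N).2 (Or.inr (by rw [RatFunc.intDegree_one]))
  rwa [mul_one, zero_add] at h1

private theorem FactB_deg (H : Bir e a t s h) {dK : Derivation ℤ (RatFunc k) (RatFunc k)}
    {d : Derivation ℤ L L} (hK : ∀ p : k[X], dK (pol p) = pol (derivative p))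
    (hd : ∀ r, d (algebraMap (RatFunc k) L r) = algebraMap (RatFunc k) L (dK r)) (i j : Fin n) :
    Dle (e.repr (d (e i)) j) ((a i : ℤ) - a j - 1) := by
  have hf : IntO k (algebraMap (RatFunc k) L (RatFunc.X ^ (-(a i : ℤ))) * e i) := by
    rw [H.hI]
    intro j
    rw [FactB_repr_alg, e.repr_self, Finsupp.single_apply]
    by_cases hij : i = j
    · rw [if_pos hij, mul_one, ← hij]
      exact FactB_dle_xpow _
    · rw [if_neg hij, mul_zero]
      exact Or.inl rfl
  have hP : ∀ r : RatFunc k, Dle r 0 → Dle (((RatFunc.X : RatFunc k) • dK) r) 0 := by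
    intro r hr
    rw [Derivation.smul_apply, smul_eq_mul]
    have h1 := dle_mul (FactB_dle_X (k := k)) (dK_dle hK r 0 hr)
    exact dle_mono h1 (by norm_num)
  have hb : ∃ w : RatFunc k, Dle w 0 ∧
      ((RatFunc.X : RatFunc k) • dK) RatFunc.X⁻¹ = RatFunc.X⁻¹ * w := by
    refine ⟨-1, Or.inr (by rw [RatFunc.intDegree_neg, RatFunc.intDegree_one]), ?_⟩
    have h1 := dK_xpow hK (-1)
    rw [zpow_neg_one] at h1
    have h0 : (RatFunc.X : RatFunc k) ≠ 0 := RatFunc.X_ne_zero
    rw [Derivation.smul_apply, smul_eq_mul, h1, zpow_sub_one₀ h0, zpow_neg_one]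
    push_cast
    field_simp
  have h1 := inf_log (FactB_smul hd (RatFunc.X : RatFunc k)) hP hb _ hf
  rw [H.hI] at h1
  have h2 := h1 j
  rw [Derivation.smul_apply, Derivation.leibniz, hd, smul_eq_mul, smul_eq_mul, smul_eq_mul,
    mul_add, map_add, Finsupp.add_apply, ← mul_assoc, ← map_mul, FactB_repr_alg] at h2
  have h3 : algebraMap (RatFunc k) L RatFunc.X *
      (e i * algebraMap (RatFunc k) L (dK (RatFunc.X ^ (-(a i : ℤ))))) =
      algebraMap (RatFunc k) L (RatFunc.X * dK (RatFunc.X ^ (-(a i : ℤ)))) * e i := by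
    rw [map_mul]
    ring
  rw [h3, FactB_repr_alg] at h2
  have h4 : Dle (RatFunc.X * dK (RatFunc.X ^ (-(a i : ℤ))) * e.repr (e i) j) (-(a j : ℤ)) := by
    rw [e.repr_self, Finsupp.single_apply]
    by_cases hij : i = j
    · rw [if_pos hij, mul_one, ← hij]
      have h5 := dle_mul (FactB_dle_X (k := k)) (dK_dle hK _ _ (FactB_dle_xpow (k := k) (-(a i : ℤ))))
      exact dle_mono h5 (by linarith)
    · rw [if_neg hij, mul_zero]
      exact Or.inl rfl
  have h5 : Dle (-(RatFunc.X * dK (RatFunc.X ^ (-(a i : ℤ))) * e.repr (e i) j)) (-(a j : ℤ)) := by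
    rcases h4 with h4 | h4
    · left
      rw [h4, neg_zero]
    · right
      rwa [RatFunc.intDegree_neg]
  have h6 := dle_add h2 h5
  rw [add_neg_cancel_right] at h6
  have h7 : (RatFunc.X : RatFunc k) * RatFunc.X ^ (-(a i : ℤ)) = RatFunc.X ^ (1 - (a i : ℤ)) := by
    rw [sub_eq_add_neg, zpow_add₀ RatFunc.X_ne_zero, zpow_one]
  rw [h7] at h6
  refine (dle_xpow_mul _ _ (1 - (a i : ℤ))).1 (dle_mono h6 ?_)
  linarith

theorem Bir.der (H : Bir e a t s h) {dK : Derivation ℤ (RatFunc k) (RatFunc k)}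
    {d : Derivation ℤ L L} (hK : ∀ p : k[X], dK (pol p) = pol (derivative p))
    (hd : ∀ r, d (algebraMap (RatFunc k) L r) = algebraMap (RatFunc k) L (dK r)) (i j : Fin n) :
    IsPol (pol ((X - C t) * ∏ b ∈ s, (X - C b)) * e.repr (d (e i)) j) ∧
      Dle (e.repr (d (e i)) j) ((a i : ℤ) - a j - 1) := by
  refine ⟨?_, FactB_deg H hK hd i j⟩
  have h1 := inB_of_local H.hX _ (fun b => FactB_loc H hK hd i b) j
  rwa [FactB_repr_alg] at h1

theorem Bir.nu (H : Bir e a t s h) {dK : Derivation ℤ (RatFunc k) (RatFunc k)}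
    {d : Derivation ℤ L L} (hK : ∀ p : k[X], dK (pol p) = pol (derivative p))
    (hd : ∀ r, d (algebraMap (RatFunc k) L r) = algebraMap (RatFunc k) L (dK r)) (i j : Fin n) :
    IsPol (pol (∏ b ∈ s, (X - C b)) * Tr k L (d (e i) * e j)) := by
  rw [isPol_iff]
  intro b
  by_cases hbs : b ∈ s
  · have h1 := pt_any (FactB_smul hd (pol (X - C b))) (FactB_pol hK (X - C b)) b
      (e i) (e j) (FactB_int H b i) (FactB_int H b j)
    rw [Derivation.smul_apply, smul_eq_mul, mul_assoc, ← Algebra.smul_def, map_smul,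
      smul_eq_mul] at h1
    obtain ⟨q, hq⟩ := FactB_fac hbs
    have h2 := (Rb b).mul_mem (pol_mem_Rb b q) h1
    rw [hq, pol, map_mul]
    rw [← mul_assoc] at h2
    rwa [mul_comm (algebraMap k[X] (RatFunc k) (X - C b))]
  · have h1 := pt_any hd (fun p => ⟨derivative p, (hK p).symm⟩) b (e i) (e j) (FactB_int H b i)
      (FactB_int H b j)
    exact (Rb b).mul_mem (pol_mem_Rb b _) h1

end MPadcCov
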