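import Mathlib

/-!
# JOB Bc: base change of an algebra with structure constants

`f : R → K₀` injective, `L` an algebra over the field `K₀` with basis `e` and structure constants in
`f(R)`, `g : R → K'` another field. `B = {z | all coordinates in f(R)}` is a subring of `L`
(closed under products by `hs`, contains `1` by `hu`), an `R`-algebra (`r ↦ f r • 1`; give `L` a local
`Algebra R L` instance, or build `Algebra R B` from a ring homomorphism `R →+* B`), free with basis
`e i` (`Module.Basis.mk`/`Module.Basis.ofEquivFun`: the coordinates are unique since `f` is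
injective). Put `E = K' ⊗[R] B` with the `R`-algebra structure of `K'` given by `g`
(`g.toAlgebra`), `e' = Algebra.TensorProduct.basis K' b` and `Φ z = 1 ⊗ z`
(`Algebra.TensorProduct.includeRight`); `Algebra.TensorProduct.basis_repr_tmul`.
-/

set_option autoImplicit false

namespace MPadcCov

universe u

/-- The elements with coordinates in `f(R)` form a subring. -/
private def bcSub {R K₀ L : Type u} [CommRing R] [Field K₀] (f : R →+* K₀) [CommRing L]
    [Algebra K₀ L] {n : ℕ} (e : Module.Basis (Fin n) K₀ L) (s : Fin n → Fin n → Fin n → R)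
    (u : Fin n → R) (hs : ∀ i j k, e.repr (e i * e j) k = f (s i j k))
    (hu : ∀ k, e.repr 1 k = f (u k)) : Subring L where
  carrier := {z | ∀ i, ∃ r, f r = e.repr z i}
  zero_mem' := fun i => ⟨0, by rw [map_zero, map_zero, Finsupp.zero_apply]⟩
  one_mem' := fun i => ⟨u i, (hu i).symm⟩
  add_mem' := fun {a b} ha hb i => by
    obtain ⟨r, hr⟩ := ha i
    obtain ⟨r', hr'⟩ := hb i
    exact ⟨r + r', by rw [map_add, map_add, Finsupp.add_apply, hr, hr']⟩
  neg_mem' := fun {a} ha i => by
    obtain ⟨r, hr⟩ := ha i
    exact ⟨-r, by rw [map_neg, map_neg, Finsupp.neg_apply, hr]⟩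
  mul_mem' := fun {a b} ha hb k => by
    choose r hr using ha
    choose r' hr' using hb
    refine ⟨∑ i, ∑ j, r i * r' j * s i j k, ?_⟩
    have h : a * b = ∑ i, ∑ j, (e.repr a i * e.repr b j) • (e i * e j) := by
      conv_lhs => rw [← e.sum_repr a, ← e.sum_repr b]
      rw [Finset.sum_mul_sum]
      apply Finset.sum_congr rfl
      intro i _
      apply Finset.sum_congr rfl
      intro j _
      rw [smul_mul_smul_comm]
    rw [h, map_sum, map_sum, Finsupp.finsetSum_apply]
    apply Finset.sum_congr rfl
    intro i _
    rw [map_sum, map_sum, Finsupp.finsetSum_apply]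
    apply Finset.sum_congr rfl
    intro j _
    rw [map_smul, Finsupp.smul_apply, smul_eq_mul, map_mul, map_mul, hr, hr', hs]

theorem base_change {R K₀ K' L : Type u} [CommRing R] [Field K₀] [Field K'] (f : R →+* K₀)
    (hf : Function.Injective f) (g : R →+* K') [CommRing L] [Algebra K₀ L] {n : ℕ}
    (e : Module.Basis (Fin n) K₀ L) (s : Fin n → Fin n → Fin n → R) (u : Fin n → R)
    (hs : ∀ i j k, e.repr (e i * e j) k = f (s i j k)) (hu : ∀ k, e.repr 1 k = f (u k)) :
    ∃ (E : Type u) (_ : CommRing E) (_ : Algebra K' E) (e' : Module.Basis (Fin n) K' E)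
      (B : Subring L) (Φ : B →+* E),
      (∀ z : L, z ∈ B ↔ ∀ i, ∃ r, f r = e.repr z i) ∧
      (∀ (z : B) (i : Fin n) (r : R), e.repr z.1 i = f r → e'.repr (Φ z) i = g r) := by
  classical
  let B : Subring L := bcSub f e s u hs hu
  have hB : ∀ z : L, z ∈ B ↔ ∀ i, ∃ r, f r = e.repr z i := fun z => Iff.rfl
  have halg : ∀ (r : K₀) (z : L) (i : Fin n), e.repr (algebraMap K₀ L r * z) i = r * e.repr z i := by
    intro r z i
    rw [← Algebra.smul_def, map_smul, Finsupp.smul_apply, smul_eq_mul]
  have hmemR : ∀ r : R, algebraMap K₀ L (f r) ∈ B := by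
    intro r i
    refine ⟨r * u i, ?_⟩
    rw [map_mul, ← hu, ← halg, mul_one]
  let φ : R →+* B := RingHom.codRestrict ((algebraMap K₀ L).comp f) B hmemR
  have hφ : ∀ r, ((φ r : B) : L) = algebraMap K₀ L (f r) := fun r => rfl
  letI algRB : Algebra R B := φ.toAlgebra
  have hsmul : ∀ (r : R) (z : B), ((r • z : B) : L) = algebraMap K₀ L (f r) * (z : L) := by
    intro r z
    rw [Algebra.smul_def]
    rfl
  have hch : ∀ (z : B) (i : Fin n), ∃ r, f r = e.repr (z : L) i := fun z i => z.2 i
  choose c hc using hch
  have hsym : ∀ (v : Fin n → R), e.equivFun.symm (fun i => f (v i)) ∈ B := by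
    intro v i
    refine ⟨v i, ?_⟩
    have := congrFun (e.equivFun.apply_symm_apply (fun i => f (v i))) i
    rw [Module.Basis.equivFun_apply] at this
    exact this.symm
  let eqv : B ≃ₗ[R] (Fin n → R) :=
    { toFun := fun z i => c z i
      map_add' := by
        intro x y
        ext i
        apply hf
        rw [hc, Pi.add_apply, map_add, hc, hc]
        change e.repr ((x : L) + (y : L)) i = _
        rw [map_add, Finsupp.add_apply]
      map_smul' := by
        intro r x
        ext i
        apply hf
        rw [hc, RingHom.id_apply, Pi.smul_apply, smul_eq_mul, map_mul, hc, hsmul, halg]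
      invFun := fun v => ⟨e.equivFun.symm (fun i => f (v i)), hsym v⟩
      left_inv := by
        intro z
        apply Subtype.ext
        apply e.equivFun.injective
        rw [e.equivFun.apply_symm_apply]
        ext i
        rw [hc, Module.Basis.equivFun_apply]
      right_inv := by
        intro v
        ext i
        apply hf
        rw [hc]
        have := congrFun (e.equivFun.apply_symm_apply (fun i => f (v i))) i
        rw [Module.Basis.equivFun_apply] at this
        exact this }
  let b : Module.Basis (Fin n) R B := Module.Basis.ofEquivFun eqv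
  have hb : ∀ z i, b.repr z i = c z i := by
    intro z i
    rfl
  letI algRK : Algebra R K' := g.toAlgebra
  refine ⟨TensorProduct R K' B, inferInstance, inferInstance, Algebra.TensorProduct.basis K' b, B,
    (Algebra.TensorProduct.includeRight : B →ₐ[R] TensorProduct R K' B).toRingHom, hB, ?_⟩
  intro z i r hr
  have h1 : c z i = r := by
    apply hf
    rw [hc, hr]
  have h2 : (Algebra.TensorProduct.includeRight : B →ₐ[R] TensorProduct R K' B).toRingHom z =
      (1 : K') ⊗ₜ[R] z := rfl
  rw [h2, Algebra.TensorProduct.basis_repr_tmul, one_smul, Finsupp.mapRange_apply, hb, h1]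
  rfl

end MPadcCov
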