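import Pool.Agent.Lib.MP_adc574_ag_Cov.Arr
import Pool.Agent.Lib.MP_adc574_ag_Cov.Bc
import Pool.Agent.Lib.MP_adc574_ag_Cov.Der
import Pool.Agent.Lib.MP_adc574_ag_Cov.Gen

/-!
# Specialization of a cover: definitions
-/

set_option autoImplicit false

namespace MPadcCov

open Polynomial

universe u

/-- The homomorphism `A[x] → κ(x)` induced by `ψ : A → κ`. -/
noncomputable def fp {A : Type*} [CommRing A] {κ : Type*} [Field κ] (ψ : A →+* κ) :
    A[X] →+* RatFunc κ :=
  (algebraMap κ[X] (RatFunc κ)).comp (mapRingHom ψ)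

theorem fp_apply {A : Type*} [CommRing A] {κ : Type*} [Field κ] (ψ : A →+* κ) (p : A[X]) :
    fp ψ p = pol (p.map ψ) := rfl

theorem fp_injective {A : Type*} [CommRing A] {κ : Type*} [Field κ] (ψ : A →+* κ)
    (h : Function.Injective ψ) : Function.Injective (fp ψ) :=
  (IsFractionRing.injective κ[X] (RatFunc κ)).comp (Polynomial.map_injective ψ h)

/-- The algebra `E` over `κ(x)` with the basis `e'` is the specialization, along `ψ : A → κ`, of the
algebra `L` over `k(x)` with the basis `e`: `B` is the `A[x]`-span of `e`, and `Φ : B → E`. -/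
structure BC {k κ : Type u} [Field k] [Field κ] (A : Subalgebra ℤ k) (ψ : A →+* κ)
    {L E : Type u} [CommRing L] [CommRing E] [Algebra (RatFunc k) L] [Algebra (RatFunc κ) E]
    {n : ℕ} (e : Module.Basis (Fin n) (RatFunc k) L) (e' : Module.Basis (Fin n) (RatFunc κ) E)
    (B : Subring L) (Φ : B →+* E) : Prop where
  mem : ∀ z : L, z ∈ B ↔ ∀ i, ∃ r : A[X], pol (r.map (algebraMap A k)) = e.repr z i
  rep : ∀ (z : B) (i : Fin n) (r : A[X]), e.repr z.1 i = pol (r.map (algebraMap A k)) →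
    e'.repr (Φ z) i = pol (r.map ψ)

/-- The hypotheses on the cover over `k` (all arrays have coefficients in `A`). -/
structure CovIn {k : Type u} [Field k] (A : Subalgebra ℤ k) {L : Type u} [CommRing L]
    [Algebra (RatFunc k) L] {n : ℕ} (e : Module.Basis (Fin n) (RatFunc k) L) (a : Fin n → ℕ)
    (𝒜 : Arr A n) (dK : Derivation ℤ (RatFunc k) (RatFunc k)) (d : Derivation ℤ L L) (y : L)
    (F : A[X][X]) : Prop where
  cov : Cov0 e a (𝒜.map (algebraMap A k)).ρ dK d
  fits : Fits (𝒜.map (algebraMap A k)) e d y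
  monic : F.Monic
  deg : F.natDegree = n
  root : F.eval₂ ((algebraMap (RatFunc k) L).comp (fp (algebraMap A k))) y = 0
  dscy : 𝒜.dsc 𝒜.y ≠ 0
  split : ∃ s : Finset A, 𝒜.h₀ = ∏ b ∈ s, (X - C b)
  ht : 𝒜.h₀.eval 𝒜.t ≠ 0
  hh : 𝒜.h.eval 𝒜.t ≠ 0

/-- The hypotheses on the derivation `D` with `D x = 0`. -/
structure DerIn {k : Type u} [Field k] (A : Subalgebra ℤ k) {L : Type u} [CommRing L]
    [Algebra (RatFunc k) L] {n : ℕ} (e : Module.Basis (Fin n) (RatFunc k) L) (a : Fin n → ℕ)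
    (𝒜 : Arr A n) (d : Derivation ℤ L L) (δ : Derivation ℤ A A)
    (DK : Derivation ℤ (RatFunc k) (RatFunc k)) (D : Derivation ℤ L L) : Prop where
  δt : δ 𝒜.t = 1
  δh : cD δ 𝒜.h₀ = 0
  DK_pol : ∀ p : A[X], DK (pol (p.map (algebraMap A k))) = pol ((cD δ p).map (algebraMap A k))
  D_alg : ∀ r, D (algebraMap (RatFunc k) L r) = algebraMap (RatFunc k) L (DK r)
  β : ∀ i j, ∃ r : A[X], pol (r.map (algebraMap A k)) =
    pol (X - C (𝒜.t : k)) * e.repr (D (e i)) j
  βdeg : ∀ i j, Dle (e.repr (D (e i)) j) ((a i : ℤ) - a j)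
  γ : ∀ i j, ∃ r : A[X], pol (r.map (algebraMap A k)) =
    pol (𝒜.h₀.map (algebraMap A k)) * (e.repr (D (e i)) j + e.repr (d (e i)) j)

end MPadcCov
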