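import Pool.Agent.Lib.MP_adc574_ag_Cov.FactA
import Pool.Agent.Lib.MP_adc574_ag_Cov.FactB
import Pool.Agent.Lib.MP_adc574_ag_Cov.Arr
import Pool.Agent.Lib.MP_adc574_ag_Cov.SpecDef

/-!
# JOB ArrK: the arrays of a cover over `k`

* `Bir.cov0`: `FactA`, `FactB`; `tr_d` by `tr_der` (note the two ℤ-algebra instances of `RatFunc k`: see
  `SpecC_trder` in SpecC.lean), `sep` by `derivation_zero`.
* `Bir.exists_arr`: `choose` the polynomials from `Bir.mul`, `Bir.one`, `Bir.der`, `Bir.nu`, `InB e y`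
  (from `hX`); the dual basis `w i`: it exists because the Gram matrix is invertible
  (`H.disc`, `h ≠ 0` since `h.eval t ≠ 0`; `w i = ∑ j, (T⁻¹) i j • e j`), and `Bir.dual` for `w i`
  (`Tr (w i * e j)` is `0` or `1`).
* `coefs`, `exists_lift`: the finite set of all coefficients of the arrays
  (`Finset.biUnion`, `Polynomial.coeffs`), and arrays with coefficients in a subring `A` lift to `A`
  (coefficientwise, as `exists_map_of_coeff`; `Polynomial.lifts`/`Polynomial.toSubring`).
-/

set_option autoImplicit false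

namespace MPadcCov

open Polynomial

private theorem ArrK_trder {k : Type*} [Field k] {L : Type*} [Field L] [Algebra (RatFunc k) L]
    {n : ℕ} (e : Module.Basis (Fin n) (RatFunc k) L) (dK : Derivation ℤ (RatFunc k) (RatFunc k))
    (d : Derivation ℤ L L)
    (hd : ∀ r, d (algebraMap (RatFunc k) L r) = algebraMap (RatFunc k) L (dK r)) (z : L) :
    Tr k L (d z) = dK (Tr k L z) := by
  let D : @Derivation ℤ (RatFunc k) (RatFunc k) _ _ _ (Ring.toIntAlgebra _) _ _ :=
    @Derivation.mk ℤ (RatFunc k) (RatFunc k) _ _ _ (Ring.toIntAlgebra _) _ _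
      (dK.toLinearMap.toAddMonoidHom.toIntLinearMap) (dK.map_one_eq_zero)
      (fun x y => dK.leibniz x y)
  exact tr_der e D d hd z

/-- the dual basis -/
private theorem ArrK_dual {k : Type*} [Field k] {L : Type*} [Field L] [Algebra (RatFunc k) L]
    {n : ℕ} (e : Module.Basis (Fin n) (RatFunc k) L)
    (hT : (Matrix.of fun i j => Tr k L (e i * e j)).det ≠ 0) (i : Fin n) :
    ∃ w : L, ∀ j, Tr k L (w * e j) = if i = j then 1 else 0 := by
  classical
  let T : Matrix (Fin n) (Fin n) (RatFunc k) := Matrix.of fun i j => Tr k L (e i * e j)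
  have hT' : IsUnit T.det := isUnit_iff_ne_zero.2 hT
  refine ⟨∑ l, T⁻¹ i l • e l, fun j => ?_⟩
  rw [Finset.sum_mul, map_sum]
  have h1 : ∀ l ∈ Finset.univ, Tr k L (T⁻¹ i l • e l * e j) = T⁻¹ i l * T l j := by
    intro l _
    rw [smul_mul_assoc, map_smul, smul_eq_mul]
    rfl
  rw [Finset.sum_congr rfl h1, ← Matrix.mul_apply, Matrix.nonsing_inv_mul T hT', Matrix.one_apply]

private theorem ArrK_lift {k : Type*} [Field k] (A : Subalgebra ℤ k) (p : k[X])
    (h : ∀ x ∈ p.coeffs, x ∈ A) : ∃ r : A[X], r.map (algebraMap A k) = p := by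
  have h1 : p ∈ Polynomial.lifts (algebraMap A k) := by
    rw [Polynomial.lifts_iff_coeff_lifts]
    intro i
    by_cases hi : p.coeff i = 0
    · exact ⟨0, by rw [hi, map_zero]⟩
    · exact ⟨⟨p.coeff i, h _ (Polynomial.coeff_mem_coeffs hi)⟩, rfl⟩
  exact (Polynomial.mem_lifts p).1 h1

variable {k : Type*} [Field k] [IsAlgClosed k] [CharZero k] {L : Type*} [Field L]
  [Algebra (RatFunc k) L] [FiniteDimensional (RatFunc k) L] {n : ℕ}
  {e : Module.Basis (Fin n) (RatFunc k) L} {a : Fin n → ℕ} {t : k} {s : Finset k} {h : k[X]}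

theorem Bir.cov0 (H : Bir e a t s h) {dK : Derivation ℤ (RatFunc k) (RatFunc k)}
    {d : Derivation ℤ L L} (hK : ∀ p : k[X], dK (pol p) = pol (derivative p))
    (hd : ∀ r, d (algebraMap (RatFunc k) L r) = algebraMap (RatFunc k) L (dK r)) :
    Cov0 e a ((X - C t) * ∏ b ∈ s, (X - C b)) dK d := by
  have hc : CharZero (RatFunc k) := inferInstance
  exact
    { dK_pol := hK
      d_alg := hd
      tr_d := fun z => ArrK_trder e dK d hd z
      one := fun l => H.one l
      mul := fun i j l => H.mul i j l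
      der := fun i j => H.der hK hd i j
      dual := fun z hz j => H.dual z hz j
      dualDeg := fun z m hz j => H.dualDeg z m hz j
      nondeg := fun z hz => H.nondeg z hz
      sep := fun Δ => derivation_zero Δ }

theorem Bir.exists_arr (H : Bir e a t s h) {dK : Derivation ℤ (RatFunc k) (RatFunc k)}
    {d : Derivation ℤ L L} (hK : ∀ p : k[X], dK (pol p) = pol (derivative p))
    (hd : ∀ r, d (algebraMap (RatFunc k) L r) = algebraMap (RatFunc k) L (dK r)) (y : L)
    (hy : IntX k y) :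
    ∃ 𝒜 : Arr k n, 𝒜.t = t ∧ 𝒜.h₀ = ∏ b ∈ s, (X - C b) ∧ 𝒜.h = h ∧ Fits 𝒜 e d y := by
  classical
  have hdet : (Matrix.of fun i j => Tr k L (e i * e j)).det ≠ 0 := by
    rw [H.disc]
    intro h0
    have h1 : (X - C t) * h = 0 :=
      (IsFractionRing.injective k[X] (RatFunc k)) (h0.trans (map_zero _).symm)
    rcases mul_eq_zero.1 h1 with h2 | h2
    · exact X_sub_C_ne_zero t h2
    · apply H.ht
      rw [h2, eval_zero]
  have h1 : ∀ i j l, IsPol (e.repr (e i * e j) l) := fun i j l => (H.mul i j l).1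
  have h2 : ∀ l, IsPol (e.repr 1 l) := fun l => (H.one l).1
  have h3 : ∀ l, IsPol (e.repr y l) := (H.hX y).1 hy
  have h4 : ∀ i j, IsPol (pol ((X - C t) * ∏ b ∈ s, (X - C b)) * e.repr (d (e i)) j) :=
    fun i j => (H.der hK hd i j).1
  have h5 : ∀ i j, IsPol (pol (∏ b ∈ s, (X - C b)) * Tr k L (d (e i) * e j)) :=
    fun i j => H.nu hK hd i j
  choose w hw using ArrK_dual e hdet
  have h6 : ∀ i j, IsPol (pol ((X - C t) * ∏ b ∈ s, (X - C b)) * e.repr (w i) j) := by
    intro i j
    refine H.dual (w i) (fun l => ?_) j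
    rw [hw i l]
    split_ifs
    · exact ⟨1, map_one _⟩
    · exact ⟨0, map_zero _⟩
  choose S hS using h1
  choose U hU using h2
  choose Y hY using h3
  choose A hA using h4
  choose N hN using h5
  choose T hT using h6
  exact ⟨{ s := S, u := U, y := Y, α := A, τ := T, ν := N, h := h, h₀ := ∏ b ∈ s, (X - C b), t := t },
    rfl, rfl, rfl,
    { s := fun i j l => (hS i j l).symm
      u := fun l => (hU l).symm
      y := fun l => (hY l).symm
      α := fun i j => (hA i j).symm
      τ := fun i => ⟨w i, hw i, fun j => (hT i j).symm⟩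
      ν := fun i j => (hN i j).symm
      disc := H.disc }⟩

/-- All coefficients of the arrays. -/
theorem exists_coefs {k : Type*} [Field k] {n : ℕ} (𝒜 : Arr k n) : ∃ T : Finset k,
    ∀ A : Subalgebra ℤ k, (∀ x ∈ T, x ∈ A) → ∃ ℬ : Arr A n, ℬ.map (algebraMap A k) = 𝒜 := by
  classical
  refine ⟨(Finset.univ.biUnion fun i => Finset.univ.biUnion fun j => Finset.univ.biUnion fun l =>
      (𝒜.s i j l).coeffs) ∪ (Finset.univ.biUnion fun i => (𝒜.u i).coeffs) ∪
      (Finset.univ.biUnion fun i => (𝒜.y i).coeffs) ∪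
      (Finset.univ.biUnion fun i => Finset.univ.biUnion fun j => (𝒜.α i j).coeffs) ∪
      (Finset.univ.biUnion fun i => Finset.univ.biUnion fun j => (𝒜.τ i j).coeffs) ∪
      (Finset.univ.biUnion fun i => Finset.univ.biUnion fun j => (𝒜.ν i j).coeffs) ∪
      𝒜.h.coeffs ∪ 𝒜.h₀.coeffs ∪ {𝒜.t}, fun A hA => ?_⟩
  have h1 : ∀ i j l, ∃ r : A[X], r.map (algebraMap A k) = 𝒜.s i j l := fun i j l =>
    ArrK_lift A _ fun x hx => hA x (by
      simp only [Finset.mem_union, Finset.mem_biUnion, Finset.mem_univ, true_and]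
      exact Or.inl (Or.inl (Or.inl (Or.inl (Or.inl (Or.inl (Or.inl (Or.inl ⟨i, j, l, hx⟩))))))))
  have h2 : ∀ i, ∃ r : A[X], r.map (algebraMap A k) = 𝒜.u i := fun i =>
    ArrK_lift A _ fun x hx => hA x (by
      simp only [Finset.mem_union, Finset.mem_biUnion, Finset.mem_univ, true_and]
      exact Or.inl (Or.inl (Or.inl (Or.inl (Or.inl (Or.inl (Or.inl (Or.inr ⟨i, hx⟩))))))))
  have h3 : ∀ i, ∃ r : A[X], r.map (algebraMap A k) = 𝒜.y i := fun i =>
    ArrK_lift A _ fun x hx => hA x (by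
      simp only [Finset.mem_union, Finset.mem_biUnion, Finset.mem_univ, true_and]
      exact Or.inl (Or.inl (Or.inl (Or.inl (Or.inl (Or.inl (Or.inr ⟨i, hx⟩)))))))
  have h4 : ∀ i j, ∃ r : A[X], r.map (algebraMap A k) = 𝒜.α i j := fun i j =>
    ArrK_lift A _ fun x hx => hA x (by
      simp only [Finset.mem_union, Finset.mem_biUnion, Finset.mem_univ, true_and]
      exact Or.inl (Or.inl (Or.inl (Or.inl (Or.inl (Or.inr ⟨i, j, hx⟩))))))
  have h5 : ∀ i j, ∃ r : A[X], r.map (algebraMap A k) = 𝒜.τ i j := fun i j =>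
    ArrK_lift A _ fun x hx => hA x (by
      simp only [Finset.mem_union, Finset.mem_biUnion, Finset.mem_univ, true_and]
      exact Or.inl (Or.inl (Or.inl (Or.inl (Or.inr ⟨i, j, hx⟩)))))
  have h6 : ∀ i j, ∃ r : A[X], r.map (algebraMap A k) = 𝒜.ν i j := fun i j =>
    ArrK_lift A _ fun x hx => hA x (by
      simp only [Finset.mem_union, Finset.mem_biUnion, Finset.mem_univ, true_and]
      exact Or.inl (Or.inl (Or.inl (Or.inr ⟨i, j, hx⟩))))
  have h7 : ∃ r : A[X], r.map (algebraMap A k) = 𝒜.h :=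
    ArrK_lift A _ fun x hx => hA x (by
      rw [Finset.mem_union, Finset.mem_union, Finset.mem_union]
      exact Or.inl (Or.inl (Or.inr hx)))
  have h8 : ∃ r : A[X], r.map (algebraMap A k) = 𝒜.h₀ :=
    ArrK_lift A _ fun x hx => hA x (by
      rw [Finset.mem_union, Finset.mem_union]
      exact Or.inl (Or.inr hx))
  have h9 : 𝒜.t ∈ A := hA _ (by
    rw [Finset.mem_union]
    exact Or.inr (Finset.mem_singleton_self _))
  choose S hS using h1
  choose U hU using h2
  choose Y hY using h3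
  choose Al hAl using h4
  choose Ta hTa using h5
  choose N hN using h6
  obtain ⟨h, hh⟩ := h7
  obtain ⟨h', hh'⟩ := h8
  refine ⟨{ s := S, u := U, y := Y, α := Al, τ := Ta, ν := N, h := h, h₀ := h', t := ⟨𝒜.t, h9⟩ }, ?_⟩
  obtain ⟨s1, u1, y1, α1, τ1, ν1, h1, h01, t1⟩ := 𝒜
  unfold Arr.map
  rw [Arr.mk.injEq]
  exact ⟨funext fun i => funext fun j => funext fun l => hS i j l, funext hU, funext hY,
    funext fun i => funext fun j => hAl i j, funext fun i => funext fun j => hTa i j,
    funext fun i => funext fun j => hN i j, hh, hh', rfl⟩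

end MPadcCov
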