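import Mathlib

/-!
# Families of polynomials without common zero: reduction of the statement
-/

set_option autoImplicit false

namespace MPadcCov

/-- A finite family of polynomials over a domain `R` without common zero over an algebraically closed field `k`
containing `R` generates an ideal that contains a nonzero constant. -/
theorem exists_const_of_no_zero {R k : Type*} [CommRing R] [IsDomain R] [Field k] [IsAlgClosed k]
    [Algebra R k] (hRk : Function.Injective (algebraMap R k)) {σ ι : Type*} [Finite σ] [Fintype ι]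
    (f : ι → MvPolynomial σ R)
    (h : ¬ ∃ x : σ → k, ∀ i, MvPolynomial.aeval x (f i) = 0) :
    ∃ a : R, a ≠ 0 ∧ ∃ g : ι → MvPolynomial σ R, ∑ i, g i * f i = MvPolynomial.C a := by
  classical
  set K := FractionRing R with hK
  let _ : FaithfulSMul R k := (faithfulSMul_iff_algebraMap_injective R k).2 hRk
  let _ : Algebra K k := FractionRing.liftAlgebra R k
  have htow : IsScalarTower R K k := FractionRing.isScalarTower_liftAlgebra R k
  set J : Ideal (MvPolynomial σ K) :=
    Ideal.span (Set.range fun i => MvPolynomial.map (algebraMap R K) (f i)) with hJ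
  have hJtop : J = ⊤ := by
    by_contra hne
    obtain ⟨𝔪, h𝔪, hle⟩ := Ideal.exists_le_maximal J hne
    let _ : Field (MvPolynomial σ K ⧸ 𝔪) := Ideal.Quotient.field 𝔪
    have hft : Algebra.FiniteType K (MvPolynomial σ K ⧸ 𝔪) :=
      Algebra.FiniteType.of_surjective (Ideal.Quotient.mkₐ K 𝔪)
        (Ideal.Quotient.mkₐ_surjective K 𝔪)
    have hfin : Module.Finite K (MvPolynomial σ K ⧸ 𝔪) :=
      finite_of_finite_type_of_isJacobsonRing K (MvPolynomial σ K ⧸ 𝔪)
    have halg : Algebra.IsAlgebraic K (MvPolynomial σ K ⧸ 𝔪) := inferInstance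
    let ψ : (MvPolynomial σ K ⧸ 𝔪) →ₐ[K] k := IsAlgClosed.lift
    apply h
    refine ⟨fun s => ψ (Ideal.Quotient.mk 𝔪 (MvPolynomial.X s)), fun i => ?_⟩
    have h1 : (MvPolynomial.aeval fun s => ψ (Ideal.Quotient.mk 𝔪 (MvPolynomial.X s)))
        (MvPolynomial.map (algebraMap R K) (f i)) =
        ψ (Ideal.Quotient.mkₐ K 𝔪 (MvPolynomial.map (algebraMap R K) (f i))) := by
      have h2 : (MvPolynomial.aeval fun s => ψ (Ideal.Quotient.mk 𝔪 (MvPolynomial.X s))) =
          ψ.comp (Ideal.Quotient.mkₐ K 𝔪) := by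
        apply MvPolynomial.algHom_ext
        intro s
        simp
      rw [h2]
      rfl
    have h3 : Ideal.Quotient.mkₐ K 𝔪 (MvPolynomial.map (algebraMap R K) (f i)) = 0 := by
      rw [Ideal.Quotient.mkₐ_eq_mk, Ideal.Quotient.eq_zero_iff_mem]
      exact hle (Ideal.subset_span ⟨i, rfl⟩)
    rw [h3, map_zero, MvPolynomial.aeval_map_algebraMap] at h1
    exact h1
  have h1 : (1 : MvPolynomial σ K) ∈ J := hJtop ▸ Submodule.mem_top
  rw [hJ, Ideal.mem_span_range_iff_exists_fun] at h1
  obtain ⟨c, hc⟩ := h1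
  -- clear the denominators
  set s : Finset K := Finset.univ.biUnion fun i => (c i).support.image fun m => (c i).coeff m
    with hs
  obtain ⟨b, hb⟩ := IsLocalization.exist_integer_multiples_of_finset (nonZeroDivisors R) s
  have hb0 : (b : R) ≠ 0 := nonZeroDivisors.ne_zero b.2
  have hg : ∀ i, ∃ g : MvPolynomial σ R,
      MvPolynomial.map (algebraMap R K) g = MvPolynomial.C (algebraMap R K b) * c i := by
    intro i
    have hm : ∀ m, ∃ r : R, algebraMap R K r = algebraMap R K b * (c i).coeff m := by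
      intro m
      by_cases hm : (c i).coeff m = 0
      · exact ⟨0, by rw [hm, mul_zero, map_zero]⟩
      · obtain ⟨r, hr⟩ := hb ((c i).coeff m) (by
          rw [hs, Finset.mem_biUnion]
          exact ⟨i, Finset.mem_univ _, Finset.mem_image.2
            ⟨m, MvPolynomial.mem_support_iff.2 hm, rfl⟩⟩)
        exact ⟨r, by rw [hr, Algebra.smul_def]⟩
    choose r hr using hm
    refine ⟨∑ m ∈ (c i).support, MvPolynomial.monomial m (r m), ?_⟩
    rw [map_sum]
    conv_rhs => rw [(c i).as_sum, Finset.mul_sum]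
    apply Finset.sum_congr rfl
    intro m _
    rw [MvPolynomial.map_monomial, hr m, MvPolynomial.C_mul_monomial]
  choose g hg using hg
  refine ⟨b, hb0, g, ?_⟩
  have hinj : Function.Injective (MvPolynomial.map (algebraMap R K) :
      MvPolynomial σ R → MvPolynomial σ K) :=
    MvPolynomial.map_injective _ (IsFractionRing.injective R K)
  apply hinj
  rw [map_sum, MvPolynomial.map_C]
  simp only [map_mul, hg]
  have h2 : ∑ i, MvPolynomial.C (algebraMap R K b) * c i *
      MvPolynomial.map (algebraMap R K) (f i) = MvPolynomial.C (algebraMap R K b) *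
        ∑ i, c i * MvPolynomial.map (algebraMap R K) (f i) := by
    rw [Finset.mul_sum]
    apply Finset.sum_congr rfl
    intro i _
    rw [mul_assoc]
  rw [h2, hc, mul_one]

/-- A finite family of polynomials over `R` without common zero over `k` has no common zero in the fields `κ`
over which some `a ≠ 0` in `R` does not vanish. -/
theorem exists_no_zero {R k : Type*} [CommRing R] [IsDomain R] [Field k] [IsAlgClosed k]
    [Algebra R k] (hRk : Function.Injective (algebraMap R k)) {σ ι : Type*} [Finite σ] [Fintype ι]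
    (f : ι → MvPolynomial σ R)
    (h : ¬ ∃ x : σ → k, ∀ i, MvPolynomial.aeval x (f i) = 0) :
    ∃ a : R, a ≠ 0 ∧ ∀ (κ : Type*) [Field κ] (ρ : R →+* κ), ρ a ≠ 0 →
      ¬ ∃ x : σ → κ, ∀ i, MvPolynomial.eval₂ ρ x (f i) = 0 := by
  obtain ⟨a, ha, g, hg⟩ := exists_const_of_no_zero hRk f h
  refine ⟨a, ha, fun κ _ ρ hρ ⟨x, hx⟩ => hρ ?_⟩
  have h1 := congrArg (MvPolynomial.eval₂Hom ρ x) hg
  rw [map_sum, MvPolynomial.eval₂Hom_C] at h1
  rw [← h1]
  apply Finset.sum_eq_zero
  intro i _
  rw [map_mul]
  have : (MvPolynomial.eval₂Hom ρ x) (f i) = 0 := hx i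
  rw [this, mul_zero]

end MPadcCov
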