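import Mathlib
import Pool.Agent.Lib.MP_adc574_ag_Cov.BNa

/-!
# Irreducible polynomials stay irreducible after specialization (Bertini-Noether)
-/

set_option autoImplicit false

namespace MPadcCov

open Polynomial

private theorem coeff_swap {R : Type*} [CommRing R] (p : R[X][X]) (l a : ℕ) :
    ((Bivariate.swap p).coeff l).coeff a = (p.coeff a).coeff l := by
  induction p using Polynomial.induction_on' with
  | add p q hp hq => simp only [map_add, coeff_add, hp, hq]
  | monomial n f =>
    induction f using Polynomial.induction_on' with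
    | add p q hp hq => simp only [map_add, coeff_add, hp, hq]
    | monomial m r =>
      rw [Bivariate.swap_monomial_monomial]
      simp only [coeff_monomial]
      split_ifs <;> simp_all [coeff_monomial]

/-- The degrees in the inner variable of a factor are bounded. -/
private theorem natDegree_coeff_le {κ : Type*} [Field κ] {F G H : κ[X][X]} (hF : F ≠ 0)
    (h : G * H = F) {D : ℕ} (hD : ∀ a, (F.coeff a).natDegree ≤ D) (a : ℕ) :
    (G.coeff a).natDegree ≤ D := by
  have h1 : Bivariate.swap G * Bivariate.swap H = Bivariate.swap F := by rw [← map_mul, h]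
  have hF' : Bivariate.swap F ≠ 0 := by
    intro h0
    apply hF
    have := congrArg Bivariate.swap h0
    rwa [Bivariate.swap_swap_apply, map_zero] at this
  have hG' : Bivariate.swap G ≠ 0 := by
    rintro h0
    rw [h0, zero_mul] at h1
    exact hF' h1.symm
  have hH' : Bivariate.swap H ≠ 0 := by
    rintro h0
    rw [h0, mul_zero] at h1
    exact hF' h1.symm
  have h2 : (Bivariate.swap G).natDegree ≤ (Bivariate.swap F).natDegree := by
    rw [← h1, natDegree_mul hG' hH']
    exact Nat.le_add_right _ _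
  have h3 : (Bivariate.swap F).natDegree ≤ D := by
    rw [natDegree_le_iff_coeff_eq_zero]
    intro l hl
    ext b
    rw [coeff_swap, coeff_zero]
    exact coeff_eq_zero_of_natDegree_lt ((hD b).trans_lt hl)
  rw [natDegree_le_iff_coeff_eq_zero]
  intro l hl
  rw [← coeff_swap, coeff_eq_zero_of_natDegree_lt ((h2.trans h3).trans_lt hl), coeff_zero]

/-- A monic polynomial of degree `i` in `Y` with coefficients of degree at most `D` in `X`. -/
private noncomputable def mk {S : Type*} [CommRing S] (i D : ℕ) (g : Fin i × Fin (D + 1) → S) :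
    S[X][X] :=
  X ^ i + ∑ a : Fin i, C (∑ l : Fin (D + 1), C (g (a, l)) * X ^ (l : ℕ)) * X ^ (a : ℕ)

private theorem mk_map {S T : Type*} [CommRing S] [CommRing T] (φ : S →+* T) (i D : ℕ)
    (g : Fin i × Fin (D + 1) → S) :
    (mk i D g).map (mapRingHom φ) = mk i D (fun z => φ (g z)) := by
  simp only [mk, Polynomial.map_add, Polynomial.map_pow, map_X, Polynomial.map_sum,
    Polynomial.map_mul, map_C, coe_mapRingHom]

private theorem degree_lt {S : Type*} [CommRing S] (i D : ℕ) (g : Fin i × Fin (D + 1) → S) :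
    (∑ a : Fin i, C (∑ l : Fin (D + 1), C (g (a, l)) * X ^ (l : ℕ)) * X ^ (a : ℕ) :
      S[X][X]).degree < i := by
  rw [← mem_degreeLT]
  apply Submodule.sum_mem
  intro a _
  rw [mem_degreeLT]
  exact (degree_C_mul_X_pow_le _ _).trans_lt (WithBot.coe_lt_coe.2 a.2)

private theorem mk_monic {S : Type*} [CommRing S] (i D : ℕ)
    (g : Fin i × Fin (D + 1) → S) : (mk i D g).Monic := by
  exact monic_X_pow_add (degree_lt i D g)

private theorem mk_natDegree {S : Type*} [CommRing S] [Nontrivial S] (i D : ℕ)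
    (g : Fin i × Fin (D + 1) → S) : (mk i D g).natDegree = i := by
  rw [mk, natDegree_add_eq_left_of_degree_lt, natDegree_X_pow]
  rw [degree_X_pow]
  exact degree_lt i D g

private theorem exists_mk {S : Type*} [CommRing S] {G : S[X][X]} (hG : G.Monic) {D : ℕ}
    (hD : ∀ a, (G.coeff a).natDegree ≤ D) :
    ∃ g : Fin G.natDegree × Fin (D + 1) → S, mk G.natDegree D g = G := by
  refine ⟨fun z => (G.coeff z.1).coeff z.2, ?_⟩
  rw [mk]
  conv_rhs => rw [hG.as_sum]
  rw [Finset.sum_range]
  congr 1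
  apply Finset.sum_congr rfl
  intro a _
  have h1 : G.coeff (a : ℕ) = ∑ l : Fin (D + 1), C ((G.coeff (a : ℕ)).coeff (l : ℕ)) * X ^ (l : ℕ) := by
    conv_lhs => rw [(G.coeff (a : ℕ)).as_sum_range_C_mul_X_pow' (Nat.lt_succ_of_le (hD a))]
    rw [Finset.sum_range]
  rw [← h1]

/-- The difference of the product of two generic polynomials and `F`. -/
private noncomputable def gen {R : Type*} [CommRing R] (F : R[X][X]) (i j D : ℕ) :
    (MvPolynomial ((Fin i × Fin (D + 1)) ⊕ (Fin j × Fin (D + 1))) R)[X][X] :=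
  mk i D (fun z => MvPolynomial.X (Sum.inl z)) * mk j D (fun z => MvPolynomial.X (Sum.inr z)) -
    F.map (mapRingHom MvPolynomial.C)

private theorem gen_map {R : Type*} [CommRing R] (F : R[X][X]) (i j D : ℕ) {T : Type*} [CommRing T]
    (φ : MvPolynomial ((Fin i × Fin (D + 1)) ⊕ (Fin j × Fin (D + 1))) R →+* T) :
    (gen F i j D).map (mapRingHom φ) =
      mk i D (fun z => φ (MvPolynomial.X (Sum.inl z))) *
        mk j D (fun z => φ (MvPolynomial.X (Sum.inr z))) -
          F.map (mapRingHom (φ.comp MvPolynomial.C)) := by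
  rw [gen, Polynomial.map_sub, Polynomial.map_mul, mk_map, mk_map, Polynomial.map_map,
    mapRingHom_comp]

private theorem map_eq_zero {S T : Type*} [CommRing S] [CommRing T] (φ : S →+* T) (P : S[X][X])
    (N : ℕ) (hN : ∀ a l, (N ≤ a ∨ N ≤ l) → (P.coeff a).coeff l = 0)
    (hφ : ∀ z : Fin N × Fin N, φ ((P.coeff z.1).coeff z.2) = 0) : P.map (mapRingHom φ) = 0 := by
  ext a l
  rw [coeff_map, coe_mapRingHom, coeff_map, coeff_zero, coeff_zero]
  by_cases hal : a < N ∧ l < N
  · exact hφ (⟨a, hal.1⟩, ⟨l, hal.2⟩)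
  · rw [hN a l (by omega), map_zero]

/-- The absence of a factorization with degrees `i`, `j` spreads out. -/
private theorem no_factor {R k : Type*} [CommRing R] [IsDomain R] [Field k] [IsAlgClosed k]
    [Algebra R k] (hRk : Function.Injective (algebraMap R k)) (F : R[X][X]) (i j D : ℕ)
    (h : ∀ (g : Fin i × Fin (D + 1) → k) (g' : Fin j × Fin (D + 1) → k),
      mk i D g * mk j D g' ≠ F.map (mapRingHom (algebraMap R k))) :
    ∃ a : R, a ≠ 0 ∧ ∀ (κ : Type*) [Field κ] (ρ : R →+* κ), ρ a ≠ 0 →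
      ∀ (g : Fin i × Fin (D + 1) → κ) (g' : Fin j × Fin (D + 1) → κ),
        mk i D g * mk j D g' ≠ F.map (mapRingHom ρ) := by
  classical
  set P := gen F i j D with hP
  -- all coefficients are among finitely many
  obtain ⟨N, hN⟩ : ∃ N : ℕ, ∀ a l, (N ≤ a ∨ N ≤ l) → (P.coeff a).coeff l = 0 := by
    refine ⟨P.natDegree + 1 + ∑ a ∈ Finset.range (P.natDegree + 1), ((P.coeff a).natDegree + 1),
      fun a l hal => ?_⟩
    by_cases ha : a ≤ P.natDegree
    · have h1 : (P.coeff a).natDegree + 1 ≤
          ∑ a ∈ Finset.range (P.natDegree + 1), ((P.coeff a).natDegree + 1) :=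
        Finset.single_le_sum (f := fun a => (P.coeff a).natDegree + 1) (fun _ _ => Nat.zero_le _)
          (Finset.mem_range.2 (Nat.lt_succ_of_le ha))
      apply coeff_eq_zero_of_natDegree_lt
      omega
    · rw [coeff_eq_zero_of_natDegree_lt (not_le.1 ha), coeff_zero]
  have h1 : ¬ ∃ x : (Fin i × Fin (D + 1)) ⊕ (Fin j × Fin (D + 1)) → k,
      ∀ z : Fin N × Fin N, MvPolynomial.aeval x ((P.coeff z.1).coeff z.2) = 0 := by
    rintro ⟨x, hx⟩
    have h2 := map_eq_zero (MvPolynomial.aeval x).toRingHom P N hN hx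
    rw [hP, gen_map, sub_eq_zero] at h2
    apply h _ _ (h2.trans _)
    congr 2
    ext r
    exact MvPolynomial.aeval_C x r
  obtain ⟨a, ha, hκ⟩ := exists_no_zero hRk (fun z : Fin N × Fin N => (P.coeff z.1).coeff z.2) h1
  refine ⟨a, ha, fun κ _ ρ hρ g g' hgg => hκ κ ρ hρ ⟨Sum.elim g g', fun z => ?_⟩⟩
  have h2 : P.map (mapRingHom (MvPolynomial.eval₂Hom ρ (Sum.elim g g'))) = 0 := by
    rw [hP, gen_map, sub_eq_zero]
    have h3 : (MvPolynomial.eval₂Hom ρ (Sum.elim g g')).comp MvPolynomial.C = ρ := by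
      ext r
      simp
    rw [h3, ← hgg]
    congr 2
    · ext z
      simp
    · ext z
      simp
  have h3 := congrArg (fun q => (q.coeff (z.1 : ℕ)).coeff (z.2 : ℕ)) h2
  simp only [coeff_map, coe_mapRingHom, coeff_zero] at h3
  exact h3

/-- **Bertini-Noether** for monic polynomials: if `F` is irreducible over `k(x)`, `k` algebraically closed, then its
specializations are irreducible over `κ(x)`. -/
theorem bertini_noether {R k : Type*} [CommRing R] [IsDomain R] [Field k] [IsAlgClosed k]
    [Algebra R k] (hRk : Function.Injective (algebraMap R k)) (F : R[X][X]) (hF : F.Monic)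
    (hirr : Irreducible ((F.map (mapRingHom (algebraMap R k))).map
      (algebraMap k[X] (RatFunc k)))) :
    ∃ a : R, a ≠ 0 ∧ ∀ (κ : Type*) [Field κ] (ρ : R →+* κ), ρ a ≠ 0 →
      Irreducible ((F.map (mapRingHom ρ)).map (algebraMap κ[X] (RatFunc κ))) := by
  classical
  set n := F.natDegree with hn
  obtain ⟨D, hD⟩ : ∃ D : ℕ, ∀ a, (F.coeff a).natDegree ≤ D := by
    refine ⟨∑ a ∈ Finset.range (F.natDegree + 1), (F.coeff a).natDegree, fun a => ?_⟩
    by_cases ha : a ≤ F.natDegree
    · exact Finset.single_le_sum (f := fun a => (F.coeff a).natDegree) (fun _ _ => Nat.zero_le _)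
          (Finset.mem_range.2 (Nat.lt_succ_of_le ha))
    · rw [coeff_eq_zero_of_natDegree_lt (not_le.1 ha), natDegree_zero]
      exact Nat.zero_le _
  have hn0 : n ≠ 0 := by
    intro h0
    have h1 : ((F.map (mapRingHom (algebraMap R k))).map (algebraMap k[X] (RatFunc k))).Monic :=
      (hF.map _).map _
    have h2 : ((F.map (mapRingHom (algebraMap R k))).map
        (algebraMap k[X] (RatFunc k))).natDegree = 0 := by
      rw [(hF.map _).natDegree_map, hF.natDegree_map, ← hn, h0]
    rw [h1.natDegree_eq_zero.1 h2] at hirr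
    exact not_irreducible_one hirr
  -- no factorization over `k`
  have h1 : ∀ z : {z : Fin (n + 1) × Fin (n + 1) // z.1.val ≠ 0 ∧ z.2.val ≠ 0},
      ∃ a : R, a ≠ 0 ∧ ∀ (κ : Type _) [Field κ] (ρ : R →+* κ), ρ a ≠ 0 →
        ∀ (g : Fin z.1.1.val × Fin (D + 1) → κ) (g' : Fin z.1.2.val × Fin (D + 1) → κ),
          mk _ D g * mk _ D g' ≠ F.map (mapRingHom ρ) := by
    intro z
    apply no_factor hRk
    intro g g' hgg
    rw [← hgg, Polynomial.map_mul] at hirr
    rcases hirr.isUnit_or_isUnit rfl with hu | hu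
    · have h2 := natDegree_eq_zero_of_isUnit hu
      rw [(mk_monic _ D g).natDegree_map, mk_natDegree] at h2
      exact z.2.1 h2
    · have h2 := natDegree_eq_zero_of_isUnit hu
      rw [(mk_monic _ D g').natDegree_map, mk_natDegree] at h2
      exact z.2.2 h2
  choose a ha hκ using h1
  refine ⟨∏ z, a z, Finset.prod_ne_zero_iff.2 fun z _ => ha z, fun κ _ ρ hρ => ?_⟩
  have hFκ : ((F.map (mapRingHom ρ)).map (algebraMap κ[X] (RatFunc κ))).Monic :=
    (hF.map _).map _
  have hdeg : ((F.map (mapRingHom ρ)).map (algebraMap κ[X] (RatFunc κ))).natDegree = n := by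
    rw [(hF.map _).natDegree_map, hF.natDegree_map]
  rw [hFκ.irreducible_iff_natDegree]
  refine ⟨fun h0 => ?_, fun f g hf hg hfg => ?_⟩
  · rw [h0, natDegree_one] at hdeg
    exact hn0 hdeg.symm
  · by_contra hcon
    push Not at hcon
    obtain ⟨G, hG⟩ := IsIntegrallyClosed.eq_map_mul_C_of_dvd (RatFunc κ) (hF.map (mapRingHom ρ))
      (dvd_of_mul_right_eq g hfg)
    obtain ⟨H, hH⟩ := IsIntegrallyClosed.eq_map_mul_C_of_dvd (RatFunc κ) (hF.map (mapRingHom ρ))
      (dvd_of_mul_left_eq f hfg)
    rw [hf.leadingCoeff, C_1, mul_one] at hG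
    rw [hg.leadingCoeff, C_1, mul_one] at hH
    have hinj : Function.Injective (algebraMap κ[X] (RatFunc κ)) := RatFunc.algebraMap_injective κ
    have hinj' := Polynomial.map_injective _ hinj
    have hGm : G.Monic := by
      rw [Monic, ← hinj.eq_iff, ← leadingCoeff_map_of_injective hinj, hG, hf.leadingCoeff, map_one]
    have hHm : H.Monic := by
      rw [Monic, ← hinj.eq_iff, ← leadingCoeff_map_of_injective hinj, hH, hg.leadingCoeff, map_one]
    have hGH : G * H = F.map (mapRingHom ρ) := by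
      apply hinj'
      rw [Polynomial.map_mul, hG, hH, hfg]
    have hdG : G.natDegree = f.natDegree := by rw [← hG, hGm.natDegree_map]
    have hdH : H.natDegree = g.natDegree := by rw [← hH, hHm.natDegree_map]
    have hsum : G.natDegree + H.natDegree = n := by
      rw [← hGm.natDegree_mul hHm, hGH, hF.natDegree_map]
    have hFne : F.map (mapRingHom ρ) ≠ 0 := (hF.map _).ne_zero
    have hDF : ∀ b, ((F.map (mapRingHom ρ)).coeff b).natDegree ≤ D := by
      intro b
      rw [coeff_map, coe_mapRingHom]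
      exact natDegree_map_le.trans (hD b)
    obtain ⟨γ, hγ⟩ := exists_mk hGm (natDegree_coeff_le hFne hGH hDF)
    obtain ⟨γ', hγ'⟩ := exists_mk hHm (natDegree_coeff_le hFne ((mul_comm _ _).trans hGH) hDF)
    let z : {z : Fin (n + 1) × Fin (n + 1) // z.1.val ≠ 0 ∧ z.2.val ≠ 0} :=
      ⟨(⟨G.natDegree, by omega⟩, ⟨H.natDegree, by omega⟩),
        fun h0 => hcon.1 (hdG.symm.trans h0), fun h0 => hcon.2 (hdH.symm.trans h0)⟩
    have hρz : ρ (a z) ≠ 0 := by
      intro h0
      apply hρ
      rw [map_prod]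
      exact Finset.prod_eq_zero (Finset.mem_univ z) h0
    exact hκ z κ ρ hρz γ γ' (by rw [hγ, hγ', hGH])

end MPadcCov
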