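import Mathlib

/-!
# Covers: basic definitions

`κ` is a field, `E` a commutative algebra over `K = κ(x)` with a `K`-basis `e`. The lattice `B` is the
`κ[x]`-span of `e`, the lattice `M` its dual for the trace.
-/

set_option autoImplicit false

namespace MPadcCov

open Polynomial

section RF

variable {κ : Type*} [Field κ]

/-- The inclusion of the polynomials in the rational functions. -/
noncomputable abbrev pol (p : κ[X]) : RatFunc κ := algebraMap κ[X] (RatFunc κ) p

/-- The rational function `r` is a polynomial. -/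
def IsPol (r : RatFunc κ) : Prop := ∃ p : κ[X], pol p = r

/-- The rational function `r` has degree at most `m`. -/
def Dle (r : RatFunc κ) (m : ℤ) : Prop := r = 0 ∨ r.intDegree ≤ m

end RF

/-- The polynomial with the derivation applied to all coefficients. -/
noncomputable def cD {R : Type*} [CommRing R] (δ : Derivation ℤ R R) (p : R[X]) : R[X] :=
  p.sum fun n c => monomial n (δ c)

section Lattices

variable {κ : Type*} [Field κ] {E : Type*} [CommRing E] [Algebra (RatFunc κ) E] {n : ℕ}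
  (e : Module.Basis (Fin n) (RatFunc κ) E)

/-- The trace of `E` over `κ(x)`. -/
noncomputable abbrev Tr (κ : Type*) [Field κ] (E : Type*) [CommRing E] [Algebra (RatFunc κ) E] :
    E →ₗ[RatFunc κ] RatFunc κ :=
  Algebra.trace (RatFunc κ) E

/-- Membership in the lattice `B` spanned by `e`. -/
def InB (z : E) : Prop := ∀ i, IsPol (e.repr z i)

/-- Membership in the trace dual `M` of `B`. -/
def InM (z : E) : Prop := ∀ i, IsPol (Tr κ E (z * e i))

/-- The regular forms: the elements of `M` with `deg Tr (z e i) ≤ a i - 2`. -/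
def InReg (a : Fin n → ℕ) (z : E) : Prop :=
  ∀ i, IsPol (Tr κ E (z * e i)) ∧ Dle (Tr κ E (z * e i)) ((a i : ℤ) - 2)

/-- The cover data without the moving branch point: a `κ(x)`-algebra `E` with a Birkhoff basis `e`
of degrees `a`, and the derivation `d = d/dx` of `E` (`dK` on `κ(x)`). -/
structure Cov0 (a : Fin n → ℕ) (ρ : κ[X]) (dK : Derivation ℤ (RatFunc κ) (RatFunc κ))
    (d : Derivation ℤ E E) : Prop where
  dK_pol : ∀ p : κ[X], dK (pol p) = pol (derivative p)
  d_alg : ∀ r, d (algebraMap (RatFunc κ) E r) = algebraMap (RatFunc κ) E (dK r)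
  tr_d : ∀ z, Tr κ E (d z) = dK (Tr κ E z)
  one : ∀ k, IsPol (e.repr 1 k) ∧ Dle (e.repr 1 k) (-(a k : ℤ))
  mul : ∀ i j k, IsPol (e.repr (e i * e j) k) ∧ Dle (e.repr (e i * e j) k) ((a i : ℤ) + a j - a k)
  der : ∀ i j, IsPol (pol ρ * e.repr (d (e i)) j) ∧ Dle (e.repr (d (e i)) j) ((a i : ℤ) - a j - 1)
  dual : ∀ z, InM e z → ∀ j, IsPol (pol ρ * e.repr z j)
  dualDeg : ∀ (z : E) (m : ℤ), (∀ i, Dle (Tr κ E (z * e i)) ((a i : ℤ) + m)) →
    ∀ j, Dle (e.repr z j) (m + 1 - (a j : ℤ))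
  nondeg : ∀ z, (∀ i, Tr κ E (z * e i) = 0) → z = 0
  sep : ∀ Δ : Derivation (RatFunc κ) E E, Δ = 0

/-- The cover data with the moving simple branch point `t`: `D` is the derivation of `E` with
`D x = 0` and `D = δ` on `κ`, `δ t = 1`; `ρ = (x - t) h₀`. -/
structure Cov1 (a : Fin n → ℕ) (t : κ) (h₀ : κ[X]) (δ : Derivation ℤ κ κ)
    (dK DK : Derivation ℤ (RatFunc κ) (RatFunc κ)) (d D : Derivation ℤ E E) : Prop
    extends Cov0 e a ((X - C t) * h₀) dK d where
  DK_pol : ∀ p : κ[X], DK (pol p) = pol (cD δ p)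
  D_alg : ∀ r, D (algebraMap (RatFunc κ) E r) = algebraMap (RatFunc κ) E (DK r)
  tr_D : ∀ z, Tr κ E (D z) = DK (Tr κ E z)
  comm : ∀ z, d (D z) = D (d z)
  δt : δ t = 1
  δh : cD δ h₀ = 0
  monic : h₀.Monic
  splits : ∃ s : Finset κ, h₀ = ∏ b ∈ s, (X - C b)
  ht : h₀.eval t ≠ 0
  derD : ∀ i j, IsPol (pol (X - C t) * e.repr (D (e i)) j) ∧
    Dle (e.repr (D (e i)) j) ((a i : ℤ) - a j)
  derS : ∀ i j, IsPol (pol h₀ * (e.repr (D (e i)) j + e.repr (d (e i)) j))
  seven : ∀ i j, IsPol (pol h₀ * Tr κ E (d (e i) * e j))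
  disc : ∃ h : κ[X], (Matrix.of fun i j => Tr κ E (e i * e j)).det = pol ((X - C t) * h) ∧
    h.eval t ≠ 0

end Lattices

end MPadcCov
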