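import Pool.Agent.Lib.MP_adc574_ag_Cov.CoreD
import Pool.Agent.Lib.MP_adc574_ag_Cov.CoreDisc

/-!
# The core in characteristic `p` (helper24, helper12)
-/

set_option autoImplicit false

namespace MPadcCov

open Polynomial

variable {κ : Type*} [Field κ] {E : Type*} [CommRing E] [Algebra (RatFunc κ) E] {n : ℕ}
  (e : Module.Basis (Fin n) (RatFunc κ) E)

/-- `core`: a regular form `φ` with `d ^ (p - 1) φ = 0` has a discriminant divisible by
`(x - t) ^ p`. -/
theorem core (p : ℕ) [Fact p.Prime] [CharP κ p] (hp : p ≠ 2) (a : Fin n → ℕ) (t : κ) (h₀ : κ[X])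
    (δ : Derivation ℤ κ κ) (dK DK : Derivation ℤ (RatFunc κ) (RatFunc κ)) (d D : Derivation ℤ E E)
    (H : Cov1 e a t h₀ δ dK DK d D) (φ : E) (hφ : InReg e a φ) (hex : (d^[p - 1]) φ = 0) :
    ∃ q : κ[X], (Matrix.of fun i j : Fin n =>
      Tr κ E ((algebraMap (RatFunc κ) E (pol ((X - C t) * h₀)) * φ) ^ (i.1 + j.1))).det =
        pol ((X - C t) ^ p * q) := by
  obtain ⟨q, hq⟩ := disc_of_stable p a t h₀ δ dK DK d D H (inE E (pol h₀) * φ)
    (fun j => H.allDer p hp j hφ hex)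
  have h1 : (Matrix.of fun i j : Fin n =>
      Tr κ E ((algebraMap (RatFunc κ) E (pol ((X - C t) * h₀)) * φ) ^ (i.1 + j.1))) =
      Matrix.diagonal (fun i : Fin n => pol ((X - C t) ^ i.1)) *
        (Matrix.of fun i j : Fin n => Tr κ E ((inE E (pol h₀) * φ) ^ (i.1 + j.1))) *
        Matrix.diagonal (fun i : Fin n => pol ((X - C t) ^ i.1)) := by
    ext1 i j
    rw [Matrix.mul_diagonal, Matrix.diagonal_mul, Matrix.of_apply, Matrix.of_apply]
    have h2 : (algebraMap (RatFunc κ) E (pol ((X - C t) * h₀)) * φ) ^ (i.1 + j.1) =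
        inE E (pol ((X - C t) ^ i.1)) * (inE E (pol ((X - C t) ^ j.1)) *
          (inE E (pol h₀) * φ) ^ (i.1 + j.1)) := by
      simp only [inE, pol, map_mul, map_pow]
      ring
    rw [h2, tr_inE_mul, tr_inE_mul]
    ring
  rw [h1, Matrix.det_mul, Matrix.det_mul, Matrix.det_diagonal, hq]
  refine ⟨(∏ i : Fin n, (X - C t) ^ i.1) ^ 2 * q, ?_⟩
  simp only [pol, map_mul, map_pow, map_prod]
  ring

end MPadcCov
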