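import Pool.Agent.Lib.MP_adc574_ag_Cov.Basic

/-!
# Basic facts on `IsPol`, `Dle` and the lattices (core in characteristic `p`)
-/

set_option autoImplicit false

namespace MPadcCov

open Polynomial

section RF

variable {κ : Type*} [Field κ]

theorem isPol_pol (q : κ[X]) : IsPol (pol q) := ⟨q, rfl⟩

theorem IsPol.zero : IsPol (0 : RatFunc κ) := ⟨0, map_zero _⟩

theorem IsPol.add {r s : RatFunc κ} (hr : IsPol r) (hs : IsPol s) : IsPol (r + s) := by
  obtain ⟨p, rfl⟩ := hr
  obtain ⟨q, rfl⟩ := hs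
  exact ⟨p + q, map_add _ _ _⟩

theorem IsPol.mul {r s : RatFunc κ} (hr : IsPol r) (hs : IsPol s) : IsPol (r * s) := by
  obtain ⟨p, rfl⟩ := hr
  obtain ⟨q, rfl⟩ := hs
  exact ⟨p * q, map_mul _ _ _⟩

theorem IsPol.neg {r : RatFunc κ} (hr : IsPol r) : IsPol (-r) := by
  obtain ⟨p, rfl⟩ := hr
  exact ⟨-p, map_neg _ _⟩

theorem IsPol.sub {r s : RatFunc κ} (hr : IsPol r) (hs : IsPol s) : IsPol (r - s) := by
  rw [sub_eq_add_neg]
  exact hr.add hs.neg

theorem IsPol.sum {ι : Type*} (s : Finset ι) (f : ι → RatFunc κ) (h : ∀ i ∈ s, IsPol (f i)) :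
    IsPol (∑ i ∈ s, f i) :=
  Finset.sum_induction _ _ (fun _ _ => IsPol.add) IsPol.zero h

theorem pol_injective : Function.Injective (algebraMap κ[X] (RatFunc κ)) :=
  IsFractionRing.injective κ[X] (RatFunc κ)

/-- If `u r` and `v r` are polynomials with `u`, `v` coprime, then so is `r`. -/
theorem isPol_of_coprime {u v : κ[X]} (huv : IsCoprime u v) {r : RatFunc κ}
    (h1 : IsPol (pol u * r)) (h2 : IsPol (pol v * r)) : IsPol r := by
  obtain ⟨a, b, hab⟩ := huv
  have : r = pol a * (pol u * r) + pol b * (pol v * r) := by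
    rw [← mul_assoc, ← mul_assoc, ← add_mul]
    simp only [pol]
    rw [← map_mul, ← map_mul, ← map_add, hab, map_one, one_mul]
  rw [this]
  exact ((isPol_pol a).mul h1).add ((isPol_pol b).mul h2)

theorem Dle.zero (m : ℤ) : Dle (0 : RatFunc κ) m := Or.inl rfl

theorem Dle.mono {r : RatFunc κ} {m k : ℤ} (h : Dle r m) (hmk : m ≤ k) : Dle r k := by
  rcases h with h | h
  · exact Or.inl h
  · exact Or.inr (h.trans hmk)

theorem Dle.add {r s : RatFunc κ} {m : ℤ} (hr : Dle r m) (hs : Dle s m) : Dle (r + s) m := by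
  rcases eq_or_ne r 0 with h0 | h0
  · rw [h0, zero_add]; exact hs
  rcases eq_or_ne s 0 with h1 | h1
  · rw [h1, add_zero]; exact hr
  rcases eq_or_ne (r + s) 0 with h2 | h2
  · exact Or.inl h2
  · right
    exact (RatFunc.intDegree_add_le h1 h2).trans
      (max_le (hr.resolve_left h0) (hs.resolve_left h1))

theorem Dle.neg {r : RatFunc κ} {m : ℤ} (hr : Dle r m) : Dle (-r) m := by
  rcases hr with h | h
  · left; rw [h, neg_zero]
  · right; rwa [RatFunc.intDegree_neg]

theorem Dle.sub {r s : RatFunc κ} {m : ℤ} (hr : Dle r m) (hs : Dle s m) : Dle (r - s) m := by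
  rw [sub_eq_add_neg]; exact hr.add hs.neg

theorem Dle.mul {r s : RatFunc κ} {m k : ℤ} (hr : Dle r m) (hs : Dle s k) :
    Dle (r * s) (m + k) := by
  rcases eq_or_ne r 0 with h0 | h0
  · left; rw [h0, zero_mul]
  rcases eq_or_ne s 0 with h1 | h1
  · left; rw [h1, mul_zero]
  right
  rw [RatFunc.intDegree_mul h0 h1]
  exact add_le_add (hr.resolve_left h0) (hs.resolve_left h1)

theorem Dle.sum {ι : Type*} (s : Finset ι) (f : ι → RatFunc κ) {m : ℤ}
    (h : ∀ i ∈ s, Dle (f i) m) : Dle (∑ i ∈ s, f i) m :=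
  Finset.sum_induction _ (fun r => Dle r m) (fun _ _ => Dle.add) (Dle.zero m) h

theorem dle_pol_iff {q : κ[X]} {m : ℤ} : Dle (pol q) m ↔ q = 0 ∨ (q.natDegree : ℤ) ≤ m := by
  unfold Dle pol
  rw [RatFunc.intDegree_polynomial, map_eq_zero_iff _ pol_injective]

/-- Cancellation: a bound for `r` from a bound for `pol q * r`. -/
theorem dle_of_mul {q : κ[X]} (hq : q ≠ 0) {r : RatFunc κ} {m : ℤ}
    (h : Dle (pol q * r) (q.natDegree + m)) : Dle r m := by
  have hq' : pol q ≠ 0 := by
    rw [Ne, pol, map_eq_zero_iff _ pol_injective]; exact hq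
  rcases eq_or_ne r 0 with h0 | h0
  · exact Or.inl h0
  · right
    have h1 := h.resolve_left (mul_ne_zero hq' h0)
    rw [RatFunc.intDegree_mul hq' h0, pol, RatFunc.intDegree_polynomial] at h1
    linarith

theorem exists_rep (r : RatFunc κ) : ∃ p q : κ[X], q ≠ 0 ∧ pol q * r = pol p :=
  ⟨r.num, r.denom, r.denom_ne_zero, by
    have h := RatFunc.num_div_denom r
    have h2 : pol r.denom ≠ 0 := by
      rw [Ne, pol, map_eq_zero_iff _ pol_injective]; exact r.denom_ne_zero
    rw [mul_comm, ← eq_div_iff h2]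
    exact h.symm⟩

/-- A derivation of `κ(x)` that lowers degrees of polynomials by `k` does so for all rational
functions. -/
theorem dle_deriv (Δ : Derivation ℤ (RatFunc κ) (RatFunc κ)) (k : ℤ)
    (hΔ : ∀ q : κ[X], Dle (Δ (pol q)) (q.natDegree - k)) {r : RatFunc κ} {m : ℤ} (hr : Dle r m) :
    Dle (Δ r) (m - k) := by
  obtain ⟨p, q, hq, h⟩ := exists_rep r
  rcases eq_or_ne r 0 with h0 | h0
  · rw [h0, map_zero]; exact Dle.zero _
  apply dle_of_mul hq
  have h1 : pol q * Δ r = Δ (pol p) - Δ (pol q) * r := by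
    rw [← h, Derivation.leibniz, smul_eq_mul, smul_eq_mul]
    ring
  have hp0 : p ≠ 0 := by
    rintro rfl
    rw [pol, pol, map_zero] at h
    rcases mul_eq_zero.1 h with h2 | h2
    · rw [map_eq_zero_iff _ pol_injective] at h2; exact hq h2
    · exact h0 h2
  have hp : (p.natDegree : ℤ) ≤ q.natDegree + m := by
    have h2 : Dle (pol p) (q.natDegree + m) := by
      rw [← h]
      exact Dle.mul (dle_pol_iff.2 (Or.inr le_rfl)) hr
    exact (dle_pol_iff.1 h2).resolve_left hp0
  rw [h1]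
  apply Dle.sub
  · exact (hΔ p).mono (by linarith)
  · exact ((hΔ q).mul hr).mono (by linarith)

theorem natDegree_cD_le (δ : Derivation ℤ κ κ) (p : κ[X]) :
    (cD δ p).natDegree ≤ p.natDegree := by
  unfold cD
  apply natDegree_sum_le_of_forall_le
  intro n hn
  exact (natDegree_monomial_le _).trans (le_natDegree_of_mem_supp _ hn)

end RF

section Lattices

variable {κ : Type*} [Field κ] {E : Type*} [CommRing E] [Algebra (RatFunc κ) E] {n : ℕ}
  {e : Module.Basis (Fin n) (RatFunc κ) E}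

/-- Rational functions as elements of `E`. -/
noncomputable abbrev inE (E : Type*) [CommRing E] [Algebra (RatFunc κ) E] (r : RatFunc κ) : E :=
  algebraMap (RatFunc κ) E r

theorem repr_inE_mul (r : RatFunc κ) (z : E) (i : Fin n) :
    e.repr (inE E r * z) i = r * e.repr z i := by
  rw [inE, ← Algebra.smul_def, map_smul, Finsupp.smul_apply, smul_eq_mul]

theorem tr_inE_mul (r : RatFunc κ) (z : E) : Tr κ E (inE E r * z) = r * Tr κ E z := by
  rw [inE, ← Algebra.smul_def, map_smul, smul_eq_mul]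

theorem tr_eq_sum (z : E) : Tr κ E z = ∑ k, e.repr (z * e k) k := by
  rw [Tr, Algebra.trace_eq_matrix_trace e, Matrix.trace]
  apply Finset.sum_congr rfl
  intro k _
  rw [Matrix.diag_apply, Algebra.leftMulMatrix_eq_repr_mul]

theorem repr_mul' (z y : E) (k : Fin n) :
    e.repr (z * y) k = ∑ i, ∑ j, e.repr z i * e.repr y j * e.repr (e i * e j) k := by
  conv_lhs => rw [← e.sum_repr z, ← e.sum_repr y, Finset.sum_mul_sum]
  rw [map_sum, Finsupp.finsetSum_apply]
  apply Finset.sum_congr rfl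
  intro i _
  rw [map_sum, Finsupp.finsetSum_apply]
  apply Finset.sum_congr rfl
  intro j _
  rw [smul_mul_smul_comm, map_smul, Finsupp.smul_apply, smul_eq_mul]

theorem tr_mul_eq_sum (z y : E) : Tr κ E (z * y) = ∑ j, e.repr y j * Tr κ E (z * e j) := by
  conv_lhs => rw [← e.sum_repr y, Finset.mul_sum]
  rw [map_sum]
  apply Finset.sum_congr rfl
  intro j _
  rw [mul_smul_comm, map_smul, smul_eq_mul]

theorem InB.add {z y : E} (hz : InB e z) (hy : InB e y) : InB e (z + y) := fun i => by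
  rw [map_add, Finsupp.add_apply]; exact (hz i).add (hy i)

theorem InB.neg {z : E} (hz : InB e z) : InB e (-z) := fun i => by
  rw [map_neg, Finsupp.neg_apply]; exact (hz i).neg

theorem InB.sub {z y : E} (hz : InB e z) (hy : InB e y) : InB e (z - y) := by
  rw [sub_eq_add_neg]; exact hz.add hy.neg

theorem InB.zero : InB e (0 : E) := fun i => by
  rw [map_zero, Finsupp.zero_apply]; exact IsPol.zero

theorem InB.pol_mul {z : E} (hz : InB e z) (q : κ[X]) : InB e (inE E (pol q) * z) := fun i => by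
  rw [repr_inE_mul]; exact (isPol_pol q).mul (hz i)

theorem inB_basis (i : Fin n) : InB e (e i) := fun j => by
  rw [e.repr_self, Finsupp.single_apply]
  split_ifs
  · exact ⟨1, map_one _⟩
  · exact IsPol.zero

theorem InM.add {z y : E} (hz : InM e z) (hy : InM e y) : InM e (z + y) := fun i => by
  rw [add_mul, map_add]; exact (hz i).add (hy i)

theorem InM.neg {z : E} (hz : InM e z) : InM e (-z) := fun i => by
  rw [neg_mul, map_neg]; exact (hz i).neg

theorem InM.sub {z y : E} (hz : InM e z) (hy : InM e y) : InM e (z - y) := by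
  rw [sub_eq_add_neg]; exact hz.add hy.neg

theorem InM.zero : InM e (0 : E) := fun i => by
  rw [zero_mul, map_zero]; exact IsPol.zero

theorem InM.pol_mul {z : E} (hz : InM e z) (q : κ[X]) : InM e (inE E (pol q) * z) := fun i => by
  rw [mul_assoc, tr_inE_mul]; exact (isPol_pol q).mul (hz i)

theorem InM.tr {z y : E} (hz : InM e z) (hy : InB e y) : IsPol (Tr κ E (z * y)) := by
  rw [tr_mul_eq_sum (e := e)]
  exact IsPol.sum _ _ fun j _ => (hy j).mul (hz j)

/-- Bounds on the dual coordinates. -/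
def DDeg (e : Module.Basis (Fin n) (RatFunc κ) E) (a : Fin n → ℕ) (m : ℤ) (z : E) : Prop :=
  ∀ i, Dle (Tr κ E (z * e i)) ((a i : ℤ) + m)

/-- Bounds on the coordinates. -/
def BDeg (e : Module.Basis (Fin n) (RatFunc κ) E) (a : Fin n → ℕ) (m : ℤ) (z : E) : Prop :=
  ∀ i, Dle (e.repr z i) (m - (a i : ℤ))

theorem DDeg.tr {a : Fin n → ℕ} {m k : ℤ} {z y : E} (hz : DDeg e a m z) (hy : BDeg e a k y) :
    Dle (Tr κ E (z * y)) (m + k) := by
  rw [tr_mul_eq_sum (e := e)]
  exact Dle.sum _ _ fun j _ => ((hy j).mul (hz j)).mono (by linarith)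

end Lattices

end MPadcCov
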