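import Pool.Agent.Lib.MP_adc574_ag_Cov.CoreA

/-!
# Consequences of the structures `Cov0`, `Cov1` (core in characteristic `p`)
-/

set_option autoImplicit false

namespace MPadcCov

open Polynomial

section Zero

variable {κ : Type*} [Field κ] {E : Type*} [CommRing E] [Algebra (RatFunc κ) E] {n : ℕ}
  {e : Module.Basis (Fin n) (RatFunc κ) E} {a : Fin n → ℕ} {ρ : κ[X]}
  {dK : Derivation ℤ (RatFunc κ) (RatFunc κ)} {d : Derivation ℤ E E}

theorem Cov0.mulB (H : Cov0 e a ρ dK d) {z y : E} (hz : InB e z) (hy : InB e y) :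
    InB e (z * y) := fun k => by
  rw [repr_mul']
  exact IsPol.sum _ _ fun i _ => IsPol.sum _ _ fun j _ => ((hz i).mul (hy j)).mul (H.mul i j k).1

theorem Cov0.oneB (H : Cov0 e a ρ dK d) : InB e (1 : E) := fun k => (H.one k).1

theorem Cov0.powB (H : Cov0 e a ρ dK d) {z : E} (hz : InB e z) (k : ℕ) : InB e (z ^ k) := by
  induction k with
  | zero => rw [pow_zero]; exact H.oneB
  | succ k ih => rw [pow_succ]; exact H.mulB ih hz

theorem Cov0.trB (H : Cov0 e a ρ dK d) {z : E} (hz : InB e z) : IsPol (Tr κ E z) := by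
  rw [tr_eq_sum (e := e)]
  exact IsPol.sum _ _ fun k _ => H.mulB hz (inB_basis k) k

theorem Cov0.inM_of_inB (H : Cov0 e a ρ dK d) {z : E} (hz : InB e z) : InM e z := fun i =>
  H.trB (H.mulB hz (inB_basis i))

theorem Cov0.mulM (H : Cov0 e a ρ dK d) {z y : E} (hz : InM e z) (hy : InB e y) :
    InM e (z * y) := fun i => by
  rw [mul_assoc]; exact hz.tr (H.mulB hy (inB_basis i))

/-- `ρ M ⊆ B`. -/
theorem Cov0.rho_mul (H : Cov0 e a ρ dK d) {z : E} (hz : InM e z) :
    InB e (inE E (pol ρ) * z) := fun j => by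
  rw [repr_inE_mul]; exact H.dual z hz j

theorem repr_deriv (Δ : Derivation ℤ E E) (ΔK : Derivation ℤ (RatFunc κ) (RatFunc κ))
    (h : ∀ r, Δ (algebraMap (RatFunc κ) E r) = algebraMap (RatFunc κ) E (ΔK r)) (z : E)
    (j : Fin n) :
    e.repr (Δ z) j = ΔK (e.repr z j) + ∑ i, e.repr z i * e.repr (Δ (e i)) j := by
  have h1 : Δ z = ∑ i, (ΔK (e.repr z i) • e i + e.repr z i • Δ (e i)) := by
    conv_lhs => rw [← e.sum_repr z]
    rw [map_sum]
    apply Finset.sum_congr rfl
    intro i _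
    rw [Algebra.smul_def, Derivation.leibniz, h, smul_eq_mul, smul_eq_mul, Algebra.smul_def,
      Algebra.smul_def]
    ring
  rw [h1, Finset.sum_add_distrib, map_add, Finsupp.add_apply, map_sum, map_sum,
    Finsupp.finsetSum_apply, Finsupp.finsetSum_apply]
  congr 1
  · rw [Finset.sum_eq_single j]
    · rw [map_smul, Finsupp.smul_apply, e.repr_self, Finsupp.single_eq_same, smul_eq_mul, mul_one]
    · intro i _ hij
      rw [map_smul, Finsupp.smul_apply, e.repr_self, Finsupp.single_eq_of_ne (Ne.symm hij),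
        smul_zero]
    · intro hj
      exact absurd (Finset.mem_univ j) hj
  · apply Finset.sum_congr rfl
    intro i _
    rw [map_smul, Finsupp.smul_apply, smul_eq_mul]

/-- `ρ d B ⊆ B`. -/
theorem Cov0.derB (H : Cov0 e a ρ dK d) {z : E} (hz : InB e z) :
    InB e (inE E (pol ρ) * d z) := fun j => by
  rw [repr_inE_mul, repr_deriv d dK H.d_alg, mul_add, Finset.mul_sum]
  apply IsPol.add
  · obtain ⟨q, hq⟩ := hz j
    rw [← hq, H.dK_pol]
    exact (isPol_pol _).mul (isPol_pol _)
  · apply IsPol.sum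
    intro i _
    have : pol ρ * (e.repr z i * e.repr (d (e i)) j) =
        e.repr z i * (pol ρ * e.repr (d (e i)) j) := by ring
    rw [this]
    exact (hz i).mul (H.der i j).1

/-- `ρ d M ⊆ M`. -/
theorem Cov0.derM (H : Cov0 e a ρ dK d) {z : E} (hz : InM e z) :
    InM e (inE E (pol ρ) * d z) := fun i => by
  have h1 : Tr κ E (inE E (pol ρ) * d z * e i) =
      pol ρ * dK (Tr κ E (z * e i)) - Tr κ E (z * (inE E (pol ρ) * d (e i))) := by
    rw [← H.tr_d, ← tr_inE_mul, ← map_sub]
    congr 1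
    rw [Derivation.leibniz, smul_eq_mul, smul_eq_mul]
    ring
  rw [h1]
  apply IsPol.sub
  · obtain ⟨q, hq⟩ := hz i
    rw [← hq, H.dK_pol]
    exact (isPol_pol _).mul (isPol_pol _)
  · exact hz.tr (H.derB (inB_basis i))

theorem Cov0.dK_dle (H : Cov0 e a ρ dK d) {r : RatFunc κ} {m : ℤ} (hr : Dle r m) :
    Dle (dK r) (m - 1) := by
  apply dle_deriv dK 1 _ hr
  intro q
  rw [H.dK_pol, dle_pol_iff]
  rcases eq_or_ne q.natDegree 0 with h | h
  · left
    rw [eq_C_of_natDegree_eq_zero h, derivative_C]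
  · right
    have := natDegree_derivative_lt h
    omega

/-- `d` lowers the degree of the dual coordinates by one. -/
theorem Cov0.dDeg (H : Cov0 e a ρ dK d) {z : E} {m : ℤ} (hz : DDeg e a m z) :
    DDeg e a (m - 1) (d z) := fun i => by
  have h1 : Tr κ E (d z * e i) = dK (Tr κ E (z * e i)) - Tr κ E (z * d (e i)) := by
    rw [← H.tr_d, ← map_sub]
    congr 1
    rw [Derivation.leibniz, smul_eq_mul, smul_eq_mul]
    ring
  rw [h1]
  apply Dle.sub
  · exact (H.dK_dle (hz i)).mono (by linarith)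
  · have h2 : BDeg e a ((a i : ℤ) - 1) (d (e i)) := fun j => (H.der i j).2.mono (by linarith)
    exact (hz.tr h2).mono (by linarith)

theorem Cov0.dDeg_iterate (H : Cov0 e a ρ dK d) {z : E} {m : ℤ} (hz : DDeg e a m z) (k : ℕ) :
    DDeg e a (m - k) (d^[k] z) := by
  induction k with
  | zero => simpa using hz
  | succ k ih =>
    rw [Function.iterate_succ_apply']
    have := H.dDeg ih
    intro i
    exact (this i).mono (by push_cast; linarith)

theorem Cov0.bDeg (H : Cov0 e a ρ dK d) {z : E} {m : ℤ} (hz : DDeg e a m z) :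
    BDeg e a (m + 1) z := fun j => (H.dualDeg z m hz j).mono (by linarith)

end Zero

section One

variable {κ : Type*} [Field κ] {E : Type*} [CommRing E] [Algebra (RatFunc κ) E] {n : ℕ}
  {e : Module.Basis (Fin n) (RatFunc κ) E} {a : Fin n → ℕ} {t : κ} {h₀ : κ[X]}
  {δ : Derivation ℤ κ κ} {dK DK : Derivation ℤ (RatFunc κ) (RatFunc κ)} {d D : Derivation ℤ E E}

/-- `(x - t) D B ⊆ B`. -/
theorem Cov1.derDB (H : Cov1 e a t h₀ δ dK DK d D) {z : E} (hz : InB e z) :
    InB e (inE E (pol (X - C t)) * D z) := fun j => by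
  rw [repr_inE_mul, repr_deriv D DK H.D_alg, mul_add, Finset.mul_sum]
  apply IsPol.add
  · obtain ⟨q, hq⟩ := hz j
    rw [← hq, H.DK_pol]
    exact (isPol_pol _).mul (isPol_pol _)
  · apply IsPol.sum
    intro i _
    have : pol (X - C t) * (e.repr z i * e.repr (D (e i)) j) =
        e.repr z i * (pol (X - C t) * e.repr (D (e i)) j) := by ring
    rw [this]
    exact (hz i).mul (H.derD i j).1

/-- `(x - t) D M ⊆ M`. -/
theorem Cov1.derDM (H : Cov1 e a t h₀ δ dK DK d D) {z : E} (hz : InM e z) :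
    InM e (inE E (pol (X - C t)) * D z) := fun i => by
  have h1 : Tr κ E (inE E (pol (X - C t)) * D z * e i) =
      pol (X - C t) * DK (Tr κ E (z * e i)) -
        Tr κ E (z * (inE E (pol (X - C t)) * D (e i))) := by
    rw [← H.tr_D, ← tr_inE_mul, ← map_sub]
    congr 1
    rw [Derivation.leibniz, smul_eq_mul, smul_eq_mul]
    ring
  rw [h1]
  apply IsPol.sub
  · obtain ⟨q, hq⟩ := hz i
    rw [← hq, H.DK_pol]
    exact (isPol_pol _).mul (isPol_pol _)
  · exact hz.tr (H.derDB (inB_basis i))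

/-- `h₀ (D + d) B ⊆ B`. -/
theorem Cov1.derSB (H : Cov1 e a t h₀ δ dK DK d D) {z : E} (hz : InB e z) :
    InB e (inE E (pol h₀) * (D z + d z)) := fun j => by
  rw [repr_inE_mul, map_add, Finsupp.add_apply, repr_deriv D DK H.D_alg,
    repr_deriv d dK H.d_alg]
  have h1 : pol h₀ * (DK (e.repr z j) + ∑ i, e.repr z i * e.repr (D (e i)) j +
      (dK (e.repr z j) + ∑ i, e.repr z i * e.repr (d (e i)) j)) =
      pol h₀ * (DK (e.repr z j) + dK (e.repr z j)) +
        ∑ i, e.repr z i * (pol h₀ * (e.repr (D (e i)) j + e.repr (d (e i)) j)) := by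
    have h2 : ∑ i, e.repr z i * (pol h₀ * (e.repr (D (e i)) j + e.repr (d (e i)) j)) =
        pol h₀ * (∑ i, e.repr z i * e.repr (D (e i)) j + ∑ i, e.repr z i * e.repr (d (e i)) j) := by
      rw [← Finset.sum_add_distrib, Finset.mul_sum]
      apply Finset.sum_congr rfl
      intro i _
      ring
    rw [h2]
    ring
  rw [h1]
  apply IsPol.add
  · obtain ⟨q, hq⟩ := hz j
    rw [← hq, H.DK_pol, H.dK_pol]
    exact (isPol_pol _).mul ((isPol_pol _).add (isPol_pol _))
  · exact IsPol.sum _ _ fun i _ => (hz i).mul (H.derS i j)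

/-- `h₀ (D + d) M ⊆ M`. -/
theorem Cov1.derSM (H : Cov1 e a t h₀ δ dK DK d D) {z : E} (hz : InM e z) :
    InM e (inE E (pol h₀) * (D z + d z)) := fun i => by
  have h1 : Tr κ E (inE E (pol h₀) * (D z + d z) * e i) =
      pol h₀ * (DK (Tr κ E (z * e i)) + dK (Tr κ E (z * e i))) -
        Tr κ E (z * (inE E (pol h₀) * (D (e i) + d (e i)))) := by
    rw [← H.tr_D, ← H.tr_d, ← map_add, ← tr_inE_mul, ← map_sub]
    congr 1
    rw [Derivation.leibniz, Derivation.leibniz]
    simp only [smul_eq_mul]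
    ring
  rw [h1]
  apply IsPol.sub
  · obtain ⟨q, hq⟩ := hz i
    rw [← hq, H.DK_pol, H.dK_pol]
    exact (isPol_pol _).mul ((isPol_pol _).add (isPol_pol _))
  · exact hz.tr (H.derSB (inB_basis i))

/-- `h₀ d B ⊆ M`. -/
theorem Cov1.sevenB (H : Cov1 e a t h₀ δ dK DK d D) {z : E} (hz : InB e z) :
    InM e (inE E (pol h₀) * d z) := fun i => by
  have h0 : d z = ∑ k, (inE E (dK (e.repr z k)) * e k + inE E (e.repr z k) * d (e k)) := by
    conv_lhs => rw [← e.sum_repr z]
    rw [map_sum]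
    apply Finset.sum_congr rfl
    intro k _
    rw [Algebra.smul_def, Derivation.leibniz, H.d_alg, smul_eq_mul, smul_eq_mul]
    ring
  have h1 : Tr κ E (inE E (pol h₀) * d z * e i) =
      ∑ k, (pol h₀ * dK (e.repr z k) * Tr κ E (e k * e i) +
        e.repr z k * (pol h₀ * Tr κ E (d (e k) * e i))) := by
    rw [h0, Finset.mul_sum, Finset.sum_mul, map_sum]
    apply Finset.sum_congr rfl
    intro k _
    have h2 : inE E (pol h₀) * (inE E (dK (e.repr z k)) * e k + inE E (e.repr z k) * d (e k)) * e i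
        = inE E (pol h₀ * dK (e.repr z k)) * (e k * e i) +
          inE E (e.repr z k * pol h₀) * (d (e k) * e i) := by
      simp only [inE, map_mul]
      ring
    rw [h2, map_add, tr_inE_mul, tr_inE_mul]
    ring
  rw [h1]
  apply IsPol.sum
  intro k _
  apply IsPol.add
  · obtain ⟨q, hq⟩ := hz k
    rw [← hq, H.dK_pol]
    exact ((isPol_pol _).mul (isPol_pol _)).mul (H.toCov0.trB (H.toCov0.mulB (inB_basis k)
      (inB_basis i)))
  · exact (hz k).mul (H.seven k i)

theorem Cov1.DK_dle (H : Cov1 e a t h₀ δ dK DK d D) {r : RatFunc κ} {m : ℤ} (hr : Dle r m) :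
    Dle (DK r) m := by
  have h := dle_deriv DK 0 (fun q => by
    rw [H.DK_pol, dle_pol_iff]
    right
    have := natDegree_cD_le δ q
    simpa using this) hr
  exact h.mono (by linarith)

/-- `D` keeps the degree of the dual coordinates. -/
theorem Cov1.DDeg_D (H : Cov1 e a t h₀ δ dK DK d D) {z : E} {m : ℤ} (hz : DDeg e a m z) :
    DDeg e a m (D z) := fun i => by
  have h1 : Tr κ E (D z * e i) = DK (Tr κ E (z * e i)) - Tr κ E (z * D (e i)) := by
    rw [← H.tr_D, ← map_sub]
    congr 1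
    rw [Derivation.leibniz, smul_eq_mul, smul_eq_mul]
    ring
  rw [h1]
  apply Dle.sub
  · exact H.DK_dle (hz i)
  · have h2 : BDeg e a (a i : ℤ) (D (e i)) := fun j => (H.derD i j).2
    exact (hz.tr h2).mono (by linarith)

theorem Cov1.comm_iterate (H : Cov1 e a t h₀ δ dK DK d D) (z : E) (k : ℕ) :
    d^[k] (D z) = D (d^[k] z) := by
  induction k with
  | zero => rfl
  | succ k ih => rw [Function.iterate_succ_apply', ih, H.comm, Function.iterate_succ_apply']

end One

end MPadcCov
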