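import Pool.Agent.Lib.MP_adc574_ag_Cov.CoreB
import Pool.Agent.Lib.MP_adc574_ag_C.Iso2

/-!
# Isotropy and rank one (core in characteristic `p`)
-/

set_option autoImplicit false

namespace MPadcCov

open Polynomial

variable {κ : Type*} [Field κ] {E : Type*} [CommRing E] [Algebra (RatFunc κ) E] {n : ℕ}
  {e : Module.Basis (Fin n) (RatFunc κ) E} {a : Fin n → ℕ} {t : κ} {h₀ : κ[X]}
  {δ : Derivation ℤ κ κ} {dK DK : Derivation ℤ (RatFunc κ) (RatFunc κ)} {d D : Derivation ℤ E E}

/-- The derivation with the canonical structure of `ℤ`-algebra. -/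
noncomputable def canon (dK : Derivation ℤ (RatFunc κ) (RatFunc κ)) :
    @Derivation ℤ (RatFunc κ) (RatFunc κ) _ _ _ (Ring.toIntAlgebra (RatFunc κ)) _ _ :=
  @Derivation.mk ℤ (RatFunc κ) (RatFunc κ) _ _ _ (Ring.toIntAlgebra (RatFunc κ)) _ _
    dK.toLinearMap (Derivation.map_one_eq_zero dK) (Derivation.leibniz dK)

theorem canon_apply (dK : Derivation ℤ (RatFunc κ) (RatFunc κ)) (r : RatFunc κ) :
    canon dK r = dK r := rfl

/-- `M` as an additive subgroup. -/
noncomputable def subM (e : Module.Basis (Fin n) (RatFunc κ) E) : AddSubgroup E where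
  carrier := {z | InM e z}
  add_mem' := fun h1 h2 => InM.add h1 h2
  zero_mem' := InM.zero
  neg_mem' := fun h => InM.neg h

theorem Cov1.h0_ne (H : Cov1 e a t h₀ δ dK DK d D) : h₀ ≠ 0 := H.monic.ne_zero

theorem Cov1.h0_coprime (H : Cov1 e a t h₀ δ dK DK d D) : IsCoprime h₀ (derivative h₀) := by
  obtain ⟨s, hs⟩ := H.splits
  have h1 : Separable (∏ b ∈ s, (X - C b)) :=
    separable_prod_X_sub_C_iff'.2 (fun _ _ _ _ h => h)
  rw [← hs] at h1
  exact h1

/-- The dual degree of `D φ`, bound for the pairing of derivatives. -/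
theorem Cov1.tr_iterate_dle (H : Cov1 e a t h₀ δ dK DK d D) {w v : E} (hw : DDeg e a (-2) w)
    (hv : DDeg e a (-2) v) (i j : ℕ) :
    Dle (Tr κ E (d^[i] w * d^[j] v)) (-3 - i - j) := by
  have h1 := H.toCov0.bDeg (H.toCov0.dDeg_iterate hw i)
  have h2 := H.toCov0.dDeg_iterate hv j
  rw [mul_comm]
  exact (h2.tr h1).mono (by linarith)

theorem Cov1.isotropy (p : ℕ) [Fact p.Prime] [CharP κ p] (hp : p ≠ 2)
    (H : Cov1 e a t h₀ δ dK DK d D) {φ : E} (hφ : InReg e a φ) (hex : d^[p - 1] φ = 0)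
    {c : κ[X]} (hc : pol c = Tr κ E (inE E (pol ((X - C t) * h₀)) * (φ * φ))) :
    c.eval t = 0 := by
  have hprime : p.Prime := Fact.out
  have hM : InM e φ := fun i => (hφ i).1
  have hD : DDeg e a (-2) φ := fun i => (hφ i).2.mono (by linarith)
  have hDv : DDeg e a (-2) (D φ) := H.DDeg_D hD
  have hv1 : d^[p - 1] (D φ) = 0 := by rw [H.comm_iterate, hex, map_zero]
  refine MPadc574C.isotropy (κ := κ) (p := p) (K := RatFunc κ) (F := E) hp (canon dK)
    (fun f => by rw [canon_apply]; exact H.dK_pol f) d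
    (fun f => ?_) (Tr κ E)
    (fun f => by rw [canon_apply]; exact H.tr_d f) (M := subM e) (fun f m hm => ?_) (h₀ := h₀) (t := t)
    H.h0_coprime H.ht (fun m hm => ?_) (fun m hm m' hm' => ?_) (w := φ) (v := D φ) hM hex hv1
    ?_ ?_ ?_ (c := c) ?_
  · change d (algebraMap (RatFunc κ) E (pol f)) = _
    rw [H.d_alg, H.dK_pol]
    rfl
  · exact InM.pol_mul hm f
  · exact H.toCov0.derM hm
  · have h1 : IsPol (Tr κ E (m' * (inE E (pol ((X - C t) * h₀)) * m))) :=
      InM.tr hm' (H.toCov0.rho_mul hm)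
    obtain ⟨q, hq⟩ := h1
    refine ⟨q, ?_⟩
    change _ = pol q
    rw [hq]
    congr 1
    change inE E (pol ((X - C t) * h₀)) * (m * m') = _
    ring
  · exact H.derDM hM
  · exact H.derSM hM
  · intro q hq
    change pol q = Tr κ E (inE E (pol (((X - C t) * h₀) ^ (p - 1) * (X - C t))) *
      MPadc574C.Ed p d φ (D φ)) at hq
    have h1 : Dle (Tr κ E (MPadc574C.Ed p d φ (D φ))) (-1 - (p : ℤ)) := by
      rw [MPadc574C.Ed, map_sum]
      apply Dle.sum
      intro i hi
      rw [Finset.mem_range] at hi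
      have h2 := H.tr_iterate_dle hD hDv i (p - 2 - i)
      have h3 : Dle (Tr κ E (d^[i] φ * d^[p - 2 - i] (D φ))) (-1 - (p : ℤ)) := by
        refine h2.mono ?_
        have : ((p - 2 - i : ℕ) : ℤ) = (p : ℤ) - 2 - i := by omega
        rw [this]
        linarith
      rcases Nat.even_or_odd (i + 1) with h4 | h4
      · rw [h4.neg_one_pow, one_mul]; exact h3
      · rw [h4.neg_one_pow, neg_one_mul, map_neg]; exact h3.neg
    rw [tr_inE_mul] at hq
    have hdeg : (((X - C t) * h₀) ^ (p - 1) * (X - C t)).natDegree = (p - 1) * h₀.natDegree + p := by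
      rw [natDegree_mul (pow_ne_zero _ (mul_ne_zero (X_sub_C_ne_zero t) H.h0_ne))
        (X_sub_C_ne_zero t), natDegree_pow, natDegree_mul (X_sub_C_ne_zero t) H.h0_ne,
        natDegree_X_sub_C]
      have := hprime.pos
      obtain ⟨k, rfl⟩ : ∃ k, p = k + 1 := ⟨p - 1, by omega⟩
      rw [Nat.add_sub_cancel]
      ring
    have h5 : Dle (pol q) (((p - 1) * h₀.natDegree : ℕ) - 1 : ℤ) := by
      rw [hq]
      refine ((dle_pol_iff.2 (Or.inr le_rfl)).mul h1).mono ?_
      rw [hdeg]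
      push_cast
      linarith
    have h6 : (h₀ ^ (p - 1)).degree = (((p - 1) * h₀.natDegree : ℕ) : WithBot ℕ) := by
      rw [degree_eq_natDegree (pow_ne_zero _ H.h0_ne), natDegree_pow]
    rw [h6]
    rcases dle_pol_iff.1 h5 with h7 | h7
    · rw [h7, degree_zero]
      exact WithBot.bot_lt_coe _
    · rcases eq_or_ne q 0 with h8 | h8
      · rw [h8, degree_zero]
        exact WithBot.bot_lt_coe _
      rw [degree_eq_natDegree h8]
      have h9 : (q.natDegree : ℤ) < (((p - 1) * h₀.natDegree : ℕ) : ℤ) := by linarith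
      exact_mod_cast h9
  · exact hc

end MPadcCov
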