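import Pool.Agent.Lib.MP_adc574_ag_Cov.CoreC

/-!
# Rank one, stability, all derivatives (core in characteristic `p`)
-/

set_option autoImplicit false

namespace MPadcCov

open Polynomial

section det

variable {κ : Type*} [Field κ] {n : ℕ}

/-- A symmetric polynomial matrix with a vector `v` such that `G v = 0` at `t` and `vᵀ G v` vanishes
twice at `t`: then the determinant vanishes twice at `t`. -/
theorem sq_dvd_det (G : Matrix (Fin n) (Fin n) κ[X]) (hG : ∀ i j, G i j = G j i) (t : κ)
    (v : Fin n → κ) (hv : v ≠ 0) (h1 : ∀ i, (X - C t) ∣ ∑ j, C (v j) * G i j)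
    (h2 : (X - C t) ^ 2 ∣ ∑ i, ∑ j, C (v i) * C (v j) * G i j) : (X - C t) ^ 2 ∣ G.det := by
  obtain ⟨k, hk⟩ : ∃ k, v k ≠ 0 := by
    by_contra h
    push Not at h
    exact hv (funext h)
  set π : κ[X] := X - C t with hπ
  choose r hr using h1
  obtain ⟨r2, hr2⟩ := h2
  -- replace the row `k`
  have h3 : (G.updateRow k (∑ i, C (v i) • G i)).det = C (v k) • G.det :=
    Matrix.det_updateRow_sum G k fun i => C (v i)
  have h4 : (∑ i, C (v i) • G i) = fun j => π * r j := by
    funext j
    rw [Finset.sum_apply, ← hr j]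
    apply Finset.sum_congr rfl
    intro i _
    rw [Pi.smul_apply, smul_eq_mul, hG i j]
  have h5 : (fun j => π * r j) = π • r := rfl
  rw [h4, h5, Matrix.det_updateRow_smul] at h3
  -- the matrix `G1 = G.updateRow k r`
  have h6 : ((G.updateRow k r).updateCol k (fun i => ∑ j, C (v j) * (G.updateRow k r) i j)).det =
      C (v k) • (G.updateRow k r).det := by
    have h7 := Matrix.det_updateCol_sum (G.updateRow k r) k fun i => C (v i)
    rw [← h7]
    congr 1
  have h7 : ∀ i, π ∣ ∑ j, C (v j) * (G.updateRow k r) i j := by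
    intro i
    rcases eq_or_ne i k with h8 | h8
    · subst h8
      have h9 : π * (∑ j, C (v j) * (G.updateRow i r) i j) = π ^ 2 * r2 := by
        rw [← hr2, Finset.mul_sum, Finset.sum_comm]
        apply Finset.sum_congr rfl
        intro j _
        rw [Matrix.updateRow_self]
        have h10 : π * (C (v j) * r j) = C (v j) * (π * r j) := by ring
        rw [h10, ← hr j, Finset.mul_sum]
        apply Finset.sum_congr rfl
        intro l _
        rw [hG j l]
        ring
      have h10 : π ≠ 0 := X_sub_C_ne_zero t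
      refine ⟨r2, mul_left_cancel₀ h10 ?_⟩
      rw [h9]
      ring
    · rw [show (∑ j, C (v j) * (G.updateRow k r) i j) = ∑ j, C (v j) * G i j from
        Finset.sum_congr rfl fun j _ => by rw [Matrix.updateRow_ne h8], hr i]
      exact dvd_mul_right _ _
  choose r3 hr3 using h7
  have h8 : (fun i => ∑ j, C (v j) * (G.updateRow k r) i j) = π • r3 := by
    funext i
    rw [hr3 i, Pi.smul_apply, smul_eq_mul]
  rw [h8, Matrix.det_updateCol_smul] at h6
  have h9 : C (v k) * C (v k)⁻¹ = (1 : κ[X]) := by
    rw [← C_mul, mul_inv_cancel₀ hk, C_1]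
  rw [smul_eq_mul] at h3 h6
  refine ⟨C (v k)⁻¹ * C (v k)⁻¹ * ((G.updateRow k r).updateCol k r3).det, ?_⟩
  have h10 : G.det = C (v k)⁻¹ * (C (v k) * G.det) := by
    rw [← mul_assoc, mul_comm (C (v k)⁻¹), h9, one_mul]
  have h11 : (G.updateRow k r).det = C (v k)⁻¹ * (C (v k) * (G.updateRow k r).det) := by
    rw [← mul_assoc, mul_comm (C (v k)⁻¹), h9, one_mul]
  rw [h10, ← h3, h11, ← h6]
  ring

end det

variable {κ : Type*} [Field κ] {E : Type*} [CommRing E] [Algebra (RatFunc κ) E] {n : ℕ}
  {e : Module.Basis (Fin n) (RatFunc κ) E} {a : Fin n → ℕ} {t : κ} {h₀ : κ[X]}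
  {δ : Derivation ℤ κ κ} {dK DK : Derivation ℤ (RatFunc κ) (RatFunc κ)} {d D : Derivation ℤ E E}

/-- Rank one: an exact regular form is regular at `t` as a function: `h₀ φ ∈ B`. -/
theorem Cov1.rankOne (p : ℕ) [Fact p.Prime] [CharP κ p] (hp : p ≠ 2)
    (H : Cov1 e a t h₀ δ dK DK d D) {φ : E} (hφ : InReg e a φ) (hex : d^[p - 1] φ = 0) :
    InB e (inE E (pol h₀) * φ) := by
  have hM : InM e φ := fun i => (hφ i).1
  set ρ : κ[X] := (X - C t) * h₀ with hρ
  have hρ0 : ρ ≠ 0 := mul_ne_zero (X_sub_C_ne_zero t) H.h0_ne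
  -- the Gram matrix
  have hGex : ∀ i j, ∃ q : κ[X], pol q = Tr κ E (e i * e j) := fun i j =>
    H.toCov0.trB (H.toCov0.mulB (inB_basis i) (inB_basis j))
  choose G hG using hGex
  have hsymm : ∀ i j, G i j = G j i := fun i j => by
    apply pol_injective
    change pol _ = pol _
    rw [hG, hG, mul_comm]
  obtain ⟨h, hdet, hht⟩ := H.disc
  have hdet2 : (Matrix.of G).det = (X - C t) * h := by
    apply pol_injective
    change pol _ = pol _
    rw [← hdet, pol, RingHom.map_det]
    congr 1
    ext i j
    change pol (G i j) = _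
    rw [hG]
    rfl
  -- the coordinates
  choose c hc using hM
  have hyex : ∀ j, ∃ q : κ[X], pol q = pol ρ * e.repr φ j := H.dual φ fun i => (hφ i).1
  choose y hy using hyex
  have hGy : ∀ i, ∑ j, y j * G i j = ρ * c i := by
    intro i
    apply pol_injective
    rw [map_sum, map_mul]
    change ∑ j, algebraMap κ[X] (RatFunc κ) (y j * G i j) = pol ρ * pol (c i)
    rw [hc, mul_comm φ, tr_mul_eq_sum (e := e), Finset.mul_sum]
    apply Finset.sum_congr rfl
    intro j _
    rw [map_mul]
    change pol (y j) * pol (G i j) = _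
    rw [hy, hG]
    ring
  have hyc : pol (∑ j, y j * c j) = Tr κ E (inE E (pol ρ) * (φ * φ)) := by
    rw [tr_inE_mul, tr_mul_eq_sum (e := e), Finset.mul_sum, pol, map_sum]
    apply Finset.sum_congr rfl
    intro j _
    rw [map_mul]
    change pol (y j) * pol (c j) = _
    rw [hy, hc]
    ring
  have hiso := H.isotropy p hp hφ hex hyc
  -- the vector `v = y(t)`
  set v : Fin n → κ := fun j => (y j).eval t with hvdef
  have hρt : ρ.eval t = 0 := by rw [hρ]; simp
  have hv0 : v = 0 := by
    by_contra hv
    have h1 : ∀ i, (X - C t) ∣ ∑ j, C (v j) * G i j := by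
      intro i
      rw [dvd_iff_isRoot, IsRoot.def]
      have h2 := congrArg (eval t) (hGy i)
      rw [eval_mul, hρt, zero_mul, eval_finsetSum] at h2
      rw [eval_finsetSum, ← h2]
      apply Finset.sum_congr rfl
      intro j _
      rw [eval_mul, eval_mul, eval_C]
    have hy2 : ∀ j, ∃ q : κ[X], y j = C (v j) + (X - C t) * q := by
      intro j
      have h2 : (X - C t) ∣ y j - C (v j) := by
        rw [dvd_iff_isRoot, IsRoot.def, eval_sub, eval_C, hvdef, sub_self]
      obtain ⟨q, hq⟩ := h2
      exact ⟨q, by rw [← hq]; ring⟩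
    choose z hz using hy2
    choose r hr using h1
    have h2 : (X - C t) ^ 2 ∣ ∑ i, ∑ j, C (v i) * C (v j) * G i j := by
      -- `yᵀ G y = ρ ∑ y c`, and the terms with `(x-t) z` are divisible by `(x-t)^2`
      have h3 : ∑ i, y i * ∑ j, y j * G i j = ρ * ∑ j, y j * c j := by
        rw [Finset.mul_sum]
        apply Finset.sum_congr rfl
        intro i _
        rw [hGy i]
        ring
      have h4 : (X - C t) ^ 2 ∣ ρ * ∑ j, y j * c j := by
        have h5 : (X - C t) ∣ ∑ j, y j * c j := by
          rw [dvd_iff_isRoot, IsRoot.def]; exact hiso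
        obtain ⟨q, hq⟩ := h5
        refine ⟨h₀ * q, ?_⟩
        rw [hq, hρ]
        ring
      have h6 : ∑ i, ∑ j, C (v i) * C (v j) * G i j = ∑ i, y i * ∑ j, y j * G i j -
          (X - C t) ^ 2 * (∑ i, z i * r i + ∑ i, z i * r i + ∑ i, ∑ j, z i * z j * G i j) := by
        have h7 : ∑ i, y i * ∑ j, y j * G i j = ∑ i, ∑ j, C (v i) * C (v j) * G i j +
            (X - C t) * ∑ i, z i * ∑ j, C (v j) * G i j +
            (X - C t) * ∑ i, z i * ∑ j, C (v j) * G i j +
            (X - C t) ^ 2 * ∑ i, ∑ j, z i * z j * G i j := by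
          have h8 : (X - C t) * ∑ i, z i * ∑ j, C (v j) * G i j =
              ∑ i, ∑ j, (X - C t) * z j * C (v i) * G i j := by
            rw [Finset.mul_sum, Finset.sum_comm]
            apply Finset.sum_congr rfl
            intro i _
            rw [Finset.mul_sum, Finset.mul_sum]
            apply Finset.sum_congr rfl
            intro j _
            rw [hsymm i j]
            ring
          have h9 : (X - C t) * ∑ i, z i * ∑ j, C (v j) * G i j =
              ∑ i, ∑ j, (X - C t) * z i * C (v j) * G i j := by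
            rw [Finset.mul_sum]
            apply Finset.sum_congr rfl
            intro i _
            rw [Finset.mul_sum, Finset.mul_sum]
            apply Finset.sum_congr rfl
            intro j _
            ring
          have h10 : ∑ i, y i * ∑ j, y j * G i j = ∑ i, ∑ j, y i * y j * G i j := by
            apply Finset.sum_congr rfl
            intro i _
            rw [Finset.mul_sum]
            apply Finset.sum_congr rfl
            intro j _
            ring
          rw [h10]
          conv_rhs => rw [add_assoc, add_assoc]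
          rw [Finset.mul_sum (s := Finset.univ) (f := fun i => ∑ j, z i * z j * G i j)]
          conv_rhs =>
            enter [2, 1]
            rw [h8]
          conv_rhs =>
            enter [2, 2, 1]
            rw [h9]
          rw [← Finset.sum_add_distrib, ← Finset.sum_add_distrib, ← Finset.sum_add_distrib]
          apply Finset.sum_congr rfl
          intro i _
          rw [Finset.mul_sum, ← Finset.sum_add_distrib, ← Finset.sum_add_distrib,
            ← Finset.sum_add_distrib]
          apply Finset.sum_congr rfl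
          intro j _
          rw [hz i, hz j]
          ring
        have h11 : ∑ i, z i * ∑ j, C (v j) * G i j = (X - C t) * ∑ i, z i * r i := by
          rw [Finset.mul_sum]
          apply Finset.sum_congr rfl
          intro i _
          rw [hr i]
          ring
        rw [h7, h11]
        ring
      rw [h6, h3]
      exact dvd_sub h4 (dvd_mul_right _ _)
    have h12 := sq_dvd_det (Matrix.of G) (fun i j => hsymm i j) t v hv
      (fun i => ⟨r i, hr i⟩) h2
    rw [hdet2, pow_two, mul_dvd_mul_iff_left (X_sub_C_ne_zero t), dvd_iff_isRoot,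
      IsRoot.def] at h12
    exact hht h12
  intro j
  have h1 : (X - C t) ∣ y j := by
    rw [dvd_iff_isRoot, IsRoot.def]
    exact congrFun hv0 j
  obtain ⟨q, hq⟩ := h1
  refine ⟨q, ?_⟩
  have h2 : pol (X - C t) ≠ 0 := by
    rw [Ne, pol, map_eq_zero_iff _ pol_injective]; exact X_sub_C_ne_zero t
  apply mul_left_cancel₀ h2
  rw [repr_inE_mul, ← mul_assoc]
  simp only [pol]
  rw [← map_mul, ← map_mul, ← hq, ← hρ]
  exact hy j

/-- `D φ` is again a regular form. -/
theorem Cov1.stable (p : ℕ) [Fact p.Prime] [CharP κ p] (hp : p ≠ 2)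
    (H : Cov1 e a t h₀ δ dK DK d D) {φ : E} (hφ : InReg e a φ) (hex : d^[p - 1] φ = 0) :
    InReg e a (D φ) := by
  have hM : InM e φ := fun i => (hφ i).1
  have hD : DDeg e a (-2) φ := fun i => (hφ i).2.mono (by linarith)
  have hz := H.rankOne p hp hφ hex
  have hDz : D (inE E (pol h₀) * φ) = inE E (pol h₀) * D φ := by
    rw [Derivation.leibniz, H.D_alg, H.DK_pol, H.δh]
    simp [pol]
  have h1 : InM e (inE E (pol h₀) * D (inE E (pol h₀) * φ)) := by
    have h2 : inE E (pol h₀) * D (inE E (pol h₀) * φ) =
        inE E (pol h₀) * (D (inE E (pol h₀) * φ) + d (inE E (pol h₀) * φ)) -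
          inE E (pol h₀) * d (inE E (pol h₀) * φ) := by ring
    rw [h2]
    exact (H.toCov0.inM_of_inB (H.derSB hz)).sub (H.sevenB hz)
  have h3 : InM e (D φ) := fun i => by
    have h4 : IsCoprime (h₀ * h₀) (X - C t) := by
      have h5 : IsCoprime h₀ (X - C t) := by
        rw [isCoprime_comm]
        exact (irreducible_X_sub_C t).coprime_iff_not_dvd.2 (by
          rw [dvd_iff_isRoot]; exact H.ht)
      exact h5.mul_left h5
    refine isPol_of_coprime h4 ?_ ?_
    · have h5 := h1 i
      rw [hDz, mul_assoc, tr_inE_mul, mul_assoc, tr_inE_mul, ← mul_assoc] at h5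
      simp only [pol, map_mul]
      exact h5
    · have h5 := H.derDM hM i
      rw [mul_assoc, tr_inE_mul] at h5
      exact h5
  exact fun i => ⟨h3 i, (H.DDeg_D hD i).mono (by linarith)⟩

/-- All derivatives `(h₀ d)^j (h₀ φ)` are in `B`. -/
theorem Cov1.allDer (p : ℕ) [Fact p.Prime] [CharP κ p] (hp : p ≠ 2)
    (H : Cov1 e a t h₀ δ dK DK d D) (j : ℕ) : ∀ {φ : E}, InReg e a φ → d^[p - 1] φ = 0 →
    InB e ((fun y => algebraMap (RatFunc κ) E (pol h₀) * d y)^[j] (inE E (pol h₀) * φ)) := by
  have hcomm : ∀ (y : E), D (algebraMap (RatFunc κ) E (pol h₀) * d y) =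
      algebraMap (RatFunc κ) E (pol h₀) * d (D y) := by
    intro y
    rw [Derivation.leibniz, H.D_alg, H.DK_pol, H.δh, H.comm]
    simp [pol]
  have hiter : ∀ (k : ℕ) (y : E),
      D ((fun y => algebraMap (RatFunc κ) E (pol h₀) * d y)^[k] y) =
        (fun y => algebraMap (RatFunc κ) E (pol h₀) * d y)^[k] (D y) := by
    intro k
    induction k with
    | zero => intro y; rfl
    | succ k ih =>
      intro y
      rw [Function.iterate_succ_apply', hcomm, ih, Function.iterate_succ_apply']
  have hDz : ∀ φ : E, D (inE E (pol h₀) * φ) = inE E (pol h₀) * D φ := by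
    intro φ
    rw [Derivation.leibniz, H.D_alg, H.DK_pol, H.δh]
    simp [pol]
  induction j with
  | zero =>
    intro φ hφ hex
    exact H.rankOne p hp hφ hex
  | succ j ih =>
    intro φ hφ hex
    have hy := ih hφ hex
    have hDφ := H.stable p hp hφ hex
    have hexD : d^[p - 1] (D φ) = 0 := by rw [H.comm_iterate, hex, map_zero]
    have hDy := ih hDφ hexD
    rw [← hDz, ← hiter] at hDy
    rw [Function.iterate_succ_apply']
    set y := (fun y => algebraMap (RatFunc κ) E (pol h₀) * d y)^[j] (inE E (pol h₀) * φ)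
    have h1 : algebraMap (RatFunc κ) E (pol h₀) * d y =
        inE E (pol h₀) * (D y + d y) - inE E (pol h₀) * D y := by
      simp only [inE]
      ring
    change InB e (algebraMap (RatFunc κ) E (pol h₀) * d y)
    rw [h1]
    exact (H.derSB hy).sub (hDy.pol_mul h₀)

end MPadcCov
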