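import Pool.Agent.Lib.MP_adc574_ag_Cov.Basic

/-!
# Regular and exact forms on covers of the line
-/

set_option autoImplicit false

namespace MPadcCov

open Polynomial

section

variable {κ : Type*} [Field κ] {E : Type*} [CommRing E] [Algebra (RatFunc κ) E]

/-- `b` is integral over `κ[x]`. -/
def IntX (κ : Type*) [Field κ] {E : Type*} [CommRing E] [Algebra (RatFunc κ) E] (b : E) : Prop :=
  ((algebraMap (RatFunc κ) E).comp (algebraMap κ[X] (RatFunc κ))).IsIntegralElem b

/-- `b` is integral over `κ[1/x]`. -/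
def IntI (κ : Type*) [Field κ] {E : Type*} [CommRing E] [Algebra (RatFunc κ) E] (b : E) : Prop :=
  ((algebraMap (RatFunc κ) E).comp
    (aeval (RatFunc.X⁻¹ : RatFunc κ) : κ[X] →ₐ[κ] RatFunc κ).toRingHom).IsIntegralElem b

/-- The differential form `φ dx` is regular. -/
def IsReg (φ : E) : Prop :=
  (∀ b : E, IntX κ b → IsPol (Tr κ E (φ * b))) ∧ ∀ b : E, IntI κ b → Dle (Tr κ E (φ * b)) (-2)

/-- The differential form `φ dx` is exact. -/
def IsEx [Algebra κ E] (φ : E) : Prop :=
  ∃ G : E, KaehlerDifferential.D κ E G =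
    φ • KaehlerDifferential.D κ E (algebraMap (RatFunc κ) E RatFunc.X)

end

/-- The ring of functions of the cover of the `x`-line given by `F (x, y) = 0`. -/
abbrev FR (κ : Type*) [Field κ] (F : κ[X][X]) : Type _ :=
  AdjoinRoot (F.map (algebraMap κ[X] (RatFunc κ)))

/-- The curve `F = 0` is ordinary: `F` is separable in `y` and no nonzero regular form is exact. -/
def Ord (κ : Type*) [Field κ] (F : κ[X][X]) : Prop :=
  (F.map (algebraMap κ[X] (RatFunc κ))).Separable ∧
    ∀ φ : FR κ F, IsReg (κ := κ) φ → IsEx (κ := κ) φ → φ = 0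

end MPadcCov
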