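import Pool.Agent.Lib.MP_adc574_ag_Cov.Def

/-!
# JOB ExE: exact forms in characteristic `p`

* `iterate_p`: `d^[p]` is a derivation in characteristic `p` (Leibniz: the binomials vanish;
  Mathlib: `Derivation` iterate / `commute… add_pow_char`; or prove
  `d^[m] (a b) = ∑ (m choose i) d^[i] a d^[m-i] b` by induction). It kills `RatFunc κ`: on polynomials
  `derivative^[p] q = 0` (`Polynomial.iterate_derivative_…`: the coefficients contain
  `descFactorial … p` which is divisible by `p !`), and a derivation of the field `RatFunc κ` which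
  kills `κ[X]` is zero. So `d^[p]` is a `RatFunc κ`-linear derivation, zero by `sep`.
* `isEx`: the `κ`-linear derivation `d` of `E` (`d` kills `κ`: `dK_pol` for constants) induces
  `Ω[E⁄κ] →ₗ[E] E` (`Derivation.liftKaehlerDifferential`), so
  `KaehlerDifferential.D κ E G = φ • D x` gives `d G = φ * d x = φ`. Then `d^[p - 1] φ = d^[p] G = 0`.
-/

set_option autoImplicit false

namespace MPadcCov

open Polynomial

variable {κ : Type*} [Field κ] {E : Type*} [CommRing E] [Algebra (RatFunc κ) E] {n : ℕ}
  {e : Module.Basis (Fin n) (RatFunc κ) E} {a : Fin n → ℕ} {ρ : κ[X]}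
  {dK : Derivation ℤ (RatFunc κ) (RatFunc κ)} {d : Derivation ℤ E E}

private theorem ExE_iter {A : Type*} [CommRing A] (D : A → A)
    (hadd : ∀ x y, D (x + y) = D x + D y) (hmul : ∀ x y, D (x * y) = x * D y + y * D x)
    (a b : A) (n : ℕ) :
    (D^[n]) (a * b) = ∑ ij ∈ Finset.HasAntidiagonal.antidiagonal n,
      n.choose ij.1 • ((D^[ij.1]) a * (D^[ij.2]) b) := by
  have h0 : D 0 = 0 := by
    have h1 := hadd 0 0
    rw [add_zero] at h1
    exact left_eq_add.mp h1
  let D' : A →+ A := { toFun := D, map_zero' := h0, map_add' := hadd }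
  have hsum : ∀ (s : Finset (ℕ × ℕ)) (f : ℕ × ℕ → A), D (∑ i ∈ s, f i) = ∑ i ∈ s, D (f i) :=
    fun s f => map_sum D' f s
  have hns : ∀ (m : ℕ) (x : A), D (m • x) = m • D x := fun m x => map_nsmul D' m x
  induction n with
  | zero => simp
  | succ n ih =>
    rw [Finset.sum_antidiagonal_choose_succ_nsmul
      (fun i j => (D^[i]) a * (D^[j]) b) n, Function.iterate_succ_apply', ih, hsum,
      ← Finset.sum_add_distrib]
    refine Finset.sum_congr rfl fun ij hij => ?_
    have h1 : n.choose ij.2 = n.choose ij.1 :=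
      Nat.choose_symm_of_eq_add (by rw [Finset.HasAntidiagonal.mem_antidiagonal] at hij; omega)
    rw [h1, ← smul_add, hns, hmul, Function.iterate_succ_apply',
      Function.iterate_succ_apply']
    congr 1
    ring

private theorem ExE_iterp {A : Type*} [CommRing A] (p : ℕ) [hp : Fact p.Prime]
    (hA : ((p : ℕ) : A) = 0) (D : A → A)
    (hadd : ∀ x y, D (x + y) = D x + D y) (hmul : ∀ x y, D (x * y) = x * D y + y * D x)
    (a b : A) : (D^[p]) (a * b) = a * (D^[p]) b + b * (D^[p]) a := by
  have hp1 := hp.out.pos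
  rw [ExE_iter D hadd hmul, Finset.Nat.sum_antidiagonal_eq_sum_range_succ_mk,
    Finset.sum_range_succ, Finset.sum_eq_single_of_mem 0 (Finset.mem_range.mpr hp1)]
  · simp only [Nat.choose_zero_right, Nat.choose_self, one_smul, Nat.sub_zero, Nat.sub_self,
      Function.iterate_zero, id_eq]
    ring
  · intro k hk hk0
    have h1 : p ∣ p.choose k := hp.out.dvd_choose_self hk0 (Finset.mem_range.mp hk)
    obtain ⟨c, hc⟩ := h1
    show p.choose k • _ = _
    rw [nsmul_eq_mul, hc, Nat.cast_mul, hA, zero_mul, zero_mul]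

private theorem ExE_ratfunc {κ : Type*} [Field κ] (p : ℕ) [hp : Fact p.Prime] [CharP κ p]
    (dK : Derivation ℤ (RatFunc κ) (RatFunc κ))
    (hdK : ∀ q : κ[X], dK (pol q) = pol (derivative q)) (r : RatFunc κ) : (dK^[p]) r = 0 := by
  have hpK : ((p : ℕ) : RatFunc κ) = 0 := by
    have h1 : ((p : ℕ) : κ) = 0 := CharP.cast_eq_zero κ p
    rw [← map_natCast (algebraMap κ (RatFunc κ)), h1, map_zero]
  have h1 : ∀ (m : ℕ) (q : κ[X]), (dK^[m]) (pol q) = pol (derivative^[m] q) := by
    intro m
    induction m with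
    | zero => intro q; rfl
    | succ m ih => intro q; rw [Function.iterate_succ_apply, Function.iterate_succ_apply, hdK, ih]
  have h2 : ∀ q : κ[X], derivative^[p] q = 0 := by
    intro q
    rw [iterate_derivative_eq_factorial_smul_sum]
    obtain ⟨c, hc⟩ := Nat.dvd_factorial hp.out.pos le_rfl
    have h3 : ((p.factorial : ℕ) : κ[X]) = 0 := by
      rw [hc, Nat.cast_mul, ← map_natCast (C : κ →+* κ[X]) p, CharP.cast_eq_zero κ p, map_zero,
        zero_mul]
    rw [nsmul_eq_mul, h3, zero_mul]
  have h3 : ∀ q : κ[X], (dK^[p]) (pol q) = 0 := by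
    intro q
    rw [h1, h2]
    exact map_zero _
  have h4 := ExE_iterp p hpK (fun x => dK x) (fun x y => map_add dK x y)
    (fun x y => dK.leibniz x y) r (pol r.denom)
  have h7 : pol r.denom ≠ 0 := RatFunc.algebraMap_ne_zero r.denom_ne_zero
  have h5 : r * pol r.denom = pol r.num := ((div_eq_iff h7).mp r.num_div_denom).symm
  change (dK^[p]) (r * pol r.denom) = r * (dK^[p]) (pol r.denom) + pol r.denom * (dK^[p]) r at h4
  rw [h5, h3, h3, mul_zero, zero_add] at h4
  exact (mul_eq_zero.mp h4.symm).resolve_left h7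

theorem Cov0.iterate_p (H : Cov0 e a ρ dK d) (p : ℕ) [Fact p.Prime] [CharP κ p] (z : E) :
    (d^[p]) z = 0 := by
  have hpE : ((p : ℕ) : E) = 0 := by
    have h1 : ((p : ℕ) : κ) = 0 := CharP.cast_eq_zero κ p
    rw [← map_natCast ((algebraMap (RatFunc κ) E).comp (algebraMap κ (RatFunc κ))), h1, map_zero]
  have h1 : ∀ (m : ℕ) (r : RatFunc κ), (d^[m]) (algebraMap (RatFunc κ) E r) =
      algebraMap (RatFunc κ) E ((dK^[m]) r) := by
    intro m
    induction m with
    | zero => intro r; rfl
    | succ m ih =>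
      intro r
      rw [Function.iterate_succ_apply, Function.iterate_succ_apply, H.d_alg, ih]
  have hit : ∀ x y : E, (d^[p]) (x * y) = x * (d^[p]) y + y * (d^[p]) x := fun x y =>
    ExE_iterp p hpE (fun x => d x) (fun x y => map_add d x y) (fun x y => d.leibniz x y) x y
  let Δ : Derivation (RatFunc κ) E E := Derivation.mk'
    { toFun := fun z => (d^[p]) z
      map_add' := fun x y => iterate_map_add d p x y
      map_smul' := by
        intro r x
        rw [Algebra.smul_def, hit, h1, ExE_ratfunc p dK H.dK_pol, map_zero, mul_zero,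
          add_zero, RingHom.id_apply, Algebra.smul_def] }
    (fun x y => hit x y)
  have h2 : Δ z = 0 := by rw [H.sep Δ, Derivation.zero_apply]
  exact h2

theorem Cov0.isEx (H : Cov0 e a ρ dK d) (p : ℕ) [Fact p.Prime] [CharP κ p] [Algebra κ E]
    [IsScalarTower κ (RatFunc κ) E] (φ : E) (hφ : IsEx (κ := κ) φ) : (d^[p - 1]) φ = 0 := by
  obtain ⟨G, hG⟩ := hφ
  have hκ : ∀ c : κ, algebraMap κ E c = algebraMap (RatFunc κ) E (pol (C c)) := by
    intro c
    rw [IsScalarTower.algebraMap_apply κ (RatFunc κ) E, pol, RatFunc.algebraMap_C,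
      RatFunc.algebraMap_eq_C]
  have hC : ∀ c : κ, dK (pol (C c)) = 0 := by
    intro c
    rw [H.dK_pol, derivative_C]
    exact map_zero _
  let Δ : Derivation κ E E := Derivation.mk'
    { toFun := fun z => d z
      map_add' := fun x y => map_add d x y
      map_smul' := by
        intro c x
        rw [Algebra.smul_def, Derivation.leibniz, hκ, H.d_alg, hC, map_zero, smul_zero, add_zero,
          RingHom.id_apply, Algebra.smul_def c, hκ, smul_eq_mul] }
    (fun x y => d.leibniz x y)
  have h1 := congrArg Δ.liftKaehlerDifferential hG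
  rw [map_smul, Derivation.liftKaehlerDifferential_comp_D,
    Derivation.liftKaehlerDifferential_comp_D] at h1
  have h2 : d G = φ * d (algebraMap (RatFunc κ) E RatFunc.X) := h1
  have h3 : d G = φ := by
    rw [h2, H.d_alg, ← RatFunc.algebraMap_X]
    have h4 : dK (pol (X : κ[X])) = 1 := by
      rw [H.dK_pol, derivative_X, pol, map_one]
    rw [h4, map_one, mul_one]
  have hp : p = (p - 1) + 1 := by
    have := (Fact.out : p.Prime).pos
    omega
  have h5 := H.iterate_p p G
  rw [hp, Function.iterate_succ_apply, h3] at h5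
  exact h5

end MPadcCov
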