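import Pool.Agent.Lib.MP_adc574_ag_Cov.Pt
import Pool.Agent.Lib.MP_adc574_ag_Cov.Deg
import Pool.Agent.Lib.MP_adc574_ag_Cov.Der

/-!
# JOB FactA: the facts `one`, `mul`, `nondeg`, `sep`, `dual`, `dualDeg` for a Birkhoff basis

`h₀ = ∏ b ∈ s, (X - C b)`.
* `Bir.int_e`, `Bir.int_f`: `e i` has coordinates `0, 1`; `hX`, `hI`.
* `Bir.mul`, `Bir.one`: products of integral elements are integral (`RingHom.IsIntegralElem.mul`-type
  lemmas, or `intS_mul`, and the analogous statement for `IntX`); `x ^ (-a i) e i * x ^ (-a j) e j` is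
  integral over `Oinf`, so `x ^ (-a i - a j) e.repr (e i * e j) l` has degree `≤ - a l`.
* `Bir.nondeg`: nondegeneracy of the trace form of a separable extension
  (`traceForm_nondegenerate`) and `e` is a basis.
* `derivation_zero`: `z` has a separable minimal polynomial `q`: `0 = Δ (q (z)) = q' (z) Δ z`.
* `Bir.dual`: let `InM e z`. For every `b`, `Tr (z * w) ∈ Rb b` for `w` integral over `Rb b` (`intRb_iff`,
  `w = ∑ r i • e i`). If `b ∈ s` or `b = t`: `pt_tame`: `(x - b) z` is integral over `Rb b`, so is `ρ z`,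
  `ρ = (X - C t) * h₀ = (X - C b) * …`. Otherwise `pt_unram`: `z` is integral over `Rb b`. So
  `InB e (ρ z)` (`inB_of_local`).
* `Bir.dualDeg`: `z' = x ^ (-m) z`: `Tr (z' * w)` has degree `≤ 0` for all `w` integral over `Oinf`
  (`w = ∑ r i • e i`, `r i` of degree `≤ - a i`), so `x⁻¹ z'` is integral over `Oinf` (`inf_tame`).
-/

set_option autoImplicit false

namespace MPadcCov

open Polynomial

theorem derivation_zero {K L : Type*} [Field K] [CharZero K] [Field L] [Algebra K L]
    [FiniteDimensional K L] (Δ : Derivation K L L) : Δ = 0 := by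
  ext z
  have hsep : (minpoly K z).Separable := Algebra.IsSeparable.isSeparable K z
  have h1 : Δ (aeval z (minpoly K z)) = 0 := by
    rw [minpoly.aeval, map_zero]
  rw [Derivation.map_aeval, smul_eq_mul] at h1
  have h2 : aeval z (derivative (minpoly K z)) ≠ 0 :=
    hsep.aeval_derivative_ne_zero (minpoly.aeval K z)
  exact (mul_eq_zero.1 h1).resolve_left h2

variable {k : Type*} [Field k] [IsAlgClosed k] [CharZero k] {L : Type*} [Field L]
  [Algebra (RatFunc k) L] [FiniteDimensional (RatFunc k) L] {n : ℕ}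
  {e : Module.Basis (Fin n) (RatFunc k) L} {a : Fin n → ℕ} {t : k} {s : Finset k} {h : k[X]}

private theorem FactA_repr (r : RatFunc k) (z : L) (j : Fin n) :
    e.repr (algebraMap (RatFunc k) L r * z) j = r * e.repr z j := by
  rw [← Algebra.smul_def, map_smul, Finsupp.smul_apply, smul_eq_mul]

private theorem FactA_tr (z w : L) :
    Tr k L (z * w) = ∑ i, e.repr w i * Tr k L (z * e i) := by
  conv_lhs => rw [← e.sum_repr w, Finset.mul_sum, map_sum]
  refine Finset.sum_congr rfl fun i _ => ?_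
  rw [mul_smul_comm, map_smul, smul_eq_mul]

private theorem FactA_pm (p q : k[X]) : pol (p * q) = pol p * pol q := map_mul _ _ _

private theorem FactA_mul (b : k) (p : k[X]) {z : L} (hz : IntS (Rb b) z) :
    IntS (Rb b) (algebraMap (RatFunc k) L (pol p) * z) :=
  intS_mul _ (intS_of_mem _ (pol_mem_Rb b p)) hz

theorem Bir.int_e (H : Bir e a t s h) (i : Fin n) : IntX k (e i) := by
  classical
  rw [H.hX]
  intro j
  rw [e.repr_self, Finsupp.single_apply]
  split_ifs
  · exact ⟨1, map_one _⟩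
  · exact ⟨0, map_zero _⟩

theorem Bir.int_f (H : Bir e a t s h) (i : Fin n) :
    IntO k (algebraMap (RatFunc k) L (RatFunc.X ^ (-(a i : ℤ))) * e i) := by
  classical
  rw [H.hI]
  intro l
  rw [FactA_repr, e.repr_self, Finsupp.single_apply]
  split_ifs with hil
  · subst hil
    have h1 := (dle_xpow_mul (1 : RatFunc k) 0 (-(a i : ℤ))).2
      (Or.inr (by rw [RatFunc.intDegree_one]))
    rw [zero_add] at h1
    exact h1
  · left
    rw [mul_zero]

theorem Bir.one (H : Bir e a t s h) (l : Fin n) :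
    IsPol (e.repr 1 l) ∧ Dle (e.repr 1 l) (-(a l : ℤ)) := by
  refine ⟨(H.hX 1).1 ?_ l, (H.hI 1).1 ?_ l⟩
  · exact RingHom.isIntegralElem_one _
  · exact RingHom.isIntegralElem_one _

theorem Bir.mul (H : Bir e a t s h) (i j l : Fin n) :
    IsPol (e.repr (e i * e j) l) ∧ Dle (e.repr (e i * e j) l) ((a i : ℤ) + a j - a l) := by
  refine ⟨(H.hX _).1 (RingHom.IsIntegralElem.mul _ (H.int_e i) (H.int_e j)) l, ?_⟩
  have h1 := (H.hI _).1 (RingHom.IsIntegralElem.mul _ (H.int_f i) (H.int_f j)) l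
  have h2 : (algebraMap (RatFunc k) L (RatFunc.X ^ (-(a i : ℤ))) * e i) *
      (algebraMap (RatFunc k) L (RatFunc.X ^ (-(a j : ℤ))) * e j) =
      algebraMap (RatFunc k) L (RatFunc.X ^ (-(a i : ℤ) + -(a j : ℤ))) * (e i * e j) := by
    rw [zpow_add₀ RatFunc.X_ne_zero, map_mul]
    ring
  rw [h2, FactA_repr] at h1
  have h3 : (-(a l : ℤ)) = ((a i : ℤ) + a j - a l) + (-(a i : ℤ) + -(a j : ℤ)) := by ring
  rw [h3, dle_xpow_mul] at h1
  exact h1

theorem Bir.nondeg (H : Bir e a t s h) (z : L) (hz : ∀ i, Tr k L (z * e i) = 0) : z = 0 := by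
  have h1 : ∀ w, Tr k L (z * w) = 0 := by
    intro w
    rw [FactA_tr (e := e)]
    refine Finset.sum_eq_zero fun i _ => ?_
    rw [hz, mul_zero]
  exact (traceForm_nondegenerate (RatFunc k) L).1 z h1

theorem Bir.dual (H : Bir e a t s h) (z : L) (hz : InM e z) (j : Fin n) :
    IsPol (pol ((X - C t) * ∏ b ∈ s, (X - C b)) * e.repr z j) := by
  classical
  have h1 : InB e (algebraMap (RatFunc k) L (pol ((X - C t) * ∏ b ∈ s, (X - C b))) * z) := by
    refine inB_of_local H.hX _ fun b => ?_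
    have hm : ∀ w : L, IntS (Rb b) w → Tr k L (z * w) ∈ Rb b := by
      intro w hw
      rw [intRb_iff H.hX] at hw
      rw [FactA_tr (e := e)]
      refine Subring.sum_mem _ fun i _ => Subring.mul_mem _ (hw i) ?_
      obtain ⟨p, hp⟩ := hz i
      rw [← hp]
      exact pol_mem_Rb b p
    by_cases hbt : b = t
    · have h2 := FactA_mul (L := L) b (∏ c ∈ s, (X - C c)) (pt_tame b z hm)
      rw [← mul_assoc, ← map_mul, ← FactA_pm, mul_comm (∏ c ∈ s, (X - C c)), hbt] at h2
      rw [hbt]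
      exact h2
    by_cases hbs : b ∈ s
    · have h2 := FactA_mul (L := L) b ((X - C t) * ∏ c ∈ s.erase b, (X - C c)) (pt_tame b z hm)
      have h3 : ((X - C t) * ∏ c ∈ s.erase b, (X - C c)) * (X - C b) =
          (X - C t) * ∏ c ∈ s, (X - C c) := by
        rw [mul_assoc, Finset.prod_erase_mul s _ hbs]
      rw [← mul_assoc, ← map_mul, ← FactA_pm, h3] at h2
      exact h2
    · exact FactA_mul b _ (H.pt_unram b hbs hbt z hm)
  have h2 := h1 j
  rw [FactA_repr] at h2
  exact h2

theorem Bir.dualDeg (H : Bir e a t s h) (z : L) (m : ℤ)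
    (hz : ∀ i, Dle (Tr k L (z * e i)) ((a i : ℤ) + m)) (j : Fin n) :
    Dle (e.repr z j) (m + 1 - (a j : ℤ)) := by
  have hm : ∀ w : L, IntO k w →
      Dle (Tr k L (algebraMap (RatFunc k) L (RatFunc.X ^ (-m)) * z * w)) 0 := by
    intro w hw
    rw [H.hI] at hw
    rw [FactA_tr (e := e), ← mem_Oinf]
    refine Subring.sum_mem _ fun i _ => ?_
    rw [mem_Oinf]
    have h1 : Tr k L (algebraMap (RatFunc k) L (RatFunc.X ^ (-m)) * z * e i) =
        RatFunc.X ^ (-m) * Tr k L (z * e i) := by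
      rw [mul_assoc, ← Algebra.smul_def, map_smul, smul_eq_mul]
    rw [h1]
    have h2 := (dle_xpow_mul (Tr k L (z * e i)) ((a i : ℤ) + m) (-m)).2 (hz i)
    refine dle_mono (dle_mul (hw i) h2) ?_
    omega
  have h1 := (H.hI _).1 (inf_tame _ hm) j
  have h2 : algebraMap (RatFunc k) L RatFunc.X⁻¹ *
      (algebraMap (RatFunc k) L (RatFunc.X ^ (-m)) * z) =
      algebraMap (RatFunc k) L (RatFunc.X ^ (-1 + -m)) * z := by
    rw [zpow_add₀ RatFunc.X_ne_zero, map_mul, zpow_neg_one, mul_assoc]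
  rw [h2, FactA_repr] at h1
  have h3 : (-(a j : ℤ)) = (m + 1 - (a j : ℤ)) + (-1 + -m) := by ring
  rw [h3, dle_xpow_mul] at h1
  exact h1

end MPadcCov
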