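import Pool.Agent.Lib.MP_adc574_ag_Cov.Pt
import Pool.Agent.Lib.MP_adc574_ag_Cov.Deg

/-!
# JOB FactD: the derivation `D` (`D x = 0`, `D t = 1`) and the Birkhoff basis

For a derivation `Δ` over `ΔK` and `r ∈ k(x)`, `(r Δ)` is the derivation
`algebraMap (RatFunc k) L r • Δ` over `r • ΔK`; sums of derivations. `cD δ (X - C b) = - C (δ b)`.
* `beta`: `(x - t) D (e i)` is integral over every `Rb b`: for `b = t`: `pt_log` for `(x - t) D`
  (`hb` with `p = -1`); for `b ∈ s`: `pt_log` for `D` (`hb` with `p = 0`, `δ b = 0`); otherwise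
  `Bir.pt_der` for `D`. Then `inB_of_local`.
* `betaDeg`: `inf_log` for `D` (`DK x⁻¹ = 0`, `DK_dle`) applied to `x ^ (-a i) e i`:
  `D (x ^ (-a i) e i) = x ^ (-a i) D e i` is integral over `Oinf`.
* `gamma`: `h₀ (D + d) (e i)` is integral over every `Rb b`: for `b = t`: `pt_log` for `D + d`
  (`(DK + dK) (x - t) = -1 + 1 = 0`); for `b ∈ s`: `pt_log` for `(x - b) (D + d)`; otherwise
  `Bir.pt_der` for `D + d`.
-/

set_option autoImplicit false

namespace MPadcCov

open Polynomial

variable {k : Type*} [Field k] [IsAlgClosed k] [CharZero k] {L : Type*} [Field L]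
  [Algebra (RatFunc k) L] [FiniteDimensional (RatFunc k) L] {n : ℕ}
  {e : Module.Basis (Fin n) (RatFunc k) L} {a : Fin n → ℕ} {t : k} {s : Finset k} {h : k[X]}

omit [IsAlgClosed k] [CharZero k] [FiniteDimensional (RatFunc k) L] in
private theorem FactD_int_e (H : Bir e a t s h) (i : Fin n) : IntX k (e i) := by
  classical
  rw [H.hX]
  intro j
  rw [e.repr_self, Finsupp.single_apply]
  split_ifs
  · exact ⟨1, map_one _⟩
  · exact ⟨0, map_zero _⟩

private theorem FactD_log {ΔK : Derivation ℤ (RatFunc k) (RatFunc k)} {Δ : Derivation ℤ L L}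
    (hΔ : ∀ r, Δ (algebraMap (RatFunc k) L r) = algebraMap (RatFunc k) L (ΔK r))
    (hP : ∀ p : k[X], IsPol (ΔK (pol p))) (b : k) (z : L)
    (hz : IntS (Rb b) z) : IntS (Rb b) (algebraMap (RatFunc k) L (pol (X - C b)) * Δ z) := by
  have h1 := pt_log (ΔK := pol (X - C b) • ΔK)
    (Δ := algebraMap (RatFunc k) L (pol (X - C b)) • Δ) ?_ ?_ b ?_ z hz
  · exact h1
  · intro r
    show algebraMap (RatFunc k) L (pol (X - C b)) * Δ (algebraMap (RatFunc k) L r) =
      algebraMap (RatFunc k) L (pol (X - C b) * ΔK r)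
    rw [hΔ, map_mul]
  · intro p
    obtain ⟨q, hq⟩ := hP p
    refine ⟨(X - C b) * q, ?_⟩
    show pol ((X - C b) * q) = pol (X - C b) * ΔK (pol p)
    rw [← hq]
    exact map_mul _ _ _
  · obtain ⟨q, hq⟩ := hP (X - C b)
    refine ⟨q, ?_⟩
    show pol (X - C b) * ΔK (pol (X - C b)) = pol (X - C b) * pol q
    rw [← hq]

omit [IsAlgClosed k] [CharZero k] in
private theorem FactD_coeff (δ : Derivation ℤ k k) (p : k[X]) (m : ℕ) :
    (cD δ p).coeff m = δ (p.coeff m) := by
  unfold cD
  rw [Polynomial.sum_def, Polynomial.finsetSum_coeff]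
  simp only [coeff_monomial]
  rw [Finset.sum_ite_eq']
  by_cases hm : m ∈ p.support
  · rw [if_pos hm]
  · rw [if_neg hm, Polynomial.notMem_support_iff.1 hm, map_zero]

omit [IsAlgClosed k] [CharZero k] in
private theorem FactD_lin (δ : Derivation ℤ k k) (b : k) : cD δ (X - C b) = -C (δ b) := by
  ext m
  rw [FactD_coeff, coeff_sub, map_sub, coeff_neg, coeff_X, coeff_C, coeff_C]
  have h1 : δ (if 1 = m then (1 : k) else 0) = 0 := by
    split_ifs
    · exact Derivation.map_one_eq_zero δ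
    · exact map_zero δ
  rw [h1, zero_sub]
  split_ifs
  · rfl
  · rw [map_zero]

omit [IsAlgClosed k] [CharZero k] in
private theorem FactD_pz : pol (0 : k[X]) = 0 := map_zero _

omit [IsAlgClosed k] [CharZero k] in
private theorem FactD_pm (p q : k[X]) : pol (p * q) = pol p * pol q := map_mul _ _ _

omit [IsAlgClosed k] [CharZero k] [FiniteDimensional (RatFunc k) L] in
private theorem FactD_mul (b : k) (p : k[X]) {z : L} (hz : IntS (Rb b) z) :
    IntS (Rb b) (algebraMap (RatFunc k) L (pol p) * z) :=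
  intS_mul _ (intS_of_mem _ (pol_mem_Rb b p)) hz

theorem Bir.beta (H : Bir e a t s h) {δ : Derivation ℤ k k} (hδt : δ t = 1)
    (hδs : ∀ b ∈ s, δ b = 0) {DK : Derivation ℤ (RatFunc k) (RatFunc k)}
    {D : Derivation ℤ L L} (hK : ∀ p : k[X], DK (pol p) = pol (cD δ p))
    (hd : ∀ r, D (algebraMap (RatFunc k) L r) = algebraMap (RatFunc k) L (DK r)) (i j : Fin n) :
    IsPol (pol (X - C t) * e.repr (D (e i)) j) := by
  have hP : ∀ p : k[X], IsPol (DK (pol p)) := fun p => ⟨_, (hK p).symm⟩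
  have h1 : InB e (algebraMap (RatFunc k) L (pol (X - C t)) * D (e i)) := by
    refine inB_of_local H.hX _ fun b => ?_
    have he := intS_of_intX b (e i) (FactD_int_e H i)
    by_cases hbt : b = t
    · subst hbt
      exact FactD_log hd hP b (e i) he
    · refine FactD_mul b _ ?_
      by_cases hbs : b ∈ s
      · refine pt_log hd hP b ⟨0, ?_⟩ (e i) he
        rw [hK, FactD_lin, hδs b hbs, map_zero, neg_zero, FactD_pz, mul_zero]
      · exact H.pt_der hd hP b hbs hbt (e i) he
  have h2 := h1 j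
  rw [← Algebra.smul_def, map_smul, Finsupp.smul_apply, smul_eq_mul] at h2
  exact h2

theorem Bir.betaDeg (H : Bir e a t s h) {δ : Derivation ℤ k k}
    {DK : Derivation ℤ (RatFunc k) (RatFunc k)}
    {D : Derivation ℤ L L} (hK : ∀ p : k[X], DK (pol p) = pol (cD δ p))
    (hd : ∀ r, D (algebraMap (RatFunc k) L r) = algebraMap (RatFunc k) L (DK r)) (i j : Fin n) :
    Dle (e.repr (D (e i)) j) ((a i : ℤ) - a j) := by
  classical
  have hw : IntO k (algebraMap (RatFunc k) L (RatFunc.X ^ (-(a i : ℤ))) * e i) := by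
    rw [H.hI]
    intro l
    rw [← Algebra.smul_def, map_smul, Finsupp.smul_apply, smul_eq_mul, e.repr_self,
      Finsupp.single_apply]
    split_ifs with hil
    · subst hil
      have h1 := (dle_xpow_mul (1 : RatFunc k) 0 (-(a i : ℤ))).2 (Or.inr (by rw [RatFunc.intDegree_one]))
      rw [zero_add] at h1
      exact h1
    · left
      rw [mul_zero]
  have h2 := inf_log hd (fun r hr => DK_dle hK r 0 hr) ⟨0, Or.inl rfl, ?_⟩ _ hw
  · rw [Derivation.leibniz, hd, DK_xpow hK, map_zero, smul_zero, add_zero, smul_eq_mul,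
      H.hI] at h2
    have h3 := h2 j
    rw [← Algebra.smul_def, map_smul, Finsupp.smul_apply, smul_eq_mul] at h3
    have h4 : (-(a j : ℤ)) = ((a i : ℤ) - a j) + -(a i : ℤ) := by ring
    rw [h4, dle_xpow_mul] at h3
    exact h3
  · rw [mul_zero, ← zpow_neg_one]
    exact DK_xpow hK (-1)

theorem Bir.gamma (H : Bir e a t s h) {δ : Derivation ℤ k k} (hδt : δ t = 1)
    (hδs : ∀ b ∈ s, δ b = 0) {DK dK : Derivation ℤ (RatFunc k) (RatFunc k)}
    {D d : Derivation ℤ L L} (hK : ∀ p : k[X], DK (pol p) = pol (cD δ p))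
    (hd : ∀ r, D (algebraMap (RatFunc k) L r) = algebraMap (RatFunc k) L (DK r))
    (hK' : ∀ p : k[X], dK (pol p) = pol (derivative p))
    (hd' : ∀ r, d (algebraMap (RatFunc k) L r) = algebraMap (RatFunc k) L (dK r)) (i j : Fin n) :
    IsPol (pol (∏ b ∈ s, (X - C b)) * (e.repr (D (e i)) j + e.repr (d (e i)) j)) := by
  classical
  have hΔ : ∀ r, (D + d) (algebraMap (RatFunc k) L r) = algebraMap (RatFunc k) L ((DK + dK) r) := by
    intro r
    show D (algebraMap (RatFunc k) L r) + d (algebraMap (RatFunc k) L r) =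
      algebraMap (RatFunc k) L (DK r + dK r)
    rw [hd, hd', map_add]
  have hval : ∀ p : k[X], (DK + dK) (pol p) = pol (cD δ p + derivative p) := by
    intro p
    show DK (pol p) + dK (pol p) = _
    rw [hK, hK']
    exact (map_add _ _ _).symm
  have hP : ∀ p : k[X], IsPol ((DK + dK) (pol p)) := fun p => ⟨_, (hval p).symm⟩
  have h1 : InB e (algebraMap (RatFunc k) L (pol (∏ b ∈ s, (X - C b))) * (D + d) (e i)) := by
    refine inB_of_local H.hX _ fun b => ?_
    have he := intS_of_intX b (e i) (FactD_int_e H i)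
    by_cases hbs : b ∈ s
    · have h2 := FactD_mul (L := L) b (∏ c ∈ s.erase b, (X - C c)) (FactD_log hΔ hP b (e i) he)
      have h3 : (∏ c ∈ s.erase b, (X - C c)) * (X - C b) = ∏ c ∈ s, (X - C c) :=
        Finset.prod_erase_mul s _ hbs
      rw [← mul_assoc, ← map_mul, ← FactD_pm, h3] at h2
      exact h2
    · refine FactD_mul b _ ?_
      by_cases hbt : b = t
      · refine pt_log hΔ hP b ⟨0, ?_⟩ (e i) he
        rw [hval, FactD_lin, hbt, hδt, derivative_sub, derivative_X, derivative_C, sub_zero, map_one,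
          neg_add_cancel, FactD_pz, mul_zero]
      · exact H.pt_der hΔ hP b hbs hbt (e i) he
  have h2 := h1 j
  rw [← Algebra.smul_def, map_smul, Finsupp.smul_apply, smul_eq_mul] at h2
  have h3 : e.repr ((D + d) (e i)) j = e.repr (D (e i)) j + e.repr (d (e i)) j := by
    show e.repr (D (e i) + d (e i)) j = _
    rw [map_add, Finsupp.add_apply]
  rw [h3] at h2
  exact h2

end MPadcCov
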