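import Pool.Agent.Lib.MP_adc574_ag_Cov.Def

/-!
# JOB InA: comparison of the discriminants of two bases of the integral closure

`hX` says that `e` is (also) a `k[x]`-basis of the integral closure `C` of `k[x]` in `L`. Note
`IntX k z` is `IsIntegral k[X] z` (`IsScalarTower.algebraMap_eq k[X] (RatFunc k) L`). `m = n`: both are the
`k(x)`-dimension (the images of `b` form a basis of `L` over `RatFunc k`:
`IsIntegralClosure`/`integralClosure` localization, `Module.Basis.localizationLocalization`; or compare with the
`k[X]`-basis of `C` with the coordinates `e.repr`).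
Suggestion: build `e' : Module.Basis (Fin n) k[X] (integralClosure k[X] L)` with `(e' i : L) = e i` (linear
independence over `k[X]` from that over `RatFunc k`, span from `hX`). Then
`Algebra.discr k[X] e' = (change of basis determinant) ^ 2 * Algebra.discr k[X] b` after reindexing
(`Algebra.discr_of_matrix_vecMul`, `Algebra.discr_reindex`, `Module.Basis.toMatrix`, `Module.Basis.indexEquiv`),
the determinant is a unit of `k[X]`, so it is `C u` with `u ≠ 0` (`Polynomial.isUnit_iff`).
Finally `Algebra.trace k[X] (integralClosure k[X] L) z = Algebra.trace (RatFunc k) L z`: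
`Algebra.trace_localization`-type lemmas, or with the two bases `e'`, `e` (`tr = ∑ diagonal
coordinates`, the coordinates agree). `Algebra.discr k[X] e' = det (trace (e' i * e' j))`
(`Algebra.discr_def`, `Algebra.traceMatrix`).
-/

set_option autoImplicit false

namespace MPadcCov

open Polynomial

theorem gram_discr {k : Type*} [Field k] {L : Type*} [Field L]
    [Algebra (RatFunc k) L] [Algebra k[X] L] [IsScalarTower k[X] (RatFunc k) L]
    [FiniteDimensional (RatFunc k) L] {n m : ℕ} (e : Module.Basis (Fin n) (RatFunc k) L)
    (hX : ∀ z : L, IntX k z ↔ InB e z)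
    (b : Module.Basis (Fin m) k[X] (integralClosure k[X] L)) :
    ∃ u : k, u ≠ 0 ∧ (Matrix.of fun i j => Tr k L (e i * e j)).det =
      pol (C u * Algebra.discr k[X] b) := by
  classical
  have hInt : ∀ z : L, IntX k z ↔ IsIntegral k[X] z := by
    intro z
    rw [IntX, ← IsScalarTower.algebraMap_eq k[X] (RatFunc k) L]
    rfl
  have hloc : IsLocalization (Algebra.algebraMapSubmonoid (integralClosure k[X] L) (nonZeroDivisors k[X])) L :=
    IsIntegralClosure.isLocalization k[X] (RatFunc k) L (integralClosure k[X] L)
  set b' : Module.Basis (Fin m) (RatFunc k) L := b.localizationLocalization (RatFunc k) (nonZeroDivisors k[X]) L with hb'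
  obtain rfl : m = n := by simpa using Fintype.card_congr (b'.indexEquiv e)
  -- the two integral matrices
  have hP : ∀ i j, ∃ q : k[X], pol q = b'.repr (e i) j := by
    intro i j
    have h1 : InB e (e i) := by
      intro l
      rw [e.repr_self]
      by_cases h : i = l
      · subst h
        exact ⟨1, by rw [Finsupp.single_eq_same]; exact map_one _⟩
      · exact ⟨0, by rw [Finsupp.single_eq_of_ne (Ne.symm h)]; exact map_zero _⟩
    have h2 : IsIntegral k[X] (e i) := (hInt _).1 ((hX _).2 h1)
    refine ⟨b.repr ⟨e i, h2⟩ j, ?_⟩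
    rw [hb', pol, ← Module.Basis.localizationLocalization_repr_algebraMap (RatFunc k) (nonZeroDivisors k[X]) L b ⟨e i, h2⟩ j]
    rfl
  have hQ : ∀ i j, ∃ q : k[X], pol q = e.repr (b' i) j := by
    intro i j
    have h1 : IsIntegral k[X] (b' i) := by
      rw [hb', Module.Basis.localizationLocalization_apply]
      exact (b i).2
    exact (hX _).1 ((hInt _).2 h1) j
  choose P hP' using hP
  choose Q hQ' using hQ
  have hPm : (Matrix.of P).map (algebraMap k[X] (RatFunc k)) = (b'.toMatrix e).transpose := by
    ext i j
    rw [Matrix.map_apply, Matrix.of_apply, Matrix.transpose_apply, Module.Basis.toMatrix_apply]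
    exact hP' i j
  have hQm : (Matrix.of Q).map (algebraMap k[X] (RatFunc k)) = (e.toMatrix b').transpose := by
    ext i j
    rw [Matrix.map_apply, Matrix.of_apply, Matrix.transpose_apply, Module.Basis.toMatrix_apply]
    exact hQ' i j
  have hdetP : (b'.toMatrix e).det = pol (Matrix.of P).det := by
    rw [pol, RingHom.map_det, RingHom.mapMatrix_apply, hPm, Matrix.det_transpose]
  have hdetQ : (e.toMatrix b').det = pol (Matrix.of Q).det := by
    rw [pol, RingHom.map_det, RingHom.mapMatrix_apply, hQm, Matrix.det_transpose]
  have hunit : IsUnit (Matrix.of P).det := by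
    have h1 : (b'.toMatrix e).det * (e.toMatrix b').det = 1 := by
      rw [← Matrix.det_mul, Module.Basis.toMatrix_mul_toMatrix_flip, Matrix.det_one]
    rw [hdetP, hdetQ, pol, pol, ← map_mul] at h1
    have h2 : (Matrix.of P).det * (Matrix.of Q).det = 1 := by
      apply IsFractionRing.injective k[X] (RatFunc k)
      rw [h1, map_one]
    exact IsUnit.of_mul_eq_one _ h2
  obtain ⟨u, hu, hCu⟩ := Polynomial.isUnit_iff.1 hunit
  refine ⟨u ^ 2, pow_ne_zero 2 hu.ne_zero, ?_⟩
  have h1 : (Matrix.of fun i j => Tr k L (e i * e j)).det = Algebra.discr (RatFunc k) e := by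
    rw [Algebra.discr_def]
    rfl
  have h2 : (e : Fin m → L) = ((b'.toMatrix e).transpose.map (algebraMap (RatFunc k) L)).mulVec b' := by
    ext i
    rw [Matrix.mulVec, dotProduct]
    conv_lhs => rw [← b'.sum_repr (e i)]
    apply Finset.sum_congr rfl
    intro j _
    rw [Matrix.map_apply, Matrix.transpose_apply, Module.Basis.toMatrix_apply, Algebra.smul_def]
  have h3 : Algebra.discr (RatFunc k) e = (b'.toMatrix e).transpose.det ^ 2 * Algebra.discr (RatFunc k) b' := by
    conv_lhs => rw [h2]
    exact Algebra.discr_of_matrix_mulVec _ _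
  have h4 : Algebra.discr (RatFunc k) b' = algebraMap k[X] (RatFunc k) (Algebra.discr k[X] b) := by
    rw [hb']
    exact Algebra.discr_localizationLocalization k[X] (nonZeroDivisors k[X]) L b
  rw [h1, h3, h4, Matrix.det_transpose, hdetP, ← hCu, pol, pol, map_mul, C_pow, map_pow]

end MPadcCov
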