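import Mathlib

/-!
# JOB InB: the branch points

* `branch`: `h' = C u * h` (mapped to `k`). If `h' (t) = 0` then `t` is a root of `h` (`u ≠ 0`), algebraic over
  `k₀` (`h ≠ 0`). Every `b ∈ s` is a root of `h`, so algebraic over `k₀`; `Subfield.closure s` is contained
  in the algebraic closure of `k₀` in `k` (`algebraicClosure k₀ k` as an intermediate field, or
  `Subfield.closure_induction`), so if `t` were algebraic over `Subfield.closure s`, it would be
  algebraic over `k₀` (transitivity: the minimal polynomial over the closure has coefficients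
  algebraic over `k₀`; e.g. `IsAlgebraic` over the intermediate field `algebraicClosure k₀ k`, which is
  algebraically closed in `k`: `IntermediateField`/`integralClosure` idempotent, or
  `Algebra.IsAlgebraic.trans`).
-/

set_option autoImplicit false

namespace MPadcCov

open Polynomial

private theorem InB_alg {k : Type*} [Field k] (k₀ : Subfield k) (t : k) (s : Set k)
    (hs : ∀ b ∈ s, IsAlgebraic k₀ b) (h : IsAlgebraic (Subfield.closure s) t) :
    IsAlgebraic k₀ t := by
  have h1 : Subfield.closure s ≤ (algebraicClosure k₀ k).toSubfield := by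
    rw [Subfield.closure_le]
    intro b hb
    have h2 : b ∈ algebraicClosure k₀ k := mem_algebraicClosure_iff.2 (hs b hb)
    exact h2
  obtain ⟨p, hp, hpt⟩ := h
  have h3 : IsAlgebraic (algebraicClosure k₀ k) t := by
    refine ⟨p.map (Subfield.inclusion h1), ?_, ?_⟩
    · exact (Polynomial.map_ne_zero_iff (Subfield.inclusion h1).injective).2 hp
    · have h4 : (algebraMap (algebraicClosure k₀ k) k).comp (Subfield.inclusion h1) =
          algebraMap (Subfield.closure s) k := by
        ext x
        rfl
      rw [Polynomial.aeval_def, Polynomial.eval₂_map]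
      have h5 := hpt
      rw [Polynomial.aeval_def, ← h4] at h5
      exact h5
  exact IsAlgebraic.restrictScalars k₀ h3

theorem branch {k : Type*} [Field k] [IsAlgClosed k] (k₀ : Subfield k) (t : k)
    (ht : Transcendental k₀ t) (h : k₀[X]) (hh : h ≠ 0) (u : k) (hu : u ≠ 0) :
    ∃ s : Finset k, (∀ b, (C u * h.map (algebraMap k₀ k)).eval b = 0 → b ∈ s) ∧ t ∉ s ∧
      (C u * h.map (algebraMap k₀ k)).eval t ≠ 0 ∧
      Transcendental (Subfield.closure (s : Set k)) t := by
  have hinj : Function.Injective (algebraMap k₀ k) := (algebraMap k₀ k).injective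
  have hne : (C u * h.map (algebraMap k₀ k)) ≠ 0 :=
    mul_ne_zero (C_ne_zero.2 hu) ((Polynomial.map_ne_zero_iff hinj).2 hh)
  have halg : ∀ b : k, (C u * h.map (algebraMap k₀ k)).eval b = 0 → IsAlgebraic k₀ b := by
    intro b hb
    rw [eval_mul, eval_C, eval_map] at hb
    refine ⟨h, hh, ?_⟩
    rw [aeval_def]
    exact (mul_eq_zero.1 hb).resolve_left hu
  classical
  have hmem : ∀ b, b ∈ (C u * h.map (algebraMap k₀ k)).roots.toFinset →
      (C u * h.map (algebraMap k₀ k)).eval b = 0 := by
    intro b hb
    rw [Multiset.mem_toFinset, mem_roots hne] at hb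
    exact hb
  refine ⟨(C u * h.map (algebraMap k₀ k)).roots.toFinset, fun b hb => ?_, fun hts => ?_,
    fun hts => ?_, fun hts => ?_⟩
  · rw [Multiset.mem_toFinset, mem_roots hne]
    exact hb
  · exact ht (halg t (hmem t hts))
  · exact ht (halg t hts)
  · refine ht (InB_alg k₀ t _ (fun b hb => halg b (hmem b ?_)) hts)
    exact Finset.mem_coe.1 hb

end MPadcCov
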