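import Pool.Agent.Lib.MP_adc574_ag_Cov.Desc
import Pool.Agent.Lib.MP_adc574_ag_Cov.FactD
import Pool.Agent.Lib.MP_adc574_ag_Cov.FactA
import Pool.Agent.Lib.MP_adc574_ag_Cov.Arr

/-!
# JOB InC: the coefficients of the derivation `D` lie in the field of definition

* `exists_coefsK`: as `exists_coefs` in ArrK: the finite set of all coefficients of the arrays
  (`Finset.biUnion`, `Polynomial.coeffs`), coefficientwise lifting to `K[X]`.
* `Bir.betaK`: `desc` with `m = X - C t`, `s = ℬ.s`, `Fits.s`, `Bir.beta`, `derivation_zero`.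
* `Bir.gammaK`: `(X - C t) * γ = h₀ β + α` where `γ` is from `Bir.gamma`, `β` from `Bir.betaK`, `α` from
  `Fits.α` (`ρ = (X - C t) * h₀`); `desc_div`, `h₀` and `α` have coefficients in `K`.
-/

set_option autoImplicit false

namespace MPadcCov

open Polynomial

theorem exists_coefsK {k : Type*} [Field k] {n : ℕ} (𝒜 : Arr k n) : ∃ T : Finset k,
    ∀ K : Subfield k, (∀ x ∈ T, x ∈ K) → ∃ ℬ : Arr K n, ℬ.map K.subtype = 𝒜 := by
  classical
  have key : ∀ p : k[X], ∃ T : Finset k, ∀ K : Subfield k, (∀ x ∈ T, x ∈ K) →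
      ∃ r : K[X], r.map K.subtype = p := by
    intro p
    refine ⟨p.coeffs, fun K hK => ?_⟩
    have h1 : p ∈ lifts K.subtype := by
      rw [lifts_iff_coeff_lifts]
      intro m
      by_cases hm : p.coeff m = 0
      · exact ⟨0, by rw [hm, map_zero]⟩
      · exact ⟨⟨p.coeff m, hK _ (coeff_mem_coeffs hm)⟩, rfl⟩
    exact mem_lifts p |>.1 h1
  choose T hT using key
  obtain ⟨s, u, y, α, τ, ν, h, h₀, t⟩ := 𝒜
  refine ⟨(Finset.univ.biUnion fun i => Finset.univ.biUnion fun j => Finset.univ.biUnion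
      fun l => T (s i j l)) ∪ ((Finset.univ.biUnion fun i => T (u i)) ∪
      ((Finset.univ.biUnion fun i => T (y i)) ∪
      ((Finset.univ.biUnion fun i => Finset.univ.biUnion fun j => T (α i j)) ∪
      ((Finset.univ.biUnion fun i => Finset.univ.biUnion fun j => T (τ i j)) ∪
      ((Finset.univ.biUnion fun i => Finset.univ.biUnion fun j => T (ν i j)) ∪
      (T h ∪ (T h₀ ∪ {t}))))))), fun K hK => ?_⟩
  simp only [Finset.mem_union, Finset.mem_biUnion, Finset.mem_univ, true_and,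
    Finset.mem_singleton] at hK
  have h1 : ∀ i j l, ∃ r : K[X], r.map K.subtype = s i j l := fun i j l =>
    hT _ K fun x hx => hK x (Or.inl ⟨i, j, l, hx⟩)
  have h2 : ∀ i, ∃ r : K[X], r.map K.subtype = u i := fun i =>
    hT _ K fun x hx => hK x (Or.inr (Or.inl ⟨i, hx⟩))
  have h3 : ∀ i, ∃ r : K[X], r.map K.subtype = y i := fun i =>
    hT _ K fun x hx => hK x (Or.inr (Or.inr (Or.inl ⟨i, hx⟩)))
  have h4 : ∀ i j, ∃ r : K[X], r.map K.subtype = α i j := fun i j =>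
    hT _ K fun x hx => hK x (Or.inr (Or.inr (Or.inr (Or.inl ⟨i, j, hx⟩))))
  have h5 : ∀ i j, ∃ r : K[X], r.map K.subtype = τ i j := fun i j =>
    hT _ K fun x hx => hK x (Or.inr (Or.inr (Or.inr (Or.inr (Or.inl ⟨i, j, hx⟩)))))
  have h6 : ∀ i j, ∃ r : K[X], r.map K.subtype = ν i j := fun i j =>
    hT _ K fun x hx => hK x (Or.inr (Or.inr (Or.inr (Or.inr (Or.inr (Or.inl ⟨i, j, hx⟩))))))
  obtain ⟨h', hh'⟩ : ∃ r : K[X], r.map K.subtype = h :=
    hT _ K fun x hx => hK x (Or.inr (Or.inr (Or.inr (Or.inr (Or.inr (Or.inr (Or.inl hx)))))))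
  obtain ⟨h₀', hh₀'⟩ : ∃ r : K[X], r.map K.subtype = h₀ :=
    hT _ K fun x hx => hK x
      (Or.inr (Or.inr (Or.inr (Or.inr (Or.inr (Or.inr (Or.inr (Or.inl hx))))))))
  have ht : t ∈ K := hK t
    (Or.inr (Or.inr (Or.inr (Or.inr (Or.inr (Or.inr (Or.inr (Or.inr rfl))))))))
  choose s' hs' using h1
  choose u' hu' using h2
  choose y' hy' using h3
  choose α' hα' using h4
  choose τ' hτ' using h5
  choose ν' hν' using h6
  refine ⟨⟨s', u', y', α', τ', ν', h', h₀', ⟨t, ht⟩⟩, ?_⟩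
  simp only [Arr.map, hs', hu', hy', hα', hτ', hν', hh', hh₀']
  rfl

variable {k : Type*} [Field k] [IsAlgClosed k] [CharZero k] {L : Type*} [Field L]
  [Algebra (RatFunc k) L] [FiniteDimensional (RatFunc k) L] {n : ℕ}
  {e : Module.Basis (Fin n) (RatFunc k) L} {a : Fin n → ℕ} {t : k} {s : Finset k} {h : k[X]}

theorem Bir.betaK (H : Bir e a t s h) {δ : Derivation ℤ k k} (hδt : δ t = 1)
    (hδs : ∀ b ∈ s, δ b = 0) {DK : Derivation ℤ (RatFunc k) (RatFunc k)}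
    {D : Derivation ℤ L L} (hK : ∀ p : k[X], DK (pol p) = pol (cD δ p))
    (hd : ∀ r, D (algebraMap (RatFunc k) L r) = algebraMap (RatFunc k) L (DK r))
    (K : Subfield k) (hδ : ∀ x ∈ K, δ x ∈ K) (ht : t ∈ K) {𝒜 : Arr k n} {d : Derivation ℤ L L}
    {y : L} (hF : Fits 𝒜 e d y) (ℬ : Arr K n) (hℬ : ℬ.map K.subtype = 𝒜) (i j : Fin n) :
    ∃ b : K[X], pol (b.map K.subtype) = pol (X - C t) * e.repr (D (e i)) j := by
  have h1 : ∀ i j, IsPol (pol (X - C t) * e.repr (D (e i)) j) :=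
    fun i j => H.beta hδt hδs hK hd i j
  choose β hβ using h1
  have hm : ((X - C (⟨t, ht⟩ : K) : K[X]).map K.subtype) = X - C t := by
    rw [Polynomial.map_sub, map_X, map_C]
    rfl
  have hs : ∀ i j l, e.repr (e i * e j) l = pol ((ℬ.s i j l).map K.subtype) := by
    intro i j l
    rw [hF.s i j l, ← hℬ]
    rfl
  obtain ⟨b, hb⟩ := desc K e ℬ.s hs δ hδ DK hK D hd (X - C (⟨t, ht⟩ : K)) (X_sub_C_ne_zero _)
    β (fun i j => by rw [hm, hβ]) (fun Δ => derivation_zero Δ) i j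
  exact ⟨b, by rw [← hb, hβ]⟩

theorem Bir.gammaK (H : Bir e a t s h) {δ : Derivation ℤ k k} (hδt : δ t = 1)
    (hδs : ∀ b ∈ s, δ b = 0) {DK dK : Derivation ℤ (RatFunc k) (RatFunc k)}
    {D d : Derivation ℤ L L} (hK : ∀ p : k[X], DK (pol p) = pol (cD δ p))
    (hd : ∀ r, D (algebraMap (RatFunc k) L r) = algebraMap (RatFunc k) L (DK r))
    (hK' : ∀ p : k[X], dK (pol p) = pol (derivative p))
    (hd' : ∀ r, d (algebraMap (RatFunc k) L r) = algebraMap (RatFunc k) L (dK r))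
    (K : Subfield k) (hδ : ∀ x ∈ K, δ x ∈ K) (ht : t ∈ K) {𝒜 : Arr k n}
    {y : L} (hF : Fits 𝒜 e d y) (h𝒜t : 𝒜.t = t) (h𝒜h : 𝒜.h₀ = ∏ b ∈ s, (X - C b))
    (ℬ : Arr K n) (hℬ : ℬ.map K.subtype = 𝒜) (i j : Fin n) :
    ∃ b : K[X], pol (b.map K.subtype) =
      pol (∏ b ∈ s, (X - C b)) * (e.repr (D (e i)) j + e.repr (d (e i)) j) := by
  obtain ⟨γ, hγ⟩ := H.gamma hδt hδs hK hd hK' hd' i j
  obtain ⟨β, hβ⟩ := H.betaK hδt hδs hK hd K hδ ht hF ℬ hℬ i j
  have hα := hF.α i j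
  have hh : ℬ.h₀.map K.subtype = ∏ b ∈ s, (X - C b) := by
    rw [← h𝒜h, ← hℬ]
    rfl
  have hα' : (ℬ.α i j).map K.subtype = 𝒜.α i j := by
    rw [← hℬ]
    rfl
  rw [Arr.ρ, h𝒜t, h𝒜h, ← hα'] at hα
  obtain ⟨b, hb⟩ := desc_div K t ht γ ⟨ℬ.h₀ * β + ℬ.α i j, by
    apply FaithfulSMul.algebraMap_injective k[X] (RatFunc k)
    rw [Polynomial.map_add, Polynomial.map_mul, hh]
    simp only [pol, map_mul, map_add] at hα hβ hγ ⊢
    rw [hβ, ← hα, hγ]
    ring⟩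
  exact ⟨b, by rw [← hb, hγ]⟩

end MPadcCov
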