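import Pool.Agent.Lib.MP_adc574_ag_Cov.Arr

/-!
# JOB Nat: naturality of the polynomial arrays

All statements: unfold the definitions, `Polynomial.map_mul`, `Polynomial.map_sum`,
`Polynomial.derivative_map`, `Matrix.map`; for `dsc_map`: `RingHom.map_det`, `RingHom.map_trace` (or
`AddMonoidHom.map_trace`), `Matrix.map_pow`; induction on `N` for `vrec_map`. `vrec_add`,
`vrec_smul`: the recursion is linear over `R` (constants). `map_map` for the composition.
-/

set_option autoImplicit false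

namespace MPadcCov

open Polynomial

namespace Arr

variable {R R' R'' : Type*} [CommRing R] [CommRing R'] [CommRing R''] {n : ℕ}

theorem map_map (𝒜 : Arr R n) (f : R →+* R') (g : R' →+* R'') :
    (𝒜.map f).map g = 𝒜.map (g.comp f) := by
  simp only [Arr.map, Polynomial.map_map, RingHom.comp_apply]

theorem ρ_map (𝒜 : Arr R n) (f : R →+* R') : (𝒜.map f).ρ = 𝒜.ρ.map f := by
  simp only [Arr.ρ, Arr.map, Polynomial.map_mul, Polynomial.map_sub, Polynomial.map_X,
    Polynomial.map_C]

private theorem Nat_mul_map (𝒜 : Arr R n) (f : R →+* R') (z : Fin n → R[X]) :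
    (𝒜.map f).mul (fun i => (z i).map f) = (Polynomial.mapRingHom f).mapMatrix (𝒜.mul z) := by
  ext1 j k
  rw [RingHom.mapMatrix_apply, Matrix.map_apply]
  simp only [Arr.mul, Arr.map, Matrix.of_apply, Polynomial.coe_mapRingHom, Polynomial.map_sum,
    Polynomial.map_mul]

theorem dsc_map (𝒜 : Arr R n) (f : R →+* R') (z : Fin n → R[X]) :
    (𝒜.map f).dsc (fun i => (z i).map f) = (𝒜.dsc z).map f := by
  unfold Arr.dsc
  rw [Nat_mul_map, ← Polynomial.coe_mapRingHom, RingHom.map_det]
  refine congrArg Matrix.det ?_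
  ext1 i j
  show ((Polynomial.mapRingHom f).mapMatrix (𝒜.mul z) ^ (i.1 + j.1)).trace =
    (Polynomial.mapRingHom f) ((𝒜.mul z ^ (i.1 + j.1)).trace)
  rw [← map_pow]
  exact (AddMonoidHom.map_trace (Polynomial.mapRingHom f).toAddMonoidHom _).symm

theorem rho_map (𝒜 : Arr R n) (f : R →+* R') (c : Fin n → R[X]) :
    (𝒜.map f).rho (fun i => (c i).map f) = fun i => (𝒜.rho c i).map f := by
  funext j
  simp only [Arr.rho, Arr.map, Polynomial.map_sum, Polynomial.map_mul]

theorem vrec_map (𝒜 : Arr R n) (f : R →+* R') (c : Fin n → R[X]) (N : ℕ) :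
    (𝒜.map f).vrec (fun i => (c i).map f) N = fun i => (𝒜.vrec c N i).map f := by
  induction N with
  | zero => rfl
  | succ k ih =>
    funext i
    show (𝒜.map f).ρ * derivative ((𝒜.map f).vrec (fun i => (c i).map f) k i) -
      ∑ j, (𝒜.map f).α i j * (𝒜.map f).vrec (fun i => (c i).map f) k j -
      (k : R'[X]) * derivative (𝒜.map f).ρ * (𝒜.map f).vrec (fun i => (c i).map f) k i =
      (𝒜.ρ * derivative (𝒜.vrec c k i) - ∑ j, 𝒜.α i j * 𝒜.vrec c k j -
      (k : R[X]) * derivative 𝒜.ρ * 𝒜.vrec c k i).map f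
    rw [ih, ρ_map]
    simp only [Polynomial.map_sub, Polynomial.map_mul, Polynomial.map_sum,
      Polynomial.derivative_map, Polynomial.map_natCast, Arr.map]

theorem vrec_add (𝒜 : Arr R n) (c c' : Fin n → R[X]) (N : ℕ) (i : Fin n) :
    𝒜.vrec (fun i => c i + c' i) N i = 𝒜.vrec c N i + 𝒜.vrec c' N i := by
  induction N generalizing i with
  | zero => rfl
  | succ k ih =>
    show 𝒜.ρ * derivative (𝒜.vrec (fun i => c i + c' i) k i) -
      ∑ j, 𝒜.α i j * 𝒜.vrec (fun i => c i + c' i) k j -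
      (k : R[X]) * derivative 𝒜.ρ * 𝒜.vrec (fun i => c i + c' i) k i =
      (𝒜.ρ * derivative (𝒜.vrec c k i) - ∑ j, 𝒜.α i j * 𝒜.vrec c k j -
      (k : R[X]) * derivative 𝒜.ρ * 𝒜.vrec c k i) +
      (𝒜.ρ * derivative (𝒜.vrec c' k i) - ∑ j, 𝒜.α i j * 𝒜.vrec c' k j -
      (k : R[X]) * derivative 𝒜.ρ * 𝒜.vrec c' k i)
    simp only [ih, derivative_add, mul_add, Finset.sum_add_distrib]
    ring

theorem vrec_smul (𝒜 : Arr R n) (r : R) (c : Fin n → R[X]) (N : ℕ) (i : Fin n) :
    𝒜.vrec (fun i => C r * c i) N i = C r * 𝒜.vrec c N i := by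
  induction N generalizing i with
  | zero => rfl
  | succ k ih =>
    show 𝒜.ρ * derivative (𝒜.vrec (fun i => C r * c i) k i) -
      ∑ j, 𝒜.α i j * 𝒜.vrec (fun i => C r * c i) k j -
      (k : R[X]) * derivative 𝒜.ρ * 𝒜.vrec (fun i => C r * c i) k i =
      C r * (𝒜.ρ * derivative (𝒜.vrec c k i) - ∑ j, 𝒜.α i j * 𝒜.vrec c k j -
      (k : R[X]) * derivative 𝒜.ρ * 𝒜.vrec c k i)
    have h1 : ∑ j, 𝒜.α i j * 𝒜.vrec (fun i => C r * c i) k j =
        C r * ∑ j, 𝒜.α i j * 𝒜.vrec c k j := by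
      rw [Finset.mul_sum]
      refine Finset.sum_congr rfl fun j _ => ?_
      rw [ih]
      ring
    rw [h1, ih, derivative_C_mul]
    ring

end Arr

theorem cp_map {R R' : Type*} [CommRing R] [CommRing R'] {n : ℕ} (a : Fin n → ℕ) (f : R →+* R')
    (c : Ix a → R) : (fun i => (cp a c i).map f) = cp a fun m => f (c m) := by
  funext i
  simp only [cp, Polynomial.map_sum, Polynomial.map_mul, Polynomial.map_C, Polynomial.map_pow,
    Polynomial.map_X]

theorem cp_add {R : Type*} [CommRing R] {n : ℕ} (a : Fin n → ℕ) (c c' : Ix a → R) (i : Fin n) :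
    cp a (fun m => c m + c' m) i = cp a c i + cp a c' i := by
  simp only [cp, C_add, add_mul, Finset.sum_add_distrib]

theorem cp_smul {R : Type*} [CommRing R] {n : ℕ} (a : Fin n → ℕ) (r : R) (c : Ix a → R)
    (i : Fin n) : cp a (fun m => r * c m) i = C r * cp a c i := by
  simp only [cp, C_mul, Finset.mul_sum, mul_assoc]

/-- `cp a c i` has degree at most `a i - 2`, and all such polynomials are of this form. -/
theorem cp_dle {κ : Type*} [Field κ] {n : ℕ} (a : Fin n → ℕ) (c : Ix a → κ) (i : Fin n) :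
    Dle (pol (cp a c i)) ((a i : ℤ) - 2) := by
  by_cases h0 : cp a c i = 0
  · left
    rw [h0]
    exact map_zero _
  · right
    have h1 : (cp a c i).natDegree ≤ a i - 2 := by
      refine Polynomial.natDegree_sum_le_of_forall_le _ _ fun m _ => ?_
      refine (Polynomial.natDegree_C_mul_X_pow_le _ _).trans ?_
      have := m.2
      omega
    have h2 : 2 ≤ a i := by
      by_contra hlt
      apply h0
      have h3 : a i - 1 = 0 := by omega
      unfold cp
      have : IsEmpty (Fin (a i - 1)) := by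
        rw [h3]
        infer_instance
      exact Finset.sum_of_isEmpty _
    show RatFunc.intDegree (algebraMap κ[X] (RatFunc κ) (cp a c i)) ≤ _
    rw [RatFunc.intDegree_polynomial]
    omega

theorem exists_cp {κ : Type*} [Field κ] {n : ℕ} (a : Fin n → ℕ) (q : Fin n → κ[X])
    (hq : ∀ i, Dle (pol (q i)) ((a i : ℤ) - 2)) : ∃ c : Ix a → κ, cp a c = q := by
  refine ⟨fun m => (q m.1).coeff m.2.1, ?_⟩
  funext i
  have h1 : q i = 0 ∨ (q i).natDegree < a i - 1 := by
    rcases hq i with h | h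
    · left
      have h2 : algebraMap κ[X] (RatFunc κ) (q i) = 0 := h
      exact (map_eq_zero_iff _ (RatFunc.algebraMap_injective κ)).1 h2
    · right
      have h2 : RatFunc.intDegree (algebraMap κ[X] (RatFunc κ) (q i)) ≤ (a i : ℤ) - 2 := h
      rw [RatFunc.intDegree_polynomial] at h2
      omega
  show ∑ m : Fin (a i - 1), C ((q i).coeff m.1) * X ^ m.1 = q i
  rcases h1 with h1 | h1
  · rw [h1]
    simp
  · rw [Fin.sum_univ_eq_sum_range (fun m => C ((q i).coeff m) * X ^ m) (a i - 1)]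
    exact ((q i).as_sum_range_C_mul_X_pow' h1).symm

theorem cp_injective {R : Type*} [CommRing R] {n : ℕ} (a : Fin n → ℕ) (c : Ix a → R)
    (h : cp a c = 0) : c = 0 := by
  funext m
  obtain ⟨i, m⟩ := m
  have h1 : (cp a c i).coeff m.1 = 0 := by
    rw [h]
    simp
  have h2 : (cp a c i).coeff m.1 = c ⟨i, m⟩ := by
    unfold cp
    rw [Polynomial.finsetSum_coeff, Finset.sum_eq_single m]
    · rw [Polynomial.coeff_C_mul_X_pow, if_pos rfl]
    · intro j _ hj
      rw [Polynomial.coeff_C_mul_X_pow, if_neg]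
      intro h3
      exact hj (Fin.ext h3.symm)
    · intro h3
      exact absurd (Finset.mem_univ m) h3
  rw [← h2, h1]
  rfl

end MPadcCov
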