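import Pool.Agent.Lib.MP_adc574_ag_Cov.SpecDef
import Pool.Agent.Lib.MP_adc574_ag_Cov.Def
import Pool.Agent.Lib.MP_adc574_ag_Cov.RegK
import Pool.Agent.Lib.MP_adc574_ag_Cov.Birk
import Pool.Agent.Lib.MP_adc574_ag_Cov.ArrK
import Pool.Agent.Lib.MP_adc574_ag_Cov.InA
import Pool.Agent.Lib.MP_adc574_ag_Cov.InB
import Pool.Agent.Lib.MP_adc574_ag_Cov.InC
import Pool.Agent.Lib.MP_adc574_ag_Cov.Ext
import Pool.Agent.Lib.MP_adc574_ag_Cov.Stab
import Pool.Agent.Lib.MP_adc574_ag_Cov.Nat
import Pool.Agent.Lib.MP_adc574_ag_Cov.FitA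

/-!
# The input from characteristic zero
-/

set_option autoImplicit false

namespace MPadcCov

open Polynomial

universe u

private noncomputable def Input_der {k : Type*} [Field k]
    (ΔK : Derivation ℤ (RatFunc k) (RatFunc k)) :
    @Derivation ℤ (RatFunc k) (RatFunc k) _ _ _ (Ring.toIntAlgebra _) _ _ :=
  @Derivation.mk ℤ (RatFunc k) (RatFunc k) _ _ _ (Ring.toIntAlgebra _) _ _
    (ΔK.toLinearMap.toAddMonoidHom.toIntLinearMap) (ΔK.map_one_eq_zero)
    (fun x y => ΔK.leibniz x y)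

private theorem Input_ext {k : Type*} [Field k] [CharZero k] {L : Type*} [Field L]
    [Algebra (RatFunc k) L] (dK : Derivation ℤ (RatFunc k) (RatFunc k)) :
    ∃ d : Derivation ℤ L L, ∀ x, d (algebraMap (RatFunc k) L x) =
      algebraMap (RatFunc k) L (dK x) := by
  obtain ⟨d, hd⟩ := exists_extension (L := L) (Input_der dK)
  exact ⟨d, hd⟩

private theorem Input_coeff {R : Type*} [CommRing R] (δ : Derivation ℤ R R) (p : R[X]) (m : ℕ) :
    (cD δ p).coeff m = δ (p.coeff m) := by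
  unfold cD
  rw [Polynomial.sum_def, Polynomial.finsetSum_coeff]
  simp only [coeff_monomial]
  rw [Finset.sum_ite_eq']
  by_cases hm : m ∈ p.support
  · rw [if_pos hm]
  · rw [if_neg hm, Polynomial.notMem_support_iff.1 hm, map_zero]

private theorem Input_mul {R : Type*} [CommRing R] (δ : Derivation ℤ R R) (p q : R[X]) :
    cD δ (p * q) = p * cD δ q + q * cD δ p := by
  ext m
  rw [Input_coeff, coeff_mul, map_sum, coeff_add, mul_comm q, coeff_mul, coeff_mul,
    ← Finset.sum_add_distrib]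
  refine Finset.sum_congr rfl fun x _ => ?_
  rw [Derivation.leibniz, Input_coeff, Input_coeff, smul_eq_mul, smul_eq_mul,
    mul_comm (δ (p.coeff x.1))]

private theorem Input_prod {k : Type*} [Field k] (δ : Derivation ℤ k k) (s : Finset k)
    (hs : ∀ b ∈ s, δ b = 0) : cD δ (∏ b ∈ s, (X - C b)) = 0 := by
  refine Finset.prod_induction (fun b : k => (X - C b : k[X])) (fun q => cD δ q = 0) ?_ ?_ ?_
  · intro p q hp hq
    rw [Input_mul, hp, hq, mul_zero, mul_zero, add_zero]
  · ext m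
    rw [Input_coeff, coeff_one, coeff_zero]
    split_ifs
    · exact δ.map_one_eq_zero
    · exact map_zero _
  · intro b hb
    ext m
    rw [Input_coeff, coeff_sub, coeff_X, coeff_C, coeff_zero, map_sub]
    split_ifs <;> simp [hs b hb]

/-- A finite set of coefficients of a finite family of polynomials. -/
private theorem Input_coeffs {k : Type*} [Field k] {n : ℕ} (K : Subfield k)
    (f : Fin n → Fin n → k[X]) (hf : ∀ i j, ∃ r : K[X], f i j = r.map K.subtype) :
    ∃ T : Finset k, (∀ x ∈ T, x ∈ K) ∧ ∀ i j l, (f i j).coeff l ≠ 0 → (f i j).coeff l ∈ T := by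
  classical
  refine ⟨Finset.univ.biUnion fun i => Finset.univ.biUnion fun j => (f i j).coeffs, ?_, ?_⟩
  · intro x hx
    simp only [Finset.mem_biUnion, Finset.mem_univ, true_and] at hx
    obtain ⟨i, j, hx⟩ := hx
    obtain ⟨r, hr⟩ := hf i j
    obtain ⟨l, -, hl⟩ := Polynomial.mem_coeffs_iff.1 hx
    rw [hl, hr, coeff_map]
    exact (r.coeff l).2
  · intro i j l hl
    simp only [Finset.mem_biUnion, Finset.mem_univ, true_and]
    exact ⟨i, j, Polynomial.coeff_mem_coeffs hl⟩

theorem input {k : Type u} [Field k] [IsAlgClosed k] [CharZero k] {L : Type u} [Field L]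
    [Algebra (RatFunc k) L] [Algebra k[X] L] [IsScalarTower k[X] (RatFunc k) L]
    (A₀ : Subalgebra ℤ k) (hA : A₀.FG) (F₀ : A₀[X][X]) (hF : F₀.Monic) (y : L)
    (hy : F₀.eval₂ ((algebraMap (RatFunc k) L).comp (fp (algebraMap A₀ k))) y = 0)
    (hgen : Algebra.adjoin (RatFunc k) {y} = ⊤) (hdeg : Module.finrank (RatFunc k) L = F₀.natDegree)
    (k₀ : Subfield k) (t : k) (ht : Transcendental k₀ t) (c : k) (h : k₀[X]) {m : ℕ}
    (b : Module.Basis (Fin m) k[X] (integralClosure k[X] L))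
    (hb : Algebra.discr k[X] b = C c * (X - C t) * h.map (algebraMap k₀ k)) :
    ∃ (A : Subalgebra ℤ k) (hle : A₀ ≤ A) (n : ℕ) (e : Module.Basis (Fin n) (RatFunc k) L)
      (a : Fin n → ℕ) (𝒜 : Arr A n) (dK : Derivation ℤ (RatFunc k) (RatFunc k))
      (d : Derivation ℤ L L) (δ : Derivation ℤ A A)
      (DK : Derivation ℤ (RatFunc k) (RatFunc k)) (D : Derivation ℤ L L), A.FG ∧
      CovIn A e a 𝒜 dK d y (F₀.map (mapRingHom (Subalgebra.inclusion hle).toRingHom)) ∧
      DerIn A e a 𝒜 d δ DK D ∧ (∀ z, IntX k z ↔ InB e z) ∧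
      (∀ z, IntO k z ↔ ∀ i, Dle (e.repr z i) (-(a i : ℤ))) := by
  classical
  have hpolinj : Function.Injective (algebraMap k[X] (RatFunc k)) :=
    IsFractionRing.injective k[X] (RatFunc k)
  -- finite dimension
  have hint : IsIntegral (RatFunc k) y :=
    ⟨F₀.map (fp (algebraMap A₀ k)), hF.map _, by rw [eval₂_map]; exact hy⟩
  haveI : FiniteDimensional (RatFunc k) L := by
    have h1 := hint.fg_adjoin_singleton
    rw [hgen] at h1
    exact ⟨by simpa using h1⟩
  obtain ⟨n, hn, e, a, hX, hI⟩ : ∃ n : ℕ, n = Module.finrank (RatFunc k) L ∧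
      ∃ (e : Module.Basis (Fin n) (RatFunc k) L) (a : Fin n → ℕ),
        (∀ z : L, IntX k z ↔ InB e z) ∧
        ∀ z : L, IntO k z ↔ ∀ i, Dle (e.repr z i) (-(a i : ℤ)) := by
    obtain ⟨e, a, hX, hI⟩ := birkhoff k L
    exact ⟨_, rfl, e, a, hX, hI⟩
  obtain ⟨v, hv, hdet⟩ := gram_discr e hX b
  have hdet0 : (Matrix.of fun i j => Tr k L (e i * e j)).det ≠ 0 := by
    have h1 := Algebra.discr_not_zero_of_basis (RatFunc k) e
    rw [Algebra.discr_def] at h1
    exact h1
  rw [hb] at hdet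
  have hdet1 : C v * (C c * (X - C t) * h.map (algebraMap k₀ k)) ≠ 0 := by
    intro h0
    apply hdet0
    rw [hdet, h0]
    exact map_zero _
  have hc : c ≠ 0 := by
    rintro rfl
    apply hdet1
    simp
  have hh0 : h ≠ 0 := by
    rintro rfl
    apply hdet1
    simp
  obtain ⟨s, hs1, hs2, hs3, hs4⟩ := branch k₀ t ht h hh0 (v * c) (mul_ne_zero hv hc)
  have H : Bir e a t s (C (v * c) * h.map (algebraMap k₀ k)) :=
    { hX := hX
      hI := hI
      disc := by
        rw [hdet]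
        refine congrArg _ ?_
        rw [C_mul]
        ring
      ht := hs3
      hs := hs1
      ts := hs2 }
  set h' : k[X] := C (v * c) * h.map (algebraMap k₀ k) with hh'
  obtain ⟨dK, hdK⟩ := exists_dK (k := k)
  obtain ⟨d, hd⟩ := Input_ext (L := L) dK
  have hyX : IntX k y := by
    refine ⟨F₀.map (mapRingHom (algebraMap A₀ k)), hF.map _, ?_⟩
    rw [eval₂_map]
    exact hy
  obtain ⟨𝒜₀, h𝒜t, h𝒜h₀, h𝒜h, hfit⟩ := H.exists_arr hdK hd y hyX
  obtain ⟨T₁, hT₁⟩ := exists_coefs 𝒜₀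
  obtain ⟨T₂, hT₂⟩ := exists_coefsK 𝒜₀
  obtain ⟨G, hG⟩ := hA
  set S : Finset k := T₁ ∪ T₂ ∪ G ∪ s ∪ {t} with hS
  set K : Subfield k := Subfield.closure (S : Set k) with hK
  have hSK : ∀ x ∈ S, x ∈ K := fun x hx => Subfield.subset_closure hx
  have hS1 : ∀ x ∈ T₁, x ∈ S := fun x hx => by simp [hS, hx]
  have hS2 : ∀ x ∈ T₂, x ∈ S := fun x hx => by simp [hS, hx]
  have hS3 : ∀ x ∈ G, x ∈ S := fun x hx => by simp [hS, hx]
  have hS4 : ∀ x ∈ s, x ∈ S := fun x hx => by simp [hS, hx]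
  have hS5 : t ∈ S := by simp [hS]
  obtain ⟨δ, hδt, hδs, hδK⟩ := exists_delta K s t (fun x hx => hSK x (hS4 x hx)) (hSK t hS5) hs4
  obtain ⟨DK, hDK⟩ := exists_DK δ
  obtain ⟨D, hD⟩ := Input_ext (L := L) DK
  obtain ⟨ℬK, hℬK⟩ := hT₂ K (fun x hx => hSK x (hS2 x hx))
  have hβ := fun i j => H.betaK hδt hδs hDK hD K hδK (hSK t hS5) hfit ℬK hℬK i j
  have hγ := fun i j => H.gammaK hδt hδs hDK hD hdK hd K hδK (hSK t hS5) hfit h𝒜t h𝒜h₀ ℬK hℬK i j
  choose β hβ using hβ
  choose γ hγ using hγ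
  obtain ⟨Tβ, hTβ1, hTβ2⟩ := Input_coeffs K (fun i j => (β i j).map K.subtype)
    (fun i j => ⟨β i j, rfl⟩)
  obtain ⟨Tγ, hTγ1, hTγ2⟩ := Input_coeffs K (fun i j => (γ i j).map K.subtype)
    (fun i j => ⟨γ i j, rfl⟩)
  obtain ⟨A, hAfg, hAT, hAS, hAδ⟩ := exists_stable S (Tβ ∪ Tγ) δ hδK (by
    intro x hx
    rcases Finset.mem_union.1 hx with hx | hx
    · exact hTβ1 x hx
    · exact hTγ1 x hx)
  obtain ⟨δA, hδA⟩ := exists_restrict A δ hAδ
  obtain ⟨ℬ, hℬ⟩ := hT₁ A (fun x hx => hAS x (hS1 x hx))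
  have hle : A₀ ≤ A := by
    rw [← hG]
    exact Algebra.adjoin_le fun x hx => hAS x (hS3 x hx)
  have hinj : Function.Injective (algebraMap A k) := Subtype.val_injective
  have hmapinj : Function.Injective (Polynomial.map (algebraMap A k)) :=
    Polynomial.map_injective _ hinj
  have hρ : (ℬ.map (algebraMap A k)).ρ = (X - C t) * ∏ b ∈ s, (X - C b) := by
    rw [hℬ, Arr.ρ, h𝒜t, h𝒜h₀]
  have hBt : algebraMap A k ℬ.t = t := by
    have h1 : (ℬ.map (algebraMap A k)).t = 𝒜₀.t := by rw [hℬ]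
    rw [h𝒜t] at h1
    exact h1
  have hBh₀ : ℬ.h₀.map (algebraMap A k) = ∏ b ∈ s, (X - C b) := by
    have h1 : (ℬ.map (algebraMap A k)).h₀ = 𝒜₀.h₀ := by rw [hℬ]
    rw [h𝒜h₀] at h1
    exact h1
  have hBh : ℬ.h.map (algebraMap A k) = h' := by
    have h1 : (ℬ.map (algebraMap A k)).h = 𝒜₀.h := by rw [hℬ]
    rw [h𝒜h] at h1
    exact h1
  have hcoefA : ∀ (T : Finset k) (f : k[X]), (∀ x ∈ T, x ∈ A) →
      (∀ l, f.coeff l ≠ 0 → f.coeff l ∈ T) → ∃ r : A[X], r.map (algebraMap A k) = f := by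
    intro T f hT hf
    refine exists_map_of_coeff A f fun l => ?_
    by_cases h0 : f.coeff l = 0
    · rw [h0]; exact A.zero_mem
    · exact hT _ (hf l h0)
  have hcD : ∀ p : A[X], cD δ (p.map (algebraMap A k)) = (cD δA p).map (algebraMap A k) := by
    intro p
    ext l
    rw [Input_coeff, coeff_map, coeff_map, Input_coeff]
    exact (hδA _).symm
  refine ⟨A, hle, n, e, a, ℬ, dK, d, δA, DK, D, hAfg, ?_, ?_, hX, hI⟩
  · refine
      { cov := ?_
        fits := ?_
        monic := hF.map _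
        deg := ?_
        root := ?_
        dscy := ?_
        split := ?_
        ht := ?_
        hh := ?_ }
    · rw [hρ]; exact H.cov0 hdK hd
    · rw [hℬ]; exact hfit
    · rw [hF.natDegree_map, ← hdeg, hn]
    · rw [eval₂_map]
      have h1 : (((algebraMap (RatFunc k) L).comp (fp (algebraMap A k))).comp
          (mapRingHom (Subalgebra.inclusion hle).toRingHom)) =
          (algebraMap (RatFunc k) L).comp (fp (algebraMap A₀ k)) := by
        refine RingHom.ext fun p => ?_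
        change algebraMap (RatFunc k) L (pol ((p.map _).map _)) =
          algebraMap (RatFunc k) L (pol (p.map _))
        rw [Polynomial.map_map]
        rfl
      rw [h1]
      exact hy
    · -- the discriminant of the powers of `y`
      intro h0
      have h1 : 𝒜₀.dsc 𝒜₀.y = 0 := by
        have h2 := ℬ.dsc_map (algebraMap A k) ℬ.y
        rw [h0, Polynomial.map_zero, hℬ] at h2
        have h3 : (fun i => (ℬ.y i).map (algebraMap A k)) = 𝒜₀.y := by
          have h4 : (ℬ.map (algebraMap A k)).y = 𝒜₀.y := by rw [hℬ]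
          exact h4
        rw [h3] at h2
        exact h2
      have h5 := hfit.tr_dsc y 𝒜₀.y hfit.y
      rw [h1, pol, map_zero] at h5
      let pb := PowerBasis.ofAdjoinEqTop hint hgen
      have hdim : pb.dim = n := by rw [hn, pb.finrank]
      have h6 := Algebra.discr_not_zero_of_basis (RatFunc k)
        (pb.basis.reindex (finCongr hdim))
      rw [Algebra.discr_def] at h6
      apply h6
      rw [← h5]
      refine congrArg _ (Matrix.ext fun i j => ?_)
      simp only [Algebra.traceMatrix_apply, Algebra.traceForm_apply, Matrix.of_apply,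
        Module.Basis.reindex_apply, PowerBasis.basis_eq_pow]
      rw [← pow_add]
      rfl
    · refine ⟨s.attach.map ⟨fun x => ⟨x.1, hAS x.1 (hS4 x.1 x.2)⟩, fun x x' hxx => ?_⟩, ?_⟩
      · exact Subtype.ext (congrArg (fun z : A => (z : k)) hxx)
      · apply hmapinj
        rw [hBh₀, Polynomial.map_prod, Finset.prod_map]
        rw [← Finset.prod_attach s (fun b => X - C b)]
        refine Finset.prod_congr rfl fun x _ => ?_
        rw [Polynomial.map_sub, map_X, map_C]
        rfl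
    · intro h0
      have h1 : (ℬ.h₀.map (algebraMap A k)).eval (algebraMap A k ℬ.t) = 0 := by
        rw [eval_map, eval₂_at_apply, h0, map_zero]
      rw [hBh₀, hBt, eval_prod] at h1
      obtain ⟨b, hb, hb0⟩ := Finset.prod_eq_zero_iff.1 h1
      rw [eval_sub, eval_X, eval_C, sub_eq_zero] at hb0
      exact hs2 (hb0 ▸ hb)
    · intro h0
      have h1 : (ℬ.h.map (algebraMap A k)).eval (algebraMap A k ℬ.t) = 0 := by
        rw [eval_map, eval₂_at_apply, h0, map_zero]
      rw [hBh, hBt] at h1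
      exact hs3 h1
  · refine
      { δt := ?_
        δh := ?_
        DK_pol := ?_
        D_alg := hD
        β := ?_
        βdeg := ?_
        γ := ?_ }
    · apply hinj
      change ((δA ℬ.t : A) : k) = ((1 : A) : k)
      rw [hδA]
      change δ (algebraMap A k ℬ.t) = 1
      rw [hBt, hδt]
    · apply hmapinj
      rw [← hcD, hBh₀, Input_prod δ s hδs, Polynomial.map_zero]
    · intro p
      rw [hDK, hcD]
    · intro i j
      obtain ⟨r, hr⟩ := hcoefA (Tβ ∪ Tγ) _ hAT (fun l hl => Finset.mem_union_left _ (hTβ2 i j l hl))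
      refine ⟨r, ?_⟩
      rw [hr, hβ i j]
      change _ = pol (X - C (algebraMap A k ℬ.t)) * _
      rw [hBt]
    · exact fun i j => H.betaDeg hDK hD i j
    · intro i j
      obtain ⟨r, hr⟩ := hcoefA (Tβ ∪ Tγ) _ hAT (fun l hl => Finset.mem_union_right _ (hTγ2 i j l hl))
      refine ⟨r, ?_⟩
      rw [hr, hγ i j, hBh₀]

end MPadcCov
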