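import Pool.Agent.Lib.MP_adc574_ag_Cov.Arr

/-!
# JOB FitA: multiplication, trace and discriminant from the arrays

* `tr_pow`: the matrix `𝒜.mul z` (mapped to `RatFunc κ`) is the transpose of the matrix of the
  multiplication by `Z = ∑ pol (z i) • e i` in the basis `e`: `Z * e j = ∑ k, (∑ i, pol (z i) * s i j k) • e k`
  (`Fits.s`, `Module.Basis.sum_repr`). `Algebra.trace_eq_matrix_trace e`, `Algebra.leftMulMatrix e` is
  a ring homomorphism (`map_pow`), `Matrix.trace_transpose`, `Matrix.transpose_pow`, and the map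
  `pol = algebraMap κ[X] (RatFunc κ)` applied to a matrix commutes with powers and trace.
* `tr_dsc`: determinant of a mapped matrix (`RingHom.map_det`).
* `exists_form`: `z = ∑ pol (c i) • w i` with `w i` from `Fits.τ` (`choose`).
* `rho_eq`: by `nondeg`, `z = ∑ pol (c i) • w i` (both have the same `Tr (· * e j)`), then
  `Fits.τ`.
* `isPol_of`: `Tr (e i)` is a polynomial etc. are not needed.
-/

set_option autoImplicit false

namespace MPadcCov

open Polynomial

variable {κ : Type*} [Field κ] {E : Type*} [CommRing E] [Algebra (RatFunc κ) E] {n : ℕ}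
  {𝒜 : Arr κ n} {e : Module.Basis (Fin n) (RatFunc κ) E} {d : Derivation ℤ E E} {y : E}

private theorem FitA_left (H : Fits 𝒜 e d y) (Z : E) (z : Fin n → κ[X])
    (hz : ∀ j, e.repr Z j = pol (z j)) :
    Algebra.leftMulMatrix e Z = ((𝒜.mul z).map (algebraMap κ[X] (RatFunc κ))).transpose := by
  ext k j
  rw [Algebra.leftMulMatrix_eq_repr_mul, Matrix.transpose_apply, Matrix.map_apply]
  have h1 : Z = ∑ i, pol (z i) • e i := by
    rw [← e.sum_repr Z]
    refine Finset.sum_congr rfl fun i _ => ?_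
    rw [hz]
  have h2 : Z * e j = ∑ i, pol (z i) • (e i * e j) := by
    rw [h1, Finset.sum_mul]
    refine Finset.sum_congr rfl fun i _ => ?_
    rw [smul_mul_assoc]
  rw [h2, map_sum, Finsupp.finsetSum_apply]
  unfold Arr.mul
  rw [Matrix.of_apply, map_sum]
  refine Finset.sum_congr rfl fun i _ => ?_
  rw [map_smul, Finsupp.smul_apply, H.s, smul_eq_mul, map_mul]

theorem Fits.tr_pow (H : Fits 𝒜 e d y) (Z : E) (z : Fin n → κ[X]) (hz : ∀ j, e.repr Z j = pol (z j))
    (m : ℕ) : Tr κ E (Z ^ m) = pol ((𝒜.mul z ^ m).trace) := by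
  have h1 : (𝒜.mul z ^ m).map (algebraMap κ[X] (RatFunc κ)) =
      ((𝒜.mul z).map (algebraMap κ[X] (RatFunc κ))) ^ m :=
    map_pow (algebraMap κ[X] (RatFunc κ)).mapMatrix (𝒜.mul z) m
  show Algebra.trace (RatFunc κ) E (Z ^ m) = algebraMap κ[X] (RatFunc κ) ((𝒜.mul z ^ m).trace)
  rw [Algebra.trace_eq_matrix_trace e, map_pow, FitA_left H Z z hz, ← Matrix.transpose_pow,
    Matrix.trace_transpose, ← h1]
  unfold Matrix.trace
  rw [map_sum]
  rfl

theorem Fits.tr_dsc (H : Fits 𝒜 e d y) (Z : E) (z : Fin n → κ[X]) (hz : ∀ j, e.repr Z j = pol (z j)) :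
    (Matrix.of fun i j : Fin n => Tr κ E (Z ^ (i.1 + j.1))).det = pol (𝒜.dsc z) := by
  unfold Arr.dsc
  show _ = algebraMap κ[X] (RatFunc κ) _
  rw [RingHom.map_det]
  congr 1
  ext i j
  rw [Matrix.of_apply, H.tr_pow Z z hz]
  rfl

theorem Fits.exists_form (H : Fits 𝒜 e d y) (c : Fin n → κ[X]) :
    ∃ z : E, ∀ i, Tr κ E (z * e i) = pol (c i) := by
  choose w hw1 hw2 using H.τ
  refine ⟨∑ i, pol (c i) • w i, fun j => ?_⟩
  rw [Finset.sum_mul, map_sum, Finset.sum_eq_single j]
  · rw [smul_mul_assoc, map_smul, hw1, if_pos rfl, smul_eq_mul, mul_one]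
  · intro i _ hij
    rw [smul_mul_assoc, map_smul, hw1, if_neg hij, smul_zero]
  · intro h
    exact absurd (Finset.mem_univ _) h

theorem Fits.rho_eq (H : Fits 𝒜 e d y) (hn : ∀ z, (∀ i, Tr κ E (z * e i) = 0) → z = 0) (z : E)
    (c : Fin n → κ[X]) (hz : ∀ i, Tr κ E (z * e i) = pol (c i)) (j : Fin n) :
    e.repr (algebraMap (RatFunc κ) E (pol 𝒜.ρ) * z) j = pol (𝒜.rho c j) := by
  choose w hw1 hw2 using H.τ
  have h1 : z = ∑ i, pol (c i) • w i := by
    rw [← sub_eq_zero]
    apply hn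
    intro j
    rw [sub_mul, map_sub, hz, Finset.sum_mul, map_sum, Finset.sum_eq_single j]
    · rw [smul_mul_assoc, map_smul, hw1, if_pos rfl, smul_eq_mul, mul_one, sub_self]
    · intro i _ hij
      rw [smul_mul_assoc, map_smul, hw1, if_neg hij, smul_zero]
    · intro h
      exact absurd (Finset.mem_univ _) h
  rw [← Algebra.smul_def, map_smul, Finsupp.smul_apply, h1, map_sum, Finsupp.finsetSum_apply,
    smul_eq_mul, Finset.mul_sum]
  unfold Arr.rho
  show _ = algebraMap κ[X] (RatFunc κ) _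
  rw [map_sum]
  refine Finset.sum_congr rfl fun i _ => ?_
  rw [map_smul, Finsupp.smul_apply, smul_eq_mul, map_mul]
  have h2 := hw2 i j
  linear_combination (pol (c i)) * h2

end MPadcCov
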