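import Pool.Agent.Lib.MP_adc574_ag_Cov.Arr

/-!
# JOB FitB: the iterated derivatives of a form in dual coordinates

`vrec_eq`: induction on `N`. Let `v = ρ ^ N • d ^ N z` (`ρ` mapped to `E`). Then
`d v = N ρ' ρ ^ (N-1) d ^ N z + ρ ^ N d ^ (N+1) z`, so `ρ ^ (N+1) d ^ (N+1) z = ρ d v - N ρ' v`, and
`Tr (ρ d v * e i) = ρ (Tr (d (v * e i)) - Tr (v * d (e i)))
 = ρ dK (Tr (v * e i)) - Tr (v * (ρ d (e i)))` with `ρ d (e i) = ∑ pol (α i j) • e j` (`Fits.α`,
`Module.Basis.sum_repr`), `tr_d`, `dK_pol`.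
-/

set_option autoImplicit false

namespace MPadcCov

open Polynomial

variable {κ : Type*} [Field κ] {E : Type*} [CommRing E] [Algebra (RatFunc κ) E] {n : ℕ}
  {𝒜 : Arr κ n} {e : Module.Basis (Fin n) (RatFunc κ) E} {d : Derivation ℤ E E} {y : E}

private theorem fitB_tr_mul (r : RatFunc κ) (w : E) :
    Tr κ E (algebraMap (RatFunc κ) E r * w) = r * Tr κ E w := by
  rw [← Algebra.smul_def, map_smul, smul_eq_mul]

private theorem fitB_der (ρ : κ[X]) (N : ℕ) :
    ρ * derivative (ρ ^ N) = (N : κ[X]) * derivative ρ * ρ ^ N := by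
  rcases N with _ | N
  · simp
  · rw [derivative_pow, Nat.add_sub_cancel, map_natCast, pow_succ]
    ring

theorem Fits.vrec_eq (H : Fits 𝒜 e d y) {a : Fin n → ℕ}
    {dK : Derivation ℤ (RatFunc κ) (RatFunc κ)} (hC : Cov0 e a 𝒜.ρ dK d) (z : E)
    (c : Fin n → κ[X]) (hz : ∀ i, Tr κ E (z * e i) = pol (c i)) (N : ℕ) (i : Fin n) :
    Tr κ E (algebraMap (RatFunc κ) E (pol (𝒜.ρ ^ N)) * (d^[N]) z * e i) = pol (𝒜.vrec c N i) := by
  induction N generalizing i with
  | zero =>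
    rw [pow_zero, pol, map_one, map_one, Function.iterate_zero, id, one_mul]
    exact hz i
  | succ N ih =>
    obtain ⟨v, hv⟩ : ∃ v : E, v = algebraMap (RatFunc κ) E (pol (𝒜.ρ ^ N)) * (d^[N]) z := ⟨_, rfl⟩
    simp only [← hv] at ih
    have hdv : d v = algebraMap (RatFunc κ) E (pol (𝒜.ρ ^ N)) * d ((d^[N]) z) +
        (d^[N]) z * algebraMap (RatFunc κ) E (pol (derivative (𝒜.ρ ^ N))) := by
      rw [hv, Derivation.leibniz, hC.d_alg, hC.dK_pol, smul_eq_mul, smul_eq_mul]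
    have h1 : algebraMap (RatFunc κ) E (pol (𝒜.ρ ^ (N + 1))) * (d^[N + 1]) z =
        algebraMap (RatFunc κ) E (pol 𝒜.ρ) * d v -
          algebraMap (RatFunc κ) E (pol ((N : κ[X]) * derivative 𝒜.ρ)) * v := by
      have h2 : algebraMap (RatFunc κ) E (pol 𝒜.ρ) *
          algebraMap (RatFunc κ) E (pol (derivative (𝒜.ρ ^ N))) =
          algebraMap (RatFunc κ) E (pol ((N : κ[X]) * derivative 𝒜.ρ)) *
            algebraMap (RatFunc κ) E (pol (𝒜.ρ ^ N)) := by
        rw [← map_mul, ← map_mul, ← map_mul, ← map_mul, fitB_der]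
      have h3 : algebraMap (RatFunc κ) E (pol (𝒜.ρ ^ (N + 1))) =
          algebraMap (RatFunc κ) E (pol 𝒜.ρ) * algebraMap (RatFunc κ) E (pol (𝒜.ρ ^ N)) := by
        rw [← map_mul, ← map_mul, pow_succ']
      rw [Function.iterate_succ_apply', h3, hdv, hv]
      linear_combination -((d^[N]) z) * h2
    have h4 : d (v * e i) = v * d (e i) + e i * d v := by
      rw [Derivation.leibniz, smul_eq_mul, smul_eq_mul]
    have h5 : Tr κ E (d v * e i) = pol (derivative (𝒜.vrec c N i)) - Tr κ E (v * d (e i)) := by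
      have h6 := hC.tr_d (v * e i)
      rw [h4, map_add, ih i, hC.dK_pol, mul_comm (e i)] at h6
      linear_combination h6
    have h7 : algebraMap (RatFunc κ) E (pol 𝒜.ρ) * d (e i) = ∑ j, pol (𝒜.α i j) • e j := by
      conv_lhs => rw [← e.sum_repr (d (e i))]
      rw [← Algebra.smul_def, Finset.smul_sum]
      refine Finset.sum_congr rfl fun j _ => ?_
      rw [smul_smul, H.α]
    have h8 : pol 𝒜.ρ * Tr κ E (v * d (e i)) =
        ∑ j, pol (𝒜.α i j) * pol (𝒜.vrec c N j) := by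
      rw [← fitB_tr_mul]
      have h9 : algebraMap (RatFunc κ) E (pol 𝒜.ρ) * (v * d (e i)) =
          ∑ j, pol (𝒜.α i j) • (v * e j) := by
        have h10 : algebraMap (RatFunc κ) E (pol 𝒜.ρ) * (v * d (e i)) =
            v * (algebraMap (RatFunc κ) E (pol 𝒜.ρ) * d (e i)) := by ring
        rw [h10, h7, Finset.mul_sum]
        refine Finset.sum_congr rfl fun j _ => ?_
        rw [mul_smul_comm]
      rw [h9, map_sum]
      refine Finset.sum_congr rfl fun j _ => ?_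
      rw [map_smul, smul_eq_mul, ih j]
    have h11 : Tr κ E (algebraMap (RatFunc κ) E (pol (𝒜.ρ ^ (N + 1))) * (d^[N + 1]) z * e i) =
        pol 𝒜.ρ * Tr κ E (d v * e i) -
          pol ((N : κ[X]) * derivative 𝒜.ρ) * Tr κ E (v * e i) := by
      rw [h1, sub_mul, map_sub, mul_assoc, mul_assoc, fitB_tr_mul, fitB_tr_mul]
    rw [h11, h5, mul_sub, h8, ih i]
    show _ = pol (𝒜.ρ * derivative (𝒜.vrec c N i) - ∑ j, 𝒜.α i j * 𝒜.vrec c N j -
      (N : κ[X]) * derivative 𝒜.ρ * 𝒜.vrec c N i)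
    simp only [pol, map_sub, map_mul, map_sum]

/-- In terms of the coordinates: `d ^ N z = 0` if and only if the vector `vrec c N` is zero. -/
theorem Fits.iterate_eq_zero_iff (H : Fits 𝒜 e d y) {a : Fin n → ℕ}
    {dK : Derivation ℤ (RatFunc κ) (RatFunc κ)} (hC : Cov0 e a 𝒜.ρ dK d) (hρ : 𝒜.ρ ≠ 0) (z : E)
    (c : Fin n → κ[X]) (hz : ∀ i, Tr κ E (z * e i) = pol (c i)) (N : ℕ) :
    (d^[N]) z = 0 ↔ ∀ i, 𝒜.vrec c N i = 0 := by
  have hinj : Function.Injective (algebraMap κ[X] (RatFunc κ)) :=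
    IsFractionRing.injective κ[X] (RatFunc κ)
  constructor
  · intro h i
    have h1 := H.vrec_eq hC z c hz N i
    rw [h, mul_zero, zero_mul, map_zero] at h1
    apply hinj
    rw [map_zero]
    exact h1.symm
  · intro h
    have h1 : algebraMap (RatFunc κ) E (pol (𝒜.ρ ^ N)) * (d^[N]) z = 0 := by
      refine hC.nondeg _ fun i => ?_
      rw [H.vrec_eq hC z c hz N i, h i, pol, map_zero]
    have h2 : pol (𝒜.ρ ^ N) ≠ 0 := by
      intro h0
      have h3 : 𝒜.ρ ^ N = 0 := by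
        apply hinj
        rw [map_zero]
        exact h0
      exact pow_ne_zero N hρ h3
    calc (d^[N]) z = algebraMap (RatFunc κ) E ((pol (𝒜.ρ ^ N))⁻¹ * pol (𝒜.ρ ^ N)) * (d^[N]) z := by
          rw [inv_mul_cancel₀ h2, map_one, one_mul]
      _ = algebraMap (RatFunc κ) E ((pol (𝒜.ρ ^ N))⁻¹) *
          (algebraMap (RatFunc κ) E (pol (𝒜.ρ ^ N)) * (d^[N]) z) := by
          rw [map_mul, mul_assoc]
      _ = 0 := by rw [h1, mul_zero]

end MPadcCov
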