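import Mathlib

/-!
# Generalized inverses of matrices over a domain
-/

set_option autoImplicit false

namespace MPadcCov

open Matrix

/-- A linear map over a field has a generalized inverse. -/
theorem exists_generalized_inverse {K V W : Type*} [Field K] [AddCommGroup V] [Module K V]
    [AddCommGroup W] [Module K W] (f : V →ₗ[K] W) : ∃ g : W →ₗ[K] V, ∀ v, f (g (f v)) = f v := by
  obtain ⟨g, hg⟩ := (f.rangeRestrict).exists_rightInverse_of_surjective
    (LinearMap.range_rangeRestrict f)
  obtain ⟨g', hg'⟩ := LinearMap.exists_extend g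
  refine ⟨g', fun v => ?_⟩
  have h1 : g' (f v) = g (f.rangeRestrict v) := by
    have := LinearMap.congr_fun hg' (f.rangeRestrict v)
    exact this
  have h2 := LinearMap.congr_fun hg (f.rangeRestrict v)
  rw [h1]
  exact congrArg Subtype.val h2

/-- A matrix `N` over a domain has, up to a nonzero factor `μ`, a projection `Q` on its kernel. -/
theorem exists_kernel_projection {R : Type*} [CommRing R] [IsDomain R] {m g : Type*} [Fintype m]
    [DecidableEq m] [Fintype g] [DecidableEq g] (N : Matrix m g R) :
    ∃ (μ : R) (L : Matrix g m R) (Q : Matrix g g R), μ ≠ 0 ∧ μ • (1 : Matrix g g R) = L * N + Q ∧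
      N * Q = 0 := by
  classical
  set K := FractionRing R
  set N' : Matrix m g K := N.map (algebraMap R K) with hN'
  obtain ⟨G, hG⟩ := exists_generalized_inverse (Matrix.toLin' N')
  set G' : Matrix g m K := LinearMap.toMatrix' G with hG'
  have h1 : N' * G' * N' = N' := by
    apply (Matrix.toLin' (R := K)).injective
    rw [Matrix.toLin'_mul, Matrix.toLin'_mul, hG', Matrix.toLin'_toMatrix']
    apply LinearMap.ext
    intro v
    exact hG v
  obtain ⟨b, hb⟩ := IsLocalization.exist_integer_multiples_of_finset (nonZeroDivisors R)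
    (Finset.univ.image fun x : g × m => G' x.1 x.2)
  have hb0 : (b : R) ≠ 0 := nonZeroDivisors.ne_zero b.2
  have h2 : ∀ i j, ∃ r : R, algebraMap R K r = algebraMap R K b * G' i j := by
    intro i j
    obtain ⟨r, hr⟩ := hb (G' i j) (Finset.mem_image.2 ⟨(i, j), Finset.mem_univ _, rfl⟩)
    exact ⟨r, by rw [hr, Algebra.smul_def]⟩
  choose r hr using h2
  set L : Matrix g m R := Matrix.of r with hL
  have hL' : L.map (algebraMap R K) = algebraMap R K b • G' := by
    ext i j
    rw [Matrix.map_apply, hL, Matrix.of_apply, hr, Matrix.smul_apply, smul_eq_mul]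
  refine ⟨b, L, (b : R) • (1 : Matrix g g R) - L * N, hb0, by rw [add_sub_cancel], ?_⟩
  have hinj : Function.Injective fun M : Matrix m g R => M.map (algebraMap R K) := by
    intro M M' h
    ext i j
    have := congrFun (congrFun h i) j
    exact IsFractionRing.injective R K this
  apply hinj
  simp only [Matrix.mul_sub, Matrix.mul_smul, Matrix.mul_one]
  rw [Matrix.map_sub _ (map_sub _), Matrix.map_mul, Matrix.map_mul, hL', ← hN']
  ext i j
  have h3 := congrFun (congrFun h1 i) j
  simp only [Matrix.mul_smul, Matrix.smul_mul, Matrix.sub_apply, Matrix.map_apply,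
    Matrix.smul_apply, smul_eq_mul, map_mul, Matrix.zero_apply, map_zero, ← Matrix.mul_assoc,
    h3]
  rw [hN', Matrix.map_apply, sub_self]

end MPadcCov
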