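import Mathlib

/-!
# JOB Null: transfer of (only the trivial zero) by the Nullstellensatz

Let `P l = P.coeff l`, finitely many polynomials in `MvPolynomial ι A` (`l ∈ P.support`), and `Q l` their
images in `MvPolynomial ι k`. By `hP` the only common zero of the `Q l` in `ι → k` is `0`
(`Polynomial.ext`, `coeff_map`; the value at `c` of the coefficient `l` of `P.map (eval₂Hom …)` is
`eval c (Q l)`). Hence every variable `X i` vanishes on the zero locus of `I = Ideal.span {Q l}`, so
`X i ∈ I.radical` (`MvPolynomial.vanishingIdeal_zeroLocus_eq_radical`), `X i ^ N = ∑ q i l * Q l`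
(`Ideal.mem_span_range_iff_exists_fun` or `Submodule.mem_span_finset`; one `N ≥ 1` for all `i`).
RETRACTION: let `F ⊆ k` be the field of fractions of `A` (e.g. `FractionRing A` with the `A`-algebra
structure of `k`, or the subfield generated by `A`). There is an `F`-linear map `π : k → F` with
`π 1 = 1` (`LinearMap.exists_leftInverse_of_injective` for `F → k`). Apply it to the coefficients of
the `q i l` (`X i ^ N` and `Q l` have coefficients in `F`, so the identity is preserved: compare
coefficients). Clear the denominators: `b • X i ^ N = ∑ r i l * P l` with `b ∈ A`, `b ≠ 0`,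
`r i l ∈ MvPolynomial ι A` (`IsLocalization.exist_integer_multiples_of_finset`). Apply
`eval₂Hom ψ c`: `ψ b * c i ^ N = 0`.
(Alternative without retraction: `X i ^ N ∈ span` over `k` implies the same over `F` by linear
algebra.)
-/

set_option autoImplicit false

namespace MPadcCov

open Polynomial

universe u v

theorem null {k : Type u} [Field k] [IsAlgClosed k] (A : Subalgebra ℤ k) {ι : Type v} [Finite ι]
    (P : (MvPolynomial ι A)[X])
    (hP : ∀ c : ι → k, P.map (MvPolynomial.eval₂Hom (algebraMap A k) c) = 0 → c = 0) :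
    ∃ b : A, b ≠ 0 ∧ ∀ {κ : Type u} [Field κ] (ψ : A →+* κ), ψ b ≠ 0 → ∀ c : ι → κ,
      P.map (MvPolynomial.eval₂Hom ψ c) = 0 → c = 0 := by
  classical
  have := Fintype.ofFinite ι
  let _ : Algebra (FractionRing A) k := FractionRing.liftAlgebra A k
  have _ : IsScalarTower A (FractionRing A) k := FractionRing.isScalarTower_liftAlgebra A k
  let _ : Algebra (MvPolynomial ι A) (MvPolynomial ι (FractionRing A)) :=
    MvPolynomial.algebraMvPolynomial
  obtain ⟨J, hJ⟩ : ∃ J : Ideal (MvPolynomial ι A), J = Ideal.span (Set.range P.coeff) := ⟨_, rfl⟩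
  have hX : ∀ i, (MvPolynomial.X i : MvPolynomial ι (FractionRing A)) ∈
      (J.map (algebraMap (MvPolynomial ι A) (MvPolynomial ι (FractionRing A)))).radical := by
    intro i
    rw [← MvPolynomial.vanishingIdeal_zeroLocus_eq_radical (K := k),
      MvPolynomial.mem_vanishingIdeal_iff]
    intro c hc
    have h0 : c = 0 := by
      refine hP c ?_
      ext l
      rw [Polynomial.coeff_map, Polynomial.coeff_zero]
      have h1 : P.coeff l ∈ J := by
        rw [hJ]
        exact Ideal.subset_span ⟨l, rfl⟩
      have h2 := hc _ (Ideal.mem_map_of_mem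
        (algebraMap (MvPolynomial ι A) (MvPolynomial ι (FractionRing A))) h1)
      rw [MvPolynomial.algebraMap_def, MvPolynomial.aeval_map_algebraMap] at h2
      exact h2
    rw [h0, MvPolynomial.aeval_X, Pi.zero_apply]
  have hb : ∀ i, ∃ (N : ℕ) (b : A), b ≠ 0 ∧
      (MvPolynomial.X i : MvPolynomial ι A) ^ N * MvPolynomial.C b ∈ J := by
    intro i
    obtain ⟨N, hN⟩ := hX i
    rw [IsLocalization.mem_map_algebraMap_iff
      ((nonZeroDivisors A).map (MvPolynomial.C (σ := ι)))] at hN
    obtain ⟨⟨⟨x, hx⟩, ⟨m, hm⟩⟩, h1⟩ := hN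
    obtain ⟨b, hb, rfl⟩ := hm
    refine ⟨N, b, nonZeroDivisors.ne_zero hb, ?_⟩
    have hinj : Function.Injective
        (algebraMap (MvPolynomial ι A) (MvPolynomial ι (FractionRing A))) := by
      rw [MvPolynomial.algebraMap_def]
      exact MvPolynomial.map_injective _ (IsFractionRing.injective A (FractionRing A))
    have h2 : (MvPolynomial.X i : MvPolynomial ι A) ^ N * MvPolynomial.C b = x := by
      apply hinj
      rw [map_mul, map_pow]
      have h3 : algebraMap (MvPolynomial ι A) (MvPolynomial ι (FractionRing A))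
          (MvPolynomial.X i) = MvPolynomial.X i := by
        rw [MvPolynomial.algebraMap_def, MvPolynomial.map_X]
      rw [h3]
      exact h1
    rw [h2]
    exact hx
  choose N b hb0 hbJ using hb
  refine ⟨∏ i, b i, Finset.prod_ne_zero_iff.2 fun i _ => hb0 i, ?_⟩
  intro κ _ ψ hψ c hc
  have hker : ∀ p ∈ J, MvPolynomial.eval₂Hom ψ c p = 0 := by
    intro p hp
    have h1 : J ≤ RingHom.ker (MvPolynomial.eval₂Hom ψ c) := by
      rw [hJ, Ideal.span_le]
      rintro _ ⟨l, rfl⟩
      have h2 := congrArg (fun q : κ[X] => q.coeff l) hc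
      simp only [Polynomial.coeff_map, Polynomial.coeff_zero] at h2
      exact h2
    exact h1 hp
  funext i
  have h1 := hker _ (hbJ i)
  rw [map_mul, map_pow, MvPolynomial.eval₂Hom_X', MvPolynomial.eval₂Hom_C] at h1
  have h2 : ψ (b i) ≠ 0 := by
    rw [map_prod] at hψ
    exact Finset.prod_ne_zero_iff.1 hψ i (Finset.mem_univ i)
  rcases mul_eq_zero.1 h1 with h3 | h3
  · by_contra h4
    exact pow_ne_zero _ h4 h3
  · exact absurd h3 h2

end MPadcCov
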