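import Pool.Agent.Lib.MP_adc574_ag_Cov.Def

/-!
# JOB RegE: regular forms (by integrality) lie in the lattice `InReg`

* `intX_basis`: the elements with `InB e z` form a subring `B` of `E` (`Cov0.one`, `Cov0.mul`,
  `Module.Basis.sum_repr`), which is generated as a `κ[x]`-module by the `e i`: so every `z` with
  `InB e z` is integral over `κ[x]` (`RingHom.IsIntegralElem`: use e.g.
  `IsIntegral.of_mem_of_fg` / `isIntegral_of_mem_of_FG` for the subalgebra with a local
  `Algebra κ[X] E` instance `((algebraMap (RatFunc κ) E).comp (algebraMap κ[X] (RatFunc κ))).toAlgebra`,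
  or the characteristic polynomial (Cayley-Hamilton) of the matrix of `z`).
* `intI_basis`: put `f i = x ^ (- a i) • e i`. `f i * f j = ∑ s i j k x ^ (a k - a i - a j) • f k`, and a
  polynomial `s` of degree `≤ a i + a j - a k` times `x ^ (a k - a i - a j)` is a polynomial in `1/x`
  (if `a i + a j - a k < 0` then `s = 0`); `1 = ∑ u k x ^ (a k) • f k` where `u k` is a polynomial of
  degree `≤ - a k`: zero or a constant with `a k = 0`. So the `κ[1/x]`-span of the `f i` is a subring and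
  its elements are integral over `κ[1/x]` (same argument).
* `isReg_inReg`: `IsPol` from `IntX (e i)`; `Tr (φ * f i) = x ^ (- a i) Tr (φ * e i)` has degree
  `≤ -2`.
-/

set_option autoImplicit false

namespace MPadcCov

open Polynomial

variable {κ : Type*} [Field κ] {E : Type*} [CommRing E] [Algebra (RatFunc κ) E] {n : ℕ}
  {e : Module.Basis (Fin n) (RatFunc κ) E} {a : Fin n → ℕ} {ρ : κ[X]}
  {dK : Derivation ℤ (RatFunc κ) (RatFunc κ)} {d : Derivation ℤ E E}

private theorem RegE_int {R : Type*} [CommRing R] {K : Type*} [Field K] {E : Type*} [CommRing E]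
    [Algebra K E] {n : ℕ} (ψ : R →+* K) (f : Fin n → E)
    (hone : ∃ u : Fin n → R, (1 : E) = ∑ k, algebraMap K E (ψ (u k)) * f k)
    (hmul : ∀ i j, ∃ c : Fin n → R, f i * f j = ∑ k, algebraMap K E (ψ (c k)) * f k)
    (z : E) (hz : ∃ c : Fin n → R, z = ∑ k, algebraMap K E (ψ (c k)) * f k) :
    ((algebraMap K E).comp ψ).IsIntegralElem z := by
  let _ : Algebra R E := ((algebraMap K E).comp ψ).toAlgebra
  have hmem : ∀ w : E, (∃ c : Fin n → R, w = ∑ k, algebraMap K E (ψ (c k)) * f k) →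
      w ∈ Submodule.span R (Set.range f) := by
    rintro w ⟨c, hc⟩
    rw [hc]
    refine Submodule.sum_mem _ fun k _ => ?_
    have h1 : algebraMap K E (ψ (c k)) * f k = c k • f k := (Algebra.smul_def (c k) (f k)).symm
    rw [h1]
    exact Submodule.smul_mem _ _ (Submodule.subset_span ⟨k, rfl⟩)
  have hM : Submodule.span R (Set.range f) * Submodule.span R (Set.range f) ≤
      Submodule.span R (Set.range f) := by
    rw [Submodule.span_mul_span, Submodule.span_le]
    intro w hw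
    obtain ⟨_, ⟨i, rfl⟩, _, ⟨j, rfl⟩, rfl⟩ := Set.mem_mul.mp hw
    exact hmem _ (hmul i j)
  have h1 : IsIntegral R z := IsIntegral.of_mem_of_fg
    (Submodule.toSubalgebra (Submodule.span R (Set.range f)) (hmem 1 hone)
      (fun x y hx hy => hM (Submodule.mul_mem_mul hx hy)))
    (by
      rw [Submodule.toSubalgebra_toSubmodule]
      exact Submodule.fg_span (Set.finite_range f)) z (hmem z hz)
  exact h1

private theorem RegE_inv {κ : Type*} [Field κ] (A B : ℕ) (r : RatFunc κ) (h : IsPol r)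
    (hd : Dle r ((A : ℤ) - B)) : ∃ c : κ[X],
      (aeval (RatFunc.X⁻¹ : RatFunc κ) : κ[X] →ₐ[κ] RatFunc κ).toRingHom c =
        RatFunc.X⁻¹ ^ A * r * RatFunc.X ^ B := by
  have hX : (RatFunc.X : RatFunc κ) ≠ 0 := RatFunc.X_ne_zero
  rcases hd with h0 | hd
  · refine ⟨0, ?_⟩
    rw [map_zero, h0]
    ring
  · obtain ⟨q, rfl⟩ := h
    by_cases hq : q = 0
    · refine ⟨0, ?_⟩
      rw [map_zero, hq, pol, map_zero]
      ring
    · rw [pol, RatFunc.intDegree_polynomial] at hd
      obtain ⟨N, hN⟩ : ∃ N, A = N + B := ⟨A - B, by omega⟩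
      have hqN : q.natDegree < N + 1 := by
        rw [hN] at hd
        push_cast at hd
        omega
      refine ⟨∑ i ∈ Finset.range (N + 1), C (q.coeff i) * X ^ (N - i), ?_⟩
      have h1 : (aeval (RatFunc.X⁻¹ : RatFunc κ) : κ[X] →ₐ[κ] RatFunc κ)
          (∑ i ∈ Finset.range (N + 1), C (q.coeff i) * X ^ (N - i)) =
          ∑ i ∈ Finset.range (N + 1), algebraMap κ (RatFunc κ) (q.coeff i) *
            (RatFunc.X⁻¹ : RatFunc κ) ^ (N - i) := by
        rw [map_sum]
        refine Finset.sum_congr rfl fun i _ => ?_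
        rw [map_mul, map_pow, aeval_C, aeval_X]
      show (aeval (RatFunc.X⁻¹ : RatFunc κ) : κ[X] →ₐ[κ] RatFunc κ) _ = _
      rw [h1]
      have h2 : pol q = ∑ i ∈ Finset.range (N + 1), algebraMap κ (RatFunc κ) (q.coeff i) *
          (RatFunc.X : RatFunc κ) ^ i := by
        conv_lhs => rw [q.as_sum_range' (N + 1) hqN]
        rw [pol, map_sum]
        refine Finset.sum_congr rfl fun i _ => ?_
        rw [← C_mul_X_pow_eq_monomial, map_mul, map_pow, RatFunc.algebraMap_C,
          RatFunc.algebraMap_X, RatFunc.algebraMap_eq_C]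
      rw [h2, Finset.mul_sum, Finset.sum_mul]
      refine Finset.sum_congr rfl fun i hi => ?_
      obtain ⟨m, hm⟩ : ∃ m, N = m + i := ⟨N - i, by
        have := Finset.mem_range.mp hi
        omega⟩
      rw [hN, hm, Nat.add_sub_cancel, pow_add, pow_add, inv_pow, inv_pow, inv_pow]
      field_simp

private theorem RegE_self {κ : Type*} [Field κ] {E : Type*} [CommRing E] [Algebra (RatFunc κ) E]
    {n : ℕ} (e : Module.Basis (Fin n) (RatFunc κ) E) (i : Fin n) : InB e (e i) := by
  intro k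
  rw [e.repr_self, Finsupp.single_apply]
  split_ifs
  · exact ⟨1, map_one _⟩
  · exact ⟨0, map_zero _⟩

private theorem RegE_sum {κ : Type*} [Field κ] {E : Type*} [CommRing E] [Algebra (RatFunc κ) E]
    {n : ℕ} (e : Module.Basis (Fin n) (RatFunc κ) E) (z : E) :
    z = ∑ k, algebraMap (RatFunc κ) E (e.repr z k) * e k := by
  conv_lhs => rw [← e.sum_repr z]
  exact Finset.sum_congr rfl fun k _ => Algebra.smul_def _ _

theorem Cov0.intX_basis (H : Cov0 e a ρ dK d) (z : E) (hz : InB e z) : IntX κ z := by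
  have hc : ∀ w : E, InB e w → ∃ c : Fin n → κ[X], w = ∑ k, algebraMap (RatFunc κ) E
      (algebraMap κ[X] (RatFunc κ) (c k)) * e k := by
    intro w hw
    choose c hc using hw
    refine ⟨c, ?_⟩
    conv_lhs => rw [RegE_sum e w]
    refine Finset.sum_congr rfl fun k _ => ?_
    rw [← hc k]
  exact RegE_int (algebraMap κ[X] (RatFunc κ)) (fun k => e k) (hc 1 fun k => (H.one k).1)
    (fun i j => hc _ fun k => (H.mul i j k).1) z (hc z hz)

theorem Cov0.intI_basis (H : Cov0 e a ρ dK d) (i : Fin n) :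
    IntI κ (algebraMap (RatFunc κ) E (RatFunc.X⁻¹ ^ a i) * e i) := by
  have hX : (RatFunc.X : RatFunc κ) ≠ 0 := RatFunc.X_ne_zero
  have hc : ∀ (w : E) (A : ℕ), (∀ k, IsPol (e.repr w k) ∧ Dle (e.repr w k) ((A : ℤ) - a k)) →
      ∃ c : Fin n → κ[X], algebraMap (RatFunc κ) E (RatFunc.X⁻¹ ^ A) * w =
        ∑ k, algebraMap (RatFunc κ) E
          ((aeval (RatFunc.X⁻¹ : RatFunc κ) : κ[X] →ₐ[κ] RatFunc κ).toRingHom (c k)) *
          (algebraMap (RatFunc κ) E (RatFunc.X⁻¹ ^ a k) * e k) := by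
    intro w A hw
    have h1 : ∀ k, ∃ c : κ[X],
        (aeval (RatFunc.X⁻¹ : RatFunc κ) : κ[X] →ₐ[κ] RatFunc κ).toRingHom c =
          RatFunc.X⁻¹ ^ A * e.repr w k * RatFunc.X ^ a k :=
      fun k => RegE_inv A (a k) _ (hw k).1 (hw k).2
    choose c hc using h1
    refine ⟨c, ?_⟩
    conv_lhs => rw [RegE_sum e w, Finset.mul_sum]
    refine Finset.sum_congr rfl fun k _ => ?_
    rw [hc k, ← mul_assoc, ← mul_assoc, ← map_mul, ← map_mul]
    congr 2
    rw [mul_assoc _ (RatFunc.X ^ a k), ← mul_pow, mul_inv_cancel₀ hX, one_pow, mul_one]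
  refine RegE_int (aeval (RatFunc.X⁻¹ : RatFunc κ) : κ[X] →ₐ[κ] RatFunc κ).toRingHom
    (fun k => algebraMap (RatFunc κ) E (RatFunc.X⁻¹ ^ a k) * e k) ?_ ?_ _ ?_
  · obtain ⟨c, h1⟩ := hc 1 0 (fun k => ⟨(H.one k).1, by
      rw [Nat.cast_zero, zero_sub]
      exact (H.one k).2⟩)
    refine ⟨c, ?_⟩
    rw [← h1, pow_zero, map_one, one_mul]
  · intro i j
    obtain ⟨c, h1⟩ := hc (e i * e j) (a i + a j) (fun k => ⟨(H.mul i j k).1, by
      rw [Nat.cast_add]
      exact (H.mul i j k).2⟩)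
    refine ⟨c, ?_⟩
    rw [← h1, pow_add, map_mul]
    ring
  · refine ⟨Pi.single i 1, ?_⟩
    rw [Finset.sum_eq_single i]
    · rw [Pi.single_eq_same, map_one, map_one, one_mul]
    · intro k _ hk
      rw [Pi.single_eq_of_ne hk, map_zero, map_zero, zero_mul]
    · intro hi
      exact absurd (Finset.mem_univ i) hi

theorem Cov0.isReg_inReg (H : Cov0 e a ρ dK d) (φ : E) (hφ : IsReg (κ := κ) φ) : InReg e a φ := by
  have hX : (RatFunc.X : RatFunc κ) ≠ 0 := RatFunc.X_ne_zero
  intro i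
  refine ⟨hφ.1 (e i) (H.intX_basis (e i) (RegE_self e i)), ?_⟩
  have h1 := hφ.2 _ (H.intI_basis i)
  have h2 : Tr κ E (φ * (algebraMap (RatFunc κ) E (RatFunc.X⁻¹ ^ a i) * e i)) =
      RatFunc.X⁻¹ ^ a i * Tr κ E (φ * e i) := by
    have h3 : φ * (algebraMap (RatFunc κ) E (RatFunc.X⁻¹ ^ a i) * e i) =
        (RatFunc.X⁻¹ ^ a i : RatFunc κ) • (φ * e i) := by
      rw [Algebra.smul_def]
      ring
    rw [h3, map_smul, smul_eq_mul]
  rw [h2] at h1
  by_cases h0 : Tr κ E (φ * e i) = 0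
  · exact Or.inl h0
  · right
    have hXi : (RatFunc.X⁻¹ ^ a i : RatFunc κ) ≠ 0 := pow_ne_zero _ (inv_ne_zero hX)
    rcases h1 with h1 | h1
    · exact absurd h1 (mul_ne_zero hXi h0)
    · rw [RatFunc.intDegree_mul hXi h0, inv_pow, RatFunc.intDegree_inv] at h1
      have h4 : (RatFunc.X ^ a i : RatFunc κ).intDegree = a i := by
        rw [← RatFunc.algebraMap_X, ← map_pow, RatFunc.intDegree_polynomial, natDegree_X_pow]
      rw [h4] at h1
      linarith

end MPadcCov
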