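import Pool.Agent.Lib.MP_adc574_ag_Cov.Spec
import Pool.Agent.Lib.MP_adc574_ag_Cov.FitA
import Pool.Agent.Lib.MP_adc574_ag_Cov.FitB
import Pool.Agent.Lib.MP_adc574_ag_Cov.Null
import Pool.Agent.Lib.MP_adc574_ag_Cov.Jac
import Pool.Agent.Lib.MP_adc574_ag_Cov.RegE
import Pool.Agent.Lib.MP_adc574_ag_Cov.ExE
import Pool.Agent.Lib.MP_adc574_ag_Cov.Core
import Pool.Agent.Lib.MP_adc574_ag_Cov.LinA
import Pool.Agent.Lib.MP_adc574_ag_Cov.PtA
import Pool.Agent.Lib.MP_adc574_ag_Cov.PtB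
import Pool.Agent.Lib.MP_adc574_ag_GM.Fields

/-!
# Closed points at which the exact regular forms do not generate the function field
-/

set_option autoImplicit false

namespace MPadcCov

open Polynomial

universe u

private theorem infinite_of_der {K : Type*} [Field K] (p : ℕ) [Fact p.Prime] [CharP K p]
    (D : Derivation ℤ K K) (t : K) (ht : D t = 1) : Infinite K := by
  by_contra hinf
  rw [not_infinite_iff_finite] at hinf
  have hsur : Function.Surjective (frobenius K p) :=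
    Finite.injective_iff_surjective.1 (frobenius_inj K p)
  obtain ⟨s, hs⟩ := hsur t
  rw [frobenius_def] at hs
  rw [← hs, Derivation.leibniz_pow, nsmul_eq_mul, CharP.cast_eq_zero, zero_mul] at ht
  exact zero_ne_one ht

/-- The composition of the generic discriminant with a matrix. -/
private noncomputable def PQ {A R : Type*} [CommRing A] [CommRing R] (μ : A →+* R) {n : ℕ}
    (𝒜 : Arr A n) (a : Fin n → ℕ) (Q : Matrix (Ix a) (Ix a) R) : (MvPolynomial (Ix a) R)[X] :=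
  (genP 𝒜 a).map (MvPolynomial.eval₂Hom (MvPolynomial.C.comp μ)
    fun m => ∑ m', MvPolynomial.C (Q m m') * MvPolynomial.X m')

private theorem PQ_map {A R S : Type*} [CommRing A] [CommRing R] [CommRing S] (μ : A →+* R)
    {n : ℕ} (𝒜 : Arr A n) (a : Fin n → ℕ) (Q : Matrix (Ix a) (Ix a) R) (χ : R →+* S)
    (u : Ix a → S) : (PQ μ 𝒜 a Q).map (MvPolynomial.eval₂Hom χ u) =
      (𝒜.map (χ.comp μ)).dsc ((𝒜.map (χ.comp μ)).rho (cp a ((Q.map χ).mulVec u))) := by
  rw [← genP_map, PQ, Polynomial.map_map]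
  congr 1
  apply MvPolynomial.ringHom_ext
  · intro r
    simp
  · intro m
    simp [Matrix.mulVec, dotProduct, map_sum]

theorem points_aux {k : Type u} [Field k] [CharZero k] {A : Subalgebra ℤ k} {L : Type u}
    [CommRing L] [Algebra (RatFunc k) L] {n : ℕ} {e : Module.Basis (Fin n) (RatFunc k) L}
    {a : Fin n → ℕ} {𝒜 : Arr A n} {dK : Derivation ℤ (RatFunc k) (RatFunc k)}
    {d : Derivation ℤ L L} {y : L} {F : A[X][X]} (H : CovIn A e a 𝒜 dK d y F)
    {δ : Derivation ℤ A A} {DK : Derivation ℤ (RatFunc k) (RatFunc k)} {D : Derivation ℤ L L}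
    (HD : DerIn A e a 𝒜 d δ DK D) (hA : A.FG) (f : A) (hf : f ≠ 0) :
    ∃ p₀ : ℕ, ∀ p : ℕ, p₀ ≤ p → p.Prime → ∃ 𝔪 : Ideal A, 𝔪.IsMaximal ∧ f ∉ 𝔪 ∧
      (p : A) ∈ 𝔪 ∧ Finite (A ⧸ 𝔪) ∧ ∀ (κ : Type u) [Field κ] (ψ : A →+* κ),
        RingHom.ker ψ = 𝔪 → ∀ c : Ix a → κ, (∀ i, (𝒜.map ψ).vrec (cp a c) (p - 1) i = 0) →
          (𝒜.map ψ).dsc ((𝒜.map ψ).rho (cp a c)) = 0 := by
  classical
  obtain ⟨b, hb, hspec⟩ := spec H HD
  have hft : Algebra.FiniteType ℤ A := A.fg_iff_finiteType.1 hA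
  obtain ⟨B, hB⟩ := MPadcGM.exists_fields A
  refine ⟨B 0 + B (f * b) + (genP 𝒜 a).natDegree + 3, fun p hp hprime => ?_⟩
  have hpf : Fact p.Prime := ⟨hprime⟩
  obtain ⟨kp, _, φ, hchar, hder, hne⟩ := hB p hprime (by omega)
  have hφ : φ (f * b) ≠ 0 := hne _ (mul_ne_zero hf hb) (by omega)
  have hφb : φ b ≠ 0 := fun h => hφ (by rw [map_mul, h, mul_zero])
  obtain ⟨δ', hδ'⟩ := hder δ
  obtain ⟨E, _, _, e', y', dK', d', hC0, hFits, hsep, heq, hC1⟩ := hspec φ hφb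
  obtain ⟨DK', D', HC1⟩ := hC1 δ' hδ'
  have hinf : Infinite kp := infinite_of_der p δ' _ HC1.δt
  have hρm : (𝒜.map φ).ρ.Monic := (monic_X_sub_C _).mul HC1.monic
  -- the core
  have hzero : ∀ c : Ix a → kp, (∀ i, (𝒜.map φ).vrec (cp a c) (p - 1) i = 0) →
      (𝒜.map φ).dsc ((𝒜.map φ).rho (cp a c)) = 0 := by
    intro c hc
    obtain ⟨z, hz⟩ := hFits.exists_form (cp a c)
    have hreg : InReg e' a z := fun i => by
      rw [hz i]
      exact ⟨⟨_, rfl⟩, cp_dle a c i⟩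
    have hex : (d'^[p - 1]) z = 0 :=
      (hFits.iterate_eq_zero_iff hC0 hρm.ne_zero z (cp a c) hz (p - 1)).2 hc
    obtain ⟨q, hq⟩ := core e' p (by omega) a _ _ δ' dK' DK' d' D' HC1 z hreg hex
    have h1 := hFits.tr_dsc (algebraMap (RatFunc kp) E (pol (𝒜.map φ).ρ) * z)
      ((𝒜.map φ).rho (cp a c)) (fun j => hFits.rho_eq hC0.nondeg z (cp a c) hz j)
    have h2 : pol ((𝒜.map φ).dsc ((𝒜.map φ).rho (cp a c))) =
        pol ((X - C (𝒜.map φ).t) ^ p * q) := h1.symm.trans hq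
    have h3 : (𝒜.map φ).dsc ((𝒜.map φ).rho (cp a c)) = (X - C (𝒜.map φ).t) ^ p * q :=
      RatFunc.algebraMap_injective kp h2
    by_contra hne0
    have hq0 : q ≠ 0 := by
      rintro rfl
      rw [mul_zero] at h3
      exact hne0 h3
    have h4 := congrArg natDegree h3
    rw [natDegree_mul (pow_ne_zero _ (X_sub_C_ne_zero _)) hq0, natDegree_pow,
      natDegree_X_sub_C, mul_one] at h4
    have h5 := genP_degree 𝒜 a φ c
    omega
  -- linear algebra over `R = A / ker φ`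
  have hprimeI : (RingHom.ker φ).IsPrime := RingHom.ker_isPrime φ
  obtain ⟨L0, hL0⟩ := exists_linM 𝒜 a (p - 1)
  obtain ⟨μ, Lm, Q, hμ, hmu, hNQ⟩ := exists_kernel_projection
    ((linM 𝒜 a (p - 1) L0).map (Ideal.Quotient.mk (RingHom.ker φ)))
  obtain ⟨μ', rfl⟩ := Ideal.Quotient.mk_surjective μ
  have hφμ : φ μ' ≠ 0 := fun h => hμ (Ideal.Quotient.eq_zero_iff_mem.2 h)
  set φ' : (A ⧸ RingHom.ker φ) →+* kp := Ideal.Quotient.lift _ φ (fun _ h => h) with hφ'
  have hφ'c : φ'.comp (Ideal.Quotient.mk (RingHom.ker φ)) = φ := Ideal.Quotient.lift_comp_mk _ _ _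
  have hφ'i : Function.Injective φ' := RingHom.kerLift_injective φ
  have hPQ : PQ (Ideal.Quotient.mk (RingHom.ker φ)) 𝒜 a Q = 0 := by
    ext1 l
    rw [coeff_zero]
    apply MvPolynomial.map_injective φ' hφ'i
    rw [map_zero]
    apply MvPolynomial.funext
    intro u
    rw [map_zero, MvPolynomial.eval_map]
    have h1 := PQ_map (Ideal.Quotient.mk (RingHom.ker φ)) 𝒜 a Q φ' u
    rw [hφ'c] at h1
    have h2 : ∀ i, (𝒜.map φ).vrec (cp a ((Q.map φ').mulVec u)) (p - 1) i = 0 := by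
      rw [hL0, Matrix.mulVec_mulVec]
      have h3 : (linM 𝒜 a (p - 1) L0).map φ * Q.map φ' = 0 := by
        have h4 : (linM 𝒜 a (p - 1) L0).map φ =
            ((linM 𝒜 a (p - 1) L0).map (Ideal.Quotient.mk (RingHom.ker φ))).map φ' := by
          rw [Matrix.map_map]
          rfl
        rw [h4, ← Matrix.map_mul, hNQ]
        ext i j
        simp
      rw [h3, Matrix.zero_mulVec]
    rw [hzero _ h2] at h1
    have h3 := congrArg (fun q => q.coeff l) h1
    simp only [coeff_map, coeff_zero] at h3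
    exact h3
  -- the maximal ideal
  have hg : φ (f * b * μ') ≠ 0 := by
    rw [map_mul]
    exact mul_ne_zero hφ hφμ
  obtain ⟨𝔪, h𝔪, hker, hg𝔪, hfin⟩ := exists_max φ (f * b * μ') hg
  refine ⟨𝔪, h𝔪, fun h => hg𝔪 (𝔪.mul_mem_right _ (𝔪.mul_mem_right _ h)), hker ?_, hfin, ?_⟩
  · rw [RingHom.mem_ker, map_natCast]
    exact CharP.cast_eq_zero kp p
  · intro κ _ ψ hψ c hc
    have hle : RingHom.ker φ ≤ RingHom.ker ψ := hψ ▸ hker
    have hψμ : ψ μ' ≠ 0 := by
      intro h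
      apply hg𝔪
      rw [← hψ, RingHom.mem_ker, map_mul, h, mul_zero]
    set ψ' : (A ⧸ RingHom.ker φ) →+* κ := Ideal.Quotient.lift _ ψ (fun _ h => hle h) with hψ'
    have hψ'c : ψ'.comp (Ideal.Quotient.mk (RingHom.ker φ)) = ψ :=
      Ideal.Quotient.lift_comp_mk _ _ _
    have hψ'μ : ψ' (Ideal.Quotient.mk (RingHom.ker φ) μ') = ψ μ' := RingHom.congr_fun hψ'c μ'
    set u : Ix a → κ := (ψ μ')⁻¹ • c with hu
    rw [hL0] at hc
    have h1 : ((linM 𝒜 a (p - 1) L0).map ψ).mulVec u = 0 := by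
      rw [hu, Matrix.mulVec_smul, hc, smul_zero]
    have h2 : (Q.map ψ').mulVec u = c := by
      have h3 : ψ μ' • (1 : Matrix (Ix a) (Ix a) κ) =
          Lm.map ψ' * (linM 𝒜 a (p - 1) L0).map ψ + Q.map ψ' := by
        have h4 : (linM 𝒜 a (p - 1) L0).map ψ =
            ((linM 𝒜 a (p - 1) L0).map (Ideal.Quotient.mk (RingHom.ker φ))).map ψ' := by
          rw [Matrix.map_map]
          congr 1
        rw [h4, ← Matrix.map_mul, ← Matrix.map_add _ (map_add ψ'), ← hmu]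
        ext i j
        rw [Matrix.map_apply, Matrix.smul_apply, Matrix.smul_apply, Matrix.one_apply,
          Matrix.one_apply]
        split_ifs
        · rw [smul_eq_mul, smul_eq_mul, mul_one, mul_one, hψ'μ]
        · rw [smul_zero, smul_zero, map_zero]
      have h5 := congrArg (fun M : Matrix (Ix a) (Ix a) κ => M.mulVec u) h3
      simp only [Matrix.smul_mulVec, Matrix.one_mulVec, Matrix.add_mulVec,
        ← Matrix.mulVec_mulVec, h1, Matrix.mulVec_zero, zero_add] at h5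
      rw [← h5, hu, smul_smul, mul_inv_cancel₀ hψμ, one_smul]
    have h6 := PQ_map (Ideal.Quotient.mk (RingHom.ker φ)) 𝒜 a Q ψ' u
    rw [hPQ, Polynomial.map_zero, hψ'c, h2] at h6
    exact h6.symm

private theorem adjoin_mul {K E : Type*} [Field K] [CommRing E] [Algebra K E] {r : K} (hr : r ≠ 0)
    (z : E) (hz : Algebra.adjoin K {z} = ⊤) : Algebra.adjoin K {algebraMap K E r * z} = ⊤ := by
  rw [eq_top_iff, ← hz]
  apply Algebra.adjoin_le
  rw [Set.singleton_subset_iff]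
  have h1 : z = r⁻¹ • (algebraMap K E r * z) := by
    rw [← Algebra.smul_def, smul_smul, inv_mul_cancel₀ hr, one_smul]
  have h2 : r⁻¹ • (algebraMap K E r * z) ∈ Algebra.adjoin K {algebraMap K E r * z} :=
    Subalgebra.smul_mem _ (Algebra.self_mem_adjoin_singleton K _) _
  rw [← h1] at h2
  exact h2

private theorem adjoin_equiv {K E₁ E₂ : Type*} [Field K] [CommRing E₁] [CommRing E₂]
    [Algebra K E₁] [Algebra K E₂] (θ : E₁ ≃ₐ[K] E₂) (z : E₁) (hz : Algebra.adjoin K {z} = ⊤) :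
    Algebra.adjoin K {θ z} = ⊤ := by
  have h1 : (Algebra.adjoin K {z}).map (θ : E₁ →ₐ[K] E₂) = Algebra.adjoin K {θ z} := by
    rw [AlgHom.map_adjoin, Set.image_singleton]
    rfl
  rw [← h1, hz, Algebra.map_top, AlgHom.range_eq_top]
  exact θ.surjective

/-- If a nonzero form in the lattice generates `E`, the discriminant does not vanish. -/
private theorem dsc_ne_zero {κ : Type*} [Field κ] {E : Type*} [CommRing E]
    [Algebra (RatFunc κ) E] {n : ℕ} {e : Module.Basis (Fin n) (RatFunc κ) E} {𝒜 : Arr κ n}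
    {d : Derivation ℤ E E} {y : E} (hF : Fits 𝒜 e d y)
    (hn : ∀ z, (∀ i, Tr κ E (z * e i) = 0) → z = 0) (hρ : 𝒜.ρ ≠ 0) (z : E) (c : Fin n → κ[X])
    (hz : ∀ i, Tr κ E (z * e i) = pol (c i)) (hgen : Algebra.adjoin (RatFunc κ) {z} = ⊤) :
    𝒜.dsc (𝒜.rho c) ≠ 0 := by
  intro h0
  have hρ' : pol 𝒜.ρ ≠ 0 := by
    intro h
    exact hρ (RatFunc.algebraMap_injective κ (h.trans (map_zero _).symm))
  have h1 := hF.tr_dsc (algebraMap (RatFunc κ) E (pol 𝒜.ρ) * z) (𝒜.rho c)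
    (fun j => hF.rho_eq hn z c hz j)
  rw [h0] at h1
  apply det_ne_zero_of_adjoin e hn _ (adjoin_mul hρ' z hgen)
  rw [h1]
  exact map_zero _

/-- The coordinates of a regular form. -/
private theorem exists_coord {κ : Type*} [Field κ] {E : Type*} [CommRing E]
    [Algebra (RatFunc κ) E] {n : ℕ} {e : Module.Basis (Fin n) (RatFunc κ) E} {a : Fin n → ℕ}
    (z : E) (hz : InReg e a z) : ∃ c : Ix a → κ, ∀ i, Tr κ E (z * e i) = pol (cp a c i) := by
  choose q hq using fun i => (hz i).1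
  obtain ⟨c, hc⟩ := exists_cp a q (fun i => by rw [hq i]; exact (hz i).2)
  exact ⟨c, fun i => by rw [hc, hq i]⟩

theorem points {k : Type u} [Field k] [IsAlgClosed k] [CharZero k] {A : Subalgebra ℤ k}
    {L : Type u} [CommRing L] [Algebra (RatFunc k) L] {n : ℕ}
    {e : Module.Basis (Fin n) (RatFunc k) L} {a : Fin n → ℕ} {𝒜 : Arr A n}
    {dK : Derivation ℤ (RatFunc k) (RatFunc k)} {d : Derivation ℤ L L} {y : L} {F : A[X][X]}
    (H : CovIn A e a 𝒜 dK d y F) {δ : Derivation ℤ A A}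
    {DK : Derivation ℤ (RatFunc k) (RatFunc k)} {D : Derivation ℤ L L}
    (HD : DerIn A e a 𝒜 d δ DK D) (hA : A.FG) (f : A) (hf : f ≠ 0) :
    ∃ p₀ : ℕ, ∀ p : ℕ, p₀ ≤ p → p.Prime → ∃ 𝔪 : Ideal A, 𝔪.IsMaximal ∧ f ∉ 𝔪 ∧
      (p : A) ∈ 𝔪 ∧ Finite (A ⧸ 𝔪) ∧ ∀ (κ : Type u) [Field κ] (ψ : A →+* κ),
        RingHom.ker ψ = 𝔪 →
        (∀ φ : FR κ (F.map (mapRingHom ψ)), IsReg (κ := κ) φ → IsEx (κ := κ) φ →
          Algebra.adjoin (RatFunc κ) {φ} ≠ ⊤) ∧
        ((∀ φ : L, InReg e a φ → φ ≠ 0 → Algebra.adjoin (RatFunc k) {φ} = ⊤) →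
          ∀ φ : FR κ (F.map (mapRingHom ψ)), IsReg (κ := κ) φ → IsEx (κ := κ) φ → φ = 0) := by
  classical
  obtain ⟨b, hb, hspec⟩ := spec H HD
  -- the generator hypothesis and the Nullstellensatz
  obtain ⟨b', hb', hnull⟩ : ∃ b' : A, b' ≠ 0 ∧
      ((∀ φ : L, InReg e a φ → φ ≠ 0 → Algebra.adjoin (RatFunc k) {φ} = ⊤) →
        ∀ (κ : Type u) [Field κ] (ψ : A →+* κ), ψ b' ≠ 0 → ∀ c : Ix a → κ,
          (𝒜.map ψ).dsc ((𝒜.map ψ).rho (cp a c)) = 0 → c = 0) := by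
    by_cases hgen : ∀ φ : L, InReg e a φ → φ ≠ 0 → Algebra.adjoin (RatFunc k) {φ} = ⊤
    · obtain ⟨b', hb', hnull⟩ := null (ι := Ix a) A (genP 𝒜 a) (by
        intro c hc
        rw [genP_map] at hc
        by_contra hc0
        obtain ⟨z, hz⟩ := H.fits.exists_form (cp a c)
        have hreg : InReg e a z := fun i => by
          rw [hz i]
          exact ⟨⟨_, rfl⟩, cp_dle a c i⟩
        have hz0 : z ≠ 0 := by
          rintro rfl
          apply hc0
          apply cp_injective a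
          ext1 i
          have h1 := hz i
          rw [zero_mul, map_zero] at h1
          exact RatFunc.algebraMap_injective k (h1.symm.trans (map_zero _).symm)
        have hρ : (𝒜.map (algebraMap A k)).ρ ≠ 0 := by
          obtain ⟨s, hs⟩ := H.split
          have h1 : 𝒜.h₀.Monic := by
            rw [hs]
            exact monic_prod_of_monic _ _ fun b _ => monic_X_sub_C b
          exact ((monic_X_sub_C _).mul (h1.map _)).ne_zero
        exact dsc_ne_zero H.fits H.cov.nondeg hρ z (cp a c) hz (hgen z hreg hz0) hc)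
      refine ⟨b', hb', fun _ κ _ ψ hψ c hc => hnull ψ hψ c ?_⟩
      rw [genP_map]
      exact hc
    · exact ⟨1, one_ne_zero, fun h => absurd h hgen⟩
  obtain ⟨p₀, hp₀⟩ := points_aux H HD hA (f * b * b') (mul_ne_zero (mul_ne_zero hf hb) hb')
  refine ⟨p₀, fun p hp hprime => ?_⟩
  obtain ⟨𝔪, h𝔪, hg, hp𝔪, hfin, hker⟩ := hp₀ p hp hprime
  refine ⟨𝔪, h𝔪, fun h => hg (𝔪.mul_mem_right _ (𝔪.mul_mem_right _ h)), hp𝔪, hfin, ?_⟩
  intro κ _ ψ hψ
  have hψb : ψ b ≠ 0 := by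
    intro h
    apply hg
    rw [← hψ, RingHom.mem_ker, map_mul, map_mul, h, mul_zero, zero_mul]
  have hψb' : ψ b' ≠ 0 := by
    intro h
    apply hg
    rw [← hψ, RingHom.mem_ker, map_mul, h, mul_zero]
  have hpf : Fact p.Prime := ⟨hprime⟩
  have hchar : CharP κ p := by
    apply ringChar.of_eq
    apply CharP.ringChar_of_prime_eq_zero hprime
    rw [← map_natCast ψ, ← RingHom.mem_ker, hψ]
    exact hp𝔪
  obtain ⟨E, _, _, e', y', dK', d', hC0, hFits, hsep, heq, -⟩ := hspec ψ hψb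
  have hFF : F.map (fp ψ) = (F.map (mapRingHom ψ)).map (algebraMap κ[X] (RatFunc κ)) := by
    rw [Polynomial.map_map]
    rfl
  rw [hFF] at heq
  obtain ⟨θ⟩ := heq
  have hρ : (𝒜.map ψ).ρ ≠ 0 := by
    obtain ⟨s, hs⟩ := H.split
    have h1 : 𝒜.h₀.Monic := by
      rw [hs]
      exact monic_prod_of_monic _ _ fun b _ => monic_X_sub_C b
    exact ((monic_X_sub_C _).mul (h1.map _)).ne_zero
  have key : ∀ φ : FR κ (F.map (mapRingHom ψ)), IsReg (κ := κ) φ → IsEx (κ := κ) φ →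
      ∃ c : Ix a → κ, (∀ i, Tr κ E (θ φ * e' i) = pol (cp a c i)) ∧
        (𝒜.map ψ).dsc ((𝒜.map ψ).rho (cp a c)) = 0 := by
    intro φ hφr hφe
    obtain ⟨c, hc⟩ := exists_coord (θ φ) (hC0.isReg_inReg _ (hφr.equiv θ))
    obtain ⟨G, hG⟩ := hφe.equiv θ dK' d' hC0.dK_pol hC0.d_alg
    have h1 : (d'^[p - 1]) (θ φ) = 0 := by
      rw [← hG, ← Function.iterate_succ_apply, Nat.succ_eq_add_one,
        Nat.sub_add_cancel hprime.one_le]
      exact hC0.iterate_p p G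
    refine ⟨c, hc, hker κ ψ hψ c ?_⟩
    exact (hFits.iterate_eq_zero_iff hC0 hρ (θ φ) (cp a c) hc (p - 1)).1 h1
  refine ⟨fun φ hφr hφe hgen => ?_, fun hgen φ hφr hφe => ?_⟩
  · obtain ⟨c, hc, h0⟩ := key φ hφr hφe
    exact dsc_ne_zero hFits hC0.nondeg hρ (θ φ) (cp a c) hc (adjoin_equiv θ φ hgen) h0
  · obtain ⟨c, hc, h0⟩ := key φ hφr hφe
    have h1 := hnull hgen κ ψ hψb' c h0
    have h2 : θ φ = 0 := by
      apply hC0.nondeg
      intro i
      rw [hc i, h1]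
      have h3 : cp a (0 : Ix a → κ) i = 0 := by
        have h4 := cp_smul a (0 : κ) (0 : Ix a → κ) i
        rw [C_0, zero_mul] at h4
        rw [← h4]
        congr 1
        ext1 m
        rw [Pi.zero_apply, mul_zero]
      rw [h3]
      exact map_zero _
    rw [← map_zero θ] at h2
    exact θ.injective h2

end MPadcCov
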