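import Mathlib
import Pool.Agent.Lib.MP_adc574_ag_Cov.Input
import Pool.Agent.Lib.MP_adc574_ag_Cov.Points
import Pool.Agent.Lib.MP_adc574_ag_Cov.BNb

/-!
# Dense ordinary reduction of the curves over the line with one moving simple branch point
-/

set_option autoImplicit false

namespace MPadcCov.Fin

open Polynomial

universe u

/-- The ring of functions `κ(x)[Y] / (F(x, Y))` of the plane curve `F(x, Y) = 0`. It is the
function field of the curve if `F` is irreducible over `κ(x)`. -/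
abbrev Fun {κ : Type*} [Field κ] (F : κ[X][X]) : Type _ :=
  AdjoinRoot (F.map (algebraMap κ[X] (RatFunc κ)))

section

variable {κ : Type*} [Field κ] {F : κ[X][X]}

/-- The function `b` is integral over `κ[u]`, where `u` is a rational function of `x`. -/
def IsIntegralOver (u : RatFunc κ) (b : Fun F) : Prop :=
  ((algebraMap (RatFunc κ) (Fun F)).comp
    (aeval u : κ[X] →ₐ[κ] RatFunc κ).toRingHom).IsIntegralElem b

/-- The differential `φ dx` is regular on the smooth projective model of the curve: the trace of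
`φ b` is a polynomial in `x` for all functions `b` integral over `κ[x]`, and it has a zero of order
at least two at `∞` for all functions `b` integral over `κ[1/x]`. -/
def IsRegular (φ : Fun F) : Prop :=
  (∀ b : Fun F, IsIntegralOver RatFunc.X b →
    ∃ q : κ[X], Algebra.trace (RatFunc κ) (Fun F) (φ * b) = algebraMap κ[X] (RatFunc κ) q) ∧
  ∀ b : Fun F, IsIntegralOver RatFunc.X⁻¹ b →
    Algebra.trace (RatFunc κ) (Fun F) (φ * b) = 0 ∨
      (Algebra.trace (RatFunc κ) (Fun F) (φ * b)).intDegree ≤ -2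

/-- The differential `φ dx` is exact. -/
def IsExact (φ : Fun F) : Prop :=
  ∃ G : Fun F, KaehlerDifferential.D κ (Fun F) G =
    φ • KaehlerDifferential.D κ (Fun F) (algebraMap (RatFunc κ) (Fun F) RatFunc.X)

/-- The function `φ` generates the function field over `κ(x)`. -/
def IsGenerator (φ : Fun F) : Prop := Algebra.adjoin (RatFunc κ) {φ} = ⊤

end

private theorem isReg_iff {κ : Type*} [Field κ] {F : κ[X][X]} (φ : Fun F) :
    IsRegular φ ↔ MPadcCov.IsReg (κ := κ) (E := Fun F) φ := by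
  have h1 : (aeval (RatFunc.X : RatFunc κ) : κ[X] →ₐ[κ] RatFunc κ).toRingHom =
      algebraMap κ[X] (RatFunc κ) := by
    apply Polynomial.ringHom_ext
    · intro c
      simp
    · simp
  unfold IsRegular MPadcCov.IsReg MPadcCov.IntX MPadcCov.IntI MPadcCov.IsPol MPadcCov.Dle
    IsIntegralOver
  rw [h1]
  constructor
  · rintro ⟨h2, h3⟩
    refine ⟨fun b hb => ?_, h3⟩
    obtain ⟨q, hq⟩ := h2 b hb
    exact ⟨q, hq.symm⟩
  · rintro ⟨h2, h3⟩
    refine ⟨fun b hb => ?_, h3⟩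
    obtain ⟨q, hq⟩ := h2 b hb
    exact ⟨q, hq.symm⟩

/-- Extension of a geometric point. -/
private theorem exists_lift {k : Type u} [Field k] {A A' : Subalgebra ℤ k} (hle : A ≤ A')
    (𝔪 : Ideal A') (h𝔪 : 𝔪.IsMaximal) (hfin : Finite (A' ⧸ 𝔪)) :
    (𝔪.comap (Subalgebra.inclusion hle).toRingHom).IsMaximal ∧
      ∀ (κ : Type u) [Field κ] [IsAlgClosed κ] (ρ : A →+* κ),
        RingHom.ker ρ = 𝔪.comap (Subalgebra.inclusion hle).toRingHom →
          ∃ ρ' : A' →+* κ, RingHom.ker ρ' = 𝔪 ∧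
            ρ'.comp (Subalgebra.inclusion hle).toRingHom = ρ := by
  set ι : A →+* A' := (Subalgebra.inclusion hle).toRingHom with hι
  set I := 𝔪.comap ι with hI
  have hprime : I.IsPrime := Ideal.comap_isPrime ι 𝔪
  have hinj : Function.Injective (Ideal.quotientMap 𝔪 ι le_rfl) := Ideal.quotientMap_injective
  have hfinI : Finite (A ⧸ I) := Finite.of_injective _ hinj
  have hmax : I.IsMaximal := Ideal.Quotient.maximal_of_isField _ (Finite.isField_of_domain _)
  refine ⟨hmax, fun κ _ _ ρ hρ => ?_⟩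
  let _ : Field (A ⧸ I) := Ideal.Quotient.field I
  let _ : Field (A' ⧸ 𝔪) := Ideal.Quotient.field 𝔪
  let _ : Algebra (A ⧸ I) (A' ⧸ 𝔪) := (Ideal.quotientMap 𝔪 ι le_rfl).toAlgebra
  let _ : Algebra (A ⧸ I) κ := (Ideal.Quotient.lift I ρ (fun x hx => by
    rw [← hρ] at hx
    exact hx)).toAlgebra
  have hmf : Module.Finite (A ⧸ I) (A' ⧸ 𝔪) := Module.Finite.of_finite
  have halg : Algebra.IsAlgebraic (A ⧸ I) (A' ⧸ 𝔪) := inferInstance
  let g : (A' ⧸ 𝔪) →ₐ[A ⧸ I] κ := IsAlgClosed.lift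
  refine ⟨(g : (A' ⧸ 𝔪) →+* κ).comp (Ideal.Quotient.mk 𝔪), ?_, ?_⟩
  · rw [RingHom.ker_comp_of_injective _ (RingHom.injective (g : (A' ⧸ 𝔪) →+* κ)),
      Ideal.mk_ker]
  · ext x
    have h1 : (g : (A' ⧸ 𝔪) →+* κ) (Ideal.Quotient.mk 𝔪 (ι x)) =
        g (algebraMap (A ⧸ I) (A' ⧸ 𝔪) (Ideal.Quotient.mk I x)) := rfl
    change (g : (A' ⧸ 𝔪) →+* κ) (Ideal.Quotient.mk 𝔪 (ι x)) = ρ x
    rw [h1, AlgHom.commutes]
    rfl

theorem final {k : Type u} [Field k] [IsAlgClosed k] [CharZero k] (A : Subalgebra ℤ k)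
    (hA : A.FG) (F : A[X][X]) (hF : F.Monic)
    (hirr : Irreducible ((F.map (mapRingHom (algebraMap A k))).map
      (algebraMap k[X] (RatFunc k))))
    (k₀ : Subfield k) (t : k) (ht : Transcendental k₀ t) (c : k) (h : k₀[X]) {n : ℕ}
    (b : Module.Basis (Fin n) k[X]
      (integralClosure k[X] (Fun (F.map (mapRingHom (algebraMap A k))))))
    (hb : Algebra.discr k[X] b = C c * (X - C t) * h.map (algebraMap k₀ k))
    (a : A) (ha : a ≠ 0) :
    ∃ p₀ : ℕ, ∀ p : ℕ, p₀ ≤ p → p.Prime →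
      ∃ s : PrimeSpectrum A, s.asIdeal.IsMaximal ∧ a ∉ s.asIdeal ∧ (p : A) ∈ s.asIdeal ∧
        ∀ (κ : Type u) [Field κ] [IsAlgClosed κ] (ρ : A →+* κ), RingHom.ker ρ = s.asIdeal →
          Irreducible ((F.map (mapRingHom ρ)).map (algebraMap κ[X] (RatFunc κ))) ∧
          (∀ φ : Fun (F.map (mapRingHom ρ)), IsRegular φ → IsExact φ → ¬ IsGenerator φ) ∧
          ((∀ φ : Fun (F.map (mapRingHom (algebraMap A k))),
              IsRegular φ → φ ≠ 0 → IsGenerator φ) →
            ∀ φ : Fun (F.map (mapRingHom ρ)), IsRegular φ → IsExact φ → φ = 0) := by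
  classical
  have hfact : Fact (Irreducible ((F.map (mapRingHom (algebraMap A k))).map
      (algebraMap k[X] (RatFunc k)))) := ⟨hirr⟩
  let _ : Field (Fun (F.map (mapRingHom (algebraMap A k)))) := AdjoinRoot.instField
  have hmon : ((F.map (mapRingHom (algebraMap A k))).map (algebraMap k[X] (RatFunc k))).Monic :=
    (hF.map _).map _
  have hroot : F.eval₂ ((algebraMap (RatFunc k) (Fun (F.map (mapRingHom (algebraMap A k))))).comp
      (MPadcCov.fp (algebraMap A k))) (AdjoinRoot.root _) = 0 := by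
    have h1 := AdjoinRoot.eval₂_root ((F.map (mapRingHom (algebraMap A k))).map
      (algebraMap k[X] (RatFunc k)))
    rw [eval₂_map, eval₂_map] at h1
    exact h1
  have hgen : Algebra.adjoin (RatFunc k) {AdjoinRoot.root
      ((F.map (mapRingHom (algebraMap A k))).map (algebraMap k[X] (RatFunc k)))} = ⊤ :=
    AdjoinRoot.adjoinRoot_eq_top
  have hdeg : Module.finrank (RatFunc k) (Fun (F.map (mapRingHom (algebraMap A k)))) =
      F.natDegree := by
    rw [(AdjoinRoot.powerBasis hmon.ne_zero).finrank, AdjoinRoot.powerBasis_dim,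
      (hF.map _).natDegree_map, hF.natDegree_map]
  obtain ⟨A', hle, n', e, a', 𝒜, dK, d, δ, DK, D, hA', H, HD, hX, hI⟩ :=
    MPadcCov.input A hA F hF _ hroot hgen hdeg k₀ t ht c h b hb
  obtain ⟨β, hβ, hBN⟩ := MPadcCov.bertini_noether
    (FaithfulSMul.algebraMap_injective A k) F hF hirr
  have hι : Function.Injective (Subalgebra.inclusion hle).toRingHom :=
    Subalgebra.inclusion_injective hle
  obtain ⟨p₀, hp₀⟩ := MPadcCov.points H HD hA' ((Subalgebra.inclusion hle).toRingHom (a * β))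
    ((map_ne_zero_iff _ hι).2 (mul_ne_zero ha hβ))
  refine ⟨p₀, fun p hp hprime => ?_⟩
  obtain ⟨𝔪, h𝔪, hf𝔪, hp𝔪, hfin, hker⟩ := hp₀ p hp hprime
  obtain ⟨hmax, hlift⟩ := exists_lift hle 𝔪 h𝔪 hfin
  have haβ : a * β ∉ 𝔪.comap (Subalgebra.inclusion hle).toRingHom := hf𝔪
  refine ⟨⟨𝔪.comap (Subalgebra.inclusion hle).toRingHom, hmax.isPrime⟩, hmax,
    fun h1 => haβ (Ideal.mul_mem_right _ _ h1), ?_, fun κ _ _ ρ hρ => ?_⟩
  · change (Subalgebra.inclusion hle).toRingHom (p : A) ∈ 𝔪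
    rw [map_natCast]
    exact hp𝔪
  · obtain ⟨ρ', hρ', hcomp⟩ := hlift κ ρ hρ
    obtain ⟨h1, h2⟩ := hker κ ρ' hρ'
    have h3 : (F.map (mapRingHom (Subalgebra.inclusion hle).toRingHom)).map (mapRingHom ρ') =
        F.map (mapRingHom ρ) := by
      rw [Polynomial.map_map, mapRingHom_comp, hcomp]
    rw [h3] at h1 h2
    refine ⟨hBN κ ρ ?_, ?_, ?_⟩
    · intro h0
      have h4 : a * β ∈ RingHom.ker ρ := by rw [RingHom.mem_ker, map_mul, h0, mul_zero]
      rw [hρ] at h4
      exact haβ h4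
    · intro φ hφ hφe
      exact h1 φ ((isReg_iff φ).1 hφ) hφe
    · intro hg φ hφ hφe
      apply h2 _ φ ((isReg_iff φ).1 hφ) hφe
      intro φ' hφ' hφ'0
      exact hg φ' ((isReg_iff φ').2 (MPadcCov.inReg_isReg hX hI φ' hφ')) hφ'0

end MPadcCov.Fin
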