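import Pool.Agent.Lib.MP_adc574_ag_Cov.RegK

/-!
# JOB LocR: the local rings of the line

`Rb b` is the ring of the rational functions without pole at `b`; `Oinf k` the ring of the rational
functions of degree at most `0`. Both are discrete valuation rings with field of fractions
`RatFunc k` and residue field `k`.
* `Rb b` is a subring: `(r + s).denom ∣ r.denom * s.denom`, `(r * s).denom ∣ r.denom * s.denom`
  (`RatFunc.denom_add_dvd`, `RatFunc.denom_mul_dvd`), `(-r).denom`.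
* DVR: `IsDiscreteValuationRing.ofHasUnitMulPowIrreducibleFactorization` or
  `IsDiscreteValuationRing.of_ufd_of_unique_irreducible`; every nonzero `r` is
  `(X - C b) ^ m * (p / q)` with `m ≥ 0`, `p, q` nonzero at `b` (`Polynomial.rootMultiplicity`,
  `exists_eq_pow_rootMultiplicity_mul_and_not_dvd`); for `Oinf`: `r = (1/X) ^ m * unit`,
  `m = - intDegree r`. `π` is irreducible: it is not a unit, and if `π = r s` with orders
  `m + m' = 1`, one of them is a unit.
* fraction ring: `r = num / denom`; for `Oinf`: `r = (r X ^ (-m)) / X ^ (-m)` with `m ≥ intDegree r`, `m ≥ 0`.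
* residues: subtract the value `num (b) / denom (b)`; for `Oinf` subtract the quotient of the leading
  coefficients (if the degree is `0`).
-/

set_option autoImplicit false

namespace MPadcCov

open Polynomial

variable {k : Type*} [Field k]

section gen

variable {K : Type*} [Field K] (A : Subring K) (π : K)

private theorem LocR_pow (hπ : π ∈ A) {m : ℤ} (hm : 0 ≤ m) : π ^ m ∈ A := by
  obtain ⟨n, rfl⟩ := Int.eq_ofNat_of_zero_le hm
  rw [zpow_natCast]
  exact A.pow_mem hπ n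

private theorem LocR_nonneg (hπ : π ∈ A) (hπ0 : π ≠ 0) (hπ' : π⁻¹ ∉ A) {m : ℤ} {u : K}
    (hu : u⁻¹ ∈ A) (hu0 : u ≠ 0) (h : π ^ m * u ∈ A) : 0 ≤ m := by
  by_contra hm
  push Not at hm
  apply hπ'
  have h1 : π⁻¹ = π ^ (-m - 1) * (π ^ m * u * u⁻¹) := by
    rw [mul_assoc (π ^ m), mul_inv_cancel₀ hu0, mul_one, ← zpow_add₀ hπ0, ← zpow_neg_one]
    congr 1
    ring
  rw [h1]
  exact A.mul_mem (LocR_pow A π hπ (by omega)) (A.mul_mem h hu)

private theorem LocR_unit (x : A) (hx0 : (x : K) ≠ 0) (h : (x : K)⁻¹ ∈ A) : IsUnit x := by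
  refine IsUnit.of_mul_eq_one (⟨(x : K)⁻¹, h⟩ : A) ?_
  apply Subtype.ext
  change (x : K) * (x : K)⁻¹ = 1
  exact mul_inv_cancel₀ hx0

private theorem LocR_irr (hπ : π ∈ A) (hπ0 : π ≠ 0) (hπ' : π⁻¹ ∉ A)
    (h : ∀ r : K, r ≠ 0 → ∃ (m : ℤ) (u : K), u ∈ A ∧ u⁻¹ ∈ A ∧ r = π ^ m * u) :
    Irreducible (⟨π, hπ⟩ : A) := by
  refine ⟨?_, ?_⟩
  · intro hu
    obtain ⟨v, hv⟩ := hu.exists_right_inv
    have h1 : π * (v : K) = 1 := congrArg Subtype.val hv
    apply hπ'
    rw [← eq_inv_of_mul_eq_one_right h1]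
    exact v.2
  · intro x y hxy
    have h0 : π = (x : K) * (y : K) := congrArg Subtype.val hxy
    have hx0 : (x : K) ≠ 0 := by
      intro hx
      rw [hx, zero_mul] at h0
      exact hπ0 h0
    have hy0 : (y : K) ≠ 0 := by
      intro hy
      rw [hy, mul_zero] at h0
      exact hπ0 h0
    obtain ⟨m, u, hu, hu', hx⟩ := h _ hx0
    obtain ⟨n, v, hv, hv', hy⟩ := h _ hy0
    have hu0 : u ≠ 0 := by
      intro h1
      rw [h1, mul_zero] at hx
      exact hx0 hx
    have hv0 : v ≠ 0 := by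
      intro h1
      rw [h1, mul_zero] at hy
      exact hy0 hy
    have hm : 0 ≤ m := LocR_nonneg A π hπ hπ0 hπ' hu' hu0 (hx ▸ x.2)
    have hn : 0 ≤ n := LocR_nonneg A π hπ hπ0 hπ' hv' hv0 (hy ▸ y.2)
    by_cases hm0 : m = 0
    · left
      refine LocR_unit A x hx0 ?_
      rw [hx, hm0, zpow_zero, one_mul]
      exact hu'
    by_cases hn0 : n = 0
    · right
      refine LocR_unit A y hy0 ?_
      rw [hy, hn0, zpow_zero, one_mul]
      exact hv'
    exfalso
    apply hπ'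
    have h2 : π⁻¹ = π ^ (m - 1) * u * (π ^ (n - 1) * v) := by
      rw [zpow_sub_one₀ hπ0, zpow_sub_one₀ hπ0]
      have h3 : π ^ m * π⁻¹ * u * (π ^ n * π⁻¹ * v) = π⁻¹ * π⁻¹ * (π ^ m * u * (π ^ n * v)) := by
        ring
      rw [h3, ← hx, ← hy, ← h0, mul_assoc, inv_mul_cancel₀ hπ0, mul_one]
    rw [h2]
    exact A.mul_mem (A.mul_mem (LocR_pow A π hπ (by omega)) hu)
      (A.mul_mem (LocR_pow A π hπ (by omega)) hv)

private theorem LocR_dvr (hπ : π ∈ A) (hπ0 : π ≠ 0) (hπ' : π⁻¹ ∉ A)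
    (h : ∀ r : K, r ≠ 0 → ∃ (m : ℤ) (u : K), u ∈ A ∧ u⁻¹ ∈ A ∧ r = π ^ m * u) :
    IsDiscreteValuationRing A := by
  apply IsDiscreteValuationRing.ofHasUnitMulPowIrreducibleFactorization
  refine ⟨⟨π, hπ⟩, LocR_irr A π hπ hπ0 hπ' h, ?_⟩
  intro x hx
  have hx0 : (x : K) ≠ 0 := fun h1 => hx (Subtype.ext h1)
  obtain ⟨m, u, hu, hu', hxu⟩ := h _ hx0
  have hu0 : u ≠ 0 := by
    intro h1
    rw [h1, mul_zero] at hxu
    exact hx0 hxu
  have hm : 0 ≤ m := LocR_nonneg A π hπ hπ0 hπ' hu' hu0 (hxu ▸ x.2)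
  obtain ⟨n, rfl⟩ := Int.eq_ofNat_of_zero_le hm
  refine ⟨n, ?_⟩
  obtain ⟨w, hw⟩ := LocR_unit A ⟨u, hu⟩ hu0 hu'
  refine ⟨w, ?_⟩
  rw [hw]
  apply Subtype.ext
  change π ^ n * u = x
  rw [hxu, zpow_natCast]

private theorem LocR_frac (hπ : π ∈ A)
    (h : ∀ r : K, r ≠ 0 → ∃ (m : ℤ) (u : K), u ∈ A ∧ u⁻¹ ∈ A ∧ r = π ^ m * u) :
    IsFractionRing A K := by
  apply IsFractionRing.of_field
  intro z
  by_cases hz : z = 0
  · refine ⟨0, 1, ?_⟩
    rw [hz, map_zero, zero_div]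
  obtain ⟨m, u, hu, -, rfl⟩ := h z hz
  by_cases hm : 0 ≤ m
  · refine ⟨⟨π ^ m * u, A.mul_mem (LocR_pow A π hπ hm) hu⟩, 1, ?_⟩
    rw [map_one, div_one]
    rfl
  · refine ⟨⟨u, hu⟩, ⟨π ^ (-m), LocR_pow A π hπ (by omega)⟩, ?_⟩
    change π ^ m * u = u / π ^ (-m)
    rw [zpow_neg, div_inv_eq_mul, mul_comm]

end gen

private theorem LocR_denom {b : k} {r : RatFunc k} {p q : k[X]} (hq : q.eval b ≠ 0)
    (h : pol q * r = pol p) : r.denom.eval b ≠ 0 := by
  have hq0 : q ≠ 0 := by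
    intro h1
    rw [h1, eval_zero] at hq
    exact hq rfl
  have hq1 : pol q ≠ 0 := RatFunc.algebraMap_ne_zero hq0
  have h1 : r.denom ∣ q := by
    rw [RatFunc.denom_dvd hq0]
    refine ⟨p, ?_⟩
    change r = pol p / pol q
    rw [← h, mul_div_cancel_left₀ _ hq1]
  obtain ⟨c, rfl⟩ := h1
  rw [eval_mul] at hq
  exact left_ne_zero_of_mul hq

private theorem LocR_nd (r : RatFunc k) : pol r.denom * r = pol r.num := by
  have h : pol r.num / pol r.denom = r := RatFunc.num_div_denom r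
  have h1 : pol r.denom ≠ 0 := RatFunc.algebraMap_ne_zero r.denom_ne_zero
  rw [div_eq_iff h1] at h
  rw [mul_comm]
  exact h.symm

/-- The rational functions without pole at `b`. -/
def Rb (b : k) : Subring (RatFunc k) where
  carrier := {r | r.denom.eval b ≠ 0}
  zero_mem' := by
    change (0 : RatFunc k).denom.eval b ≠ 0
    rw [RatFunc.denom_zero, eval_one]
    exact one_ne_zero
  one_mem' := by
    change (1 : RatFunc k).denom.eval b ≠ 0
    rw [RatFunc.denom_one, eval_one]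
    exact one_ne_zero
  add_mem' := by
    intro r s hr hs
    refine LocR_denom (p := s.denom * r.num + r.denom * s.num) (q := r.denom * s.denom) ?_ ?_
    · rw [eval_mul]
      exact mul_ne_zero hr hs
    · rw [pol, pol, map_mul, map_add, map_mul, map_mul]
      have h1 := LocR_nd r
      have h2 := LocR_nd s
      rw [pol, pol] at h1 h2
      rw [← h1, ← h2]
      ring
  mul_mem' := by
    intro r s hr hs
    refine LocR_denom (p := r.num * s.num) (q := r.denom * s.denom) ?_ ?_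
    · rw [eval_mul]
      exact mul_ne_zero hr hs
    · rw [pol, pol, map_mul, map_mul]
      have h1 := LocR_nd r
      have h2 := LocR_nd s
      rw [pol, pol] at h1 h2
      rw [← h1, ← h2]
      ring
  neg_mem' := by
    intro r hr
    refine LocR_denom (p := -r.num) (q := r.denom) hr ?_
    rw [pol, pol, map_neg]
    have h1 := LocR_nd r
    rw [pol, pol] at h1
    rw [← h1]
    ring

theorem mem_Rb {b : k} {r : RatFunc k} : r ∈ Rb b ↔ r.denom.eval b ≠ 0 := Iff.rfl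

theorem mem_Rb_iff {b : k} {r : RatFunc k} : r ∈ Rb b ↔ ∃ p q : k[X], q.eval b ≠ 0 ∧
    pol q * r = pol p := by
  constructor
  · intro h
    exact ⟨r.num, r.denom, h, LocR_nd r⟩
  · rintro ⟨p, q, hq, h⟩
    exact LocR_denom hq h

theorem pol_mem_Rb (b : k) (p : k[X]) : pol p ∈ Rb b := by
  refine mem_Rb_iff.2 ⟨p, 1, ?_, ?_⟩
  · rw [eval_one]
    exact one_ne_zero
  · rw [pol, map_one, one_mul]

private theorem LocR_ev {b : k} {q : k[X]} (hq : q.eval b ≠ 0) : q ≠ 0 := by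
  intro h1
  rw [h1, eval_zero] at hq
  exact hq rfl

private theorem LocR_ne (b : k) : pol (X - C b) ≠ 0 :=
  RatFunc.algebraMap_ne_zero (X_sub_C_ne_zero b)

private theorem LocR_ninv (b : k) : (pol (X - C b))⁻¹ ∉ Rb b := by
  intro h
  obtain ⟨p, q, hq, h⟩ := mem_Rb_iff.1 h
  have h1 : pol q = pol (p * (X - C b)) := by
    rw [pol, pol, map_mul]
    have h2 := LocR_ne b
    rw [← div_eq_mul_inv, div_eq_iff h2] at h
    exact h
  have h3 : q = p * (X - C b) := RatFunc.algebraMap_injective k h1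
  apply hq
  rw [h3, eval_mul, eval_sub, eval_X, eval_C, sub_self, mul_zero]

private theorem LocR_pq (b : k) (p q : k[X]) (hq : q.eval b ≠ 0) : pol p / pol q ∈ Rb b :=
  mem_Rb_iff.2 ⟨p, q, hq, mul_div_cancel₀ _ (RatFunc.algebraMap_ne_zero (LocR_ev hq))⟩

private theorem LocR_fac (b : k) (r : RatFunc k) (hr : r ≠ 0) :
    ∃ (m : ℤ) (u : RatFunc k), u ∈ Rb b ∧ u⁻¹ ∈ Rb b ∧ r = pol (X - C b) ^ m * u := by
  obtain ⟨p, hp, hp'⟩ := exists_eq_pow_rootMultiplicity_mul_and_not_dvd r.num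
    (RatFunc.num_ne_zero hr) b
  obtain ⟨q, hq, hq'⟩ := exists_eq_pow_rootMultiplicity_mul_and_not_dvd r.denom
    r.denom_ne_zero b
  rw [dvd_iff_isRoot] at hp' hq'
  have hp1 : p.eval b ≠ 0 := hp'
  have hq1 : q.eval b ≠ 0 := hq'
  refine ⟨(rootMultiplicity b r.num : ℤ) - rootMultiplicity b r.denom, pol p / pol q,
    LocR_pq b p q hq1, ?_, ?_⟩
  · rw [inv_div]
    exact LocR_pq b q p hp1
  · have h1 : r = pol r.num / pol r.denom := (RatFunc.num_div_denom r).symm
    conv_lhs => rw [h1, hp, hq]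
    rw [pol, pol, map_mul, map_mul, map_pow, map_pow, zpow_sub₀ (LocR_ne b), zpow_natCast,
      zpow_natCast, mul_div_mul_comm]

instance (b : k) : IsFractionRing (Rb b) (RatFunc k) := by
  exact LocR_frac (Rb b) (pol (X - C b)) (pol_mem_Rb b _) (LocR_fac b)

instance (b : k) : IsDiscreteValuationRing (Rb b) := by
  exact LocR_dvr (Rb b) (pol (X - C b)) (pol_mem_Rb b _) (LocR_ne b) (LocR_ninv b) (LocR_fac b)

theorem irreducible_Rb (b : k) :
    Irreducible (⟨pol (X - C b), pol_mem_Rb b _⟩ : Rb b) := by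
  exact LocR_irr (Rb b) (pol (X - C b)) (pol_mem_Rb b _) (LocR_ne b) (LocR_ninv b) (LocR_fac b)

theorem residue_Rb (b : k) (r : Rb b) :
    ∃ c : k, (⟨pol (X - C b), pol_mem_Rb b _⟩ : Rb b) ∣ r - ⟨pol (C c), pol_mem_Rb b _⟩ := by
  obtain ⟨p, q, hq, h⟩ := mem_Rb_iff.1 r.2
  have hq1 : pol q ≠ 0 := RatFunc.algebraMap_ne_zero (LocR_ev hq)
  refine ⟨p.eval b / q.eval b, ?_⟩
  have h1 : (X - C b) ∣ p - C (p.eval b / q.eval b) * q := by
    rw [dvd_iff_isRoot, IsRoot.def, eval_sub, eval_mul, eval_C, div_mul_cancel₀ _ hq, sub_self]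
  obtain ⟨s, hs⟩ := h1
  refine ⟨⟨pol s / pol q, mem_Rb_iff.2 ⟨s, q, hq, mul_div_cancel₀ _ hq1⟩⟩, ?_⟩
  apply Subtype.ext
  change (r : RatFunc k) - pol (C (p.eval b / q.eval b)) = pol (X - C b) * (pol s / pol q)
  have h2 : pol (p - C (p.eval b / q.eval b) * q) = pol ((X - C b) * s) := congrArg pol hs
  rw [pol, pol, map_sub, map_mul, map_mul] at h2
  rw [← mul_div_assoc, eq_div_iff hq1, ← h2, sub_mul, mul_comm (r : RatFunc k), h]

/-- For an algebraically closed field: no poles means polynomial. -/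
theorem isPol_iff [IsAlgClosed k] (r : RatFunc k) : IsPol r ↔ ∀ b : k, r ∈ Rb b := by
  constructor
  · rintro ⟨p, rfl⟩ b
    exact pol_mem_Rb b p
  · intro h
    have h1 : r.denom.degree = 0 := by
      by_contra hd
      obtain ⟨b, hb⟩ := IsAlgClosed.exists_root r.denom hd
      exact h b hb
    have h2 : r.denom = 1 :=
      Polynomial.eq_one_of_monic_natDegree_zero (RatFunc.monic_denom r)
        (natDegree_eq_of_degree_eq_some h1)
    refine ⟨r.num, ?_⟩
    have h3 := LocR_nd r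
    rw [h2, pol, map_one, one_mul] at h3
    exact h3.symm

theorem mem_Oinf {r : RatFunc k} : r ∈ Oinf k ↔ Dle r 0 := Iff.rfl

theorem inv_mem_Oinf : (RatFunc.X⁻¹ : RatFunc k) ∈ Oinf k := by
  refine Or.inr ?_
  rw [RatFunc.intDegree_inv, RatFunc.intDegree_X]
  norm_num

theorem C_mem_Oinf (c : k) : pol (C c) ∈ Oinf k := by
  refine Or.inr ?_
  rw [pol, RatFunc.intDegree_polynomial, natDegree_C]
  norm_num

private theorem LocR_neI : (RatFunc.X⁻¹ : RatFunc k) ≠ 0 := inv_ne_zero RatFunc.X_ne_zero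

private theorem LocR_ninvI : (RatFunc.X⁻¹ : RatFunc k)⁻¹ ∉ Oinf k := by
  rw [inv_inv]
  rintro (h | h)
  · exact RatFunc.X_ne_zero h
  · rw [RatFunc.intDegree_X] at h
    omega

private theorem LocR_degpow (m : ℤ) : ((RatFunc.X⁻¹ : RatFunc k) ^ m).intDegree = -m := by
  have h1 : ∀ n : ℕ, ((RatFunc.X : RatFunc k) ^ n).intDegree = n := by
    intro n
    induction n with
    | zero => rw [pow_zero, RatFunc.intDegree_one, Nat.cast_zero]
    | succ n ih =>
      rw [pow_succ, RatFunc.intDegree_mul (pow_ne_zero n RatFunc.X_ne_zero) RatFunc.X_ne_zero, ih,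
        RatFunc.intDegree_X, Nat.cast_add, Nat.cast_one]
  rw [inv_zpow']
  obtain ⟨n, hn | hn⟩ := Int.eq_nat_or_neg (-m)
  · rw [hn, zpow_natCast, h1]
  · rw [hn, zpow_neg, zpow_natCast, RatFunc.intDegree_inv, h1]

private theorem LocR_facI (r : RatFunc k) (hr : r ≠ 0) :
    ∃ (m : ℤ) (u : RatFunc k), u ∈ Oinf k ∧ u⁻¹ ∈ Oinf k ∧ r = RatFunc.X⁻¹ ^ m * u := by
  have h1 : (r * RatFunc.X⁻¹ ^ r.intDegree).intDegree = 0 := by
    rw [RatFunc.intDegree_mul hr (zpow_ne_zero _ LocR_neI), LocR_degpow]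
    omega
  refine ⟨-r.intDegree, r * RatFunc.X⁻¹ ^ r.intDegree, Or.inr h1.le, Or.inr ?_, ?_⟩
  · rw [RatFunc.intDegree_inv, h1, neg_zero]
  · rw [mul_comm r, ← mul_assoc, ← zpow_add₀ LocR_neI, neg_add_cancel, zpow_zero, one_mul]

instance : IsFractionRing (Oinf k) (RatFunc k) := by
  exact LocR_frac (Oinf k) RatFunc.X⁻¹ inv_mem_Oinf LocR_facI

instance : IsDiscreteValuationRing (Oinf k) := by
  exact LocR_dvr (Oinf k) RatFunc.X⁻¹ inv_mem_Oinf LocR_neI LocR_ninvI LocR_facI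

theorem irreducible_Oinf : Irreducible (⟨RatFunc.X⁻¹, inv_mem_Oinf⟩ : Oinf k) := by
  exact LocR_irr (Oinf k) RatFunc.X⁻¹ inv_mem_Oinf LocR_neI LocR_ninvI LocR_facI

theorem residue_Oinf (r : Oinf k) :
    ∃ c : k, (⟨RatFunc.X⁻¹, inv_mem_Oinf⟩ : Oinf k) ∣ r - ⟨pol (C c), C_mem_Oinf c⟩ := by
  set c : k := (r : RatFunc k).num.coeff (r : RatFunc k).denom.natDegree with hc
  refine ⟨c, ?_⟩
  set t : RatFunc k := (r : RatFunc k) - pol (C c) with ht
  have key : Dle t (-1) := by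
    by_cases ht0 : t = 0
    · exact Or.inl ht0
    right
    have hq1 : pol (r : RatFunc k).denom ≠ 0 :=
      RatFunc.algebraMap_ne_zero (r : RatFunc k).denom_ne_zero
    have hN : (r : RatFunc k).num.natDegree ≤ (r : RatFunc k).denom.natDegree := by
      rcases r.2 with h0 | h0
      · rw [h0, RatFunc.num_zero, natDegree_zero]
        exact Nat.zero_le _
      · rw [RatFunc.intDegree] at h0
        omega
    set s : k[X] := (r : RatFunc k).num - C c * (r : RatFunc k).denom with hs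
    have h1 : pol s = pol (r : RatFunc k).denom * t := by
      rw [ht, mul_sub, LocR_nd, hs, pol, map_sub, map_mul, mul_comm (algebraMap k[X] (RatFunc k) (C c))]
    have hs0 : s ≠ 0 := by
      intro h2
      rw [h2, pol, map_zero] at h1
      exact mul_ne_zero hq1 ht0 h1.symm
    have h3 : s.natDegree ≤ (r : RatFunc k).denom.natDegree := by
      refine (natDegree_sub_le _ _).trans (max_le hN ?_)
      exact natDegree_C_mul_le _ _
    have h4 : s.coeff (r : RatFunc k).denom.natDegree = 0 := by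
      rw [hs, coeff_sub, coeff_C_mul, (RatFunc.monic_denom (r : RatFunc k)).coeff_natDegree,
        mul_one, hc, sub_self]
    have h5 : s.natDegree ≠ (r : RatFunc k).denom.natDegree := by
      intro h6
      rw [← h6] at h4
      exact hs0 (leadingCoeff_eq_zero.1 h4)
    have h7 : (pol s).intDegree = (pol (r : RatFunc k).denom).intDegree + t.intDegree := by
      rw [h1, RatFunc.intDegree_mul hq1 ht0]
    rw [pol, pol, RatFunc.intDegree_polynomial, RatFunc.intDegree_polynomial] at h7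
    have h8 : s.natDegree < (r : RatFunc k).denom.natDegree := lt_of_le_of_ne h3 h5
    omega
  have hXt : RatFunc.X * t ∈ Oinf k := by
    rcases key with h | h
    · left
      rw [h, mul_zero]
    · by_cases ht0 : t = 0
      · left
        rw [ht0, mul_zero]
      right
      rw [RatFunc.intDegree_mul RatFunc.X_ne_zero ht0, RatFunc.intDegree_X]
      omega
  refine ⟨⟨RatFunc.X * t, hXt⟩, ?_⟩
  apply Subtype.ext
  change (r : RatFunc k) - pol (C c) = RatFunc.X⁻¹ * (RatFunc.X * t)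
  rw [← mul_assoc, inv_mul_cancel₀ RatFunc.X_ne_zero, one_mul]

end MPadcCov
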