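import Pool.Agent.Lib.MP_adc574_ag_Cov.Loc
import Pool.Agent.Lib.MP_adc574_ag_Cov.LocR

/-!
# JOB LocC: the unramified places, and the local lattices

* `local_unram`: `e` is an `S`-basis of the elements integral over `S` and the determinant of the trace
  form is a unit of `S` (`hu`: its inverse lies in `S`). Let `c i = Tr (m * e i) ∈ S` (the `e i` are
  integral by `he`). If `m = ∑ x j • e j` then `T x = c` with `T = (Tr (e i * e j))`; the `T i j` lie in
  `S` (trace of an integral element: `Algebra.isIntegral_trace` and `S` integrally closed; or directly: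
  `Tr (e i * e j) = ∑ l, repr (e i * e j * e l) l`, all coordinates of integral elements lie in `S`);
  Cramer: `det T • x = adjugate T c`. So `x j ∈ S`.
* `intRb_iff`: `e` is a `k[x]`-basis of the integral closure of `k[x]`. If `z` is integral over `Rb b`,
  multiply by a polynomial `q` with `q (b) ≠ 0` which clears the denominators of the coefficients of the
  monic polynomial of `z`: `q z` is integral over `k[x]`
  (`(q z) ^ n + q c_{n-1} (q z) ^ (n-1) + q ^ 2 c_{n-2} …`), so `q * e.repr z i` is a polynomial.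
  Conversely the `e i` are integral over `k[x]`, so over `Rb b`, which contains the polynomials;
  sums and products of integral elements are integral (`RingHom.IsIntegralElem` : make `L` an
  algebra over `Rb b` and use `IsIntegral.sum`, `IsIntegral.mul`).
-/

set_option autoImplicit false

namespace MPadcCov

open Polynomial

private theorem LocC_mul {K L : Type*} [Field K] [CommRing L] [Algebra K L] (S : Subring K) {z w : L}
    (hz : IntS S z) (hw : IntS S w) : IntS S (z * w) :=
  RingHom.IsIntegralElem.mul _ hz hw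

private theorem LocC_add {K L : Type*} [Field K] [CommRing L] [Algebra K L] (S : Subring K) {z w : L}
    (hz : IntS S z) (hw : IntS S w) : IntS S (z + w) :=
  RingHom.IsIntegralElem.add _ hz hw

private theorem LocC_of_mem {K L : Type*} [Field K] [CommRing L] [Algebra K L] (S : Subring K) {r : K}
    (hr : r ∈ S) : IntS S (algebraMap K L r) := by
  have h := RingHom.isIntegralElem_map ((algebraMap K L).comp S.subtype) (x := (⟨r, hr⟩ : S))
  exact h

theorem local_unram {K L : Type*} [Field K] [Field L] [Algebra K L] {n : ℕ} (S : Subring K)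
    (e : Module.Basis (Fin n) K L) (he : ∀ z : L, IntS S z ↔ ∀ i, e.repr z i ∈ S)
    (hu : ((Matrix.of fun i j => Algebra.trace K L (e i * e j)).det)⁻¹ ∈ S)
    (hu0 : (Matrix.of fun i j => Algebra.trace K L (e i * e j)).det ≠ 0)
    (m : L) (hm : ∀ z : L, IntS S z → Algebra.trace K L (m * z) ∈ S) : IntS S m := by
  classical
  have hei : ∀ i, IntS S (e i) := by
    intro i
    rw [he]
    intro j
    rw [Module.Basis.repr_self, Finsupp.single_apply]
    split_ifs
    · exact S.one_mem
    · exact S.zero_mem
  have htr : ∀ z : L, IntS S z → Algebra.trace K L z ∈ S := by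
    intro z hz
    rw [Algebra.trace_eq_matrix_trace e, Matrix.trace]
    refine Subring.sum_mem _ fun l _ => ?_
    rw [Matrix.diag_apply, Algebra.leftMulMatrix_eq_repr_mul]
    exact (he _).1 (LocC_mul S hz (hei l)) l
  obtain ⟨T, hT⟩ : ∃ T : Matrix (Fin n) (Fin n) K,
    T = Matrix.of fun i j => Algebra.trace K L (e i * e j) := ⟨_, rfl⟩
  rw [← hT] at hu hu0
  have hTij : ∀ i j, T i j ∈ S := by
    intro i j
    rw [hT]
    exact htr _ (LocC_mul S (hei i) (hei j))
  obtain ⟨T', hT'⟩ : ∃ T' : Matrix (Fin n) (Fin n) S, S.subtype.mapMatrix T' = T :=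
    ⟨fun i j => ⟨T i j, hTij i j⟩, rfl⟩
  have hadj : ∀ i j, T.adjugate i j ∈ S := by
    intro i j
    rw [← hT', ← RingHom.map_adjugate]
    exact (T'.adjugate i j).2
  have hc : T.mulVec (fun j => e.repr m j) = fun i => Algebra.trace K L (m * e i) := by
    funext i
    have hmr : m * e i = ∑ j, e.repr m j • (e i * e j) := by
      conv_lhs => rw [← e.sum_repr m, Finset.sum_mul]
      refine Finset.sum_congr rfl fun j _ => ?_
      rw [smul_mul_assoc, mul_comm (e j)]
    rw [hmr, map_sum]
    simp only [Matrix.mulVec, dotProduct, hT, Matrix.of_apply]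
    refine Finset.sum_congr rfl fun j _ => ?_
    rw [map_smul, smul_eq_mul, mul_comm]
  have hx : ∀ j, e.repr m j = T.det⁻¹ * (T.adjugate.mulVec fun i => Algebra.trace K L (m * e i)) j := by
    intro j
    rw [← hc, Matrix.mulVec_mulVec, Matrix.adjugate_mul, Matrix.smul_mulVec, Matrix.one_mulVec,
      Pi.smul_apply, smul_eq_mul, inv_mul_cancel_left₀ hu0]
  rw [he]
  intro j
  rw [hx j]
  refine S.mul_mem hu ?_
  simp only [Matrix.mulVec, dotProduct]
  exact Subring.sum_mem _ fun i _ => S.mul_mem (hadj j i) (hm _ (hei i))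

variable {k : Type*} [Field k] {L : Type*} [Field L] [Algebra (RatFunc k) L] {n : ℕ}
  {e : Module.Basis (Fin n) (RatFunc k) L} {a : Fin n → ℕ}

/-- the inclusion of the polynomials in the local ring -/
private noncomputable def LocC_j (b : k) : k[X] →+* Rb b :=
  (algebraMap k[X] (RatFunc k)).codRestrict (Rb b) (pol_mem_Rb b)

private theorem LocC_comp (b : k) : (Rb b).subtype.comp (LocC_j b) = algebraMap k[X] (RatFunc k) := rfl

private theorem LocC_intX (b : k) (z : L) (hz : IntX k z) : IntS (Rb b) z := by
  obtain ⟨p, hp, hpz⟩ := hz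
  refine ⟨p.map (LocC_j b), hp.map _, ?_⟩
  rw [eval₂_map, RingHom.comp_assoc, LocC_comp]
  exact hpz

private theorem LocC_common {ι : Type*} (s : Finset ι) (b : k) (c : ι → Rb b) :
    ∃ q : k[X], q.eval b ≠ 0 ∧ ∀ i ∈ s, IsPol (pol q * (c i : RatFunc k)) := by
  classical
  induction s using Finset.induction_on with
  | empty => exact ⟨1, by simp, fun i hi => absurd hi (Finset.notMem_empty i)⟩
  | insert i s hi ih =>
    obtain ⟨q, hq, h⟩ := ih
    obtain ⟨p', q', hq', h'⟩ := mem_Rb_iff.1 (c i).2
    refine ⟨q * q', ?_, ?_⟩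
    · rw [eval_mul]
      exact mul_ne_zero hq hq'
    · intro j hj
      rcases Finset.mem_insert.1 hj with rfl | hj
      · refine ⟨q * p', ?_⟩
        simp only [pol] at h' ⊢
        rw [map_mul, map_mul, ← h', mul_assoc]
      · obtain ⟨p, hp⟩ := h j hj
        refine ⟨q' * p, ?_⟩
        simp only [pol] at hp ⊢
        rw [map_mul, map_mul, hp]
        ring

private theorem LocC_denom (b : k) (z : L) (hz : IntS (Rb b) z) :
    ∃ q : k[X], q.eval b ≠ 0 ∧ IntX k (algebraMap (RatFunc k) L (pol q) * z) := by
  obtain ⟨p, hp, hpz⟩ := hz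
  obtain ⟨q, hq, hc⟩ := LocC_common (Finset.range (p.natDegree + 1)) b (fun i => p.coeff i)
  refine ⟨q, hq, ?_⟩
  have hl : scaleRoots p (LocC_j b q) ∈ lifts (LocC_j b) := by
    rw [lifts_iff_coeff_lifts]
    intro i
    rw [coeff_scaleRoots]
    rcases lt_trichotomy i p.natDegree with hi | hi | hi
    · obtain ⟨r, hr⟩ := hc i (Finset.mem_range.2 (by omega))
      refine ⟨r * q ^ (p.natDegree - i - 1), ?_⟩
      have e1 : p.natDegree - i = (p.natDegree - i - 1) + 1 := by omega
      rw [map_mul, map_pow]
      conv_rhs => rw [e1, pow_succ', ← mul_assoc, mul_comm (p.coeff i)]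
      congr 1
      apply Subtype.ext
      exact hr
    · refine ⟨1, ?_⟩
      rw [hi, Nat.sub_self, pow_zero, mul_one, map_one]
      exact hp.symm
    · refine ⟨0, ?_⟩
      rw [coeff_eq_zero_of_natDegree_lt hi, zero_mul, map_zero]
  obtain ⟨p', hp', -, hm⟩ := lifts_and_natDegree_eq_and_monic hl
    ((monic_scaleRoots_iff _).2 hp)
  refine ⟨p', hm, ?_⟩
  have h1 := scaleRoots_eval₂_eq_zero ((algebraMap (RatFunc k) L).comp (Rb b).subtype)
    (s := LocC_j b q) hpz
  rw [← hp', eval₂_map, RingHom.comp_assoc, LocC_comp] at h1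
  exact h1

theorem intRb_iff (hX : ∀ z : L, IntX k z ↔ InB e z) (b : k) (z : L) :
    IntS (Rb b) z ↔ ∀ i, e.repr z i ∈ Rb b := by
  constructor
  · intro hz i
    obtain ⟨q, hq, h⟩ := LocC_denom b z hz
    obtain ⟨p, hp⟩ := (hX _).1 h i
    rw [mem_Rb_iff]
    refine ⟨p, q, hq, ?_⟩
    have h2 : algebraMap (RatFunc k) L (pol q) * z = (pol q : RatFunc k) • z :=
      (Algebra.smul_def _ _).symm
    rw [hp, h2, map_smul, Finsupp.smul_apply, smul_eq_mul]
  · intro hz
    rw [← e.sum_repr z]
    refine Finset.sum_induction _ (IntS (Rb b)) (fun _ _ => LocC_add (Rb b)) ?_ ?_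
    · have := LocC_of_mem (L := L) (Rb b) (Rb b).zero_mem
      rwa [map_zero] at this
    · intro i _
      rw [Algebra.smul_def]
      refine LocC_mul (Rb b) (LocC_of_mem (Rb b) (hz i)) (LocC_intX b _ ((hX _).2 ?_))
      intro j
      rw [Module.Basis.repr_self, Finsupp.single_apply]
      split_ifs
      · exact ⟨1, map_one _⟩
      · exact ⟨0, map_zero _⟩

/-- An element integral over all local rings of the line is integral over `k[x]`. -/
theorem inB_of_local [IsAlgClosed k] (hX : ∀ z : L, IntX k z ↔ InB e z) (z : L)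
    (h : ∀ b : k, IntS (Rb b) z) : InB e z := by
  intro i
  rw [isPol_iff]
  intro b
  exact (intRb_iff hX b z).1 (h b) i

theorem intS_of_intX (b : k) (z : L) (hz : IntX k z) : IntS (Rb b) z := LocC_intX b z hz

theorem intS_mul {K L : Type*} [Field K] [CommRing L] [Algebra K L] (S : Subring K) {z w : L}
    (hz : IntS S z) (hw : IntS S w) : IntS S (z * w) := LocC_mul S hz hw

theorem intS_add {K L : Type*} [Field K] [CommRing L] [Algebra K L] (S : Subring K) {z w : L}
    (hz : IntS S z) (hw : IntS S w) : IntS S (z + w) := LocC_add S hz hw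

theorem intS_of_mem {K L : Type*} [Field K] [CommRing L] [Algebra K L] (S : Subring K) {r : K}
    (hr : r ∈ S) : IntS S (algebraMap K L r) := LocC_of_mem S hr

end MPadcCov
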