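import Pool.Agent.Lib.MP_adc574_ag_Cov.Nat

/-!
# The generic discriminant and the linear system of the exact forms
-/

set_option autoImplicit false

namespace MPadcCov

open Polynomial

variable {R : Type*} [CommRing R] {n : ℕ}

/-- The discriminant of `ρ z` for the generic form `z`. -/
noncomputable def genP (𝒜 : Arr R n) (a : Fin n → ℕ) : (MvPolynomial (Ix a) R)[X] :=
  (𝒜.map (MvPolynomial.C : R →+* MvPolynomial (Ix a) R)).dsc
    ((𝒜.map (MvPolynomial.C : R →+* MvPolynomial (Ix a) R)).rho (cp a MvPolynomial.X))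

theorem genP_map (𝒜 : Arr R n) (a : Fin n → ℕ) {S : Type*} [CommRing S] (ψ : R →+* S)
    (c : Ix a → S) : (genP 𝒜 a).map (MvPolynomial.eval₂Hom ψ c) =
      (𝒜.map ψ).dsc ((𝒜.map ψ).rho (cp a c)) := by
  have h1 : (MvPolynomial.eval₂Hom ψ c).comp MvPolynomial.C = ψ := by
    ext r
    simp
  have h2 : (𝒜.map (MvPolynomial.C : R →+* MvPolynomial (Ix a) R)).map
      (MvPolynomial.eval₂Hom ψ c) = 𝒜.map ψ := by
    rw [Arr.map_map, h1]
  have h3 : (fun i => (cp a (MvPolynomial.X : Ix a → MvPolynomial (Ix a) R) i).map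
      (MvPolynomial.eval₂Hom ψ c)) = cp a c := by
    rw [cp_map]
    congr 1
    ext m
    simp
  rw [genP, ← Arr.dsc_map, ← Arr.rho_map, h2, h3]

theorem genP_degree (𝒜 : Arr R n) (a : Fin n → ℕ) {S : Type*} [CommRing S] (ψ : R →+* S)
    (c : Ix a → S) : ((𝒜.map ψ).dsc ((𝒜.map ψ).rho (cp a c))).natDegree ≤
      (genP 𝒜 a).natDegree := by
  rw [← genP_map]
  exact natDegree_map_le

/-- `vrec` as a linear map. -/
private noncomputable def vlin (𝒜 : Arr R n) (a : Fin n → ℕ) (N : ℕ) :
    (Ix a → R) →ₗ[R] (Fin n → R[X]) where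
  toFun c := fun i => 𝒜.vrec (cp a c) N i
  map_add' c c' := by
    ext1 i
    have h1 : cp a (c + c') = fun i => cp a c i + cp a c' i := by
      ext1 i
      exact cp_add a c c' i
    rw [h1, Arr.vrec_add]
    rfl
  map_smul' r c := by
    ext1 i
    have h1 : cp a (r • c) = fun i => C r * cp a c i := by
      ext1 i
      exact cp_smul a r c i
    rw [h1, Arr.vrec_smul, RingHom.id_apply, Pi.smul_apply, smul_eq_C_mul]

/-- The matrix of the linear system `vrec (cp a c) N = 0`. -/
noncomputable def linM (𝒜 : Arr R n) (a : Fin n → ℕ) (N L : ℕ) :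
    Matrix (Fin n × Fin L) (Ix a) R :=
  Matrix.of fun r m => (𝒜.vrec (cp a (fun m' => if m = m' then 1 else 0)) N r.1).coeff r.2

theorem exists_linM (𝒜 : Arr R n) (a : Fin n → ℕ) (N : ℕ) :
    ∃ L : ℕ, ∀ {S : Type*} [CommRing S] (ψ : R →+* S) (c : Ix a → S),
      (∀ i, (𝒜.map ψ).vrec (cp a c) N i = 0) ↔ ((linM 𝒜 a N L).map ψ).mulVec c = 0 := by
  classical
  refine ⟨∑ m : Ix a, ∑ i : Fin n,
    ((𝒜.vrec (cp a (fun m' => if m = m' then 1 else 0)) N i).natDegree + 1), ?_⟩
  intro S _ ψ c
  set L := ∑ m : Ix a, ∑ i : Fin n,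
    ((𝒜.vrec (cp a (fun m' => if m = m' then 1 else 0)) N i).natDegree + 1) with hL
  have hlt : ∀ (m : Ix a) (i : Fin n),
      (𝒜.vrec (cp a (fun m' => if m = m' then 1 else 0)) N i).natDegree < L := by
    intro m i
    have h1 : (𝒜.vrec (cp a (fun m' => if m = m' then 1 else 0)) N i).natDegree + 1 ≤
        ∑ i : Fin n, ((𝒜.vrec (cp a (fun m' => if m = m' then 1 else 0)) N i).natDegree + 1) :=
      Finset.single_le_sum
        (f := fun i => (𝒜.vrec (cp a (fun m' => if m = m' then 1 else 0)) N i).natDegree + 1)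
        (fun _ _ => Nat.zero_le _) (Finset.mem_univ i)
    have h2 : ∑ i : Fin n,
        ((𝒜.vrec (cp a (fun m' => if m = m' then 1 else 0)) N i).natDegree + 1) ≤ L :=
      Finset.single_le_sum
        (f := fun m : Ix a => ∑ i : Fin n,
          ((𝒜.vrec (cp a (fun m' => if m = m' then 1 else 0)) N i).natDegree + 1))
        (fun _ _ => Nat.zero_le _) (Finset.mem_univ m)
    omega
  -- the coefficients of `vrec (cp a c) N i`
  have hmap : ∀ (m : Ix a) (i : Fin n),
      (𝒜.map ψ).vrec (cp a (fun m' => if m = m' then 1 else 0)) N i =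
        (𝒜.vrec (cp a (fun m' => if m = m' then 1 else 0)) N i).map ψ := by
    intro m i
    have h1 : (cp a (fun m' => if m = m' then 1 else 0) : Fin n → S[X]) =
        fun i => (cp a (fun m' => if m = m' then 1 else 0) i : R[X]).map ψ := by
      rw [cp_map]
      congr 1
      ext m'
      split_ifs <;> simp
    rw [h1, Arr.vrec_map]
  have hcoeff : ∀ (i : Fin n) (l : ℕ), ((𝒜.map ψ).vrec (cp a c) N i).coeff l =
      ∑ m : Ix a, c m * ψ ((𝒜.vrec (cp a (fun m' => if m = m' then 1 else 0)) N i).coeff l) := by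
    intro i l
    have h1 := LinearMap.pi_apply_eq_sum_univ (vlin (𝒜.map ψ) a N) c
    have h2 := congrFun h1 i
    change (𝒜.map ψ).vrec (cp a c) N i = _ at h2
    rw [h2, Finset.sum_apply, finsetSum_coeff]
    apply Finset.sum_congr rfl
    intro m _
    rw [Pi.smul_apply, coeff_smul, smul_eq_mul]
    congr 1
    change ((𝒜.map ψ).vrec (cp a (fun m' => if m = m' then 1 else 0)) N i).coeff l = _
    rw [hmap, coeff_map]
  constructor
  · intro h
    ext r
    rw [Pi.zero_apply, Matrix.mulVec, dotProduct]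
    have h1 := hcoeff r.1 r.2
    rw [h r.1, coeff_zero] at h1
    rw [h1]
    apply Finset.sum_congr rfl
    intro m _
    rw [Matrix.map_apply, linM, Matrix.of_apply, mul_comm]
  · intro h i
    ext l
    rw [coeff_zero, hcoeff]
    by_cases hl : l < L
    · have h1 := congrFun h (i, ⟨l, hl⟩)
      rw [Pi.zero_apply, Matrix.mulVec, dotProduct] at h1
      rw [← h1]
      apply Finset.sum_congr rfl
      intro m _
      rw [Matrix.map_apply, linM, Matrix.of_apply, mul_comm]
    · apply Finset.sum_eq_zero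
      intro m _
      rw [coeff_eq_zero_of_natDegree_lt ((hlt m i).trans_le (not_lt.1 hl)), map_zero, mul_zero]

end MPadcCov
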