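import Pool.Agent.Lib.MP_adc574_ag_Cov.SpecB

/-!
# JOB SpecD: the derivation `D` on the specialization, `Cov1`

`DK'`: `ext_frac` for the derivation `p ↦ cD δ' p` of `κ[X]` (prove that it is a `ℤ`-derivation:
coefficientwise, `Polynomial.coeff_mul`), so `DK' (pol p) = pol (cD δ' p)`. For `r : A[X]`:
`cD δ' (r.map ψ) = (cD δ r).map ψ` by `hδ`.
`D'`: with `β i j : A[X]` from `DerIn.β` (`choose`): `v i = ∑ j, (pol (β i j).map ψ / pol (X - C t)) • e' j`
and `exists_der`; the Leibniz rule in terms of the arrays, as in `leib`: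
`∑ c, β i c * s c j l + ∑ c, β j c * s i c l = (X - C t) * cD δ (s i j l) + ∑ c, s i j c * β c l` in `A[X]`
by injectivity from `L`.
`comm`: `z ↦ d' (D' z) - D' (d' z)` is a derivation of `E` (commutator of derivations) which kills
`RatFunc κ` (on polynomials `derivative (cD δ' p) = cD δ' (derivative p)`; a derivation of `RatFunc κ`
which kills `κ[X]` is zero), so it is zero by `Cov0.sep`.
`tr_D`: `tr_der`. `derD`: the degree as in SpecC. `derS`: with `γ i j` from `DerIn.γ`:
`(X - C t) * γ i j = h₀ * β i j + α i j` in `A[X]` (injectivity), map by `ψ`, divide by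
`X - C t`. `seven`: `Fits.ν`. `disc`: `Fits.disc` and `hh`. `splits`, `monic`, `ht`, `δt`, `δh`: map the
equations in `A`; the roots `ψ b` are pairwise different by `hs`.
-/

set_option autoImplicit false

namespace MPadcCov

open Polynomial

universe u

variable {k κ : Type u} [Field k] [Field κ] {A : Subalgebra ℤ k} {ψ : A →+* κ}
  {L : Type u} [CommRing L] [Algebra (RatFunc k) L] {n : ℕ}
  {e : Module.Basis (Fin n) (RatFunc k) L} {a : Fin n → ℕ} {𝒜 : Arr A n}
  {dK : Derivation ℤ (RatFunc k) (RatFunc k)} {d : Derivation ℤ L L} {y : L} {F : A[X][X]}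
  {E : Type u} [CommRing E] [Algebra (RatFunc κ) E]
  {e' : Module.Basis (Fin n) (RatFunc κ) E} {B : Subring L} {Φ : B →+* E}

private theorem SpecD_coeff {R : Type*} [CommRing R] (δ : Derivation ℤ R R) (p : R[X]) (m : ℕ) :
    (cD δ p).coeff m = δ (p.coeff m) := by
  unfold cD
  rw [Polynomial.sum_def, Polynomial.finsetSum_coeff]
  simp only [coeff_monomial]
  rw [Finset.sum_ite_eq']
  by_cases hm : m ∈ p.support
  · rw [if_pos hm]
  · rw [if_neg hm, Polynomial.notMem_support_iff.1 hm, map_zero]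

private theorem SpecD_map {R S : Type*} [CommRing R] [CommRing S] (f : R →+* S)
    (δ : Derivation ℤ R R) (δ' : Derivation ℤ S S) (hδ : ∀ x, δ' (f x) = f (δ x)) (p : R[X]) :
    cD δ' (p.map f) = (cD δ p).map f := by
  ext m
  rw [SpecD_coeff, coeff_map, coeff_map, SpecD_coeff, hδ]

private theorem SpecD_der {R : Type*} [CommRing R] (δ : Derivation ℤ R R) :
    ∃ Dp : Derivation ℤ R[X] R[X], ∀ p, Dp p = cD δ p := by
  have h0 : cD δ (0 : R[X]) = 0 := by
    ext m
    rw [SpecD_coeff, coeff_zero, map_zero]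
  have ha : ∀ p q : R[X], cD δ (p + q) = cD δ p + cD δ q := by
    intro p q
    ext m
    rw [SpecD_coeff, coeff_add, map_add, coeff_add, SpecD_coeff, SpecD_coeff]
  refine ⟨Derivation.mk' (AddMonoidHom.toIntLinearMap
    { toFun := cD δ, map_zero' := h0, map_add' := ha }) ?_, fun p => rfl⟩
  intro p q
  show cD δ (p * q) = p * cD δ q + q * cD δ p
  ext m
  rw [SpecD_coeff, coeff_mul, map_sum, coeff_add, mul_comm q, coeff_mul, coeff_mul,
    ← Finset.sum_add_distrib]
  refine Finset.sum_congr rfl fun x _ => ?_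
  rw [Derivation.leibniz, SpecD_coeff, SpecD_coeff, smul_eq_mul, smul_eq_mul,
    mul_comm (δ (p.coeff x.1))]

private theorem SpecD_deriv {R : Type*} [CommRing R] (δ : Derivation ℤ R R) (p : R[X]) :
    derivative (cD δ p) = cD δ (derivative p) := by
  ext m
  rw [coeff_derivative, SpecD_coeff, SpecD_coeff, coeff_derivative, Derivation.leibniz]
  have h1 : δ ((m : R) + 1) = 0 := by
    have h2 : ((m : R) + 1) = ((m + 1 : ℕ) : R) := by push_cast; rfl
    rw [h2, Derivation.map_natCast]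
  rw [h1, smul_zero, zero_add, smul_eq_mul, mul_comm]

/-- A derivation of the rational functions which kills the polynomials is zero. -/
private theorem SpecD_rat {κ : Type*} [Field κ] (D : RatFunc κ → RatFunc κ)
    (hmul : ∀ x z, D (x * z) = x * D z + z * D x)
    (hD : ∀ p : κ[X], D (pol p) = 0) (r : RatFunc κ) : D r = 0 := by
  obtain ⟨p, q, hq, rfl⟩ := IsFractionRing.div_surjective (A := κ[X]) r
  have hq0 : pol q ≠ 0 := by
    intro h0
    have h1 : q = 0 := (IsFractionRing.injective κ[X] (RatFunc κ)) (by rw [map_zero]; exact h0)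
    exact nonZeroDivisors.ne_zero hq h1
  have h1 : (pol p / pol q) * pol q = pol p := div_mul_cancel₀ _ hq0
  have h2 : D ((pol p / pol q) * pol q) = 0 := by rw [h1]; exact hD p
  rw [hmul, hD q, mul_zero, zero_add] at h2
  rcases mul_eq_zero.1 h2 with h3 | h3
  · exact absurd h3 hq0
  · exact h3

/-- Change of the `ℤ`-algebra structure. -/
private theorem SpecD_conv {R : Type*} [CommRing R] (i1 i2 : Algebra ℤ R)
    (D : @Derivation ℤ R R _ _ _ i1 _ _) :
    ∃ D' : @Derivation ℤ R R _ _ _ i2 _ _, ∀ x, D' x = D x := by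
  obtain rfl : i1 = i2 := Subsingleton.elim _ _
  exact ⟨D, fun x => rfl⟩

private theorem SpecD_pm {κ : Type*} [Field κ] (p q : κ[X]) : pol (p * q) = pol p * pol q :=
  map_mul _ _ _

private theorem SpecD_pa {κ : Type*} [Field κ] (p q : κ[X]) : pol (p + q) = pol p + pol q :=
  map_add _ _ _

private theorem SpecD_ps {κ : Type*} [Field κ] {ι : Type*} (s : Finset ι) (f : ι → κ[X]) :
    pol (∑ c ∈ s, f c) = ∑ c ∈ s, pol (f c) :=
  map_sum _ _ _

/-- Coordinates of a product. -/
private theorem SpecD_repr_mul {K : Type*} [Field K] {E : Type*} [CommRing E] [Algebra K E]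
    {n : ℕ} (e : Module.Basis (Fin n) K E) (z : E) (j l : Fin n) :
    e.repr (z * e j) l = ∑ c, e.repr z c * e.repr (e c * e j) l := by
  conv_lhs => rw [← e.sum_repr z]
  rw [Finset.sum_mul, map_sum, Finsupp.finsetSum_apply]
  refine Finset.sum_congr rfl fun c _ => ?_
  rw [smul_mul_assoc, map_smul, Finsupp.smul_apply, smul_eq_mul]

/-- Coordinates of the value of a derivation. -/
private theorem SpecD_repr_der {K : Type*} [Field K] {E : Type*} [CommRing E] [Algebra K E]
    {n : ℕ} (e : Module.Basis (Fin n) K E) (DK : K → K) (D : Derivation ℤ E E)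
    (hD : ∀ r, D (algebraMap K E r) = algebraMap K E (DK r)) (z : E) (l : Fin n) :
    e.repr (D z) l = DK (e.repr z l) + ∑ c, e.repr z c * e.repr (D (e c)) l := by
  conv_lhs => rw [← e.sum_repr z]
  rw [map_sum, map_sum, Finsupp.finsetSum_apply]
  have h1 : ∀ c, e.repr (D (e.repr z c • e c)) l =
      e.repr z c * e.repr (D (e c)) l + DK (e.repr z c) * e.repr (e c) l := by
    intro c
    rw [Algebra.smul_def, Derivation.leibniz, hD, smul_eq_mul, smul_eq_mul, mul_comm (e c),
      ← Algebra.smul_def, ← Algebra.smul_def, map_add, Finsupp.add_apply, map_smul, map_smul,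
      Finsupp.smul_apply, Finsupp.smul_apply, smul_eq_mul, smul_eq_mul]
  rw [Finset.sum_congr rfl fun c _ => h1 c, Finset.sum_add_distrib, add_comm]
  congr 1
  rw [Finset.sum_eq_single l]
  · rw [e.repr_self, Finsupp.single_eq_same, mul_one]
  · intro c _ hc
    rw [e.repr_self, Finsupp.single_eq_of_ne (Ne.symm hc), mul_zero]
  · intro hl
    exact absurd (Finset.mem_univ l) hl

private theorem SpecD_xc {κ : Type*} [Field κ] (t : κ) : pol (X - C t) ≠ 0 := by
  intro h0
  exact X_sub_C_ne_zero t ((IsFractionRing.injective κ[X] (RatFunc κ)) (by rw [map_zero]; exact h0))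

private theorem SpecD_dle {A κ k : Type*} [CommRing A] [Field κ] [Field k] (φ : A →+* k)
    (hφ : Function.Injective φ) (ψ : A →+* κ) (t : A) (b : A[X]) (m : ℤ) (x : RatFunc k)
    (x' : RatFunc κ)
    (h : pol (b.map φ) = pol (X - C (φ t)) * x) (h' : pol (b.map ψ) = pol (X - C (ψ t)) * x')
    (hx : Dle x m) : Dle x' m := by
  have e' : x' = pol (b.map ψ) / pol (X - C (ψ t)) := by
    rw [h', mul_div_cancel_left₀ _ (SpecD_xc _)]
  by_cases hb' : b.map ψ = 0
  · left
    rw [e', hb', pol, map_zero, zero_div]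
  have hb : b.map φ ≠ 0 := by
    intro h0
    apply hb'
    have h1 : b = 0 := by
      apply Polynomial.map_injective φ hφ
      rw [h0, Polynomial.map_zero]
    rw [h1, Polynomial.map_zero]
  have e1 : x = pol (b.map φ) / pol (X - C (φ t)) := by
    rw [h, mul_div_cancel_left₀ _ (SpecD_xc _)]
  have hpb : pol (b.map φ) ≠ 0 := by
    intro h0
    exact hb ((IsFractionRing.injective k[X] (RatFunc k)) (by rw [map_zero]; exact h0))
  have hpb' : pol (b.map ψ) ≠ 0 := by
    intro h0
    exact hb' ((IsFractionRing.injective κ[X] (RatFunc κ)) (by rw [map_zero]; exact h0))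
  have hx0 : x ≠ 0 := by
    rw [e1]
    exact div_ne_zero hpb (SpecD_xc _)
  rcases hx with hx | hx
  · exact absurd hx hx0
  right
  rw [e', RatFunc.intDegree_div hpb' (SpecD_xc _), RatFunc.intDegree_polynomial,
    RatFunc.intDegree_polynomial, natDegree_X_sub_C]
  rw [e1, RatFunc.intDegree_div hpb (SpecD_xc _), RatFunc.intDegree_polynomial,
    RatFunc.intDegree_polynomial, natDegree_X_sub_C, natDegree_map_eq_of_injective hφ] at hx
  have h1 : (b.map ψ).natDegree ≤ b.natDegree := natDegree_map_le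
  have h2 : ((b.map ψ).natDegree : ℤ) ≤ b.natDegree := by exact_mod_cast h1
  linarith

theorem BC.cov1 (h : BC A ψ e e' B Φ) (H : CovIn A e a 𝒜 dK d y F)
    {δ : Derivation ℤ A A} {DK : Derivation ℤ (RatFunc k) (RatFunc k)} {D : Derivation ℤ L L}
    (HD : DerIn A e a 𝒜 d δ DK D)
    {y' : E} {dK' : Derivation ℤ (RatFunc κ) (RatFunc κ)} {d' : Derivation ℤ E E}
    (hC : Cov0 e' a (𝒜.map ψ).ρ dK' d') (hF : Fits (𝒜.map ψ) e' d' y')
    (ht : ψ (𝒜.h₀.eval 𝒜.t) ≠ 0) (hh : ψ (𝒜.h.eval 𝒜.t) ≠ 0)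
    (hs : ∃ s : Finset A, 𝒜.h₀ = ∏ b ∈ s, (X - C b) ∧ Set.InjOn ψ s)
    (δ' : Derivation ℤ κ κ) (hδ : ∀ x, δ' (ψ x) = ψ (δ x)) :
    ∃ (DK' : Derivation ℤ (RatFunc κ) (RatFunc κ)) (D' : Derivation ℤ E E),
      Cov1 e' a (𝒜.map ψ).t (𝒜.map ψ).h₀ δ' dK' DK' d' D' := by
  classical
  have hinj : Function.Injective (algebraMap A k) := FaithfulSMul.algebraMap_injective A k
  have hfinj := fp_injective (algebraMap A k) hinj
  choose β hβ using HD.β
  choose γ hγ using HD.γ
  obtain ⟨Dp, hDp⟩ := SpecD_der δ'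
  obtain ⟨DK0, hDK0'⟩ := ext_frac (K := RatFunc κ) Dp
  have hDK0 : ∀ p : κ[X], DK0 (pol p) = pol (cD δ' p) := by
    intro p
    rw [← hDp]
    exact hDK0' p
  obtain ⟨DK', hcv⟩ : ∃ D1 : Derivation ℤ (RatFunc κ) (RatFunc κ), ∀ x, D1 x = DK0 x :=
    SpecD_conv _ _ DK0
  have hDK : ∀ p : κ[X], DK' (pol p) = pol (cD δ' p) := by
    intro p
    rw [hcv, hDK0]
  have hcD : ∀ p : A[X], cD δ' (p.map ψ) = (cD δ p).map ψ := SpecD_map ψ δ δ' hδ
  have hm0 : pol (X - C (ψ 𝒜.t)) ≠ 0 := SpecD_xc _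
  -- the Leibniz rule
  have hleib : ∀ i j l, ∑ c, β i c * 𝒜.s c j l + ∑ c, β j c * 𝒜.s i c l =
      (X - C 𝒜.t) * cD δ (𝒜.s i j l) + ∑ c, 𝒜.s i j c * β c l := by
    intro i j l
    apply hfinj
    have hXC : fp (algebraMap A k) (X - C 𝒜.t) = pol (X - C (𝒜.t : k)) := by
      rw [fp_apply, Polynomial.map_sub, map_X, map_C]
      rfl
    have e1 : e.repr (D (e i * e j)) l = DK (e.repr (e i * e j) l) +
        ∑ c, e.repr (e i * e j) c * e.repr (D (e c)) l :=
      SpecD_repr_der e DK D HD.D_alg (e i * e j) l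
    have e2 : e.repr (D (e i * e j)) l =
        ∑ c, e.repr (D (e i)) c * e.repr (e c * e j) l +
        ∑ c, e.repr (D (e j)) c * e.repr (e i * e c) l := by
      rw [Derivation.leibniz, smul_eq_mul, smul_eq_mul, map_add, Finsupp.add_apply, mul_comm (e i),
        mul_comm (e j), SpecD_repr_mul e (D (e j)) i l, SpecD_repr_mul e (D (e i)) j l, add_comm]
      congr 1
      refine Finset.sum_congr rfl fun c _ => ?_
      rw [mul_comm (e c)]
    have e3 : ∀ i j l, e.repr (e i * e j) l = fp (algebraMap A k) (𝒜.s i j l) :=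
      fun i j l => H.fits.s i j l
    have e4 : ∀ i c, fp (algebraMap A k) (β i c) =
        pol (X - C (𝒜.t : k)) * e.repr (D (e i)) c := fun i c => hβ i c
    have e5 : DK (fp (algebraMap A k) (𝒜.s i j l)) = fp (algebraMap A k) (cD δ (𝒜.s i j l)) :=
      HD.DK_pol _
    rw [e1] at e2
    have e6 := congrArg (fun z => pol (X - C (𝒜.t : k)) * z) e2
    simp only [e3, e5] at e6
    simp only [map_add, map_mul, map_sum, hXC, e4]
    rw [mul_add, mul_add, Finset.mul_sum, Finset.mul_sum, Finset.mul_sum] at e6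
    rw [show ∑ c, pol (X - C (𝒜.t : k)) * e.repr (D (e i)) c * fp (algebraMap A k) (𝒜.s c j l) =
        ∑ c, pol (X - C (𝒜.t : k)) * (e.repr (D (e i)) c * fp (algebraMap A k) (𝒜.s c j l)) from
        Finset.sum_congr rfl fun c _ => mul_assoc _ _ _,
      show ∑ c, pol (X - C (𝒜.t : k)) * e.repr (D (e j)) c * fp (algebraMap A k) (𝒜.s i c l) =
        ∑ c, pol (X - C (𝒜.t : k)) * (e.repr (D (e j)) c * fp (algebraMap A k) (𝒜.s i c l)) from
        Finset.sum_congr rfl fun c _ => mul_assoc _ _ _, ← e6]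
    congr 1
    refine Finset.sum_congr rfl fun c _ => ?_
    ring
  -- the derivation
  obtain ⟨v, hvr⟩ : ∃ v : Fin n → E, ∀ i j, e'.repr (v i) j =
      pol ((β i j).map ψ) / pol (X - C (ψ 𝒜.t)) := by
    refine ⟨fun i => ∑ j, (pol ((β i j).map ψ) / pol (X - C (ψ 𝒜.t))) • e' j, ?_⟩
    intro i j
    exact congrFun (e'.repr_sum_self fun j => pol ((β i j).map ψ) / pol (X - C (ψ 𝒜.t))) j
  have hs' : ∀ i j l, e'.repr (e' i * e' j) l = pol ((𝒜.s i j l).map ψ) :=
    fun i j l => hF.s i j l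
  obtain ⟨D', hDalg0, hDe⟩ := exists_der e' DK0 v (by
    intro i j
    apply e'.repr.injective
    ext l
    rw [map_add, Finsupp.add_apply, mul_comm (e' i), SpecD_repr_mul e' (v i) j l,
      SpecD_repr_mul e' (v j) i l, map_sum, Finsupp.finsetSum_apply]
    have h1 : ∀ c, e'.repr (algebraMap (RatFunc κ) E (DK0 (e'.repr (e' i * e' j) c)) * e' c +
        algebraMap (RatFunc κ) E (e'.repr (e' i * e' j) c) * v c) l =
        DK0 (e'.repr (e' i * e' j) c) * e'.repr (e' c) l +
        pol ((𝒜.s i j c).map ψ) * (pol ((β c l).map ψ) / pol (X - C (ψ 𝒜.t))) := by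
      intro c
      rw [← Algebra.smul_def, ← Algebra.smul_def, map_add, Finsupp.add_apply, map_smul, map_smul,
        Finsupp.smul_apply, Finsupp.smul_apply, smul_eq_mul, smul_eq_mul, hvr, hs']
    rw [Finset.sum_congr rfl fun c _ => h1 c, Finset.sum_add_distrib]
    have h2 : ∑ c, DK0 (e'.repr (e' i * e' j) c) * e'.repr (e' c) l =
        pol ((cD δ (𝒜.s i j l)).map ψ) := by
      rw [Finset.sum_eq_single l]
      · rw [e'.repr_self, Finsupp.single_eq_same, mul_one, hs', hDK0, hcD]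
      · intro c _ hc
        rw [e'.repr_self, Finsupp.single_eq_of_ne (Ne.symm hc), mul_zero]
      · intro hl
        exact absurd (Finset.mem_univ l) hl
    rw [h2]
    have h3 : ∑ c, e'.repr (v j) c * e'.repr (e' c * e' i) l =
        ∑ c, e'.repr (v j) c * e'.repr (e' i * e' c) l :=
      Finset.sum_congr rfl fun c _ => by rw [mul_comm (e' c)]
    rw [h3]
    simp only [hvr, hs']
    apply mul_left_cancel₀ hm0
    rw [mul_add, mul_add, Finset.mul_sum, Finset.mul_sum, Finset.mul_sum]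
    have h4 : ∀ x z : RatFunc κ, pol (X - C (ψ 𝒜.t)) * (x / pol (X - C (ψ 𝒜.t)) * z) = x * z := by
      intro x z
      field_simp
    have h5 : ∀ x z : RatFunc κ, pol (X - C (ψ 𝒜.t)) * (z * (x / pol (X - C (ψ 𝒜.t)))) = z * x := by
      intro x z
      field_simp
    simp only [h4, h5]
    have h6 := congrArg (fun q : A[X] => pol (q.map ψ)) (hleib i j l)
    simp only [Polynomial.map_add, Polynomial.map_sum, Polynomial.map_mul, Polynomial.map_sub,
      map_X, map_C, SpecD_pa, SpecD_ps, SpecD_pm] at h6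
    exact h6)
  have hDalg : ∀ r, D' (algebraMap (RatFunc κ) E r) = algebraMap (RatFunc κ) E (DK' r) := by
    intro r
    rw [hDalg0, hcv]
  have hDr : ∀ i j, pol ((β i j).map ψ) = pol (X - C (ψ 𝒜.t)) * e'.repr (D' (e' i)) j := by
    intro i j
    rw [hDe, hvr, mul_div_cancel₀ _ hm0]
  have hρ : pol (𝒜.map ψ).ρ = pol (X - C (ψ 𝒜.t)) * pol (𝒜.h₀.map ψ) := SpecD_pm _ _
  obtain ⟨s, hs1, hs2⟩ := hs
  have hmon : 𝒜.h₀.Monic := by
    rw [hs1]
    exact monic_prod_of_monic _ _ fun b _ => monic_X_sub_C b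
  have hcomK : ∀ r, dK' (DK' r) - DK' (dK' r) = 0 := by
    apply SpecD_rat fun r => dK' (DK' r) - DK' (dK' r)
    · intro x z
      simp only [Derivation.leibniz, map_add, smul_eq_mul]
      ring
    · intro p
      show dK' (DK' (pol p)) - DK' (dK' (pol p)) = 0
      rw [hDK, hC.dK_pol, hC.dK_pol, hDK, SpecD_deriv, sub_self]
  refine ⟨DK', D', ?_⟩
  refine
    { toCov0 := hC
      DK_pol := hDK
      D_alg := hDalg
      tr_D := fun z => (tr_der e' DK0 D' hDalg0 z).trans (hcv _).symm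
      comm := ?_
      δt := ?_
      δh := ?_
      monic := hmon.map ψ
      splits := ?_
      ht := ?_
      derD := ?_
      derS := ?_
      seven := fun i j => ⟨_, (hF.ν i j).symm⟩
      disc := ⟨(𝒜.map ψ).h, hF.disc, ?_⟩ }
  · -- comm
    have hk : ∀ r : RatFunc κ, (⁅d', D'⁆ : Derivation ℤ E E) (algebraMap (RatFunc κ) E r) = 0 := by
      intro r
      rw [Derivation.commutator_apply, hDalg, hC.d_alg, hC.d_alg, hDalg, ← map_sub, hcomK,
        map_zero]
    let Δ : Derivation (RatFunc κ) E E :=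
      Derivation.mk' { toFun := (⁅d', D'⁆ : Derivation ℤ E E)
                       map_add' := map_add _
                       map_smul' := by
                         intro r z
                         rw [Algebra.smul_def, Derivation.leibniz, hk, smul_zero, add_zero,
                           RingHom.id_apply, smul_eq_mul, Algebra.smul_def] }
        (fun x z => Derivation.leibniz _ x z)
    intro z
    have h0 : Δ z = 0 := by
      rw [hC.sep Δ]
      rfl
    have h1 : (⁅d', D'⁆ : Derivation ℤ E E) z = 0 := h0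
    rw [Derivation.commutator_apply] at h1
    exact sub_eq_zero.1 h1
  · show δ' (ψ 𝒜.t) = 1
    rw [hδ, HD.δt, map_one]
  · show cD δ' (𝒜.h₀.map ψ) = 0
    rw [hcD, HD.δh, Polynomial.map_zero]
  · refine ⟨s.image ψ, ?_⟩
    show 𝒜.h₀.map ψ = _
    rw [Finset.prod_image hs2, hs1, Polynomial.map_prod]
    refine Finset.prod_congr rfl fun b _ => ?_
    rw [Polynomial.map_sub, map_X, map_C]
  · show (𝒜.h₀.map ψ).eval (ψ 𝒜.t) ≠ 0
    rw [eval_map, eval₂_at_apply]
    exact ht
  · intro i j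
    refine ⟨⟨(β i j).map ψ, hDr i j⟩, ?_⟩
    exact SpecD_dle (algebraMap A k) hinj ψ 𝒜.t (β i j) _ _ _ (hβ i j) (hDr i j) (HD.βdeg i j)
  · intro i j
    refine ⟨(γ i j).map ψ, ?_⟩
    have hg : (X - C 𝒜.t) * γ i j = 𝒜.h₀ * β i j + 𝒜.α i j := by
      apply hfinj
      have hα : fp (algebraMap A k) (𝒜.α i j) =
          pol ((X - C (𝒜.t : k)) * 𝒜.h₀.map (algebraMap A k)) * e.repr (d (e i)) j :=
        (H.fits.α i j).symm
      have hXC : fp (algebraMap A k) (X - C 𝒜.t) = pol (X - C (𝒜.t : k)) := by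
        rw [fp_apply, Polynomial.map_sub, map_X, map_C]
        rfl
      have e1 : fp (algebraMap A k) (γ i j) = pol (𝒜.h₀.map (algebraMap A k)) *
          (e.repr (D (e i)) j + e.repr (d (e i)) j) := hγ i j
      have e2 : fp (algebraMap A k) (β i j) =
          pol (X - C (𝒜.t : k)) * e.repr (D (e i)) j := hβ i j
      rw [map_mul, map_add, map_mul, hXC, e1, e2, hα, fp_apply, SpecD_pm]
      ring
    have hg' := congrArg (fun q : A[X] => pol (q.map ψ)) hg
    simp only [Polynomial.map_add, Polynomial.map_mul, Polynomial.map_sub, map_X, map_C, SpecD_pa,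
      SpecD_pm] at hg'
    apply mul_left_cancel₀ hm0
    have hα' : pol (𝒜.map ψ).ρ * e'.repr (d' (e' i)) j = pol ((𝒜.α i j).map ψ) := hF.α i j
    rw [hρ] at hα'
    show pol (X - C (ψ 𝒜.t)) * pol ((γ i j).map ψ) = pol (X - C (ψ 𝒜.t)) *
      (pol (𝒜.h₀.map ψ) * (e'.repr (D' (e' i)) j + e'.repr (d' (e' i)) j))
    have h1 := hDr i j
    rw [show pol (X - C (ψ 𝒜.t)) * pol ((γ i j).map ψ) = pol (𝒜.h₀.map ψ) * pol ((β i j).map ψ) +
      pol ((𝒜.α i j).map ψ) from hg', h1, ← hα']
    ring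
  · show (𝒜.h.map ψ).eval (ψ 𝒜.t) ≠ 0
    rw [eval_map, eval₂_at_apply]
    exact hh

end MPadcCov
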