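import Pool.Agent.Lib.MP_adc574_ag_Cov.SpecC
import Pool.Agent.Lib.MP_adc574_ag_Cov.SpecD

/-!
# JOB Spec: specialization, combination

`b = (𝒜.h₀.eval 𝒜.t) * (𝒜.h.eval 𝒜.t) * (∏ of the differences of the roots) * (a nonzero coefficient of
𝒜.dsc 𝒜.y)`; `A` is a domain (subring of `k`). `𝒜.h.map ψ ≠ 0` since its value at `ψ t` is not zero.
-/

set_option autoImplicit false

namespace MPadcCov

open Polynomial

universe u

variable {k : Type u} [Field k] {A : Subalgebra ℤ k}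
  {L : Type u} [CommRing L] [Algebra (RatFunc k) L] {n : ℕ}
  {e : Module.Basis (Fin n) (RatFunc k) L} {a : Fin n → ℕ} {𝒜 : Arr A n}
  {dK : Derivation ℤ (RatFunc k) (RatFunc k)} {d : Derivation ℤ L L} {y : L} {F : A[X][X]}

theorem spec (H : CovIn A e a 𝒜 dK d y F) {δ : Derivation ℤ A A}
    {DK : Derivation ℤ (RatFunc k) (RatFunc k)} {D : Derivation ℤ L L}
    (HD : DerIn A e a 𝒜 d δ DK D) :
    ∃ b : A, b ≠ 0 ∧ ∀ {κ : Type u} [Field κ] (ψ : A →+* κ), ψ b ≠ 0 →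
      ∃ (E : Type u) (_ : CommRing E) (_ : Algebra (RatFunc κ) E)
        (e' : Module.Basis (Fin n) (RatFunc κ) E) (y' : E)
        (dK' : Derivation ℤ (RatFunc κ) (RatFunc κ)) (d' : Derivation ℤ E E),
        Cov0 e' a (𝒜.map ψ).ρ dK' d' ∧ Fits (𝒜.map ψ) e' d' y' ∧ (F.map (fp ψ)).Separable ∧
        Nonempty (AdjoinRoot (F.map (fp ψ)) ≃ₐ[RatFunc κ] E) ∧
        ∀ δ' : Derivation ℤ κ κ, (∀ x, δ' (ψ x) = ψ (δ x)) →
          ∃ (DK' : Derivation ℤ (RatFunc κ) (RatFunc κ)) (D' : Derivation ℤ E E),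
            Cov1 e' a (𝒜.map ψ).t (𝒜.map ψ).h₀ δ' dK' DK' d' D' := by
  classical
  obtain ⟨s, hs⟩ := H.split
  obtain ⟨m, hm⟩ : ∃ m, (𝒜.dsc 𝒜.y).coeff m ≠ 0 := by
    by_contra hc
    push Not at hc
    exact H.dscy (Polynomial.ext fun m => by rw [hc m, coeff_zero])
  set c : A := ∏ q ∈ s.offDiag, (q.1 - q.2) with hc
  have hc0 : c ≠ 0 := by
    rw [hc, Finset.prod_ne_zero_iff]
    intro q hq
    rw [Finset.mem_offDiag] at hq
    exact sub_ne_zero.mpr hq.2.2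
  refine ⟨(𝒜.h₀.eval 𝒜.t) * (𝒜.h.eval 𝒜.t) * c * (𝒜.dsc 𝒜.y).coeff m,
    mul_ne_zero (mul_ne_zero (mul_ne_zero H.ht H.hh) hc0) hm, ?_⟩
  intro κ _ ψ hψ
  rw [map_mul, map_mul, map_mul] at hψ
  have g1 : ψ (𝒜.h₀.eval 𝒜.t) ≠ 0 := fun h => hψ (by rw [h, zero_mul, zero_mul, zero_mul])
  have g2 : ψ (𝒜.h.eval 𝒜.t) ≠ 0 := fun h => hψ (by rw [h, mul_zero, zero_mul, zero_mul])
  have g3 : ψ c ≠ 0 := fun h => hψ (by rw [h, mul_zero, zero_mul])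
  have g4 : ψ ((𝒜.dsc 𝒜.y).coeff m) ≠ 0 := fun h => hψ (by rw [h, mul_zero])
  have hy : (𝒜.dsc 𝒜.y).map ψ ≠ 0 := by
    intro h
    apply g4
    rw [← coeff_map, h, coeff_zero]
  have hdisc : 𝒜.h.map ψ ≠ 0 := by
    intro h
    apply g2
    rw [← eval_map_apply, h, eval_zero]
  have hinj : Set.InjOn ψ s := by
    intro x hx z hz hxz
    by_contra hne
    apply g3
    rw [hc, map_prod]
    refine Finset.prod_eq_zero (i := (x, z)) (Finset.mem_offDiag.mpr ⟨hx, hz, hne⟩) ?_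
    rw [map_sub, hxz, sub_self]
  obtain ⟨E, iE, iA, e', B, Φ, hBC⟩ := exists_BC H.fits ψ
  obtain ⟨y', dK', d', h1, h2, h3, h4⟩ := hBC.cov0 H hy hdisc
  refine ⟨E, iE, iA, e', y', dK', d', h1, h2, h3, h4, fun δ' hδ => ?_⟩
  exact hBC.cov1 H HD h1 h2 g1 g2 ⟨s, hs, hinj⟩ δ' hδ

end MPadcCov
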