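import Pool.Agent.Lib.MP_adc574_ag_Cov.SpecDef

/-!
# JOB SpecA: existence of the specialization, traces

* `exists_BC`: `base_change` with `f = fp (algebraMap A k)` (injective), `g = fp ψ` and the structure
  constants `𝒜.s`, `𝒜.u` (`Fits.s`, `Fits.u`, `Arr.map`).
* `BC.mul`: `e i ∈ B` with coordinates `0, 1`, so `Φ (e i) = e' i` (`Module.Basis.ext_elem`), `Φ` is
  multiplicative.
* `BC.tr`: `Tr z = ∑ k, e.repr (z * e k) k` (`tr_eq`), and `z * e k ∈ B`; if `r k : A[X]` has
  `pol (r k) = e.repr (z * e k) k` then `Tr z = pol (∑ r k)`, so `r = ∑ r k` by injectivity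
  (`fp_injective`), and the same over `κ`.
* `BC.disc`, `BC.y`: from `BC.tr`, `BC.mul` (determinants: `RingHom.map_det`).
-/

set_option autoImplicit false

namespace MPadcCov

open Polynomial

universe u

variable {k κ : Type u} [Field k] [Field κ] {A : Subalgebra ℤ k} {ψ : A →+* κ}
  {L : Type u} [CommRing L] [Algebra (RatFunc k) L] {n : ℕ}
  {e : Module.Basis (Fin n) (RatFunc k) L} {a : Fin n → ℕ} {𝒜 : Arr A n}
  {dK : Derivation ℤ (RatFunc k) (RatFunc k)} {d : Derivation ℤ L L} {y : L} {F : A[X][X]}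

private theorem SpecA_tr {K : Type*} [Field K] {E : Type*} [CommRing E] [Algebra K E] {n : ℕ}
    (e : Module.Basis (Fin n) K E) (s : Fin n → Fin n → Fin n → K)
    (hs : ∀ i j l, e.repr (e i * e j) l = s i j l) (Z : E) (m : ℕ) :
    Algebra.trace K E (Z ^ m) =
      ((Matrix.of fun j l : Fin n => ∑ i, e.repr Z i * s i j l) ^ m).trace := by
  have h1 : Algebra.leftMulMatrix e Z =
      (Matrix.of fun j l : Fin n => ∑ i, e.repr Z i * s i j l).transpose := by
    ext l j
    rw [Algebra.leftMulMatrix_eq_repr_mul, Matrix.transpose_apply, Matrix.of_apply]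
    have h2 : Z * e j = ∑ i, e.repr Z i • (e i * e j) := by
      conv_lhs => rw [← e.sum_repr Z]
      rw [Finset.sum_mul]
      exact Finset.sum_congr rfl fun i _ => smul_mul_assoc _ _ _
    rw [h2, map_sum, Finsupp.finsetSum_apply]
    refine Finset.sum_congr rfl fun i _ => ?_
    rw [map_smul, Finsupp.smul_apply, smul_eq_mul, hs]
  rw [Algebra.trace_eq_matrix_trace e, map_pow, h1, ← Matrix.transpose_pow,
    Matrix.trace_transpose]

private theorem SpecA_fp_arr {R : Type*} [CommRing R] {κ : Type*} [Field κ] (ψ : R →+* κ)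
    (t : R) (h : R[X]) : pol ((X - C (ψ t)) * h.map ψ) = fp ψ ((X - C t) * h) := by
  rw [fp_apply, Polynomial.map_mul, Polynomial.map_sub, Polynomial.map_X, Polynomial.map_C]

private theorem SpecA_inj {k : Type u} [Field k] (A : Subalgebra ℤ k) :
    Function.Injective (fp (algebraMap A k)) :=
  fp_injective _ (FaithfulSMul.algebraMap_injective A k)

theorem exists_BC (H : Fits (𝒜.map (algebraMap A k)) e d y) (ψ : A →+* κ) :
    ∃ (E : Type u) (_ : CommRing E) (_ : Algebra (RatFunc κ) E)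
      (e' : Module.Basis (Fin n) (RatFunc κ) E) (B : Subring L) (Φ : B →+* E),
      BC A ψ e e' B Φ := by
  obtain ⟨E, iE, iA, e', B, Φ, h1, h2⟩ := base_change (fp (algebraMap A k)) (SpecA_inj A)
    (fp ψ) e 𝒜.s 𝒜.u (fun i j l => H.s i j l) (fun l => H.u l)
  exact ⟨E, iE, iA, e', B, Φ, ⟨fun z => h1 z, fun z i r hr => h2 z i r hr⟩⟩

variable {E : Type u} [CommRing E] [Algebra (RatFunc κ) E]
  {e' : Module.Basis (Fin n) (RatFunc κ) E} {B : Subring L} {Φ : B →+* E}

theorem BC.mem_basis (h : BC A ψ e e' B Φ) (i : Fin n) : e i ∈ B := by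
  rw [h.mem]
  intro j
  refine ⟨if i = j then 1 else 0, ?_⟩
  rw [e.repr_self, Finsupp.single_apply]
  by_cases hij : i = j
  · rw [if_pos hij, if_pos hij, Polynomial.map_one]
    exact map_one _
  · rw [if_neg hij, if_neg hij, Polynomial.map_zero]
    exact map_zero _

theorem BC.basis (h : BC A ψ e e' B Φ) (i : Fin n) : Φ ⟨e i, h.mem_basis i⟩ = e' i := by
  apply e'.ext_elem
  intro j
  rw [h.rep ⟨e i, h.mem_basis i⟩ j (if i = j then 1 else 0)]
  · rw [e'.repr_self, Finsupp.single_apply]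
    by_cases hij : i = j
    · rw [if_pos hij, if_pos hij, Polynomial.map_one]
      exact map_one _
    · rw [if_neg hij, if_neg hij, Polynomial.map_zero]
      exact map_zero _
  · rw [e.repr_self, Finsupp.single_apply]
    by_cases hij : i = j
    · rw [if_pos hij, if_pos hij, Polynomial.map_one]
      exact (map_one _).symm
    · rw [if_neg hij, if_neg hij, Polynomial.map_zero]
      exact (map_zero _).symm

theorem BC.mul (h : BC A ψ e e' B Φ) (H : Fits (𝒜.map (algebraMap A k)) e d y) (i j l : Fin n) :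
    e'.repr (e' i * e' j) l = pol ((𝒜.map ψ).s i j l) := by
  rw [← h.basis i, ← h.basis j, ← map_mul]
  exact h.rep _ l (𝒜.s i j l) (H.s i j l)

theorem BC.one (h : BC A ψ e e' B Φ) (H : Fits (𝒜.map (algebraMap A k)) e d y) (l : Fin n) :
    e'.repr 1 l = pol ((𝒜.map ψ).u l) := by
  rw [← map_one Φ]
  exact h.rep _ l (𝒜.u l) (H.u l)

/-- The trace of an element of `B` is a polynomial over `A`, and specializes. -/
theorem BC.tr (h : BC A ψ e e' B Φ) (z : B) : ∃ r : A[X],
    Tr k L z.1 = pol (r.map (algebraMap A k)) ∧ Tr κ E (Φ z) = pol (r.map ψ) := by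
  have h1 : ∀ j : Fin n, ∃ r : A[X], pol (r.map (algebraMap A k)) = e.repr (z.1 * e j) j :=
    fun j => (h.mem (z.1 * e j)).mp (mul_mem z.2 (h.mem_basis j)) j
  choose r hr using h1
  refine ⟨∑ j, r j, ?_, ?_⟩
  · change Algebra.trace (RatFunc k) L z.1 = fp (algebraMap A k) (∑ j, r j)
    rw [tr_eq e, map_sum]
    exact Finset.sum_congr rfl fun j _ => (hr j).symm
  · change Algebra.trace (RatFunc κ) E (Φ z) = fp ψ (∑ j, r j)
    rw [tr_eq e', map_sum]
    refine Finset.sum_congr rfl fun j _ => ?_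
    rw [← h.basis j, ← map_mul]
    exact h.rep _ j (r j) (hr j).symm

theorem BC.disc (h : BC A ψ e e' B Φ) (H : Fits (𝒜.map (algebraMap A k)) e d y) :
    (Matrix.of fun i j => Tr κ E (e' i * e' j)).det =
      pol ((X - C (𝒜.map ψ).t) * (𝒜.map ψ).h) := by
  have h1 : ∀ i j : Fin n, ∃ r : A[X],
      Tr k L (e i * e j) = pol (r.map (algebraMap A k)) ∧
      Tr κ E (e' i * e' j) = pol (r.map ψ) := by
    intro i j
    obtain ⟨r, hr1, hr2⟩ := h.tr (⟨e i, h.mem_basis i⟩ * ⟨e j, h.mem_basis j⟩)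
    refine ⟨r, hr1, ?_⟩
    rw [map_mul, h.basis, h.basis] at hr2
    exact hr2
  choose r hr1 hr2 using h1
  have e1 : (Matrix.of fun i j => Tr k L (e i * e j)) =
      (fp (algebraMap A k)).mapMatrix (Matrix.of r) := by
    ext i j
    exact hr1 i j
  have e2 : (Matrix.of fun i j => Tr κ E (e' i * e' j)) = (fp ψ).mapMatrix (Matrix.of r) := by
    ext i j
    exact hr2 i j
  have h3 := H.disc
  rw [e1, ← RingHom.map_det] at h3
  have h4 : (Matrix.of r).det = (X - C 𝒜.t) * 𝒜.h := by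
    apply SpecA_inj A
    rw [h3, ← SpecA_fp_arr]
    rfl
  rw [e2, ← RingHom.map_det, h4, ← SpecA_fp_arr]
  rfl

/-- The element `y'` of `E` corresponding to `y`. -/
theorem BC.exists_y (h : BC A ψ e e' B Φ) (H : CovIn A e a 𝒜 dK d y F) :
    ∃ y' : E, (∀ l, e'.repr y' l = pol ((𝒜.map ψ).y l)) ∧
      aeval y' (F.map (fp ψ)) = 0 ∧
      (Matrix.of fun i j : Fin n => Tr κ E (y' ^ (i.1 + j.1))).det =
        pol ((𝒜.dsc 𝒜.y).map ψ) := by
  have hyB : y ∈ B := (h.mem y).mpr fun l => ⟨𝒜.y l, (H.fits.y l).symm⟩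
  have hcB : ∀ r : A[X], algebraMap (RatFunc k) L (fp (algebraMap A k) r) ∈ B := by
    intro r
    rw [h.mem]
    intro l
    refine ⟨r * 𝒜.u l, ?_⟩
    rw [Algebra.algebraMap_eq_smul_one, map_smul, Finsupp.smul_apply, smul_eq_mul, H.fits.u l]
    exact map_mul (fp (algebraMap A k)) r (𝒜.u l)
  have hΦ : ∀ r : A[X], Φ ⟨algebraMap (RatFunc k) L (fp (algebraMap A k) r), hcB r⟩ =
      algebraMap (RatFunc κ) E (fp ψ r) := by
    intro r
    apply e'.ext_elem
    intro l
    rw [h.rep _ l (r * 𝒜.u l)]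
    · rw [Algebra.algebraMap_eq_smul_one, map_smul, Finsupp.smul_apply, smul_eq_mul,
        h.one H.fits l]
      exact map_mul (fp ψ) r (𝒜.u l)
    · change e.repr (algebraMap (RatFunc k) L (fp (algebraMap A k) r)) l = _
      rw [Algebra.algebraMap_eq_smul_one, map_smul, Finsupp.smul_apply, smul_eq_mul,
        H.fits.u l]
      exact (map_mul (fp (algebraMap A k)) r (𝒜.u l)).symm
  let cB : A[X] →+* B :=
    ((algebraMap (RatFunc k) L).comp (fp (algebraMap A k))).codRestrict B hcB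
  have hc1 : B.subtype.comp cB = (algebraMap (RatFunc k) L).comp (fp (algebraMap A k)) :=
    RingHom.ext fun _ => rfl
  have hc2 : Φ.comp cB = (algebraMap (RatFunc κ) E).comp (fp ψ) :=
    RingHom.ext fun r => hΦ r
  have hroot : F.eval₂ cB (⟨y, hyB⟩ : B) = 0 := by
    apply Subtype.val_injective
    have h1 := Polynomial.hom_eval₂ F cB B.subtype (⟨y, hyB⟩ : B)
    rw [hc1] at h1
    exact h1.trans H.root
  have hy' : ∀ l, e'.repr (Φ ⟨y, hyB⟩) l = pol ((𝒜.map ψ).y l) := fun l =>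
    h.rep _ l (𝒜.y l) (H.fits.y l)
  refine ⟨Φ ⟨y, hyB⟩, hy', ?_, ?_⟩
  · have h1 := Polynomial.hom_eval₂ F cB Φ (⟨y, hyB⟩ : B)
    rw [hroot, map_zero, hc2] at h1
    rw [Polynomial.aeval_def, Polynomial.eval₂_map]
    exact h1.symm
  · have e1 : (Matrix.of fun i j : Fin n => Tr κ E ((Φ ⟨y, hyB⟩) ^ (i.1 + j.1))) =
        (fp ψ).mapMatrix (Matrix.of fun i j : Fin n => (𝒜.mul 𝒜.y ^ (i.1 + j.1)).trace) := by
      ext i j
      rw [RingHom.mapMatrix_apply, Matrix.map_apply, Matrix.of_apply, Matrix.of_apply]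
      have h1 := SpecA_tr e' (fun i j l => pol ((𝒜.map ψ).s i j l))
        (fun i j l => h.mul H.fits i j l) (Φ ⟨y, hyB⟩) (i.1 + j.1)
      refine h1.trans ?_
      have h2 : (Matrix.of fun j l : Fin n => ∑ i, e'.repr (Φ ⟨y, hyB⟩) i *
          pol ((𝒜.map ψ).s i j l)) = (fp ψ).mapMatrix (𝒜.mul 𝒜.y) := by
        ext j l
        rw [RingHom.mapMatrix_apply, Matrix.map_apply, Matrix.of_apply]
        unfold Arr.mul
        rw [Matrix.of_apply, map_sum]
        refine Finset.sum_congr rfl fun i _ => ?_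
        rw [hy' i, map_mul]
        rfl
      rw [h2, ← map_pow]
      have h3 := AddMonoidHom.map_trace (fp ψ).toAddMonoidHom (𝒜.mul 𝒜.y ^ (i.1 + j.1))
      exact h3.symm
    rw [e1, ← RingHom.map_det]
    rfl

end MPadcCov
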