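import Pool.Agent.Lib.MP_adc574_ag_Cov.SpecA

/-!
# JOB SpecB: the derivation `d / dx` on the specialization

Let `m = (𝒜.map ψ).ρ`, monic (`𝒜.h₀` is a product of `X - C b`), so `pol m ≠ 0`.
`dK'`: `ext_frac` for `Polynomial.derivative` (as a `ℤ`-derivation of `κ[X]`).
`v i = ∑ j, (pol α i j / pol m) • e' j`. The hypothesis `h` of `exists_der` is an identity between
coordinates in `RatFunc κ`; multiplied by `pol m` both sides are images (under `fp ψ`) of elements of
`A[X]` for which the identity holds after the injective `fp (algebraMap A k)`: there it is the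
Leibniz rule for `d (e i * e j)` in `L` (`Fits.s`, `Fits.α`, `Cov0.d_alg`, `Cov0.dK_pol`,
`Module.Basis.sum_repr`). Write the two sides as explicit elements of `A[X]`:
`∑ a, α i a * s a j l + ∑ a, α j a * s i a l = ρ * derivative (s i j l) + ∑ k, s i j k * α k l` for
all `i j l` (`leib`), prove it in `A[X]` by injectivity, and map it by `ψ`.
-/

set_option autoImplicit false

namespace MPadcCov

open Polynomial

universe u

variable {k κ : Type u} [Field k] [Field κ] {A : Subalgebra ℤ k} {ψ : A →+* κ}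
  {L : Type u} [CommRing L] [Algebra (RatFunc k) L] {n : ℕ}
  {e : Module.Basis (Fin n) (RatFunc k) L} {a : Fin n → ℕ} {𝒜 : Arr A n}
  {dK : Derivation ℤ (RatFunc k) (RatFunc k)} {d : Derivation ℤ L L} {y : L} {F : A[X][X]}
  {E : Type u} [CommRing E] [Algebra (RatFunc κ) E]
  {e' : Module.Basis (Fin n) (RatFunc κ) E} {B : Subring L} {Φ : B →+* E}

private theorem specB_repr_mul {K : Type*} [Field K] {E : Type*} [CommRing E] [Algebra K E] {n : ℕ}
    (e : Module.Basis (Fin n) K E) (z w : E) (l : Fin n) :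
    e.repr (z * w) l = ∑ c, e.repr z c * e.repr (e c * w) l := by
  conv_lhs => rw [← e.sum_repr z, Finset.sum_mul]
  rw [map_sum, Finsupp.finsetSum_apply]
  refine Finset.sum_congr rfl fun c _ => ?_
  rw [smul_mul_assoc, map_smul, Finsupp.smul_apply, smul_eq_mul]

private theorem specB_repr_d {K : Type*} [Field K] {E : Type*} [CommRing E] [Algebra K E] {n : ℕ}
    (e : Module.Basis (Fin n) K E) (dK : K → K) (d : Derivation ℤ E E)
    (hd : ∀ r, d (algebraMap K E r) = algebraMap K E (dK r)) (z : E) (l : Fin n) :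
    e.repr (d z) l = dK (e.repr z l) + ∑ c, e.repr z c * e.repr (d (e c)) l := by
  have h1 : d z = ∑ c, (dK (e.repr z c) • e c + e.repr z c • d (e c)) := by
    conv_lhs => rw [← e.sum_repr z, map_sum]
    refine Finset.sum_congr rfl fun c _ => ?_
    rw [Algebra.smul_def, Derivation.leibniz, hd, smul_eq_mul, smul_eq_mul, Algebra.smul_def,
      Algebra.smul_def]
    ring
  rw [h1, map_sum, Finsupp.finsetSum_apply]
  simp only [map_add, map_smul, Finsupp.add_apply, Finsupp.smul_apply, smul_eq_mul,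
    Finset.sum_add_distrib, Module.Basis.repr_self]
  congr 1
  rw [Finset.sum_eq_single l]
  · rw [Finsupp.single_eq_same, mul_one]
  · intro b _ hb
    rw [Finsupp.single_apply, if_neg hb, mul_zero]
  · intro hl
    exact absurd (Finset.mem_univ l) hl

private theorem specB_change {K : Type*} [Field K] [inst : Algebra ℤ K]
    (dK : @Derivation ℤ K K _ _ _ (Ring.toIntAlgebra K) _ (AddCommGroup.toIntModule K)) :
    ∃ d₁ : @Derivation ℤ K K _ _ _ inst _ (AddCommGroup.toIntModule K), ∀ r, d₁ r = dK r := by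
  cases Subsingleton.elim inst (Ring.toIntAlgebra K)
  exact ⟨dK, fun _ => rfl⟩

/-- The Leibniz rule in terms of the arrays. -/
theorem leib (H : CovIn A e a 𝒜 dK d y F) (i j l : Fin n) :
    ∑ c, 𝒜.α i c * 𝒜.s c j l + ∑ c, 𝒜.α j c * 𝒜.s i c l =
      𝒜.ρ * derivative (𝒜.s i j l) + ∑ c, 𝒜.s i j c * 𝒜.α c l := by
  have hinj : Function.Injective (fp (algebraMap A k)) :=
    fp_injective _ Subtype.coe_injective
  apply hinj
  have hs : ∀ i j l, fp (algebraMap A k) (𝒜.s i j l) = e.repr (e i * e j) l :=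
    fun i j l => (H.fits.s i j l).symm
  have hα : ∀ i j, fp (algebraMap A k) (𝒜.α i j) =
      fp (algebraMap A k) 𝒜.ρ * e.repr (d (e i)) j := by
    intro i j
    rw [fp_apply, fp_apply, ← show (𝒜.map (algebraMap A k)).ρ = 𝒜.ρ.map (algebraMap A k) by
      simp [Arr.ρ, Arr.map, Polynomial.map_mul]]
    exact (H.fits.α i j).symm
  have hder : fp (algebraMap A k) (derivative (𝒜.s i j l)) = dK (e.repr (e i * e j) l) := by
    rw [fp_apply, ← Polynomial.derivative_map, ← H.cov.dK_pol, ← fp_apply, hs]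
  have h1 := specB_repr_d e dK d H.cov.d_alg (e i * e j) l
  rw [Derivation.leibniz, smul_eq_mul, smul_eq_mul, map_add, Finsupp.add_apply,
    mul_comm (e i) (d (e j)), mul_comm (e j) (d (e i)), specB_repr_mul e (d (e j)),
    specB_repr_mul e (d (e i))] at h1
  simp only [map_add, map_sum, map_mul, hs, hα, hder]
  have h2 : ∑ c, fp (algebraMap A k) 𝒜.ρ * e.repr (d (e i)) c * e.repr (e c * e j) l =
      fp (algebraMap A k) 𝒜.ρ * ∑ c, e.repr (d (e i)) c * e.repr (e c * e j) l := by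
    rw [Finset.mul_sum]
    exact Finset.sum_congr rfl fun c _ => by ring
  have h3 : ∑ c, fp (algebraMap A k) 𝒜.ρ * e.repr (d (e j)) c * e.repr (e i * e c) l =
      fp (algebraMap A k) 𝒜.ρ * ∑ c, e.repr (d (e j)) c * e.repr (e c * e i) l := by
    rw [Finset.mul_sum]
    exact Finset.sum_congr rfl fun c _ => by rw [mul_comm (e i) (e c)]; ring
  have h4 : ∑ c, e.repr (e i * e j) c * (fp (algebraMap A k) 𝒜.ρ * e.repr (d (e c)) l) =
      fp (algebraMap A k) 𝒜.ρ * ∑ c, e.repr (e i * e j) c * e.repr (d (e c)) l := by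
    rw [Finset.mul_sum]
    exact Finset.sum_congr rfl fun c _ => by ring
  rw [h2, h3, h4]
  linear_combination (fp (algebraMap A k) 𝒜.ρ) * h1

private theorem specB_monic (H : CovIn A e a 𝒜 dK d y F) : 𝒜.ρ.Monic := by
  obtain ⟨s, hs⟩ := H.split
  rw [Arr.ρ, hs]
  exact (monic_X_sub_C _).mul (monic_prod_of_monic _ _ fun b _ => monic_X_sub_C b)

theorem BC.exists_d (h : BC A ψ e e' B Φ) (H : CovIn A e a 𝒜 dK d y F) :
    ∃ (dK' : Derivation ℤ (RatFunc κ) (RatFunc κ)) (d' : Derivation ℤ E E),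
      (∀ p : κ[X], dK' (pol p) = pol (derivative p)) ∧
      (∀ r, d' (algebraMap (RatFunc κ) E r) = algebraMap (RatFunc κ) E (dK' r)) ∧
      ∀ i j, pol (𝒜.map ψ).ρ * e'.repr (d' (e' i)) j = pol ((𝒜.map ψ).α i j) := by
  obtain ⟨dK', hdK'⟩ := ext_frac (R := κ[X]) (K := RatFunc κ)
    ((Polynomial.derivative' : Derivation κ κ[X] κ[X]).restrictScalars ℤ)
  have hdK : ∀ p : κ[X], dK' (pol p) = pol (derivative p) := fun p => hdK' p
  have hρ : (𝒜.map ψ).ρ = 𝒜.ρ.map ψ := by
    simp [Arr.ρ, Arr.map, Polynomial.map_mul]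
  have hρ0 : (pol (𝒜.map ψ).ρ : RatFunc κ) ≠ 0 := by
    rw [hρ]
    intro h0
    exact ((specB_monic H).map ψ).ne_zero ((IsFractionRing.injective κ[X] (RatFunc κ))
      (by rw [map_zero]; exact h0))
  have hmul := h.mul H.fits
  obtain ⟨v, hv⟩ : ∃ v : Fin n → E,
      v = fun i => ∑ j, (pol ((𝒜.map ψ).α i j) / pol (𝒜.map ψ).ρ) • e' j := ⟨_, rfl⟩
  have hvr : ∀ i j, e'.repr (v i) j = pol ((𝒜.map ψ).α i j) / pol (𝒜.map ψ).ρ := by
    intro i j
    rw [hv]
    exact congrFun (congrArg (fun f => (f : Fin n → RatFunc κ))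
      (e'.repr_sum_self fun j => pol ((𝒜.map ψ).α i j) / pol (𝒜.map ψ).ρ)) j
  have hv2 : ∀ i j, pol (𝒜.map ψ).ρ * e'.repr (v i) j = pol ((𝒜.map ψ).α i j) := by
    intro i j
    rw [hvr, mul_div_cancel₀ _ hρ0]
  have key : ∀ i j, v i * e' j + e' i * v j =
      ∑ k, (algebraMap (RatFunc κ) E (dK' (e'.repr (e' i * e' j) k)) * e' k +
      algebraMap (RatFunc κ) E (e'.repr (e' i * e' j) k) * v k) := by
    intro i j
    apply e'.repr.injective
    ext l
    apply mul_left_cancel₀ hρ0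
    rw [map_add, Finsupp.add_apply, mul_comm (e' i) (v j), specB_repr_mul e' (v i),
      specB_repr_mul e' (v j), map_sum, Finsupp.finsetSum_apply]
    have hsm : ∀ (r : RatFunc κ) (z : E), algebraMap (RatFunc κ) E r * z = r • z :=
      fun r z => (Algebra.smul_def r z).symm
    simp only [hsm, map_add, map_smul, Finsupp.add_apply, Finsupp.smul_apply,
      smul_eq_mul, Finset.sum_add_distrib, Module.Basis.repr_self]
    have h0 : ∑ x, dK' (e'.repr (e' i * e' j) x) * (Finsupp.single x (1 : RatFunc κ)) l =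
        pol (derivative ((𝒜.map ψ).s i j l)) := by
      rw [Finset.sum_eq_single l]
      · rw [Finsupp.single_eq_same, mul_one, hmul, hdK]
      · intro b _ hb
        rw [Finsupp.single_apply, if_neg hb, mul_zero]
      · intro hl
        exact absurd (Finset.mem_univ l) hl
    rw [h0, mul_add, mul_add, Finset.mul_sum, Finset.mul_sum, Finset.mul_sum]
    have h1 : ∑ c, pol (𝒜.map ψ).ρ * (e'.repr (v i) c * e'.repr (e' c * e' j) l) =
        ∑ c, fp ψ (𝒜.α i c) * fp ψ (𝒜.s c j l) := by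
      refine Finset.sum_congr rfl fun c _ => ?_
      rw [← mul_assoc, hv2, hmul]
      rfl
    have h2 : ∑ c, pol (𝒜.map ψ).ρ * (e'.repr (v j) c * e'.repr (e' c * e' i) l) =
        ∑ c, fp ψ (𝒜.α j c) * fp ψ (𝒜.s i c l) := by
      refine Finset.sum_congr rfl fun c _ => ?_
      rw [← mul_assoc, hv2, mul_comm (e' c) (e' i), hmul]
      rfl
    have h3 : ∑ c, pol (𝒜.map ψ).ρ * (e'.repr (e' i * e' j) c * e'.repr (v c) l) =
        ∑ c, fp ψ (𝒜.s i j c) * fp ψ (𝒜.α c l) := by
      refine Finset.sum_congr rfl fun c _ => ?_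
      rw [mul_left_comm, hv2, hmul]
      rfl
    have h4 : pol (𝒜.map ψ).ρ * pol (derivative ((𝒜.map ψ).s i j l)) =
        fp ψ 𝒜.ρ * fp ψ (derivative (𝒜.s i j l)) := by
      rw [hρ, fp_apply, fp_apply, ← Polynomial.derivative_map]
      rfl
    rw [h1, h2, h3, h4]
    have hl := congrArg (fp ψ) (leib H i j l)
    simp only [map_add, map_sum, map_mul] at hl
    exact hl
  obtain ⟨d', hd1, hd2⟩ := exists_der e' dK' v key
  obtain ⟨dK₁, hdK₁⟩ := specB_change (K := RatFunc κ) dK'
  refine ⟨dK₁, d', fun p => by rw [hdK₁, hdK], fun r => by rw [hdK₁, hd1], fun i j => ?_⟩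
  rw [hd2, hv2]

end MPadcCov
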