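import Pool.Agent.Lib.MP_adc574_ag_Cov.SpecB

/-!
# JOB SpecC: `Cov0` and `Fits` for the specialization

Everything is read off from the arrays.
* degrees: if `Dle (pol p) m` for `p = q.map (algebraMap A k)` (injective, so `p` and `q` have the same
  degree) then `Dle (pol (q.map ψ)) m` (`natDegree_map_le`); for `e.repr (d (e i)) j = pol α / pol ρ`
  the degree is `natDegree α - natDegree ρ`, and `ρ` is monic, so has the same degree after `ψ`.
* `tr_d`: `tr_der`. `sep`: `gen_der` with `G = F.map (fp ψ)`, `y'`, `BC.exists_y`, `hy`.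
* `Fits.τ`: the element `w' i = ∑ j, (pol τ i j / pol ρ) • e' j`: `Tr (w' i * e' j) = δ i j` because
  `∑ l, τ i l * T l j = ρ * δ i j` holds in `A[X]` (`T l j` the polynomial with
  `Tr (e l * e j) = pol T l j`, `BC.tr`), by injectivity from `L`.
* `nondeg`: the matrix `Tr (e' i * e' j)` has determinant `≠ 0` (`BC.disc`, `hdisc`).
* `dual`: for `z` with polynomial dual coordinates `c i`: `z = ∑ pol (c i) • w' i`.
* `dualDeg`: over `k`, `w i` (from `Fits.τ`) satisfies the hypothesis of `Cov0.dualDeg` with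
  `m = - a i`, so `e.repr (w i) j = pol τ i j / pol ρ` has degree `≤ 1 - a i - a j`; the same over `κ`;
  then `z = ∑ Tr (z * e' i) • w' i`.
* `ν`: `Fits.ν` says `pol h₀ * Tr (d (e i) * e j) = pol ν i j`; multiply by `X - C t`:
  `∑ c, α i c * T c j = (X - C t) * ν i j` in `A[X]`; map by `ψ` and divide.
* `gen_equiv`, `gen_separable` for the last two.
-/

set_option autoImplicit false

namespace MPadcCov

open Polynomial

section aux

variable {R : Type*} [CommRing R] {k₁ κ₁ : Type*} [Field k₁] [Field κ₁]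

private theorem SpecC_inj {p q : κ₁[X]} (h : pol p = pol q) : p = q :=
  RatFunc.algebraMap_injective κ₁ h

private theorem SpecC_ne {p : κ₁[X]} (h : p ≠ 0) : pol p ≠ 0 := by
  intro h1
  exact h (SpecC_inj (h1.trans (map_zero _).symm))

private theorem SpecC_map (ι : R →+* k₁) (hι : Function.Injective ι) (ψ : R →+* κ₁) {q : R[X]}
    {m : ℤ} (h : Dle (pol (q.map ι)) m) : Dle (pol (q.map ψ)) m := by
  rcases h with h | h
  · left
    have h1 : q.map ι = 0 := SpecC_inj (h.trans (map_zero _).symm)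
    have h2 : q = 0 := (Polynomial.map_injective ι hι) (h1.trans (Polynomial.map_zero ι).symm)
    rw [h2, Polynomial.map_zero]
    exact map_zero _
  · right
    rw [RatFunc.intDegree_polynomial] at h ⊢
    rw [natDegree_map_eq_of_injective hι] at h
    have h3 : (q.map ψ).natDegree ≤ q.natDegree := natDegree_map_le
    exact le_trans (by exact_mod_cast h3) h

private theorem SpecC_div (ι : R →+* k₁) (hι : Function.Injective ι) (ψ : R →+* κ₁) {ρ q : R[X]}
    (hρ : ρ.Monic) {x : RatFunc k₁} {x' : RatFunc κ₁} {m : ℤ}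
    (h1 : pol (ρ.map ι) * x = pol (q.map ι)) (h2 : pol (ρ.map ψ) * x' = pol (q.map ψ))
    (h : Dle x m) : Dle x' m := by
  have hd : Dle (pol (q.map ι)) ((ρ.natDegree : ℤ) + m) := by
    rw [← h1]
    by_cases hx : x = 0
    · left
      rw [hx, mul_zero]
    · right
      have h3 : x.intDegree ≤ m := by
        rcases h with h | h
        · exact absurd h hx
        · exact h
      rw [RatFunc.intDegree_mul (SpecC_ne (hρ.map ι).ne_zero) hx, RatFunc.intDegree_polynomial,
        hρ.natDegree_map ι]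
      linarith
  have hd' := SpecC_map ι hι ψ hd
  rw [← h2] at hd'
  by_cases hx : x' = 0
  · exact Or.inl hx
  · right
    rcases hd' with h3 | h3
    · exact absurd h3 (mul_ne_zero (SpecC_ne (hρ.map ψ).ne_zero) hx)
    · rw [RatFunc.intDegree_mul (SpecC_ne (hρ.map ψ).ne_zero) hx, RatFunc.intDegree_polynomial,
        hρ.natDegree_map ψ] at h3
      linarith

private theorem SpecC_mul {x z : RatFunc κ₁} {m l : ℤ} (h : Dle x m) (h' : Dle z l) :
    Dle (x * z) (m + l) := by
  by_cases hx : x = 0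
  · left
    rw [hx, zero_mul]
  by_cases hz : z = 0
  · left
    rw [hz, mul_zero]
  right
  rw [RatFunc.intDegree_mul hx hz]
  rcases h with h | h
  · exact absurd h hx
  · rcases h' with h' | h'
    · exact absurd h' hz
    · linarith

private theorem SpecC_add {x z : RatFunc κ₁} {m : ℤ} (h : Dle x m) (h' : Dle z m) :
    Dle (x + z) m := by
  by_cases hx : x = 0
  · rw [hx, zero_add]
    exact h'
  by_cases hz : z = 0
  · rw [hz, add_zero]
    exact h
  by_cases hs : x + z = 0
  · exact Or.inl hs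
  right
  rcases h with h | h
  · exact absurd h hx
  · rcases h' with h' | h'
    · exact absurd h' hz
    · exact (RatFunc.intDegree_add_le hz hs).trans (max_le h h')

private theorem SpecC_sum {ι' : Type*} (s : Finset ι') (f : ι' → RatFunc κ₁) {m : ℤ}
    (h : ∀ i ∈ s, Dle (f i) m) : Dle (∑ i ∈ s, f i) m := by
  classical
  induction s using Finset.induction_on with
  | empty => exact Or.inl Finset.sum_empty
  | insert i s hi ih =>
    rw [Finset.sum_insert hi]
    exact SpecC_add (h i (Finset.mem_insert_self i s))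
      (ih fun j hj => h j (Finset.mem_insert_of_mem hj))

private theorem SpecC_isPol_sum {ι' : Type*} (s : Finset ι') (f : ι' → RatFunc κ₁)
    (h : ∀ i ∈ s, IsPol (f i)) : IsPol (∑ i ∈ s, f i) := by
  classical
  induction s using Finset.induction_on with
  | empty => exact ⟨0, by rw [Finset.sum_empty]; exact map_zero _⟩
  | insert i s hi ih =>
    obtain ⟨p, hp⟩ := h i (Finset.mem_insert_self i s)
    obtain ⟨q, hq⟩ := ih fun j hj => h j (Finset.mem_insert_of_mem hj)
    refine ⟨p + q, ?_⟩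
    rw [Finset.sum_insert hi, ← hp, ← hq]
    exact map_add _ _ _

private theorem SpecC_tr {E₁ : Type*} [CommRing E₁] [Algebra (RatFunc κ₁) E₁] {n : ℕ}
    (e : Module.Basis (Fin n) (RatFunc κ₁) E₁) (z : E₁) (j : Fin n) :
    Tr κ₁ E₁ (z * e j) = ∑ l, e.repr z l * Tr κ₁ E₁ (e l * e j) := by
  conv_lhs => rw [← e.sum_repr z]
  rw [Finset.sum_mul, map_sum]
  refine Finset.sum_congr rfl fun l _ => ?_
  rw [smul_mul_assoc, map_smul, smul_eq_mul]

private theorem SpecC_sumpol {n : ℕ} (ι : R →+* κ₁) (f g : Fin n → R[X]) :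
    pol ((∑ l, f l * g l).map ι) = ∑ l, pol ((f l).map ι) * pol ((g l).map ι) := by
  rw [Polynomial.map_sum]
  refine (map_sum _ _ _).trans ?_
  refine Finset.sum_congr rfl fun l _ => ?_
  rw [Polynomial.map_mul]
  exact map_mul _ _ _

private theorem SpecC_trder {E₁ : Type*} [CommRing E₁] [Algebra (RatFunc κ₁) E₁] {n : ℕ}
    (e : Module.Basis (Fin n) (RatFunc κ₁) E₁) (dK : Derivation ℤ (RatFunc κ₁) (RatFunc κ₁))
    (d : Derivation ℤ E₁ E₁)
    (hd : ∀ r, d (algebraMap (RatFunc κ₁) E₁ r) = algebraMap (RatFunc κ₁) E₁ (dK r)) (z : E₁) :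
    Tr κ₁ E₁ (d z) = dK (Tr κ₁ E₁ z) := by
  let D : @Derivation ℤ (RatFunc κ₁) (RatFunc κ₁) _ _ _ (Ring.toIntAlgebra _) _ _ :=
    @Derivation.mk ℤ (RatFunc κ₁) (RatFunc κ₁) _ _ _ (Ring.toIntAlgebra _) _ _
      (dK.toLinearMap.toAddMonoidHom.toIntLinearMap) (dK.map_one_eq_zero)
      (fun x y => dK.leibniz x y)
  exact tr_der e D d hd z

end aux

universe u

variable {k κ : Type u} [Field k] [Field κ] {A : Subalgebra ℤ k} {ψ : A →+* κ}
  {L : Type u} [CommRing L] [Algebra (RatFunc k) L] {n : ℕ}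
  {e : Module.Basis (Fin n) (RatFunc k) L} {a : Fin n → ℕ} {𝒜 : Arr A n}
  {dK : Derivation ℤ (RatFunc k) (RatFunc k)} {d : Derivation ℤ L L} {y : L} {F : A[X][X]}
  {E : Type u} [CommRing E] [Algebra (RatFunc κ) E]
  {e' : Module.Basis (Fin n) (RatFunc κ) E} {B : Subring L} {Φ : B →+* E}

theorem BC.cov0 (h : BC A ψ e e' B Φ) (H : CovIn A e a 𝒜 dK d y F)
    (hy : (𝒜.dsc 𝒜.y).map ψ ≠ 0) (hdisc : 𝒜.h.map ψ ≠ 0) :
    ∃ (y' : E) (dK' : Derivation ℤ (RatFunc κ) (RatFunc κ)) (d' : Derivation ℤ E E),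
      Cov0 e' a (𝒜.map ψ).ρ dK' d' ∧ Fits (𝒜.map ψ) e' d' y' ∧ (F.map (fp ψ)).Separable ∧
      Nonempty (AdjoinRoot (F.map (fp ψ)) ≃ₐ[RatFunc κ] E) := by
  classical
  have hι : Function.Injective (algebraMap A k) := Subtype.val_injective
  obtain ⟨dK', d', hdK, hda, hα⟩ := h.exists_d H
  obtain ⟨y', hy1, hy2, hy3⟩ := h.exists_y H
  have hρ : 𝒜.ρ.Monic := by
    obtain ⟨s, hs⟩ := H.split
    unfold Arr.ρ
    rw [hs]
    exact (monic_X_sub_C _).mul (monic_prod_of_monic _ _ fun b _ => monic_X_sub_C b)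
  have hρψ : (𝒜.map ψ).ρ = 𝒜.ρ.map ψ := by
    unfold Arr.ρ
    rw [Polynomial.map_mul, Polynomial.map_sub, Polynomial.map_X, Polynomial.map_C]
    rfl
  have hρk : (𝒜.map (algebraMap A k)).ρ = 𝒜.ρ.map (algebraMap A k) := by
    unfold Arr.ρ
    rw [Polynomial.map_mul, Polynomial.map_sub, Polynomial.map_X, Polynomial.map_C]
    rfl
  have hρ0 : pol (𝒜.ρ.map ψ) ≠ 0 := SpecC_ne (hρ.map ψ).ne_zero
  -- traces
  have hT : ∀ l j, ∃ r : A[X], Tr k L (e l * e j) = pol (r.map (algebraMap A k)) ∧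
      Tr κ E (e' l * e' j) = pol (r.map ψ) := by
    intro l j
    obtain ⟨r, h1, h2⟩ := h.tr (⟨e l, h.mem_basis l⟩ * ⟨e j, h.mem_basis j⟩)
    refine ⟨r, h1, ?_⟩
    rw [map_mul, h.basis, h.basis] at h2
    exact h2
  choose T hTk hTκ using hT
  have hτ : ∀ i j, ∑ l, 𝒜.τ i l * T l j = if i = j then 𝒜.ρ else 0 := by
    intro i j
    obtain ⟨w, hw1, hw2⟩ := H.fits.τ i
    apply Polynomial.map_injective (algebraMap A k) hι
    apply SpecC_inj
    rw [SpecC_sumpol]
    have h1 := SpecC_tr e w j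
    have h2 : ∀ l, pol ((𝒜.τ i l).map (algebraMap A k)) * pol ((T l j).map (algebraMap A k)) =
        pol (𝒜.ρ.map (algebraMap A k)) * (e.repr w l * Tr k L (e l * e j)) := by
      intro l
      have h3 : pol (𝒜.ρ.map (algebraMap A k)) * e.repr w l =
          pol ((𝒜.τ i l).map (algebraMap A k)) := by
        rw [← hρk]
        exact hw2 l
      rw [← h3, ← hTk, mul_assoc]
    rw [Finset.sum_congr rfl fun l _ => h2 l, ← Finset.mul_sum, ← h1, hw1 j]
    split_ifs with hij
    · rw [mul_one]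
    · rw [mul_zero, Polynomial.map_zero]
      exact (map_zero _).symm
  have hν : ∀ i j, ∑ c, 𝒜.α i c * T c j = (X - C 𝒜.t) * 𝒜.ν i j := by
    intro i j
    apply Polynomial.map_injective (algebraMap A k) hι
    apply SpecC_inj
    rw [SpecC_sumpol]
    have h1 := SpecC_tr e (d (e i)) j
    have h2 : ∀ l, pol ((𝒜.α i l).map (algebraMap A k)) * pol ((T l j).map (algebraMap A k)) =
        pol (𝒜.map (algebraMap A k)).ρ * (e.repr (d (e i)) l * Tr k L (e l * e j)) := by
      intro l
      have h3 : pol (𝒜.map (algebraMap A k)).ρ * e.repr (d (e i)) l =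
          pol ((𝒜.α i l).map (algebraMap A k)) := H.fits.α i l
      rw [← h3, ← hTk, mul_assoc]
    rw [Finset.sum_congr rfl fun l _ => h2 l, ← Finset.mul_sum, ← h1]
    have h4 : pol (𝒜.map (algebraMap A k)).h₀ * Tr k L (d (e i) * e j) =
        pol ((𝒜.ν i j).map (algebraMap A k)) := H.fits.ν i j
    have h5 : pol (𝒜.map (algebraMap A k)).ρ =
        pol (X - C (algebraMap A k 𝒜.t)) * pol (𝒜.map (algebraMap A k)).h₀ := map_mul _ _ _
    rw [h5, mul_assoc, h4, Polynomial.map_mul, Polynomial.map_sub, Polynomial.map_X,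
      Polynomial.map_C]
    exact (map_mul _ _ _).symm
  -- the dual basis
  let W : Fin n → E := fun i => ∑ j, (pol ((𝒜.τ i j).map ψ) / pol (𝒜.ρ.map ψ)) • e' j
  have hW0 : ∀ i j, e'.repr (W i) j = pol ((𝒜.τ i j).map ψ) / pol (𝒜.ρ.map ψ) := by
    intro i j
    have h1 := e'.repr_sum_self fun j => pol ((𝒜.τ i j).map ψ) / pol (𝒜.ρ.map ψ)
    exact congrFun h1 j
  have hW2 : ∀ i j, pol (𝒜.ρ.map ψ) * e'.repr (W i) j = pol ((𝒜.τ i j).map ψ) := by
    intro i j
    rw [hW0, mul_div_cancel₀ _ hρ0]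
  have hW1 : ∀ i j, Tr κ E (W i * e' j) = if i = j then 1 else 0 := by
    intro i j
    apply mul_left_cancel₀ hρ0
    rw [SpecC_tr e' (W i) j, Finset.mul_sum]
    have h2 : ∀ l, pol (𝒜.ρ.map ψ) * (e'.repr (W i) l * Tr κ E (e' l * e' j)) =
        pol ((𝒜.τ i l).map ψ) * pol ((T l j).map ψ) := by
      intro l
      rw [← mul_assoc, hW2, hTκ]
    rw [Finset.sum_congr rfl fun l _ => h2 l, ← SpecC_sumpol, hτ]
    split_ifs with hij
    · rw [mul_one]
    · rw [mul_zero, Polynomial.map_zero]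
      exact map_zero _
  have hdet : (Matrix.of fun i j => Tr κ E (e' i * e' j)).det ≠ 0 := by
    rw [h.disc H.fits]
    apply SpecC_ne
    apply mul_ne_zero
    · exact X_sub_C_ne_zero _
    · exact hdisc
  have hnd : ∀ z : E, (∀ i, Tr κ E (z * e' i) = 0) → z = 0 := by
    intro z hz
    have h1 : Matrix.vecMul (fun l => e'.repr z l) (Matrix.of fun i j => Tr κ E (e' i * e' j)) =
        0 := by
      funext j
      have h2 := SpecC_tr e' z j
      rw [hz j] at h2
      exact h2.symm
    have h3 := Matrix.eq_zero_of_vecMul_eq_zero hdet h1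
    apply e'.ext_elem
    intro i
    rw [map_zero]
    exact congrFun h3 i
  have hexp : ∀ z : E, z = ∑ i, Tr κ E (z * e' i) • W i := by
    intro z
    rw [← sub_eq_zero]
    apply hnd
    intro j
    rw [sub_mul, map_sub, Finset.sum_mul, map_sum, sub_eq_zero]
    have h1 : ∀ i, Tr κ E (Tr κ E (z * e' i) • W i * e' j) =
        if i = j then Tr κ E (z * e' i) else 0 := by
      intro i
      rw [smul_mul_assoc, map_smul, hW1, smul_eq_mul]
      split_ifs
      · rw [mul_one]
      · rw [mul_zero]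
    rw [Finset.sum_congr rfl fun i _ => h1 i, Finset.sum_ite_eq']
    rw [if_pos (Finset.mem_univ j)]
  have hrep : ∀ (z : E) j, e'.repr z j = ∑ i, Tr κ E (z * e' i) * e'.repr (W i) j := by
    intro z j
    conv_lhs => rw [hexp z]
    rw [map_sum, Finsupp.finsetSum_apply]
    refine Finset.sum_congr rfl fun i _ => ?_
    rw [map_smul, Finsupp.smul_apply, smul_eq_mul]
  have hWd : ∀ i j, Dle (e'.repr (W i) j) (-(a i : ℤ) + 1 - a j) := by
    intro i j
    obtain ⟨w, hw1, hw2⟩ := H.fits.τ i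
    have h1 : Dle (e.repr w j) (-(a i : ℤ) + 1 - a j) := by
      apply H.cov.dualDeg w (-(a i : ℤ))
      intro j'
      rw [hw1 j']
      split_ifs with hij
      · right
        rw [RatFunc.intDegree_one, ← hij]
        linarith
      · exact Or.inl rfl
    have h2 : pol (𝒜.ρ.map (algebraMap A k)) * e.repr w j =
        pol ((𝒜.τ i j).map (algebraMap A k)) := by
      rw [← hρk]
      exact hw2 j
    exact SpecC_div (algebraMap A k) hι ψ hρ h2 (hW2 i j) h1
  -- generation
  have hGm : (F.map (fp ψ)).Monic := H.monic.map _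
  have hGn : (F.map (fp ψ)).natDegree = n := by
    rw [H.monic.natDegree_map, H.deg]
  have hGd : (Matrix.of fun i j : Fin n =>
      Algebra.trace (RatFunc κ) E (y' ^ (i.1 + j.1))).det ≠ 0 := by
    have h1 := hy3
    intro h2
    exact SpecC_ne hy (h1.symm.trans h2)
  refine ⟨y', dK', d', ?_, ?_, gen_separable e' _ hGm hGn y' hy2 hGd,
    gen_equiv e' _ hGm hGn y' hy2 hGd⟩
  · refine
      { dK_pol := hdK
        d_alg := hda
        tr_d := fun z => SpecC_trder e' dK' d' hda z
        one := ?_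
        mul := ?_
        der := ?_
        dual := ?_
        dualDeg := ?_
        nondeg := hnd
        sep := fun Δ => gen_der e' _ hGm hGn y' hy2 hGd Δ }
    · intro l
      have h1 := h.one H.fits l
      have h2 := H.fits.u l
      have h3 := (H.cov.one l).2
      rw [h2] at h3
      rw [h1]
      exact ⟨⟨_, rfl⟩, SpecC_map (algebraMap A k) hι ψ h3⟩
    · intro i j l
      have h1 := h.mul H.fits i j l
      have h2 := H.fits.s i j l
      have h3 := (H.cov.mul i j l).2
      rw [h2] at h3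
      rw [h1]
      exact ⟨⟨_, rfl⟩, SpecC_map (algebraMap A k) hι ψ h3⟩
    · intro i j
      refine ⟨⟨_, (hα i j).symm⟩, ?_⟩
      have h1 := H.fits.α i j
      have h2 := hα i j
      rw [hρk] at h1
      rw [hρψ] at h2
      exact SpecC_div (algebraMap A k) hι ψ hρ h1 h2 (H.cov.der i j).2
    · intro z hz j
      rw [hrep z j, Finset.mul_sum]
      apply SpecC_isPol_sum
      intro i _
      obtain ⟨p, hp⟩ := hz i
      refine ⟨p * (𝒜.τ i j).map ψ, ?_⟩
      have h1 : pol (p * (𝒜.τ i j).map ψ) = pol p * pol ((𝒜.τ i j).map ψ) := map_mul _ _ _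
      rw [h1, hp, ← hW2 i j, hρψ]
      ring
    · intro z m hz j
      rw [hrep z j]
      apply SpecC_sum
      intro i _
      have h1 := SpecC_mul (hz i) (hWd i j)
      have h2 : (a i : ℤ) + m + (-(a i : ℤ) + 1 - a j) = m + 1 - a j := by ring
      rw [h2] at h1
      exact h1
  · refine
      { s := h.mul H.fits
        u := h.one H.fits
        y := hy1
        α := hα
        τ := ?_
        ν := ?_
        disc := h.disc H.fits }
    · intro i
      refine ⟨W i, hW1 i, fun j => ?_⟩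
      rw [hρψ]
      exact hW2 i j
    · intro i j
      have ht0 : pol (X - C (ψ 𝒜.t)) ≠ 0 := SpecC_ne (X_sub_C_ne_zero _)
      apply mul_left_cancel₀ ht0
      have h5 : pol (𝒜.map ψ).ρ = pol (X - C (ψ 𝒜.t)) * pol (𝒜.map ψ).h₀ := map_mul _ _ _
      rw [← mul_assoc, ← h5, SpecC_tr e' (d' (e' i)) j, Finset.mul_sum]
      have h2 : ∀ l, pol (𝒜.map ψ).ρ * (e'.repr (d' (e' i)) l * Tr κ E (e' l * e' j)) =
          pol ((𝒜.α i l).map ψ) * pol ((T l j).map ψ) := by
        intro l
        rw [← mul_assoc, hα i l, hTκ]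
        rfl
      rw [Finset.sum_congr rfl fun l _ => h2 l, ← SpecC_sumpol, hν, Polynomial.map_mul,
        Polynomial.map_sub, Polynomial.map_X, Polynomial.map_C]
      exact map_mul _ _ _

end MPadcCov
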